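import Pool.Graph.R_pool_sql_team_seeded_64922ed1.X18.HadG2

/-!
Orthogonal cocycles (cocyclic Hadamard matrices) from families of sign matrices indexed by a group
whose translates are orthogonal.
-/

set_option autoImplicit false
set_option linter.unusedSectionVars false

namespace Pool.Agent.H182.Coc

open Finset Matrix Pool.Agent.H108R3.Had Pool.Agent.X18.HadG

/-- an orthogonal cocycle on the finite group `E`, with values `1` and `-1` -/
def OrthCocycle (E : Type) [Group E] [Fintype E] : Prop :=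
  ∃ ψ : E → E → ℤ, (∀ a b, ψ a b = 1 ∨ ψ a b = -1) ∧
    (∀ a b c, ψ a b * ψ (a * b) c = ψ b c * ψ a (b * c)) ∧
    ∀ a b, a ≠ b → ∑ c, ψ a c * ψ b c = 0

theorem OrthCocycle.congr {E F : Type} [Group E] [Fintype E] [Group F] [Fintype F] (e : E ≃* F)
    (h : OrthCocycle E) : OrthCocycle F := by
  obtain ⟨ψ, h1, h2, h3⟩ := h
  refine ⟨fun a b => ψ (e.symm a) (e.symm b), fun a b => h1 _ _, fun a b c => ?_, fun a b hab => ?_⟩
  · have := h2 (e.symm a) (e.symm b) (e.symm c)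
    simpa only [map_mul] using this
  · have h4 := h3 (e.symm a) (e.symm b) (fun h => hab (e.symm.injective h))
    rw [← h4, ← Equiv.sum_comp e.toEquiv]
    refine Finset.sum_congr rfl fun c _ => ?_
    simp

/-! ### The sign character -/

/-- `1` at `0`, `-1` at `1` -/
def sg (a : ZMod 2) : ℤ := if a = 0 then 1 else -1

theorem sg_add : ∀ a b : ZMod 2, sg (a + b) = sg a * sg b := by decide

theorem sg_pm (a : ZMod 2) : sg a = 1 ∨ sg a = -1 := by
  unfold sg; split_ifs <;> simp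

theorem sg_sq : ∀ a : ZMod 2, sg a * sg a = 1 := by decide

/-- the vectors of length `k` -/
abbrev V (k : ℕ) : Type := Fin k → ZMod 2

/-- the sign bicharacter -/
def ch {k : ℕ} (x y : V k) : ℤ := sg (x ⬝ᵥ y)

variable {k : ℕ}

theorem ch_add_left (x y z : V k) : ch (x + y) z = ch x z * ch y z := by
  unfold ch; rw [add_dotProduct, sg_add]

theorem ch_add_right (x y z : V k) : ch x (y + z) = ch x y * ch x z := by
  unfold ch; rw [dotProduct_add, sg_add]

theorem ch_comm (x y : V k) : ch x y = ch y x := by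
  unfold ch; rw [dotProduct_comm]

theorem ch_pm (x y : V k) : ch x y = 1 ∨ ch x y = -1 := sg_pm _

theorem ch_sq (x y : V k) : ch x y * ch x y = 1 := sg_sq _

theorem ch_zero_left (x : V k) : ch 0 x = 1 := by
  unfold ch; rw [zero_dotProduct]; rfl

theorem ch_zero_right (x : V k) : ch x 0 = 1 := by
  unfold ch; rw [dotProduct_zero]; rfl

theorem add_self (x : V k) : x + x = 0 := by
  funext i
  rw [Pi.add_apply, Pi.zero_apply]
  exact CharTwo.add_self_eq_zero (x i)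

theorem exists_neg {x : V k} (hx : x ≠ 0) : ∃ z : V k, ch x z = -1 := by
  obtain ⟨i, hi⟩ : ∃ i, x i ≠ 0 := by
    by_contra h
    push Not at h
    exact hx (funext h)
  have hi1 : x i = 1 := by
    have : ∀ a : ZMod 2, a ≠ 0 → a = 1 := by decide
    exact this _ hi
  refine ⟨Pi.single i (1 : ZMod 2), ?_⟩
  unfold ch
  rw [dotProduct_single, hi1, mul_one]
  decide

theorem sum_ch {x : V k} (hx : x ≠ 0) : ∑ y, ch x y = 0 := by
  obtain ⟨z, hz⟩ := exists_neg hx
  have h1 : ∑ y, ch x (z + y) = ∑ y, ch x y :=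
    Equiv.sum_comp (Equiv.addLeft z) (fun y => ch x y)
  have h3 : ∑ y, ch x (z + y) = - ∑ y, ch x y := by
    rw [← Finset.sum_neg_distrib]
    refine Finset.sum_congr rfl fun y _ => ?_
    rw [ch_add_right, hz, neg_one_mul]
  rw [h3] at h1
  linarith

theorem eq_of_add_eq_zero {x y : V k} (h : x + y = 0) : x = y := by
  have : x + y + y = y := by rw [h, zero_add]
  rwa [add_assoc, add_self, add_zero] at this

/-! ### The construction -/

/-- the elementary abelian part: `(a, b, u)` -/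
abbrev P (k s : ℕ) : Type := V k × V k × V s

variable {s : ℕ} {A G : Type} [Group A] [Fintype A] [DecidableEq A] [Group G] [Fintype G]
  [DecidableEq G]

/-- the bimultiplicative cocycle -/
def psi0 (g h : Multiplicative (P k s) × A × G) : ℤ :=
  ch (Multiplicative.toAdd g.1).2.1 (Multiplicative.toAdd h.1).1 *
    ch (Multiplicative.toAdd g.1).2.2 (Multiplicative.toAdd h.1).2.2

/-- the sign function -/
def phi (e : A → V k × V k) (w : V k → V k → G → ℤ) (g : Multiplicative (P k s) × A × G) : ℤ :=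
  ch (e g.2.1).1 (Multiplicative.toAdd g.1).1 * ch (e g.2.1).1 (e g.2.1).2 *
    ch (Multiplicative.toAdd g.1).2.1 (e g.2.1).2 * w (e g.2.1).1 (e g.2.1).2 g.2.2

theorem pm_mul {x y : ℤ} (hx : x = 1 ∨ x = -1) (hy : y = 1 ∨ y = -1) : x * y = 1 ∨ x * y = -1 := by
  rcases hx with rfl | rfl <;> rcases hy with rfl | rfl <;> simp

theorem pm_sq {x : ℤ} (hx : x = 1 ∨ x = -1) : x * x = 1 := by
  rcases hx with rfl | rfl <;> simp

theorem psi0_mul_left (a b c : Multiplicative (P k s) × A × G) :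
    psi0 (a * b) c = psi0 a c * psi0 b c := by
  simp only [psi0, Prod.fst_mul, toAdd_mul, Prod.fst_add, Prod.snd_add, ch_add_left]
  ring

theorem psi0_mul_right (a b c : Multiplicative (P k s) × A × G) :
    psi0 a (b * c) = psi0 a b * psi0 a c := by
  simp only [psi0, Prod.fst_mul, toAdd_mul, Prod.fst_add, Prod.snd_add, ch_add_right]
  ring

/-- separation of variables -/
theorem sum_sep {α β υ ζ κ : Type} [Fintype α] [Fintype β] [Fintype ζ] [Fintype υ]
    [Fintype κ] (A : ζ → α → ℤ) (B : ζ → β → ℤ) (U : υ → ℤ) (R : ζ → κ → ℤ) :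
    ∑ a, ∑ b, ∑ u, ∑ z, ∑ c, A z a * B z b * U u * R z c =
      (∑ u, U u) * ∑ z, (∑ a, A z a) * (∑ b, B z b) * ∑ c, R z c := by
  have h1 : ∀ a b, ∑ u, ∑ z, ∑ c, A z a * B z b * U u * R z c =
      (∑ u, U u) * ∑ z, A z a * B z b * ∑ c, R z c := by
    intro a b
    rw [Finset.sum_mul_sum]
    refine Finset.sum_congr rfl fun u _ => Finset.sum_congr rfl fun z _ => ?_
    rw [Finset.mul_sum, Finset.mul_sum]
    refine Finset.sum_congr rfl fun c _ => ?_
    ring
  simp only [h1]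
  simp only [← Finset.mul_sum]
  congr 1
  have h2 : ∀ a, ∑ b, ∑ z, A z a * B z b * ∑ c, R z c = ∑ z, A z a * (∑ b, B z b) * ∑ c, R z c := by
    intro a
    rw [Finset.sum_comm]
    refine Finset.sum_congr rfl fun z _ => ?_
    rw [← Finset.sum_mul, ← Finset.mul_sum]
  simp only [h2]
  rw [Finset.sum_comm]
  refine Finset.sum_congr rfl fun z _ => ?_
  rw [← Finset.sum_mul, ← Finset.sum_mul]

/-- The sum over the group `A`. -/
theorem coreA {w : V k → V k → G → ℤ} {N : ℤ}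
    (hw : ∀ (g₁ g₂ : G) (x₁ x₂ : V k), ∑ z, ∑ h, w x₁ z (g₁ * h) * w x₂ z (g₂ * h) =
      if x₁ = x₂ ∧ g₁ = g₂ then N else 0)
    (e : A ≃ V k × V k) (α β : V k → A) (he : ∀ x z, e.symm (x, z) = α x * β z)
    (a₁ a₂ b₁ b₂ : V k) (y₁ y₂ : A) (c₁ c₂ : G) (hg : ¬ (a₁ = a₂ ∧ b₁ = b₂ ∧ y₁ = y₂ ∧ c₁ = c₂)) :
    ∑ y, (∑ a, ch (b₁ + b₂ + (e (y₁ * y)).1 + (e (y₂ * y)).1) a) *
      (∑ b, ch ((e (y₁ * y)).2 + (e (y₂ * y)).2) b) *
        ∑ γ, ch (e (y₁ * y)).1 a₁ * ch (e (y₂ * y)).1 a₂ * ch (e (y₁ * y)).1 (e (y₁ * y)).2 *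
          ch (e (y₂ * y)).1 (e (y₂ * y)).2 * ch b₁ (e (y₁ * y)).2 * ch b₂ (e (y₂ * y)).2 *
          (w (e (y₁ * y)).1 (e (y₁ * y)).2 (c₁ * γ) * w (e (y₂ * y)).1 (e (y₂ * y)).2 (c₂ * γ)) = 0 := by
  -- substitution `y = y₁⁻¹ * (α x * β z)`
  rw [← Equiv.sum_comp (e.symm.trans (Equiv.mulLeft y₁⁻¹)), Fintype.sum_prod_type]
  have he1 : ∀ x z, e (α x * β z) = (x, z) := fun x z => by rw [← he, Equiv.apply_symm_apply]
  have he2 : ∀ x z, (e.symm.trans (Equiv.mulLeft y₁⁻¹)) (x, z) = y₁⁻¹ * (α x * β z) := fun x z => by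
    rw [Equiv.trans_apply, he, Equiv.coe_mulLeft]
  simp only [he2, mul_inv_cancel_left, he1]
  -- one `x`
  have key : ∀ x, ∑ z, (∑ a, ch (b₁ + b₂ + x + (e (y₂ * (y₁⁻¹ * (α x * β z)))).1) a) *
      (∑ b, ch (z + (e (y₂ * (y₁⁻¹ * (α x * β z)))).2) b) *
        ∑ γ, ch x a₁ * ch (e (y₂ * (y₁⁻¹ * (α x * β z)))).1 a₂ * ch x z *
          ch (e (y₂ * (y₁⁻¹ * (α x * β z)))).1 (e (y₂ * (y₁⁻¹ * (α x * β z)))).2 * ch b₁ z *
          ch b₂ (e (y₂ * (y₁⁻¹ * (α x * β z)))).2 *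
          (w x z (c₁ * γ) * w (e (y₂ * (y₁⁻¹ * (α x * β z)))).1 (e (y₂ * (y₁⁻¹ * (α x * β z)))).2
            (c₂ * γ)) =
      if b₁ = b₂ ∧ y₁ = y₂ ∧ c₁ = c₂ then (∑ a : V k, ch (0 : V k) a) * (∑ b : V k, ch (0 : V k) b) *
        (ch x (a₁ + a₂) * N) else 0 := by
    intro x
    by_cases hx : ∃ x', α x' = y₂ * y₁⁻¹ * α x
    · obtain ⟨x', hx'⟩ := hx
      have h1 : ∀ z, e (y₂ * (y₁⁻¹ * (α x * β z))) = (x', z) := by
        intro z
        rw [← he1 x' z, hx']
        simp only [mul_assoc]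
      simp only [h1, add_self]
      by_cases hb : b₁ + b₂ + x + x' = 0
      · have h2 : ∀ z γ, ch x a₁ * ch x' a₂ * ch x z * ch x' z * ch b₁ z * ch b₂ z *
            (w x z (c₁ * γ) * w x' z (c₂ * γ)) =
            ch x a₁ * ch x' a₂ * (w x z (c₁ * γ) * w x' z (c₂ * γ)) := by
          intro z γ
          have h3 : ch x z * ch x' z * ch b₁ z * ch b₂ z = 1 := by
            rw [← ch_add_left, ← ch_add_left, ← ch_add_left]
            have h4 : x + x' + b₁ + b₂ = 0 := by rw [← hb]; abel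
            rw [h4, ch_zero_left]
          linear_combination (ch x a₁ * ch x' a₂ * (w x z (c₁ * γ) * w x' z (c₂ * γ))) * h3
        simp only [h2, hb, ← Finset.mul_sum]
        rw [hw]
        by_cases hxx : x = x'
        · subst hxx
          have hyy : y₁ = y₂ := by
            have h5 : y₂ * y₁⁻¹ = 1 := by
              have h6 : y₂ * y₁⁻¹ * α x = 1 * α x := by rw [← hx', one_mul]
              exact mul_right_cancel h6
            exact (mul_inv_eq_one.1 h5).symm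
          have hbb : b₁ = b₂ := by
            apply eq_of_add_eq_zero
            rwa [add_assoc, add_self, add_zero] at hb
          by_cases hcc : c₁ = c₂
          · rw [if_pos ⟨rfl, hcc⟩, if_pos ⟨hbb, hyy, hcc⟩, ch_add_right]
          · rw [if_neg (fun h => hcc h.2), if_neg (fun h => hcc h.2.2), mul_zero, mul_zero]
        · rw [if_neg (fun h => hxx h.1), if_neg, mul_zero, mul_zero]
          rintro ⟨rfl, rfl, rfl⟩
          apply hxx
          rw [add_self, zero_add] at hb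
          exact eq_of_add_eq_zero hb
      · simp only [sum_ch hb, zero_mul, Finset.sum_const_zero]
        rw [if_neg]
        rintro ⟨rfl, rfl, rfl⟩
        apply hb
        rw [mul_inv_cancel, one_mul] at hx'
        have h7 : x' = x := by
          have h8 := he1 x' 0
          rw [hx', he1] at h8
          exact (congrArg Prod.fst h8).symm
        rw [h7, add_self, zero_add, add_self]
    · rw [if_neg]
      · refine Finset.sum_eq_zero fun z _ => ?_
        have h1 : z + (e (y₂ * (y₁⁻¹ * (α x * β z)))).2 ≠ 0 := by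
          intro h
          have h2 := eq_of_add_eq_zero h
          apply hx
          refine ⟨(e (y₂ * (y₁⁻¹ * (α x * β z)))).1, ?_⟩
          have h3 : α (e (y₂ * (y₁⁻¹ * (α x * β z)))).1 * β z = y₂ * y₁⁻¹ * α x * β z := by
            have h5 : ∀ q : A, (e q).2 = z → α (e q).1 * β z = q := by
              intro q hq
              rw [← hq, ← he, Prod.mk.eta, Equiv.symm_apply_apply]
            rw [h5 _ h2.symm]
            simp only [mul_assoc]
          exact mul_right_cancel h3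
        rw [sum_ch h1, mul_zero, zero_mul]
      · rintro ⟨-, rfl, -⟩
        exact hx ⟨x, by rw [mul_inv_cancel, one_mul]⟩
  simp only [key]
  by_cases h : b₁ = b₂ ∧ y₁ = y₂ ∧ c₁ = c₂
  · simp only [if_pos h, ← Finset.mul_sum, ← Finset.sum_mul]
    have ha : a₁ + a₂ ≠ 0 := by
      intro h'
      exact hg ⟨eq_of_add_eq_zero h', h⟩
    have h8 : ∑ x, ch x (a₁ + a₂) = 0 := by
      rw [← sum_ch ha]
      exact Finset.sum_congr rfl fun x _ => ch_comm _ _
    rw [h8]; ring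
  · simp only [if_neg h, Finset.sum_const_zero]

/-- The correlation sum. -/
theorem core {w : V k → V k → G → ℤ} {N : ℤ}
    (hw : ∀ (g₁ g₂ : G) (x₁ x₂ : V k), ∑ z, ∑ h, w x₁ z (g₁ * h) * w x₂ z (g₂ * h) =
      if x₁ = x₂ ∧ g₁ = g₂ then N else 0)
    (e : A ≃ V k × V k) (α β : V k → A) (he : ∀ x z, e.symm (x, z) = α x * β z)
    (g₁ g₂ : Multiplicative (P k s) × A × G) (hg : g₁ ≠ g₂) :
    ∑ h, psi0 g₁ h * psi0 g₂ h * (phi e w (g₁ * h) * phi e w (g₂ * h)) = 0 := by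
  obtain ⟨p₁, y₁, c₁⟩ := g₁
  obtain ⟨p₂, y₂, c₂⟩ := g₂
  obtain ⟨⟨a₁, b₁, u₁⟩, rfl⟩ : ∃ q : P k s, Multiplicative.ofAdd q = p₁ := ⟨_, rfl⟩
  obtain ⟨⟨a₂, b₂, u₂⟩, rfl⟩ : ∃ q : P k s, Multiplicative.ofAdd q = p₂ := ⟨_, rfl⟩
  -- the sum over the coordinates
  have h1 : ∑ h, psi0 (Multiplicative.ofAdd ((a₁, b₁, u₁) : P k s), y₁, c₁) h *
      psi0 (Multiplicative.ofAdd ((a₂, b₂, u₂) : P k s), y₂, c₂) h *
      (phi e w ((Multiplicative.ofAdd ((a₁, b₁, u₁) : P k s), y₁, c₁) * h) *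
        phi e w ((Multiplicative.ofAdd ((a₂, b₂, u₂) : P k s), y₂, c₂) * h)) =
      (∑ u, ch (u₁ + u₂) u) *
      ∑ y, (∑ a, ch (b₁ + b₂ + (e (y₁ * y)).1 + (e (y₂ * y)).1) a) *
      (∑ b, ch ((e (y₁ * y)).2 + (e (y₂ * y)).2) b) *
        ∑ γ, ch (e (y₁ * y)).1 a₁ * ch (e (y₂ * y)).1 a₂ * ch (e (y₁ * y)).1 (e (y₁ * y)).2 *
          ch (e (y₂ * y)).1 (e (y₂ * y)).2 * ch b₁ (e (y₁ * y)).2 * ch b₂ (e (y₂ * y)).2 *
          (w (e (y₁ * y)).1 (e (y₁ * y)).2 (c₁ * γ) *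
            w (e (y₂ * y)).1 (e (y₂ * y)).2 (c₂ * γ)) := by
    rw [Fintype.sum_prod_type, ← Equiv.sum_comp (Multiplicative.ofAdd (α := P k s))]
    rw [← sum_sep]
    simp only [Fintype.sum_prod_type]
    refine Finset.sum_congr rfl fun a _ => Finset.sum_congr rfl fun b _ =>
      Finset.sum_congr rfl fun u _ => Finset.sum_congr rfl fun y _ =>
      Finset.sum_congr rfl fun γ _ => ?_
    simp only [psi0, phi, Prod.mk_mul_mk, ← ofAdd_add, Prod.mk_add_mk, toAdd_ofAdd, ch_add_left,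
      ch_add_right]
    rw [ch_comm (e (y₁ * y)).2 b, ch_comm (e (y₂ * y)).2 b]
    ring
  rw [h1]
  by_cases hu : u₁ + u₂ = 0
  swap
  · rw [sum_ch hu, zero_mul]
  rw [coreA hw e α β he a₁ a₂ b₁ b₂ y₁ y₂ c₁ c₂, mul_zero]
  rintro ⟨rfl, rfl, rfl, rfl⟩
  apply hg
  rw [eq_of_add_eq_zero hu]

/-- The orthogonal cocycle. -/
theorem orthCocycle_of {N : ℤ} {w : V k → V k → G → ℤ} (hpm : ∀ x z g, w x z g = 1 ∨ w x z g = -1)
    (hw : ∀ (g₁ g₂ : G) (x₁ x₂ : V k), ∑ z, ∑ h, w x₁ z (g₁ * h) * w x₂ z (g₂ * h) =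
      if x₁ = x₂ ∧ g₁ = g₂ then N else 0)
    (e : A ≃ V k × V k) (α β : V k → A) (he : ∀ x z, e.symm (x, z) = α x * β z) (s : ℕ) :
    OrthCocycle (Multiplicative (P k s) × A × G) := by
  have hφ : ∀ g : Multiplicative (P k s) × A × G, phi e w g = 1 ∨ phi e w g = -1 := fun g =>
    pm_mul (pm_mul (pm_mul (ch_pm _ _) (ch_pm _ _)) (ch_pm _ _)) (hpm _ _ _)
  have hψ : ∀ g h : Multiplicative (P k s) × A × G, psi0 g h = 1 ∨ psi0 g h = -1 := fun g h =>
    pm_mul (ch_pm _ _) (ch_pm _ _)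
  refine ⟨fun g h => psi0 g h * phi e w g * phi e w h * phi e w (g * h), fun g h =>
    pm_mul (pm_mul (pm_mul (hψ _ _) (hφ _)) (hφ _)) (hφ _), fun a b c => ?_, fun g₁ g₂ hg => ?_⟩
  · simp only [psi0_mul_left, psi0_mul_right, mul_assoc a b c]
    have h1 := pm_sq (hφ (a * b))
    have h2 := pm_sq (hφ (b * c))
    linear_combination (psi0 a b * psi0 a c * psi0 b c * phi e w a * phi e w b * phi e w c *
      phi e w (a * (b * c))) * (h1 - h2)
  · have h1 := core hw e α β he g₁ g₂ hg (s := s)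
    have h2 : ∑ h, psi0 g₁ h * phi e w g₁ * phi e w h * phi e w (g₁ * h) *
        (psi0 g₂ h * phi e w g₂ * phi e w h * phi e w (g₂ * h)) =
        phi e w g₁ * phi e w g₂ *
          ∑ h, psi0 g₁ h * psi0 g₂ h * (phi e w (g₁ * h) * phi e w (g₂ * h)) := by
      rw [Finset.mul_sum]
      refine Finset.sum_congr rfl fun h _ => ?_
      have h3 := pm_sq (hφ h)
      linear_combination (psi0 g₁ h * phi e w g₁ * phi e w (g₁ * h) *
        (psi0 g₂ h * phi e w g₂ * phi e w (g₂ * h))) * h3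
    rw [h2, h1, mul_zero]

theorem finrank_P (k s : ℕ) : Module.finrank (ZMod 2) (P k s) = 2 * k + s := by
  simp only [P, V, Module.finrank_prod, Module.finrank_fin_fun]
  ring

/-- the elementary abelian group of order `2 ^ t` -/
abbrev E2 (t : ℕ) : Type := Multiplicative (Fin t → ZMod 2)

theorem exists_equiv (k s : ℕ) : Nonempty (Multiplicative (P k s) ≃* E2 (2 * k + s)) := by
  have h : Module.finrank (ZMod 2) (P k s) = Module.finrank (ZMod 2) (Fin (2 * k + s) → ZMod 2) := by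
    rw [finrank_P, Module.finrank_fin_fun]
  exact ⟨AddEquiv.toMultiplicative (LinearEquiv.ofFinrankEq _ _ h).toAddEquiv⟩

/-- a group of order `4 ^ m` is a product of two sets of order `2 ^ m` -/
theorem exists_fact {m : ℕ} (hA : Fintype.card A = 4 ^ m) :
    ∃ (e : A ≃ V m × V m) (α β : V m → A), ∀ x z, e.symm (x, z) = α x * β z := by
  classical
  have : Fact (Nat.Prime 2) := ⟨Nat.prime_two⟩
  have hA' : Nat.card A = 4 ^ m := by rw [Nat.card_eq_fintype_card, hA]
  obtain ⟨H, hH⟩ := Sylow.exists_subgroup_card_pow_prime (G := A) 2 (n := m) (by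
    rw [hA']
    have : (4 : ℕ) ^ m = 2 ^ m * 2 ^ m := by rw [← mul_pow]; norm_num
    rw [this]
    exact Dvd.intro _ rfl)
  obtain ⟨T, hT, -⟩ := H.exists_isComplement_right 1
  have hcV : Fintype.card (V m) = 2 ^ m := by simp [V, ZMod.card]
  have hcard : Nat.card H * Nat.card T = Nat.card A := hT.card_mul_card
  have hcT : Nat.card T = 2 ^ m := by
    rw [hH, hA'] at hcard
    have h4 : (4 : ℕ) ^ m = 2 ^ m * 2 ^ m := by rw [← mul_pow]; norm_num
    rw [h4] at hcard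
    exact Nat.eq_of_mul_eq_mul_left (by positivity) hcard
  let eH : V m ≃ H := Fintype.equivOfCardEq (by rw [hcV, ← Nat.card_eq_fintype_card, hH])
  have : Fintype T := Fintype.ofFinite T
  let eT : V m ≃ T := Fintype.equivOfCardEq (by rw [hcV, ← Nat.card_eq_fintype_card, hcT])
  refine ⟨hT.equiv.trans (Equiv.prodCongr eH.symm eT.symm), fun x => eH x, fun z => eT z,
    fun x z => ?_⟩
  simp only [Equiv.symm_trans_apply, Equiv.prodCongr_symm, Equiv.symm_symm, Equiv.prodCongr_apply,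
    Prod.map_apply]
  rfl

/-- From families of sign matrices to orthogonal cocycles. -/
theorem of_GH {c : ℕ} (h : GH (Fin (2 ^ c)) G) (hA : Fintype.card A = 4 ^ c) (s : ℕ) :
    OrthCocycle (E2 (2 * c + s) × A × G) := by
  have hc : Fintype.card (Fin (2 ^ c)) = Fintype.card (V c) := by
    simp [V, ZMod.card]
  obtain ⟨f, hf, hff⟩ := GH.congr (Fintype.equivOfCardEq hc) h
  have hw : ∀ (g₁ g₂ : G) (x₁ x₂ : V c), ∑ z, ∑ h, f (g₁ * h) x₁ z * f (g₂ * h) x₂ z =
      if x₁ = x₂ ∧ g₁ = g₂ then ((Fintype.card (V c) * Fintype.card G : ℕ) : ℤ) else 0 := by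
    intro g₁ g₂ x₁ x₂
    have h1 := hff (g₁ * g₂⁻¹) x₁ x₂
    have h2 : ∀ z, ∑ h, f (g₁ * h) x₁ z * f (g₂ * h) x₂ z =
        ∑ h, f (g₁ * g₂⁻¹ * h) x₁ z * f h x₂ z := by
      intro z
      rw [← Equiv.sum_comp (Equiv.mulLeft g₂) (fun h => f (g₁ * g₂⁻¹ * h) x₁ z * f h x₂ z)]
      refine Finset.sum_congr rfl fun h _ => ?_
      simp only [Equiv.coe_mulLeft]
      rw [mul_assoc g₁, inv_mul_cancel_left]
    simp only [h2, h1, mul_inv_eq_one]
  obtain ⟨e⟩ := exists_equiv c s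
  obtain ⟨eA, α, β, he⟩ := exists_fact hA
  exact OrthCocycle.congr (MulEquiv.prodCongr e (MulEquiv.refl (A × G)))
    (orthCocycle_of (fun x z g => hf g x z) hw eA α β he s)

end Pool.Agent.H182.Coc
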