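import Pool.Agent.H182.Coc

/-!
Cyclic windows of finite groups, and orthogonal cocycles.
-/

set_option autoImplicit false

namespace Pool.Agent.H182.Coc

open Finset Matrix Pool.Agent.H108R3.Had Pool.Agent.X18.HadG

/-- `Windows B r G`: the group `G` is obtained from the trivial group by `r` cyclic windows of length
at most `B`. One window: `K` is a subgroup of `G`, `x` an element of `G` and every element of `G` is
in exactly one way of the form `x ^ n * k` with `n < S` and `k ∈ K`, where `S ≤ B`. -/
inductive Windows (B : ℕ) : ℕ → (G : Type) → [Group G] → Prop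
  | base (G : Type) [Group G] : Subsingleton G → Windows B 0 G
  | step (G : Type) [Group G] (r : ℕ) (K : Subgroup G) (x : G) (S : ℕ) : S ≤ B →
      Function.Bijective (fun p : Fin S × K => x ^ (p.1 : ℕ) * (p.2 : G)) →
      Windows B r K → Windows B (r + 1) G

theorem PUk_one : ∀ t : ℕ, PUk t 1 := by
  intro t
  induction t with
  | zero => exact t_P2.2
  | succ t iht => exact lift t 1 iht

theorem Windows.toGH {B c : ℕ} (hB : ∀ S ≤ B, PUk c S) (j : ℕ) : ∀ (r : ℕ) (G : Type) [Group G]
    [Fintype G] [DecidableEq G], Windows B r G → GH (Fin (2 ^ (j + c * r))) G := by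
  intro r
  induction r with
  | zero =>
    intro G _ _ _ h
    cases h with
    | base _ hs =>
      have h1 : Fintype.card G = 1 := Fintype.card_eq_one_iff.2 ⟨1, fun y => Subsingleton.elim _ _⟩
      rw [mul_zero, add_zero]
      exact GH.base h1 (PUk_one j)
  | succ r ih =>
    intro G _ _ _ h
    cases h with
    | step _ _ K x S hS hbij hK =>
      classical
      have h1 := ih K hK
      have h2 := Pool.Agent.X18.HadG.step K x hbij (hB S hS) h1
      refine GH.congr (Fintype.equivOfCardEq ?_) h2
      rw [Fintype.card_prod, Fintype.card_fin, Fintype.card_fin, Fintype.card_fin, ← pow_add]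
      congr 1
      ring

theorem Windows.mono {B B' : ℕ} (hB : B ≤ B') : ∀ {r : ℕ} {G : Type} [Group G], Windows B r G →
    Windows B' r G := by
  intro r
  induction r with
  | zero =>
    intro G _ h
    cases h with
    | base _ hs => exact Windows.base G hs
  | succ r ih =>
    intro G _ h
    cases h with
    | step _ _ K x S hS hbij hK => exact Windows.step G r K x S (hS.trans hB) hbij (ih hK)

/-- a cyclic group is one window -/
theorem Windows.cyclic (G : Type) [Group G] [Fintype G] [IsCyclic G] :
    Windows (Fintype.card G) 1 G := by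
  obtain ⟨x, hx⟩ := IsCyclic.exists_generator (α := G)
  have hord : orderOf x = Fintype.card G := orderOf_eq_card_of_forall_mem_zpowers hx ▸
    Nat.card_eq_fintype_card
  refine Windows.step G 0 ⊥ x (Fintype.card G) le_rfl ?_ (Windows.base _ inferInstance)
  classical
  rw [Fintype.bijective_iff_injective_and_card]
  constructor
  · rintro ⟨n, a⟩ ⟨m, b⟩ h
    have hab : a = b := Subsingleton.elim _ _
    subst hab
    have h1 := mul_right_cancel h
    have h2 : (n : ℕ) = m := by
      rw [pow_inj_mod, hord, Nat.mod_eq_of_lt n.2, Nat.mod_eq_of_lt m.2] at h1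
      exact h1
    rw [Fin.ext h2]
  · rw [Fintype.card_prod, Fintype.card_fin]
    simp

/-- a solvable group has as many windows as its order has prime factors -/
theorem Windows.solvable (B : ℕ) : ∀ (n : ℕ) (G : Type) [Group G] [Fintype G] [Group.IsSolvable G],
    Fintype.card G = n → (∀ p : ℕ, p.Prime → p ∣ n → p ≤ B) →
    Windows B (ArithmeticFunction.cardFactors n) G := by
  intro n
  induction n using Nat.strong_induction_on with
  | _ n ih =>
    intro G _ _ _ hG hp
    classical
    rcases Nat.lt_or_ge 1 n with h1 | h1
    · have : Nontrivial G := Fintype.one_lt_card_iff_nontrivial.1 (by rw [hG]; exact h1)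
      obtain ⟨M, x, p, hpp, hcard, hbij⟩ := exists_window G
      rw [Nat.card_eq_fintype_card, Nat.card_eq_fintype_card, hG] at hcard
      have hM0 : 0 < Fintype.card M := Fintype.card_pos
      have hlt : Fintype.card M < n := by
        rw [hcard]
        have := hpp.two_le
        nlinarith
      have h2 := ih _ hlt M rfl (fun q hq hqM => hp q hq (hqM.trans ⟨p, by rw [hcard]; ring⟩))
      have h5 : ArithmeticFunction.cardFactors n =
          ArithmeticFunction.cardFactors (Fintype.card M) + 1 := by
        rw [hcard, ArithmeticFunction.cardFactors_mul hpp.ne_zero hM0.ne',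
          ArithmeticFunction.cardFactors_apply_prime hpp, add_comm]
      rw [h5]
      exact Windows.step G _ M x p (hp p hpp ⟨_, hcard⟩) hbij h2
    · have hn1 : n = 1 := by
        have : 0 < Fintype.card G := Fintype.card_pos
        omega
      subst hn1
      rw [ArithmeticFunction.cardFactors_one]
      exact Windows.base G (Fintype.card_le_one_iff_subsingleton.1 hG.le)

/-- The theorem. -/
theorem main : ∃ C : ℕ, ∀ (G A : Type) [Group G] [Fintype G] [Group A] [Fintype A] (k r m s : ℕ),
    Windows ((fun x : ℕ => 2 ^ x)^[k] 1) r G → C ^ (k + 1) * r ≤ m → Fintype.card A = 4 ^ m →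
    2 * m ≤ s → OrthCocycle (E2 s × A × G) := by
  obtain ⟨C, hC, h⟩ := Pool.Agent.W851.Had.main_pu
  refine ⟨C, ?_⟩
  intro G A _ _ _ _ k r m s hW hm hA hs
  classical
  obtain ⟨j, rfl⟩ := Nat.exists_eq_add_of_le' hm
  obtain ⟨i, rfl⟩ := Nat.exists_eq_add_of_le hs
  have h1 := Windows.toGH (c := C ^ (k + 1)) (fun S hS => h k S _ hS le_rfl) j r G hW
  exact of_GH h1 hA i

end Pool.Agent.H182.Coc
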