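import Mathlib

/-!
# Weighing matrices `W(4t, k)` with `t` odd and `t ≤ k ^ 12`, for every `k ≥ 1`
-/

namespace Pool.Agent.H182.MP

open Finset Matrix

/-- entries `0`, `1`, `-1` -/
def Tern {ι κ : Type} (M : Matrix ι κ ℤ) : Prop := ∀ i j, M i j = 0 ∨ M i j = 1 ∨ M i j = -1

theorem sum2 {F : Type} [Field F] [Fintype F] [DecidableEq F] (g h : F → ℤ) (a b e c d f : F)
    (hdet : a * d - b * c ≠ 0) :
    ∑ x, ∑ y, g (a * x + b * y + e) * h (c * x + d * y + f) = (∑ x, g x) * ∑ y, h y := by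
  have h1 : ∑ x, ∑ y, g (a * x + b * y + e) * h (c * x + d * y + f) =
      ∑ v : F × F, (fun w : F × F => g w.1 * h w.2)
        ((fun v : F × F => (a * v.1 + b * v.2 + e, c * v.1 + d * v.2 + f)) v) := by
    rw [Fintype.sum_prod_type]
  rw [h1]
  have hinj : Function.Injective
      (fun v : F × F => (a * v.1 + b * v.2 + e, c * v.1 + d * v.2 + f)) := by
    rintro ⟨x, y⟩ ⟨x', y'⟩ hxy
    simp only [Prod.mk.injEq] at hxy
    obtain ⟨h2, h3⟩ := hxy
    have h4 : (a * d - b * c) * (x - x') = 0 := by linear_combination d * h2 - b * h3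
    have h5 : (a * d - b * c) * (y - y') = 0 := by linear_combination a * h3 - c * h2
    rcases mul_eq_zero.1 h4 with h6 | h6
    · exact absurd h6 hdet
    · rcases mul_eq_zero.1 h5 with h7 | h7
      · exact absurd h7 hdet
      · rw [sub_eq_zero.1 h6, sub_eq_zero.1 h7]
  have hbij := Finite.injective_iff_bijective.1 hinj
  rw [Function.Bijective.sum_comp hbij (fun w : F × F => g w.1 * h w.2), Fintype.sum_prod_type,
    Finset.sum_mul_sum]

theorem sum_split {F : Type} [Field F] [Fintype F] [DecidableEq F] (f : F → ℤ) (c : ℤ)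
    (h : ∀ x, x ≠ 0 → f x = c) : ∑ x, f x = f 0 + ((Fintype.card F : ℤ) - 1) * c := by
  rw [← Finset.add_sum_erase univ f (mem_univ 0)]
  congr 1
  rw [Finset.sum_congr rfl fun x hx => h x (Finset.ne_of_mem_erase hx), Finset.sum_const,
    Finset.card_erase_of_mem (mem_univ _), Finset.card_univ, nsmul_eq_mul,
    Nat.cast_sub Fintype.card_pos]
  simp

theorem sum3 {F : Type} [Field F] [Fintype F] [DecidableEq F] (f : F → F → F → ℤ)
    (hf0 : f 0 0 0 = 0)
    (hinv : ∀ c x y z, c ≠ 0 → f (c * x) (c * y) (c * z) = f x y z) :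
    ∑ x, ∑ y, ∑ z, f x y z = ((Fintype.card F : ℤ) - 1) *
      ((∑ y, ∑ z, f 1 y z) + (∑ z, f 0 1 z) + f 0 0 1) := by
  have h1 : ∀ x, x ≠ 0 → ∑ y, ∑ z, f x y z = ∑ y, ∑ z, f 1 y z := by
    intro x hx
    rw [← Equiv.sum_comp (Equiv.mulLeft₀ x hx)]
    refine Finset.sum_congr rfl fun y _ => ?_
    rw [← Equiv.sum_comp (Equiv.mulLeft₀ x hx)]
    refine Finset.sum_congr rfl fun z _ => ?_
    have := hinv x 1 y z hx
    rw [mul_one] at this
    exact this
  rw [sum_split (fun x => ∑ y, ∑ z, f x y z) _ h1]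
  have h2 : ∀ y, y ≠ 0 → ∑ z, f 0 y z = ∑ z, f 0 1 z := by
    intro y hy
    rw [← Equiv.sum_comp (Equiv.mulLeft₀ y hy)]
    refine Finset.sum_congr rfl fun z _ => ?_
    have := hinv y 0 1 z hy
    rw [mul_one, mul_zero] at this
    exact this
  rw [sum_split (fun y => ∑ z, f 0 y z) _ h2]
  have h3 : ∀ z, z ≠ 0 → f 0 0 z = f 0 0 1 := by
    intro z hz
    have := hinv z 0 0 1 hz
    rw [mul_one, mul_zero] at this
    exact this
  rw [sum_split (fun z => f 0 0 z) _ h3, hf0]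
  ring

/-- the points of the projective plane over `F` -/
abbrev Pt (F : Type) : Type := (F × F) ⊕ (F ⊕ Unit)

def rep {F : Type} [Field F] : Pt F → F × F × F
  | Sum.inl (y, z) => (1, y, z)
  | Sum.inr (Sum.inl z) => (0, 1, z)
  | Sum.inr (Sum.inr _) => (0, 0, 1)

def dot {F : Type} [Field F] (u v : F × F × F) : F := u.1 * v.1 + u.2.1 * v.2.1 + u.2.2 * v.2.2

def PM (p : ℕ) [Fact p.Prime] : Matrix (Pt (ZMod p)) (Pt (ZMod p)) ℤ :=
  fun x y => quadraticChar (ZMod p) (dot (rep x) (rep y))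

theorem char_zero_sum (p : ℕ) [Fact p.Prime] (hp : p ≠ 2) :
    ∑ x : ZMod p, quadraticChar (ZMod p) x = 0 := by
  apply quadraticChar_sum_zero
  rw [ZMod.ringChar_zmod_n]
  exact hp

theorem char_sq (p : ℕ) [Fact p.Prime] (c : ZMod p) (hc : c ≠ 0) :
    quadraticChar (ZMod p) c * quadraticChar (ZMod p) c = 1 := by
  have := quadraticChar_sq_one hc
  rw [sq] at this
  exact this

theorem PM_aux (p : ℕ) [Fact p.Prime] (u w : ZMod p × ZMod p × ZMod p) :
    ((p : ℤ) - 1) * ∑ y : Pt (ZMod p), quadraticChar (ZMod p) (dot u (rep y)) *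
        quadraticChar (ZMod p) (dot w (rep y)) =
      ∑ x, ∑ y, ∑ z, quadraticChar (ZMod p) (u.1 * x + u.2.1 * y + u.2.2 * z) *
        quadraticChar (ZMod p) (w.1 * x + w.2.1 * y + w.2.2 * z) := by
  rw [sum3 (fun x y z => quadraticChar (ZMod p) (u.1 * x + u.2.1 * y + u.2.2 * z) *
        quadraticChar (ZMod p) (w.1 * x + w.2.1 * y + w.2.2 * z))]
  · rw [ZMod.card, Fintype.sum_sum_type, Fintype.sum_sum_type, Fintype.sum_prod_type]
    simp only [rep, dot, Finset.univ_unique, Finset.sum_singleton]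
    ring
  · simp
  · intro c x y z hc
    have h1 : u.1 * (c * x) + u.2.1 * (c * y) + u.2.2 * (c * z) =
        c * (u.1 * x + u.2.1 * y + u.2.2 * z) := by ring
    have h2 : w.1 * (c * x) + w.2.1 * (c * y) + w.2.2 * (c * z) =
        c * (w.1 * x + w.2.1 * y + w.2.2 * z) := by ring
    rw [h1, h2, map_mul, map_mul]
    have := char_sq p c hc
    calc _ = (quadraticChar (ZMod p) c * quadraticChar (ZMod p) c) *
        (quadraticChar (ZMod p) (u.1 * x + u.2.1 * y + u.2.2 * z) *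
          quadraticChar (ZMod p) (w.1 * x + w.2.1 * y + w.2.2 * z)) := by ring
      _ = _ := by rw [this, one_mul]

theorem indep_zero (p : ℕ) [Fact p.Prime] (hp : p ≠ 2) (u w : ZMod p × ZMod p × ZMod p)
    (h : u.1 * w.2.1 - u.2.1 * w.1 ≠ 0 ∨ u.1 * w.2.2 - u.2.2 * w.1 ≠ 0 ∨
      u.2.1 * w.2.2 - u.2.2 * w.2.1 ≠ 0) :
    ∑ x, ∑ y, ∑ z, quadraticChar (ZMod p) (u.1 * x + u.2.1 * y + u.2.2 * z) *
        quadraticChar (ZMod p) (w.1 * x + w.2.1 * y + w.2.2 * z) = 0 := by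
  have hz := char_zero_sum p hp
  rcases h with h | h | h
  · have h1 : ∀ x, ∑ y, ∑ z, quadraticChar (ZMod p) (u.1 * x + u.2.1 * y + u.2.2 * z) *
        quadraticChar (ZMod p) (w.1 * x + w.2.1 * y + w.2.2 * z) =
        ∑ z, ∑ y, quadraticChar (ZMod p) (u.1 * x + u.2.1 * y + u.2.2 * z) *
        quadraticChar (ZMod p) (w.1 * x + w.2.1 * y + w.2.2 * z) := fun x => Finset.sum_comm
    rw [Finset.sum_congr rfl fun x _ => h1 x, Finset.sum_comm]
    refine Finset.sum_eq_zero fun z _ => ?_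
    rw [sum2 _ _ _ _ _ _ _ _ h, hz, zero_mul]
  · rw [Finset.sum_comm]
    refine Finset.sum_eq_zero fun y _ => ?_
    have h1 : ∑ x, ∑ z, quadraticChar (ZMod p) (u.1 * x + u.2.1 * y + u.2.2 * z) *
        quadraticChar (ZMod p) (w.1 * x + w.2.1 * y + w.2.2 * z) =
        ∑ x, ∑ z, quadraticChar (ZMod p) (u.1 * x + u.2.2 * z + u.2.1 * y) *
        quadraticChar (ZMod p) (w.1 * x + w.2.2 * z + w.2.1 * y) := by
      refine Finset.sum_congr rfl fun x _ => Finset.sum_congr rfl fun z _ => ?_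
      rw [show u.1 * x + u.2.1 * y + u.2.2 * z = u.1 * x + u.2.2 * z + u.2.1 * y by ring,
        show w.1 * x + w.2.1 * y + w.2.2 * z = w.1 * x + w.2.2 * z + w.2.1 * y by ring]
    rw [h1, sum2 _ _ _ _ _ _ _ _ h, hz, zero_mul]
  · refine Finset.sum_eq_zero fun x _ => ?_
    have h1 : ∑ y, ∑ z, quadraticChar (ZMod p) (u.1 * x + u.2.1 * y + u.2.2 * z) *
        quadraticChar (ZMod p) (w.1 * x + w.2.1 * y + w.2.2 * z) =
        ∑ y, ∑ z, quadraticChar (ZMod p) (u.2.1 * y + u.2.2 * z + u.1 * x) *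
        quadraticChar (ZMod p) (w.2.1 * y + w.2.2 * z + w.1 * x) := by
      refine Finset.sum_congr rfl fun y _ => Finset.sum_congr rfl fun z _ => ?_
      rw [show u.1 * x + u.2.1 * y + u.2.2 * z = u.2.1 * y + u.2.2 * z + u.1 * x by ring,
        show w.1 * x + w.2.1 * y + w.2.2 * z = w.2.1 * y + w.2.2 * z + w.1 * x by ring]
    rw [h1, sum2 _ _ _ _ _ _ _ _ h, hz, zero_mul]

theorem rep_indep (p : ℕ) [Fact p.Prime] (x y : Pt (ZMod p)) (hxy : x ≠ y) :
    (rep x).1 * (rep y).2.1 - (rep x).2.1 * (rep y).1 ≠ 0 ∨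
      (rep x).1 * (rep y).2.2 - (rep x).2.2 * (rep y).1 ≠ 0 ∨
      (rep x).2.1 * (rep y).2.2 - (rep x).2.2 * (rep y).2.1 ≠ 0 := by
  rcases x with ⟨a, b⟩ | a | _ <;> rcases y with ⟨c, d⟩ | c | _ <;> simp [rep] at hxy ⊢
  · by_cases h : a = c
    · right
      left
      intro h2
      exact hxy h (sub_eq_zero.1 h2).symm
    · left
      intro h2
      exact h (sub_eq_zero.1 h2).symm
  · intro h2
    exact hxy (sub_eq_zero.1 h2).symm

theorem sq_sum (p : ℕ) [Fact p.Prime] (c : ZMod p) :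
    ∑ x : ZMod p, quadraticChar (ZMod p) (x + c) * quadraticChar (ZMod p) (x + c) = (p : ℤ) - 1 := by
  have h := Equiv.sum_comp (Equiv.addRight c)
    (fun x => quadraticChar (ZMod p) x * quadraticChar (ZMod p) x)
  simp only [Equiv.coe_addRight] at h
  rw [h, sum_split (fun x => quadraticChar (ZMod p) x * quadraticChar (ZMod p) x) 1
      (fun x hx => char_sq p x hx), ZMod.card]
  simp

theorem diag_sum (p : ℕ) [Fact p.Prime] (t : Pt (ZMod p)) :
    ∑ x, ∑ y, ∑ z, quadraticChar (ZMod p) ((rep t).1 * x + (rep t).2.1 * y + (rep t).2.2 * z) *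
        quadraticChar (ZMod p) ((rep t).1 * x + (rep t).2.1 * y + (rep t).2.2 * z) =
      (p : ℤ) * (p * (p - 1)) := by
  rcases t with ⟨a, b⟩ | a | _
  · simp only [rep, one_mul]
    rw [Finset.sum_comm]
    have h1 : ∀ y : ZMod p, ∑ x : ZMod p, ∑ z : ZMod p,
        quadraticChar (ZMod p) (x + a * y + b * z) * quadraticChar (ZMod p) (x + a * y + b * z) =
        (p : ℤ) * (p - 1) := by
      intro y
      rw [Finset.sum_comm]
      have h2 : ∀ z : ZMod p, ∑ x : ZMod p,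
          quadraticChar (ZMod p) (x + a * y + b * z) * quadraticChar (ZMod p) (x + a * y + b * z) =
          (p : ℤ) - 1 := by
        intro z
        have := sq_sum p (a * y + b * z)
        simpa [add_assoc] using this
      rw [Finset.sum_congr rfl fun z _ => h2 z, Finset.sum_const, Finset.card_univ, ZMod.card,
        nsmul_eq_mul]
    rw [Finset.sum_congr rfl fun y _ => h1 y, Finset.sum_const, Finset.card_univ, ZMod.card,
        nsmul_eq_mul]
  · simp only [rep, zero_mul, zero_add, one_mul]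
    have h1 : ∑ y : ZMod p, ∑ z : ZMod p,
        quadraticChar (ZMod p) (y + a * z) * quadraticChar (ZMod p) (y + a * z) =
        (p : ℤ) * (p - 1) := by
      rw [Finset.sum_comm]
      rw [Finset.sum_congr rfl fun z _ => sq_sum p (a * z), Finset.sum_const, Finset.card_univ,
        ZMod.card, nsmul_eq_mul]
    rw [h1, Finset.sum_const, Finset.card_univ, ZMod.card, nsmul_eq_mul]
  · simp only [rep, zero_mul, zero_add, one_mul]
    have h1 := sq_sum p 0
    simp only [add_zero] at h1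
    rw [h1, Finset.sum_const, Finset.sum_const, Finset.card_univ, ZMod.card, nsmul_eq_mul,
      nsmul_eq_mul]

theorem PM_mul (p : ℕ) [Fact p.Prime] (hp : p ≠ 2) :
    PM p * PM p = ((p : ℤ) ^ 2) • (1 : Matrix (Pt (ZMod p)) (Pt (ZMod p)) ℤ) := by
  have hp1 : (1 : ℤ) < p := by exact_mod_cast (Fact.out : p.Prime).one_lt
  ext x y
  rw [Matrix.mul_apply, Matrix.smul_apply, Matrix.one_apply]
  have h0 : ∑ j, PM p x j * PM p j y = ∑ j, quadraticChar (ZMod p) (dot (rep x) (rep j)) *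
      quadraticChar (ZMod p) (dot (rep y) (rep j)) := by
    refine Finset.sum_congr rfl fun j _ => ?_
    simp only [PM]
    rw [show dot (rep j) (rep y) = dot (rep y) (rep j) by simp only [dot]; ring]
  rw [h0]
  have h1 := PM_aux p (rep x) (rep y)
  by_cases hxy : x = y
  · subst hxy
    rw [diag_sum] at h1
    rw [if_pos rfl, smul_eq_mul, mul_one]
    have h2 : (p : ℤ) - 1 ≠ 0 := by linarith
    apply mul_left_cancel₀ h2
    rw [h1]
    ring
  · rw [indep_zero p hp _ _ (rep_indep p x y hxy)] at h1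
    rw [if_neg hxy, smul_zero]
    rcases mul_eq_zero.1 h1 with h2 | h2
    · linarith
    · exact h2

theorem PM_symm (p : ℕ) [Fact p.Prime] : (PM p)ᵀ = PM p := by
  ext x y
  simp only [Matrix.transpose_apply, PM]
  rw [show dot (rep y) (rep x) = dot (rep x) (rep y) by simp only [dot]; ring]

theorem PM_tern (p : ℕ) [Fact p.Prime] : Tern (PM p) := by
  intro x y
  simp only [PM]
  by_cases h : dot (rep x) (rep y) = 0
  · left
    rw [h]
    simp
  · right
    exact quadraticChar_dichotomy h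

/-- a symmetric weighing matrix of order `t` and weight `a ^ 2` -/
def SymW (t a : ℕ) : Prop := ∃ M : Matrix (Fin t) (Fin t) ℤ, Tern M ∧ Mᵀ = M ∧
  M * M = ((a : ℤ) ^ 2) • (1 : Matrix (Fin t) (Fin t) ℤ)

theorem symW_of_type {ι : Type} [Fintype ι] [DecidableEq ι] {t a : ℕ} (ht : Fintype.card ι = t)
    (M : Matrix ι ι ℤ) (h1 : Tern M) (h2 : Mᵀ = M)
    (h3 : M * M = ((a : ℤ) ^ 2) • (1 : Matrix ι ι ℤ)) : SymW t a := by
  let e : ι ≃ Fin t := Fintype.equivFinOfCardEq ht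
  refine ⟨M.submatrix e.symm e.symm, fun i j => h1 _ _, ?_, ?_⟩
  · rw [Matrix.transpose_submatrix, h2]
  · rw [Matrix.submatrix_mul_equiv, h3]
    ext i j
    simp only [Matrix.submatrix_apply, Matrix.smul_apply, Matrix.one_apply,
      e.symm.injective.eq_iff]

theorem symW_odd (p : ℕ) (hp : p.Prime) (h2 : p ≠ 2) : SymW (p ^ 2 + p + 1) p := by
  have : Fact p.Prime := ⟨hp⟩
  refine symW_of_type ?_ (PM p) (PM_tern p) (PM_symm p) (PM_mul p h2)
  rw [Fintype.card_sum, Fintype.card_sum, Fintype.card_prod, ZMod.card]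
  simp
  ring

def c7 : Fin 7 → ℤ := ![-1, 1, 1, 0, 1, 0, 0]

def M7 : Matrix (Fin 7) (Fin 7) ℤ := Matrix.of fun i j => c7 (i + j)

theorem symW_two : SymW 7 2 := by
  refine ⟨M7, ?_, ?_, ?_⟩
  · have h : ∀ i : Fin 7, c7 i = 0 ∨ c7 i = 1 ∨ c7 i = -1 := by decide
    intro i j
    exact h (i + j)
  · ext i j
    change c7 (j + i) = c7 (i + j)
    rw [add_comm]
  · ext i j
    revert i j
    decide

theorem symW_one : SymW 1 1 := by
  refine ⟨1, ?_, Matrix.transpose_one, by simp⟩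
  intro i j
  have : i = j := Subsingleton.elim _ _
  subst this
  right; left
  simp

theorem symW_zero : SymW 1 0 := by
  refine ⟨0, ?_, Matrix.transpose_zero, by simp⟩
  intro i j
  left
  simp

theorem tern_mul {a b : ℤ} (ha : a = 0 ∨ a = 1 ∨ a = -1) (hb : b = 0 ∨ b = 1 ∨ b = -1) :
    a * b = 0 ∨ a * b = 1 ∨ a * b = -1 := by
  rcases ha with h | h | h <;> rcases hb with h' | h' | h' <;> rw [h, h'] <;> norm_num

theorem symW_mul {t a t' a' : ℕ} (h : SymW t a) (h' : SymW t' a') : SymW (t * t') (a * a') := by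
  obtain ⟨M, h1, h2, h3⟩ := h
  obtain ⟨M', h1', h2', h3'⟩ := h'
  refine symW_of_type (ι := Fin t × Fin t') (by simp) (kroneckerMap (· * ·) M M') ?_ ?_ ?_
  · rintro ⟨i, i'⟩ ⟨j, j'⟩
    exact tern_mul (h1 i j) (h1' i' j')
  · ext ⟨i, i'⟩ ⟨j, j'⟩
    simp only [Matrix.transpose_apply, kroneckerMap_apply]
    rw [← Matrix.transpose_apply M, ← Matrix.transpose_apply M', h2, h2']
  · rw [← Matrix.mul_kronecker_mul, h3, h3']
    ext ⟨i, i'⟩ ⟨j, j'⟩
    simp only [kroneckerMap_apply, Matrix.smul_apply, Matrix.one_apply, smul_eq_mul, Prod.mk.injEq]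
    by_cases hi : i = j <;> by_cases hj : i' = j' <;> simp [hi, hj]
    ring

theorem symW_all : ∀ a : ℕ, 0 < a → ∃ t : ℕ, Odd t ∧ t ≤ a ^ 3 ∧ SymW t a := by
  intro a
  induction a using Nat.recOnMul with
  | zero => intro h; exact absurd h (lt_irrefl _)
  | one => intro _; exact ⟨1, odd_one, by norm_num, symW_one⟩
  | prime p hp =>
    intro _
    by_cases h2 : p = 2
    · subst h2
      exact ⟨7, by decide, by norm_num, symW_two⟩
    · refine ⟨p ^ 2 + p + 1, ?_, ?_, symW_odd p hp h2⟩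
      · have := hp.odd_of_ne_two h2
        have h3 : p ^ 2 + p = p * (p + 1) := by ring
        rw [h3]
        exact (Nat.even_mul_succ_self p).add_one
      · have h3 : 2 ≤ p := hp.two_le
        nlinarith [Nat.mul_le_mul h3 h3, Nat.mul_le_mul (Nat.mul_le_mul h3 h3) h3, sq_nonneg p,
          Nat.mul_le_mul h3 (Nat.le_refl (p * p))]
  | mul a b iha ihb =>
    intro hab
    have ha : 0 < a := Nat.pos_of_mul_pos_right hab
    have hb : 0 < b := Nat.pos_of_mul_pos_left hab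
    obtain ⟨t, h1, h2, h3⟩ := iha ha
    obtain ⟨t', h1', h2', h3'⟩ := ihb hb
    refine ⟨t * t', h1.mul h1', ?_, symW_mul h3 h3'⟩
    rw [mul_pow]
    exact Nat.mul_le_mul h2 h2'

theorem symW_le (a k : ℕ) (hk : 0 < k) (hak : a ≤ k) :
    ∃ t : ℕ, Odd t ∧ t ≤ k ^ 3 ∧ SymW t a := by
  rcases Nat.eq_zero_or_pos a with h | h
  · subst h
    exact ⟨1, odd_one, Nat.one_le_pow _ _ hk, symW_zero⟩
  · obtain ⟨t, h1, h2, h3⟩ := symW_all a h
    exact ⟨t, h1, h2.trans (Nat.pow_le_pow_left hak 3), h3⟩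

/-- a weighing matrix of weight `k` indexed by a type -/
theorem step1 {ι : Type} [Fintype ι] [DecidableEq ι] (A B C D : Matrix ι ι ℤ) (k : ℤ)
    (hA : Aᵀ = A) (hB : Bᵀ = B) (hC : Cᵀ = C) (hD : Dᵀ = D)
    (hAB : A * B = B * A) (hAC : A * C = C * A) (hAD : A * D = D * A) (hBC : B * C = C * B)
    (hBD : B * D = D * B) (hCD : C * D = D * C)
    (hk : A * A + B * B + (C * C + D * D) = k • (1 : Matrix ι ι ℤ)) :
    let P : Matrix (ι ⊕ ι) (ι ⊕ ι) ℤ := fromBlocks A B (-B) A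
    let Q : Matrix (ι ⊕ ι) (ι ⊕ ι) ℤ := fromBlocks C D (-D) C
    let W : Matrix ((ι ⊕ ι) ⊕ (ι ⊕ ι)) ((ι ⊕ ι) ⊕ (ι ⊕ ι)) ℤ := fromBlocks P Q (-Qᵀ) Pᵀ
    W * Wᵀ = k • (1 : Matrix ((ι ⊕ ι) ⊕ (ι ⊕ ι)) ((ι ⊕ ι) ⊕ (ι ⊕ ι)) ℤ) := by
  intro P Q W
  have hPt : Pᵀ = fromBlocks A (-B) B A := by
    simp only [P, fromBlocks_transpose, hA, hB, Matrix.transpose_neg]
  have hQt : Qᵀ = fromBlocks C (-D) D C := by
    simp only [Q, fromBlocks_transpose, hC, hD, Matrix.transpose_neg]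
  have h1 : P * Pᵀ + Q * Qᵀ = k • (1 : Matrix (ι ⊕ ι) (ι ⊕ ι) ℤ) := by
    rw [hPt, hQt]
    simp only [P, Q, fromBlocks_multiply, fromBlocks_add]
    rw [← fromBlocks_one, fromBlocks_smul, fromBlocks_inj]
    refine ⟨?_, ?_, ?_, ?_⟩
    · rw [← hk]
    · rw [Matrix.mul_neg, Matrix.mul_neg, hAB, hCD, smul_zero]
      simp
    · rw [Matrix.neg_mul, Matrix.neg_mul, hAB, hCD, smul_zero]
      simp
    · rw [← hk]
      simp only [Matrix.neg_mul, Matrix.mul_neg, neg_neg]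
      abel
  have h2 : Pᵀ * P + Qᵀ * Q = k • (1 : Matrix (ι ⊕ ι) (ι ⊕ ι) ℤ) := by
    rw [hPt, hQt]
    simp only [P, Q, fromBlocks_multiply, fromBlocks_add]
    rw [← fromBlocks_one, fromBlocks_smul, fromBlocks_inj]
    refine ⟨?_, ?_, ?_, ?_⟩
    · rw [← hk]
      simp only [Matrix.neg_mul, Matrix.mul_neg, neg_neg]
    · rw [Matrix.neg_mul, Matrix.neg_mul, hAB, hCD, smul_zero]
      simp
    · rw [Matrix.mul_neg, Matrix.mul_neg, hAB, hCD, smul_zero]
      simp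
    · rw [← hk]
      abel
  have h3 : P * Q = Q * P := by
    simp only [P, Q, fromBlocks_multiply]
    rw [fromBlocks_inj]
    simp only [Matrix.neg_mul, Matrix.mul_neg, hAC, hAD, hBC, hBD]
    refine ⟨trivial, ?_, ?_, ?_⟩
    · abel
    · abel
    · trivial
  have h4 : Pᵀ * Qᵀ = Qᵀ * Pᵀ := by
    rw [← Matrix.transpose_mul, ← Matrix.transpose_mul, h3]
  simp only [W, fromBlocks_transpose, fromBlocks_multiply, Matrix.transpose_neg,
    Matrix.transpose_transpose]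
  rw [← fromBlocks_one, fromBlocks_smul, fromBlocks_inj]
  refine ⟨h1, ?_, ?_, ?_⟩
  · rw [Matrix.mul_neg, h3, smul_zero]
    simp
  · rw [Matrix.neg_mul, h4, smul_zero]
    simp
  · rw [Matrix.neg_mul, Matrix.mul_neg, neg_neg, ← h2]
    abel

/-- a weighing matrix of order `s` and weight `k` -/
def Wei (s k : ℕ) : Prop := ∃ M : Matrix (Fin s) (Fin s) ℤ, Tern M ∧
  M * Mᵀ = (k : ℤ) • (1 : Matrix (Fin s) (Fin s) ℤ)

theorem wei_of_type {ι : Type} [Fintype ι] [DecidableEq ι] {s k : ℕ} (ht : Fintype.card ι = s)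
    (M : Matrix ι ι ℤ) (h1 : Tern M) (h3 : M * Mᵀ = (k : ℤ) • (1 : Matrix ι ι ℤ)) : Wei s k := by
  let e : ι ≃ Fin s := Fintype.equivFinOfCardEq ht
  refine ⟨M.submatrix e.symm e.symm, fun i j => h1 _ _, ?_⟩
  rw [Matrix.transpose_submatrix, Matrix.submatrix_mul_equiv, h3]
  ext i j
  simp only [Matrix.submatrix_apply, Matrix.smul_apply, Matrix.one_apply,
      e.symm.injective.eq_iff]

open scoped Kronecker in
theorem williamson {a b c d ta tb tc td : ℕ} (ha : SymW ta a) (hb : SymW tb b) (hc : SymW tc c)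
    (hd : SymW td d) : Wei (4 * (ta * tb * tc * td)) (a ^ 2 + b ^ 2 + c ^ 2 + d ^ 2) := by
  obtain ⟨A, a1, a2, a3⟩ := ha
  obtain ⟨B, b1, b2, b3⟩ := hb
  obtain ⟨C, c1, c2, c3⟩ := hc
  obtain ⟨D, d1, d2, d3⟩ := hd
  let A' := ((A ⊗ₖ (1 : Matrix (Fin tb) (Fin tb) ℤ)) ⊗ₖ (1 : Matrix (Fin tc) (Fin tc) ℤ)) ⊗ₖ
    (1 : Matrix (Fin td) (Fin td) ℤ)
  let B' := (((1 : Matrix (Fin ta) (Fin ta) ℤ) ⊗ₖ B) ⊗ₖ (1 : Matrix (Fin tc) (Fin tc) ℤ)) ⊗ₖ
    (1 : Matrix (Fin td) (Fin td) ℤ)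
  let C' := (((1 : Matrix (Fin ta) (Fin ta) ℤ) ⊗ₖ (1 : Matrix (Fin tb) (Fin tb) ℤ)) ⊗ₖ C) ⊗ₖ
    (1 : Matrix (Fin td) (Fin td) ℤ)
  let D' := (((1 : Matrix (Fin ta) (Fin ta) ℤ) ⊗ₖ (1 : Matrix (Fin tb) (Fin tb) ℤ)) ⊗ₖ
    (1 : Matrix (Fin tc) (Fin tc) ℤ)) ⊗ₖ D
  have one_tern : ∀ n : ℕ, Tern (1 : Matrix (Fin n) (Fin n) ℤ) := by
    intro n i j
    rw [Matrix.one_apply]
    split_ifs <;> simp
  have kt : ∀ {ι κ : Type} (X : Matrix ι ι ℤ) (Y : Matrix κ κ ℤ), Tern X → Tern Y →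
      Tern (X ⊗ₖ Y) := by
    intro ι κ X Y hX hY
    rintro ⟨i, i'⟩ ⟨j, j'⟩
    exact tern_mul (hX i j) (hY i' j')
  have ks : ∀ {ι κ : Type} (X : Matrix ι ι ℤ) (Y : Matrix κ κ ℤ), Xᵀ = X → Yᵀ = Y →
      (X ⊗ₖ Y)ᵀ = X ⊗ₖ Y := by
    intro ι κ X Y hX hY
    ext ⟨i, i'⟩ ⟨j, j'⟩
    have h1 : X j i = X i j := by rw [← Matrix.transpose_apply X, hX]
    have h2 : Y j' i' = Y i' j' := by rw [← Matrix.transpose_apply Y, hY]
    simp only [Matrix.transpose_apply, kroneckerMap_apply]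
    rw [h1, h2]
  have o1 : ∀ n : ℕ, (1 : Matrix (Fin n) (Fin n) ℤ)ᵀ = 1 := fun n => Matrix.transpose_one
  have tA : Tern A' := kt _ _ (kt _ _ (kt _ _ a1 (one_tern _)) (one_tern _)) (one_tern _)
  have tB : Tern B' := kt _ _ (kt _ _ (kt _ _ (one_tern _) b1) (one_tern _)) (one_tern _)
  have tC : Tern C' := kt _ _ (kt _ _ (kt _ _ (one_tern _) (one_tern _)) c1) (one_tern _)
  have tD : Tern D' := kt _ _ (kt _ _ (kt _ _ (one_tern _) (one_tern _)) (one_tern _)) d1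
  have hk : A' * A' + B' * B' + (C' * C' + D' * D') =
      ((a ^ 2 + b ^ 2 + c ^ 2 + d ^ 2 : ℕ) : ℤ) • (1 : Matrix _ _ ℤ) := by
    simp only [A', B', C', D', ← Matrix.mul_kronecker_mul, Matrix.one_mul, a3, b3, c3, d3,
      Matrix.smul_kronecker, Matrix.kronecker_smul, Matrix.one_kronecker_one]
    rw [← add_smul, ← add_smul, ← add_smul]
    congr 1
    push_cast
    ring
  have hW := step1 A' B' C' D' _
    (ks _ _ (ks _ _ (ks _ _ a2 (o1 _)) (o1 _)) (o1 _))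
    (ks _ _ (ks _ _ (ks _ _ (o1 _) b2) (o1 _)) (o1 _))
    (ks _ _ (ks _ _ (ks _ _ (o1 _) (o1 _)) c2) (o1 _))
    (ks _ _ (ks _ _ (ks _ _ (o1 _) (o1 _)) (o1 _)) d2)
    (by simp only [A', B', ← Matrix.mul_kronecker_mul, Matrix.one_mul, Matrix.mul_one])
    (by simp only [A', C', ← Matrix.mul_kronecker_mul, Matrix.one_mul, Matrix.mul_one])
    (by simp only [A', D', ← Matrix.mul_kronecker_mul, Matrix.one_mul, Matrix.mul_one])
    (by simp only [B', C', ← Matrix.mul_kronecker_mul, Matrix.one_mul, Matrix.mul_one])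
    (by simp only [B', D', ← Matrix.mul_kronecker_mul, Matrix.one_mul, Matrix.mul_one])
    (by simp only [C', D', ← Matrix.mul_kronecker_mul, Matrix.one_mul, Matrix.mul_one]) hk
  have neg_t : ∀ {x : ℤ}, (x = 0 ∨ x = 1 ∨ x = -1) → (-x = 0 ∨ -x = 1 ∨ -x = -1) := by
    intro x hx
    rcases hx with h | h | h <;> rw [h] <;> norm_num
  refine wei_of_type ?_ _ ?_ hW
  · simp only [Fintype.card_sum, Fintype.card_prod, Fintype.card_fin]
    ring
  · rintro ((i | i) | (i | i)) ((j | j) | (j | j))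
    · exact tA i j
    · exact tB i j
    · exact tC i j
    · exact tD i j
    · exact neg_t (tB i j)
    · exact tA i j
    · exact neg_t (tD i j)
    · exact tC i j
    · exact neg_t (tC j i)
    · exact neg_t (neg_t (tD j i))
    · exact tA j i
    · exact neg_t (tB j i)
    · exact neg_t (tD j i)
    · exact neg_t (tC j i)
    · exact tB j i
    · exact tA j i

/-- for every `k ≥ 1` there is a weighing matrix `W(4t, k)` with `t` odd, `t ≤ k ^ 12` -/
theorem wei_exists (k : ℕ) (hk : 0 < k) : ∃ t : ℕ, Odd t ∧ t ≤ k ^ 12 ∧ Wei (4 * t) k := by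
  obtain ⟨a, b, c, d, h⟩ := Nat.sum_four_squares k
  have hle : ∀ x : ℕ, x ^ 2 ≤ k → x ≤ k := by
    intro x hx
    nlinarith
  obtain ⟨ta, a1, a2, a3⟩ := symW_le a k hk (hle a (by omega))
  obtain ⟨tb, b1, b2, b3⟩ := symW_le b k hk (hle b (by omega))
  obtain ⟨tc, c1, c2, c3⟩ := symW_le c k hk (hle c (by omega))
  obtain ⟨td, d1, d2, d3⟩ := symW_le d k hk (hle d (by omega))
  refine ⟨ta * tb * tc * td, ((a1.mul b1).mul c1).mul d1, ?_, ?_⟩
  · calc ta * tb * tc * td ≤ k ^ 3 * k ^ 3 * k ^ 3 * k ^ 3 :=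
        Nat.mul_le_mul (Nat.mul_le_mul (Nat.mul_le_mul a2 b2) c2) d2
      _ = k ^ 12 := by ring
  · have := williamson a3 b3 c3 d3
    rwa [h] at this

end Pool.Agent.H182.MP
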