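import Pool.Agent.H182.ModBlow
import Pool.Agent.H182.MPW

/-!
# Hadamard matrices of order `h₁ h₂` which contain a given `s × s` pattern, and their blow-ups
-/

namespace Pool.Agent.H182.MP

open Finset Matrix Pool.Agent.H114R2 Pool.Agent.H182.Mod

theorem sgn_mul {a b : ℤ} (ha : a = 1 ∨ a = -1) (hb : b = 1 ∨ b = -1) : a * b = 1 ∨ a * b = -1 := by
  rcases ha with h | h <;> rcases hb with h' | h' <;> rw [h, h'] <;> norm_num

theorem sgn_sq {a : ℤ} (ha : a = 1 ∨ a = -1) : a * a = 1 := by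
  rcases ha with h | h <;> rw [h] <;> norm_num

theorem modHad_zero {n : ℕ} {H : Matrix (Fin n) (Fin n) ℤ}
    (h : ∀ i j, i ≠ j → ((0 : ℕ) : ℤ) ∣ (H * Hᵀ) i j) (i j : Fin n) (hij : i ≠ j) :
    ∑ k, H i k * H j k = 0 := by
  have := h i j hij
  rw [Nat.cast_zero, zero_dvd_iff, Matrix.mul_apply] at this
  simpa [Matrix.transpose_apply] using this

theorem base {h1 h2 s : ℕ} (hH1 : ModHad 0 h1) (hH2 : ModHad 0 h2) (hs1 : s ≤ h1) (hs2 : s ≤ h2)
    (hp1 : 0 < h1) (hp2 : 0 < h2) (M : Matrix (Fin s) (Fin s) ℤ) (hM : Tern M) :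
    ∃ (K : Matrix (Fin h1 × Fin h2) (Fin h1 × Fin h2) ℤ) (x y : Fin s → Fin h1 × Fin h2),
      (∀ i j, K i j = 1 ∨ K i j = -1) ∧ (∀ i j, i ≠ j → (K * Kᵀ) i j = 0) ∧
      Function.Injective x ∧ Function.Injective y ∧ ∀ a b, M a b = 0 ∨ M a b = K (x a) (y b) := by
  obtain ⟨H1, s1, o1⟩ := hH1
  obtain ⟨H2, s2, o2⟩ := hH2
  let k0 : Fin h1 := ⟨0, hp1⟩
  let j0 : Fin h2 := ⟨0, hp2⟩
  let G1 : Matrix (Fin h1) (Fin h1) ℤ := fun i k => H1 i k * H1 i k0
  let G2 : Matrix (Fin h2) (Fin h2) ℤ := fun j l => H2 j l * H2 j0 l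
  have g1 : ∀ i k, G1 i k = 1 ∨ G1 i k = -1 := fun i k => sgn_mul (s1 i k) (s1 i k0)
  have g2 : ∀ i k, G2 i k = 1 ∨ G2 i k = -1 := fun i k => sgn_mul (s2 i k) (s2 j0 k)
  have g1' : ∀ i, G1 i k0 = 1 := fun i => sgn_sq (s1 i k0)
  have g2' : ∀ l, G2 j0 l = 1 := fun l => sgn_sq (s2 j0 l)
  have q1 : ∀ i i', i ≠ i' → ∑ k, G1 i k * G1 i' k = 0 := by
    intro i i' hi
    have : ∑ k, G1 i k * G1 i' k = (H1 i k0 * H1 i' k0) * ∑ k, H1 i k * H1 i' k := by
      rw [Finset.mul_sum]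
      refine Finset.sum_congr rfl fun k _ => ?_
      simp only [G1]
      ring
    rw [this, modHad_zero o1 i i' hi, mul_zero]
  have q2 : ∀ j j', j ≠ j' → ∑ l, G2 j l * G2 j' l = 0 := by
    intro j j' hj
    have : ∑ l, G2 j l * G2 j' l = ∑ l, H2 j l * H2 j' l := by
      refine Finset.sum_congr rfl fun l _ => ?_
      simp only [G2]
      calc H2 j l * H2 j0 l * (H2 j' l * H2 j0 l) = H2 j l * H2 j' l * (H2 j0 l * H2 j0 l) := by
            ring
        _ = _ := by rw [sgn_sq (s2 j0 l), mul_one]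
    rw [this, modHad_zero o2 j j' hj]
  let f : Fin h1 → Fin h2 → ℤ := fun i l =>
    if h : i.val < s ∧ l.val < s then
      (if M ⟨i.val, h.1⟩ ⟨l.val, h.2⟩ = 0 then 1 else M ⟨i.val, h.1⟩ ⟨l.val, h.2⟩) else 1
  have hf : ∀ i l, f i l = 1 ∨ f i l = -1 := by
    intro i l
    simp only [f]
    split_ifs with h h'
    · exact Or.inl rfl
    · rcases hM ⟨i.val, h.1⟩ ⟨l.val, h.2⟩ with h2 | h2
      · exact absurd h2 h'
      · exact h2
    · exact Or.inl rfl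
  let K : Matrix (Fin h1 × Fin h2) (Fin h1 × Fin h2) ℤ :=
    fun p q => G1 p.1 q.1 * G2 p.2 q.2 * f p.1 q.2
  refine ⟨K,
    fun a => (⟨a.val, lt_of_lt_of_le a.2 hs1⟩, j0), fun b => (k0, ⟨b.val, lt_of_lt_of_le b.2 hs2⟩),
    ?_, ?_, ?_, ?_, ?_⟩
  · intro i j
    exact sgn_mul (sgn_mul (g1 _ _) (g2 _ _)) (hf _ _)
  · rintro ⟨i, j⟩ ⟨i', j'⟩ hne
    rw [Matrix.mul_apply, Fintype.sum_prod_type_right]
    have h3 : ∀ l, ∑ k, K (i, j) (k, l) * Kᵀ (k, l) (i', j') =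
        (G2 j l * G2 j' l * (f i l * f i' l)) * ∑ k, G1 i k * G1 i' k := by
      intro l
      rw [Finset.mul_sum]
      refine Finset.sum_congr rfl fun k _ => ?_
      rw [Matrix.transpose_apply]
      change (G1 i k * G2 j l * f i l) * (G1 i' k * G2 j' l * f i' l) = _
      ring
    refine (Finset.sum_congr rfl fun l _ => h3 l).trans ?_
    by_cases hi : i = i'
    · subst hi
      have hj : j ≠ j' := fun h => hne (by rw [h])
      rw [← Finset.sum_mul]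
      have h4 : ∑ l, G2 j l * G2 j' l * (f i l * f i l) = ∑ l, G2 j l * G2 j' l := by
        refine Finset.sum_congr rfl fun l _ => ?_
        rw [sgn_sq (hf i l), mul_one]
      rw [h4, q2 j j' hj, zero_mul]
    · rw [q1 i i' hi]
      simp
  · intro a b hab
    simp only [Prod.mk.injEq, Fin.mk.injEq, and_true] at hab
    exact Fin.ext hab
  · intro a b hab
    simp only [Prod.mk.injEq, Fin.mk.injEq, true_and] at hab
    exact Fin.ext hab
  · intro a b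
    by_cases h0 : M a b = 0
    · exact Or.inl h0
    · right
      have h5 : f ⟨a.val, lt_of_lt_of_le a.2 hs1⟩ ⟨b.val, lt_of_lt_of_le b.2 hs2⟩ = M a b := by
        simp only [f]
        rw [dif_pos ⟨a.2, b.2⟩]
        simp only [Fin.eta]
        rw [if_neg h0]
      change M a b = G1 _ k0 * G2 j0 _ * f _ _
      rw [g1', g2', h5, one_mul, one_mul]

/-- the blow-up of a Hadamard matrix of order `h₁ h₂` -/
theorem blow {h1 h2 s k m w : ℕ} (hH1 : ModHad 0 h1) (hH2 : ModHad 0 h2) (hs1 : s ≤ h1)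
    (hs2 : s ≤ h2) (hp1 : 0 < h1) (hp2 : 0 < h2) (hW : Wei s k) (hm : 0 < m)
    (hk : 4 * k ≡ h1 * h2 [MOD m]) (hw : m ∣ w) : ModHad m (h1 * h2 + s * w) := by
  obtain ⟨M, t1, t2⟩ := hW
  obtain ⟨K, x, y, k1, k2, k3, k4, k5⟩ := base hH1 hH2 hs1 hs2 hp1 hp2 M t1
  have := blowup_mod (S := Fin s) m (h1 * h2) w hm K k1 (fun i j hij => by rw [k2 i j hij]; exact dvd_zero _)
    (by simp) x y k3 k4 M k5 k t2 hk hw
  rwa [Fintype.card_fin] at this

end Pool.Agent.H182.MP
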