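import Pool.Agent.H536.OC.C21
import Pool.Agent.H536.OC.STup

/-!
# Primes in progressions, Linnik's theorem, and the choice of residues
-/

namespace Pool.Agent.H182.MP

open Finset

/-- Linnik's theorem with many primes -/
theorem many : ∃ A γ : ℕ, 1 ≤ γ ∧ ∀ q a : ℕ, 2 ≤ q → Nat.Coprime a q → ∀ X : ℕ, γ * q ^ A ≤ X →
    ∃ S : Finset ℕ, (X : ℝ) ^ (97 / 100 : ℝ) ≤ S.card ∧ ∀ n ∈ S, n ≤ X ∧ (q * n + a % q).Prime := by
  obtain ⟨A, R, γ, hγ, h⟩ := Pool.Agent.H536.OC.tup Pool.Agent.H536.OC.U3c 1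
  refine ⟨A, γ, hγ, fun q a hq hc X hX => ?_⟩
  have hr : Nat.Coprime (a % q) q := by
    have : Nat.gcd (a % q) q = Nat.gcd q a := (Nat.gcd_rec q a).symm
    rw [Nat.Coprime, this, Nat.gcd_comm]
    exact hc
  have h1 : 1 ≤ a % q := by
    rcases Nat.eq_zero_or_pos (a % q) with h0 | h0
    · rw [h0, Nat.coprime_zero_left] at hr
      omega
    · exact h0
  have h2 : a % q < q := Nat.mod_lt _ (by omega)
  obtain ⟨S, hS, hS2⟩ := h (fun _ => q) (fun _ => a % q) (fun _ => ⟨h1, h2⟩) (by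
    intro p hp
    by_cases hpa : p ∣ a % q
    · refine ⟨1, fun _ hd => ?_⟩
      have h3 : p ∣ q * 1 + a % q := by exact_mod_cast hd
      have h4 : p ∣ q := by
        have := (Nat.dvd_add_left hpa).1 h3
        simpa using this
      have h5 := Nat.dvd_gcd hpa h4
      rw [hr] at h5
      exact hp.one_lt.ne' (Nat.dvd_one.1 h5)
    · refine ⟨0, fun _ hd => hpa ?_⟩
      have h3 : ((p : ℕ) : ℤ) ∣ ((a % q : ℕ) : ℤ) := by simpa using hd
      exact_mod_cast h3) 0 0 X (by simpa using hX)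
  exact ⟨S, hS, fun n hn => ⟨(hS2 n hn).1, (hS2 n hn).2.1⟩⟩

theorem lt_card {X y : ℕ} {S : Finset ℕ} (hS : (X : ℝ) ^ (97 / 100 : ℝ) ≤ S.card)
    (hX : y ^ 2 < X) : y < S.card := by
  have hX1 : (1 : ℝ) ≤ X := by exact_mod_cast (by omega : 1 ≤ X)
  have h1 : (X : ℝ) ^ (1 / 2 : ℝ) ≤ (X : ℝ) ^ (97 / 100 : ℝ) :=
    Real.rpow_le_rpow_of_exponent_le hX1 (by norm_num)
  rw [← Real.sqrt_eq_rpow] at h1
  have h2 : (y : ℝ) < Real.sqrt X := by
    apply Real.lt_sqrt_of_sq_lt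
    exact_mod_cast hX
  have h3 : (y : ℝ) < S.card := lt_of_lt_of_le h2 (h1.trans hS)
  exact_mod_cast h3

/-- a prime in a given class, at least `y` and at most a power of `q y` -/
theorem prime_ge : ∃ L : ℕ, 1 ≤ L ∧ ∀ q a y : ℕ, 2 ≤ q → Nat.Coprime a q → 1 ≤ y →
    ∃ p : ℕ, p.Prime ∧ p ≡ a [MOD q] ∧ y ≤ p ∧ p ≤ (q * y) ^ L := by
  obtain ⟨A, γ, hγ, h⟩ := many
  refine ⟨A + γ + 2, by omega, fun q a y hq hc hy => ?_⟩
  have hqA : 1 ≤ q ^ A := Nat.one_le_pow _ _ (by omega)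
  obtain ⟨S, hS, hS2⟩ := h q a hq hc (γ * q ^ A * (2 * y ^ 2)) (Nat.le_mul_of_pos_right _ (by positivity))
  have h1 : y ^ 2 < γ * q ^ A * (2 * y ^ 2) := by
    have h2 : 1 ≤ γ * q ^ A := Nat.mul_pos hγ hqA
    have h3 : 1 ≤ y ^ 2 := Nat.one_le_pow _ _ hy
    nlinarith
  have h4 := lt_card hS h1
  obtain ⟨n, hn, hny⟩ : ∃ n ∈ S, y ≤ n := by
    by_contra hcon
    push Not at hcon
    have h5 : S ⊆ range y := fun n hn => mem_range.2 (hcon n hn)
    have h6 := card_le_card h5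
    rw [card_range] at h6
    omega
  obtain ⟨h7, h8⟩ := hS2 n hn
  refine ⟨q * n + a % q, h8, ?_, ?_, ?_⟩
  · have : (q * n + a % q) % q = a % q := by
      rw [Nat.mul_add_mod, Nat.mod_mod]
    exact this
  · have : n ≤ q * n := Nat.le_mul_of_pos_left _ (by omega)
    omega
  · have h9 : a % q < q := Nat.mod_lt _ (by omega)
    have h10 : q * n + a % q ≤ q * (γ * q ^ A * (2 * y ^ 2)) + q := by
      have := Nat.mul_le_mul_left q h7
      omega
    have hgq : 2 * γ + 1 ≤ 2 * q ^ γ := by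
      have h11 : γ + 1 ≤ 2 ^ γ := Nat.lt_two_pow_self
      have h12 : 2 ^ γ ≤ q ^ γ := Nat.pow_le_pow_left hq γ
      omega
    have hy2 : 1 ≤ y ^ 2 := Nat.one_le_pow _ _ hy
    calc q * n + a % q ≤ q * (γ * q ^ A * (2 * y ^ 2)) + q := h10
      _ ≤ q * (γ * q ^ A * (2 * y ^ 2)) + q * (q ^ A * y ^ 2) := by
          have : 1 ≤ q ^ A * y ^ 2 := Nat.mul_pos hqA hy2
          nlinarith
      _ = q * (q ^ A * y ^ 2) * (2 * γ + 1) := by ring
      _ ≤ q * (q ^ A * y ^ 2) * (2 * q ^ γ) := Nat.mul_le_mul_left _ hgq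
      _ ≤ q * (q ^ A * y ^ 2) * (q * q ^ γ) := by
          apply Nat.mul_le_mul_left
          exact Nat.mul_le_mul_right _ hq
      _ = q ^ (A + γ + 2) * y ^ 2 := by
          rw [pow_add, pow_add]
          ring
      _ ≤ q ^ (A + γ + 2) * y ^ (A + γ + 2) := by
          apply Nat.mul_le_mul_left
          exact Nat.pow_le_pow_right hy (by omega)
      _ = (q * y) ^ (A + γ + 2) := by rw [mul_pow]

theorem coprime_of {a Q : ℕ} (h : ∀ l : ℕ, l.Prime → l ∣ Q → ¬ (l : ℤ) ∣ (a : ℤ)) :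
    Nat.Coprime a Q := by
  by_contra hc
  obtain ⟨l, hl, h1, h2⟩ := Nat.Prime.not_coprime_iff_dvd.1 hc
  exact h l hl h2 (by exact_mod_cast h1)

/-- the choice of residues modulo an odd number -/
theorem residues (Q n : ℕ) (hQ : Odd Q) : ∃ z : ℕ, (z = 1 ∨ z = 2) ∧ ∃ a1 a2 : ℕ,
    Nat.Coprime a1 Q ∧ Nat.Coprime a2 Q ∧ z * (a1 + 1) * (a2 + 1) ≡ n [MOD Q] := by
  classical
  obtain ⟨z, hz, hz3⟩ : ∃ z : ℕ, (z = 1 ∨ z = 2) ∧ ¬ (3 : ℤ) ∣ (n : ℤ) - 2 * z := by
    by_cases h : n % 3 = 2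
    · exact ⟨2, Or.inr rfl, by omega⟩
    · exact ⟨1, Or.inl rfl, by omega⟩
  refine ⟨z, hz, ?_⟩
  have hQ0 : 0 < Q := hQ.pos
  let A : ℕ := ∏ l ∈ Q.primeFactors.filter (fun l => ((l : ℕ) : ℤ) ∣ (n : ℤ) - 2 * z), l
  let B : ℕ := ∏ l ∈ Q.primeFactors.filter (fun l => ¬ ((l : ℕ) : ℤ) ∣ (n : ℤ) - 2 * z), l
  have hAB : Nat.Coprime A B := by
    apply Nat.Coprime.prod_left
    intro l hl
    apply Nat.Coprime.prod_right
    intro l' hl'
    rw [mem_filter] at hl hl'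
    rw [Nat.coprime_primes (Nat.prime_of_mem_primeFactors hl.1) (Nat.prime_of_mem_primeFactors hl'.1)]
    rintro rfl
    exact hl'.2 hl.2
  obtain ⟨y0, hyA, hyB⟩ := Nat.chineseRemainder hAB 3 2
  let y : ℕ := y0 + A * B
  have hA0 : 0 < A := Finset.prod_pos fun l hl =>
    (Nat.prime_of_mem_primeFactors (mem_filter.1 hl).1).pos
  have hB0 : 0 < B := Finset.prod_pos fun l hl =>
    (Nat.prime_of_mem_primeFactors (mem_filter.1 hl).1).pos
  have hy1 : 1 ≤ y := by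
    have : 0 < A * B := Nat.mul_pos hA0 hB0
    simp only [y]
    omega
  have key : ∀ l : ℕ, l.Prime → l ∣ Q → ¬ (l : ℤ) ∣ (y : ℤ) ∧ ¬ (l : ℤ) ∣ (y : ℤ) - 1 ∧
      ¬ (l : ℤ) ∣ (n : ℤ) - z * y := by
    intro l hl hlQ
    have hl2 : l ≠ 2 := by
      rintro rfl
      have := Nat.odd_iff.1 hQ
      omega
    have hl3 : 3 ≤ l := by
      have := hl.two_le
      omega
    have hmem : l ∈ Q.primeFactors := Nat.mem_primeFactors.2 ⟨hl, hlQ, hQ0.ne'⟩
    have small : ∀ c : ℤ, c ≠ 0 → |c| < l → ¬ (l : ℤ) ∣ c := by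
      intro c hc hcl hd
      have := Int.le_of_dvd (abs_pos.2 hc) ((dvd_abs _ _).2 hd)
      omega
    by_cases hd : ((l : ℕ) : ℤ) ∣ (n : ℤ) - 2 * z
    · have hlA : l ∣ A := Finset.dvd_prod_of_mem _ (mem_filter.2 ⟨hmem, hd⟩)
      have hl3' : l ≠ 3 := by
        rintro rfl
        exact hz3 (by exact_mod_cast hd)
      have hy3 : (l : ℤ) ∣ (y : ℤ) - 3 := by
        have h1 : (y0 : ℤ) ≡ 3 [ZMOD A] := by exact_mod_cast (Int.natCast_modEq_iff.2 hyA)
        have h2 : (A : ℤ) ∣ (y0 : ℤ) - 3 := (Int.modEq_iff_dvd.1 h1.symm)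
        have h3 : ((l : ℕ) : ℤ) ∣ (A : ℤ) := by exact_mod_cast hlA
        have h4 : (y : ℤ) - 3 = ((y0 : ℤ) - 3) + A * B := by simp only [y]; push_cast; ring
        rw [h4]
        exact dvd_add (h3.trans h2) (h3.trans (dvd_mul_right _ _))
      have hl5 : 4 ≤ l := by omega
      refine ⟨fun h => ?_, fun h => ?_, fun h => ?_⟩
      · exact small 3 (by norm_num) (by rw [abs_of_pos] <;> omega) (by
          have := dvd_sub h hy3
          simpa using this)
      · exact small 2 (by norm_num) (by rw [abs_of_pos] <;> omega) (by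
          have := dvd_sub h hy3
          have e : (y : ℤ) - 1 - ((y : ℤ) - 3) = 2 := by ring
          rwa [e] at this)
      · have h5 : (l : ℤ) ∣ (z : ℤ) := by
          have h6 : (z : ℤ) = ((n : ℤ) - 2 * z) - ((n : ℤ) - z * y) - z * ((y : ℤ) - 3) := by ring
          rw [h6]
          exact dvd_sub (dvd_sub hd h) (Dvd.dvd.mul_left hy3 _)
        rcases hz with h7 | h7
        · rw [h7] at h5
          exact small 1 (by norm_num) (by rw [abs_of_pos] <;> omega) (by simpa using h5)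
        · rw [h7] at h5
          exact small 2 (by norm_num) (by rw [abs_of_pos] <;> omega) (by simpa using h5)
    · have hlB : l ∣ B := Finset.dvd_prod_of_mem _ (mem_filter.2 ⟨hmem, hd⟩)
      have hy2 : (l : ℤ) ∣ (y : ℤ) - 2 := by
        have h1 : (y0 : ℤ) ≡ 2 [ZMOD B] := by exact_mod_cast (Int.natCast_modEq_iff.2 hyB)
        have h2 : (B : ℤ) ∣ (y0 : ℤ) - 2 := (Int.modEq_iff_dvd.1 h1.symm)
        have h3 : ((l : ℕ) : ℤ) ∣ (B : ℤ) := by exact_mod_cast hlB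
        have h4 : (y : ℤ) - 2 = ((y0 : ℤ) - 2) + B * A := by simp only [y]; push_cast; ring
        rw [h4]
        exact dvd_add (h3.trans h2) (h3.trans (dvd_mul_right _ _))
      refine ⟨fun h => ?_, fun h => ?_, fun h => ?_⟩
      · exact small 2 (by norm_num) (by rw [abs_of_pos] <;> omega) (by
          have := dvd_sub h hy2
          simpa using this)
      · exact small 1 (by norm_num) (by rw [abs_of_pos] <;> omega) (by
          have := dvd_sub h hy2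
          have e : (y : ℤ) - 1 - ((y : ℤ) - 2) = 1 := by ring
          rwa [e] at this)
      · apply hd
        have h6 : (n : ℤ) - 2 * z = ((n : ℤ) - z * y) + z * ((y : ℤ) - 2) := by ring
        rw [h6]
        exact dvd_add h (Dvd.dvd.mul_left hy2 _)
  have hyQ : Nat.Coprime y Q := coprime_of fun l hl hlQ => (key l hl hlQ).1
  have hzQ : Nat.Coprime z Q := by
    rcases hz with h | h
    · rw [h]
      exact Nat.coprime_one_left _
    · rw [h]
      exact Nat.coprime_two_left.2 hQ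
  have hzy : Nat.Coprime (z * y) Q := hzQ.mul_left hyQ
  obtain ⟨v, hv⟩ : ∃ v : ℕ, (z * y) * v ≡ 1 [MOD Q] := by
    rcases Nat.lt_or_ge 1 Q with h1 | h1
    · obtain ⟨v, -, hv⟩ := Nat.exists_mul_mod_eq_one_of_coprime hzy h1
      refine ⟨v, ?_⟩
      rw [Nat.ModEq, hv, Nat.mod_eq_of_lt h1]
    · have hQ1 : Q = 1 := by omega
      refine ⟨0, ?_⟩
      rw [hQ1]
      exact Nat.modEq_one
  let x : ℕ := n * v + Q
  have hx1 : 1 ≤ x := by simp only [x]; omega
  have hzyx : z * y * x ≡ n [MOD Q] := by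
    have h1 : z * y * x = n * (z * y * v) + Q * (z * y) := by simp only [x]; ring
    rw [h1]
    have h2 : n * (z * y * v) + Q * (z * y) ≡ n * 1 + 0 [MOD Q] :=
      Nat.ModEq.add (Nat.ModEq.mul_left n hv) ((Nat.modEq_zero_iff_dvd).2 (dvd_mul_right _ _))
    simpa using h2
  refine ⟨x - 1, y - 1, ?_, ?_, ?_⟩
  · refine coprime_of fun l hl hlQ hd => (key l hl hlQ).2.2 ?_
    rw [Nat.cast_sub hx1, Nat.cast_one] at hd
    have h1 : (Q : ℤ) ∣ (n : ℤ) - z * y * x := by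
      have := (Nat.modEq_iff_dvd.1 hzyx)
      push_cast at this
      exact this
    have h2 : ((l : ℕ) : ℤ) ∣ (Q : ℤ) := by exact_mod_cast hlQ
    have h3 : (n : ℤ) - z * y = ((n : ℤ) - z * y * x) + z * y * ((x : ℤ) - 1) := by ring
    rw [h3]
    exact dvd_add (h2.trans h1) (Dvd.dvd.mul_left hd _)
  · refine coprime_of fun l hl hlQ hd => (key l hl hlQ).2.1 ?_
    rwa [Nat.cast_sub hy1, Nat.cast_one] at hd
  · rw [Nat.sub_add_cancel hx1, Nat.sub_add_cancel hy1]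
    have : z * x * y = z * y * x := by ring
    rw [this]
    exact hzyx

end Pool.Agent.H182.MP
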