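import Pool.Agent.H182.MPK
import Pool.Agent.H182.MPL
import Pool.Graph.R_seed8.W69.MH.Conf2
import Pool.Graph.R_seed8.W372.MH.SEM
import Pool.Graph.R_seed8.W131.MH.Core
import Pool.Graph.R_seed8.W298.MH.Pal
import Pool.Graph.R_seed8.W930.MH.Had

/-!
# Modular Hadamard matrices with moduli up to a power of the order
-/

namespace Pool.Agent.H182.MP

open Finset Matrix Pool.Agent.H114R2 Pool.Agent.W69.MH

theorem modHad_of_hasMod {m n : ℕ} (h : HasMod (m : ℤ) n) : ModHad m n := by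
  obtain ⟨H, h1, h2⟩ := h
  refine ⟨H, h1, fun i j hij => ?_⟩
  rw [Matrix.mul_apply]
  exact h2 i j hij

theorem had1 {p : ℕ} (hp : p.Prime) (h4 : p % 4 = 3) : ModHad 0 (p + 1) := by
  have h1 := (Pool.Agent.W298.MH.pal (-1) 0 p hp (Or.inr rfl) (by omega)).2
  exact modHad_of_hasMod (by simpa using Pool.Agent.W930.MH.had.1 0 (p + 1) h1)

theorem had2 {p : ℕ} (hp : p.Prime) (h2 : p % 2 = 1) : ModHad 0 (2 * (p + 1)) := by
  rcases (by omega : p % 4 = 1 ∨ p % 4 = 3) with h4 | h4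
  · have h1 := (Pool.Agent.W298.MH.pal 1 0 p hp (Or.inl rfl) (by omega)).2
    exact modHad_of_hasMod (by simpa using Pool.Agent.W930.MH.had.2.1 0 (p + 1) h1)
  · have h1 := (Pool.Agent.W298.MH.pal (-1) 0 p hp (Or.inr rfl) (by omega)).2
    have h3 := Pool.Agent.W930.MH.had.1 0 (p + 1) h1
    exact modHad_of_hasMod (by simpa using Pool.Agent.W930.MH.had.2.2 0 (p + 1) h3)

theorem asm {L : ℕ} (hL : ∀ q a y : ℕ, 2 ≤ q → Nat.Coprime a q → 1 ≤ y →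
    ∃ p : ℕ, p.Prime ∧ p ≡ a [MOD q] ∧ y ≤ p ∧ p ≤ (q * y) ^ L)
    {m n t k P Q z b1 b2 a1 a2 K : ℕ} (hm : 0 < m) (hW : Wei (4 * t) k) (ht : 0 < t)
    (hk : 4 * k ≡ n [MOD m]) (hD : 4 * t * m ∣ P * Q) (hP : P = 2 ^ K) (hK : 2 ≤ K) (hQ : Odd Q)
    (hz : z = 1 ∨ z = 2) (ha1 : Nat.Coprime a1 Q) (ha2 : Nat.Coprime a2 Q)
    (ha : z * (a1 + 1) * (a2 + 1) ≡ n [MOD Q]) (hb1 : b1 % 2 = 1) (hb2 : b2 % 4 = 3)
    (hb1' : z = 1 → b1 % 4 = 3) (hb : z * (b1 + 1) * (b2 + 1) ≡ n [MOD P])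
    (hbig : 2 * ((P * Q * (4 * t)) ^ L + 1) * ((P * Q * (4 * t)) ^ L + 1) ≤ n) : ModHad m n := by
  have hQ0 : 0 < Q := hQ.pos
  have h4P : 4 ∣ P := by
    rw [hP]
    exact pow_dvd_pow 2 hK
  have hP0 : 0 < P := by rw [hP]; positivity
  have hP4 : 4 ≤ P := Nat.le_of_dvd hP0 h4P
  have hQP : Nat.Coprime Q P := by
    rw [hP]
    exact Nat.Coprime.pow_right _ (Nat.coprime_two_right.2 hQ)
  have hPQ2 : 2 ≤ P * Q := by nlinarith
  have main : ∀ a b : ℕ, Nat.Coprime a Q → b % 2 = 1 → ∃ p : ℕ, p.Prime ∧ p ≡ a [MOD Q] ∧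
      p ≡ b [MOD P] ∧ 4 * t ≤ p ∧ p ≤ (P * Q * (4 * t)) ^ L := by
    intro a b ha hb
    obtain ⟨c, hc1, hc2⟩ := Nat.chineseRemainder hQP a b
    have h1 : Nat.Coprime c Q := by
      have := hc1.gcd_eq
      rw [Nat.Coprime, this]
      exact ha
    have h2 : Nat.Coprime c P := by
      rw [hP]
      apply Nat.Coprime.pow_right
      rw [Nat.coprime_two_right, Nat.odd_iff]
      have h3 : c ≡ b [MOD 2] := hc2.of_dvd ((by norm_num : (2 : ℕ) ∣ 4).trans h4P)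
      have h4 : c % 2 = b % 2 := h3
      omega
    obtain ⟨p, p1, p2, p3, p4⟩ := hL (P * Q) c (4 * t) hPQ2 (h2.mul_right h1) (by omega)
    exact ⟨p, p1, (p2.of_dvd (dvd_mul_left _ _)).trans hc1, (p2.of_dvd (dvd_mul_right _ _)).trans hc2,
      p3, p4⟩
  obtain ⟨p1, c1, c2, c3, c4, c5⟩ := main a1 b1 ha1 hb1
  obtain ⟨p2, d1, d2, d3, d4, d5⟩ := main a2 b2 ha2 (by omega)
  have e4 : p2 % 4 = 3 := by
    have : p2 ≡ b2 [MOD 4] := d3.of_dvd h4P
    have h1 : p2 % 4 = b2 % 4 := this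
    omega
  have hH1 : ModHad 0 (z * (p1 + 1)) := by
    rcases hz with h | h
    · have h1 : p1 ≡ b1 [MOD 4] := c3.of_dvd h4P
      have h2 : p1 % 4 = b1 % 4 := h1
      have h3 := hb1' h
      rw [h, one_mul]
      exact had1 c1 (by omega)
    · have h1 : p1 ≡ b1 [MOD 4] := c3.of_dvd h4P
      have h2 : p1 % 4 = b1 % 4 := h1
      rw [h]
      exact had2 c1 (by omega)
  have hH2 : ModHad 0 (p2 + 1) := had1 d1 e4
  have hz1 : 1 ≤ z := by omega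
  have hn0 : z * (p1 + 1) * (p2 + 1) ≡ n [MOD (P * Q)] := by
    rw [mul_comm P Q]
    refine (Nat.modEq_and_modEq_iff_modEq_mul hQP).1 ⟨?_, ?_⟩
    · refine Nat.ModEq.trans ?_ ha
      exact Nat.ModEq.mul (Nat.ModEq.mul_left _ (c2.add_right 1)) (d2.add_right 1)
    · refine Nat.ModEq.trans ?_ hb
      exact Nat.ModEq.mul (Nat.ModEq.mul_left _ (c3.add_right 1)) (d3.add_right 1)
  have hle : z * (p1 + 1) * (p2 + 1) ≤ n := by
    refine le_trans ?_ hbig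
    exact Nat.mul_le_mul (Nat.mul_le_mul (by omega) (by omega)) (by omega)
  have hdvd : 4 * t * m ∣ n - z * (p1 + 1) * (p2 + 1) :=
    hD.trans ((Nat.modEq_iff_dvd' hle).1 hn0)
  obtain ⟨u, hu⟩ := hdvd
  have hmk : 4 * k ≡ z * (p1 + 1) * (p2 + 1) [MOD m] :=
    hk.trans ((hn0.of_dvd ((dvd_mul_left m (4 * t)).trans hD)).symm)
  have hs1 : 4 * t ≤ z * (p1 + 1) := by nlinarith
  have := blow hH1 hH2 hs1 (by omega) (by positivity) (by omega) hW hm hmk (dvd_mul_right m u)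
  have e : z * (p1 + 1) * (p2 + 1) + 4 * t * (m * u) = n := by
    rw [← mul_assoc, ← hu]
    omega
  rwa [e] at this

theorem bound {m L N n : ℕ} (hm : 2 ≤ m) (hN : N ≤ m ^ 31) (hn : m ^ (62 * L + 3) ≤ n) :
    2 * (N ^ L + 1) * (N ^ L + 1) ≤ n := by
  have h1 : N ^ L ≤ (m ^ 31) ^ L := Nat.pow_le_pow_left hN L
  have h2 : 1 ≤ (m ^ 31) ^ L := Nat.one_le_pow _ _ (by positivity)
  refine le_trans ?_ hn
  calc 2 * (N ^ L + 1) * (N ^ L + 1) ≤ 2 * ((m ^ 31) ^ L + (m ^ 31) ^ L) *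
        ((m ^ 31) ^ L + (m ^ 31) ^ L) := by
        refine Nat.mul_le_mul (Nat.mul_le_mul_left _ ?_) ?_ <;> omega
    _ = 2 ^ 3 * ((m ^ 31) ^ L * (m ^ 31) ^ L) := by ring
    _ ≤ m ^ 3 * ((m ^ 31) ^ L * (m ^ 31) ^ L) :=
        Nat.mul_le_mul_right _ (Nat.pow_le_pow_left hm 3)
    _ = m ^ (62 * L + 3) := by
        rw [← pow_mul, ← pow_add, ← pow_add]
        congr 1
        ring

theorem partb : ∃ C : ℕ, ∀ m n : ℕ, 2 ≤ m → 4 ∣ n → (Odd m ∨ 16 ∣ n) → m ^ C ≤ n → ModHad m n := by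
  obtain ⟨L, hL1, hL⟩ := prime_ge
  refine ⟨62 * L + 3, fun m n hm h4 hor hn => ?_⟩
  have hm0 : 0 < m := by omega
  have hn0 : 0 < n := lt_of_lt_of_le (by positivity) hn
  obtain ⟨k, hk0, hkm, hk⟩ : ∃ k : ℕ, 0 < k ∧ k ≤ m ∧ k ≡ n / 4 [MOD m] := by
    rcases Nat.eq_zero_or_pos (n / 4 % m) with h | h
    · refine ⟨m, hm0, le_rfl, ?_⟩
      rw [Nat.ModEq, h, Nat.mod_self]
    · exact ⟨n / 4 % m, h, (Nat.mod_lt _ hm0).le, Nat.mod_modEq _ _⟩
  have hk4 : 4 * k ≡ n [MOD m] := by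
    have h1 := Nat.ModEq.mul_left 4 hk
    have h2 : 4 * (n / 4) = n := Nat.mul_div_cancel' h4
    rwa [h2] at h1
  obtain ⟨t, ht1, ht2, hW⟩ := wei_exists k hk0
  have ht0 : 0 < t := ht1.pos
  have htm : t ≤ m ^ 12 := ht2.trans (Nat.pow_le_pow_left hkm 12)
  have htt : t * t ≤ m ^ 12 * m ^ 12 := Nat.mul_le_mul htm htm
  rcases hor with hodd | h16
  · -- odd moduli
    have hQ : Odd (t * m) := ht1.mul hodd
    obtain ⟨z, hz, a1, a2, ha1, ha2, ha⟩ := residues (t * m) n hQ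
    refine asm hL (P := 4) (Q := t * m) (K := 2) (b1 := 3) (b2 := 3) hm0 hW ht0 hk4 ?_ (by norm_num)
      le_rfl hQ hz ha1 ha2 ha (by norm_num) (by norm_num) (fun _ => by norm_num) ?_ ?_
    · rw [mul_assoc]
    · have h1 : z * (3 + 1) * (3 + 1) ≡ 0 [MOD 4] :=
        (Nat.modEq_zero_iff_dvd).2 (dvd_mul_left _ _)
      exact h1.trans ((Nat.modEq_zero_iff_dvd).2 h4).symm
    · refine bound hm ?_ hn
      calc 4 * (t * m) * (4 * t) = 2 ^ 4 * (t * t * m) := by ring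
        _ ≤ m ^ 4 * (m ^ 12 * m ^ 12 * m) :=
            Nat.mul_le_mul (Nat.pow_le_pow_left hm 4) (Nat.mul_le_mul_right _ htt)
        _ = m ^ 29 := by ring
        _ ≤ m ^ 31 := Nat.pow_le_pow_right hm0 (by norm_num)
  · obtain ⟨e, m', hm', hme⟩ := Nat.exists_eq_two_pow_mul_odd hm0.ne'
    have hQ : Odd (t * m') := ht1.mul hm'
    obtain ⟨z, hz, a1, a2, ha1, ha2, ha⟩ := residues (t * m') n hQ
    obtain ⟨n', hn'⟩ := h16
    have hn'0 : 0 < n' := by omega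
    have hcommon : 2 ^ (e + 4) * (t * m') * (4 * t) ≤ m ^ 31 := by
      calc 2 ^ (e + 4) * (t * m') * (4 * t) = 2 ^ 6 * (t * t * (2 ^ e * m')) := by
            rw [pow_add]
            ring
        _ = 2 ^ 6 * (t * t * m) := by rw [← hme]
        _ ≤ m ^ 6 * (m ^ 12 * m ^ 12 * m) :=
            Nat.mul_le_mul (Nat.pow_le_pow_left hm 6) (Nat.mul_le_mul_right _ htt)
        _ = m ^ 31 := by ring
    have hD : 4 * t * m ∣ 2 ^ (e + 4) * (t * m') := by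
      refine ⟨4, ?_⟩
      have h1 : 4 * t * m * 4 = 4 * t * (2 ^ e * m') * 4 := by rw [← hme]
      rw [h1, pow_add]
      ring
    rcases hz with h1 | h2
    · refine asm hL (P := 2 ^ (e + 4)) (Q := t * m') (K := e + 4) (b1 := 4 * n' - 1) (b2 := 3) hm0 hW
        ht0 hk4 hD rfl (by omega) hQ (Or.inl h1) ha1 ha2 ha (by omega) (by norm_num)
        (fun _ => by omega) ?_ (bound hm hcommon hn)
      rw [h1, hn', Nat.sub_add_cancel (by omega)]
      have : 1 * (4 * n') * (3 + 1) = 16 * n' := by ring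
      rw [this]
    · refine asm hL (P := 2 ^ (e + 4)) (Q := t * m') (K := e + 4) (b1 := 2 * n' - 1) (b2 := 3) hm0 hW
        ht0 hk4 hD rfl (by omega) hQ (Or.inr h2) ha1 ha2 ha (by omega) (by norm_num)
        (fun h => by omega) ?_ (bound hm hcommon hn)
      rw [h2, hn', Nat.sub_add_cancel (by omega)]
      have : 2 * (2 * n') * (3 + 1) = 16 * n' := by ring
      rw [this]

end Pool.Agent.H182.MP
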