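import Pool.Agent.H182.MPK

/-!
# Blow-ups modulo `4 m`, `m` odd
-/

namespace Pool.Agent.H182.MP

open Finset Matrix Pool.Agent.H114R2 Pool.Agent.H182.Mod

theorem par4 {κ : Type} [Fintype κ] (x : κ → ℤ) (hx : ∀ i, x i = 1 ∨ x i = -1)
    (hprod : ∏ i, x i = 1) (h4 : 4 ∣ Fintype.card κ) : (4 : ℤ) ∣ ∑ i, x i := by
  classical
  have h1 : ∀ i, x i = if x i = -1 then -1 else 1 := by
    intro i
    split_ifs with h
    · exact h
    · exact (hx i).resolve_right h
  have h2 : ∏ i, x i = (-1) ^ (univ.filter fun i => x i = -1).card := by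
    calc ∏ i, x i = ∏ i, (if x i = -1 then (-1 : ℤ) else 1) := Finset.prod_congr rfl fun i _ => h1 i
      _ = _ := by rw [Finset.prod_ite, Finset.prod_const, Finset.prod_const_one, mul_one]
  have h3 : ∑ i, x i = (Fintype.card κ : ℤ) - 2 * ((univ.filter fun i => x i = -1).card : ℤ) := by
    have h4 : ∀ i, x i = 1 - 2 * (if x i = -1 then (1 : ℤ) else 0) := by
      intro i
      rcases hx i with h | h <;> rw [h] <;> norm_num
    calc ∑ i, x i = ∑ i, (1 - 2 * (if x i = -1 then (1 : ℤ) else 0)) :=
          Finset.sum_congr rfl fun i _ => h4 i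
      _ = _ := by
          rw [Finset.sum_sub_distrib, ← Finset.mul_sum]
          simp
  rw [h2] at hprod
  have h5 : Even (univ.filter fun i => x i = -1).card := by
    by_contra ho
    rw [Nat.not_even_iff_odd] at ho
    rw [ho.neg_one_pow] at hprod
    norm_num at hprod
  rw [h3]
  obtain ⟨r, hr⟩ := h5
  obtain ⟨c, hc⟩ := h4
  rw [hr, hc]
  push_cast
  exact ⟨(c : ℤ) - r, by ring⟩

theorem blowup4 {ι S : Type} [Fintype ι] [DecidableEq ι] [Fintype S] [DecidableEq S]
    (m n0 w : ℕ) (hm : Odd m) (H : Matrix ι ι ℤ) (hH : ∀ i j, H i j = 1 ∨ H i j = -1)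
    (hHH : ∀ i j, i ≠ j → (m : ℤ) ∣ (H * Hᵀ) i j) (hcard : Fintype.card ι = n0)
    (x y : S → ι) (hx : Function.Injective x) (hy : Function.Injective y)
    (M : Matrix S S ℤ) (hM : ∀ j l, M j l = 0 ∨ M j l = H (x j) (y l)) (k : ℕ)
    (hMM : M * Mᵀ = (k : ℤ) • 1) (hk : 4 * k ≡ n0 [MOD m]) (hw : m ∣ w)
    (h4 : 4 ∣ n0) (hS4 : 4 ∣ Fintype.card S) (ε : ℤ) (hε : ∀ i, ∏ j, H i j = ε)
    (hS : ∀ i, ∏ c, H i (y c) = 1) (hpar : ∀ j, ∏ c, (if M j c = 0 then (1 : ℤ) else -1) = 1) :
    ModHad (4 * m) (n0 + Fintype.card S * w) := by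
  classical
  let R := {a : ι // a ∉ Set.range x}
  let R' := {a : ι // a ∉ Set.range y}
  let ex : S ⊕ R ≃ ι :=
    (Equiv.sumCongr (Equiv.ofInjective x hx) (Equiv.refl _)).trans (Equiv.Set.sumCompl (Set.range x))
  let ey : S ⊕ R' ≃ ι :=
    (Equiv.sumCongr (Equiv.ofInjective y hy) (Equiv.refl _)).trans (Equiv.Set.sumCompl (Set.range y))
  have hex : ∀ j, ex (Sum.inl j) = x j := by
    intro j
    exact Equiv.Set.sumCompl_apply_inl _ _
  have hey : ∀ j, ey (Sum.inl j) = y j := by
    intro j
    exact Equiv.Set.sumCompl_apply_inl _ _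
  let A : Matrix (S ⊕ R) (S ⊕ R') ℤ := H.submatrix ex ey
  have hNe : NeZero m := ⟨hm.pos.ne'⟩
  have hAA : ∀ a b, (((A * Aᵀ) a b : ℤ) : ZMod m) = if a = b then (n0 : ZMod m) else 0 := by
    intro a b
    have h1 : A * Aᵀ = (H * Hᵀ).submatrix ex ex := by
      simp only [A]
      rw [Matrix.transpose_submatrix, Matrix.submatrix_mul_equiv]
    rw [h1, Matrix.submatrix_apply]
    by_cases hab : a = b
    · rw [if_pos hab, hab, diag_sign H hH, hcard]
      simp
    · rw [if_neg hab, ZMod.intCast_zmod_eq_zero_iff_dvd]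
      exact hHH _ _ (fun h => hab (ex.injective h))
  have hcR : Fintype.card S + Fintype.card R = n0 := by
    rw [← Fintype.card_sum, Fintype.card_congr ex, hcard]
  have hcR' : Fintype.card S + Fintype.card R' = n0 := by
    rw [← Fintype.card_sum, Fintype.card_congr ey, hcard]
  let E : Matrix ((S × Option (Fin w)) ⊕ R) ((S × Option (Fin w)) ⊕ R') ℤ := blowE A M
  have hcW : Fintype.card (Option (Fin w)) = w + 1 := by simp
  have hcc : Fintype.card ((S × Option (Fin w)) ⊕ R') = n0 + Fintype.card S * w := by
    rw [Fintype.card_sum, Fintype.card_prod, hcW]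
    nlinarith
  have hA : ∀ a b, A a b = 1 ∨ A a b = -1 := fun a b => hH _ _
  have hMA : ∀ a b, M a b = 0 ∨ M a b = A (Sum.inl a) (Sum.inl b) := by
    intro a b
    rcases hM a b with h | h
    · exact Or.inl h
    · right
      rw [h]
      simp only [A, Matrix.submatrix_apply, hex, hey]
  have hEs : ∀ a b, E a b = 1 ∨ E a b = -1 := by
    rintro (⟨a, t⟩ | a) (⟨b, u⟩ | b)
    · simp only [E, blowE]
      split_ifs with h
      · simpa using hA _ _
      · rcases hMA a b with h0 | h0
        · rw [h0]
          simpa using hA _ _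
        · rw [h0]
          rcases hA (Sum.inl a) (Sum.inl b) with h1 | h1 <;> rw [h1] <;> norm_num
    · exact hA _ _
    · exact hA _ _
    · exact hA _ _
  have hAr : ∀ a, ∏ b, A a b = ε := by
    intro a
    simp only [A, Matrix.submatrix_apply]
    rw [Equiv.prod_comp ey (fun b => H (ex a) b), hε]
  have hAS : ∀ a, ∏ c, A a (Sum.inl c) = 1 := by
    intro a
    simp only [A, Matrix.submatrix_apply, hey]
    exact hS _
  have hAR : ∀ a, ∏ b, A a (Sum.inr b) = ε := by
    intro a
    have := hAr a
    rw [Fintype.prod_sum_type, hAS, one_mul] at this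
    exact this
  have hrow : ∀ a, ∏ b, E a b = ε := by
    rintro (⟨j, t⟩ | r)
    · rw [Fintype.prod_sum_type, Fintype.prod_prod_type]
      have h1 : ∀ c, ∏ u, E (Sum.inl (j, t)) (Sum.inl (c, u)) =
          A (Sum.inl j) (Sum.inl c) ^ (w + 1) * (if M j c = 0 then (1 : ℤ) else -1) ^ w := by
        intro c
        have h2 : ∀ u, E (Sum.inl (j, t)) (Sum.inl (c, u)) = A (Sum.inl j) (Sum.inl c) *
            (if t = u then 1 else (if M j c = 0 then (1 : ℤ) else -1)) := by
          intro u
          simp only [E, blowE]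
          split_ifs with h h'
          · ring
          · rw [h']
            ring
          · rw [(hMA j c).resolve_left h']
            ring
        rw [Finset.prod_congr rfl fun u _ => h2 u, Finset.prod_mul_distrib, Finset.prod_const,
          Finset.card_univ, hcW, Finset.prod_ite, Finset.prod_const_one, one_mul, Finset.prod_const]
        congr 2
        have h3 : (univ.filter fun u : Option (Fin w) => ¬ t = u) = univ.erase t := by
          ext u
          simp [eq_comm]
        rw [h3, Finset.card_erase_of_mem (mem_univ _), Finset.card_univ, hcW]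
        simp
      rw [Finset.prod_congr rfl fun c _ => h1 c, Finset.prod_mul_distrib, Finset.prod_pow,
        Finset.prod_pow, hAS, hpar, one_pow, one_pow, one_mul, one_mul]
      exact hAR (Sum.inl j)
    · rw [Fintype.prod_sum_type, Fintype.prod_prod_type]
      have h1 : ∀ c, ∏ u : Option (Fin w), E (Sum.inr r) (Sum.inl (c, u)) =
          A (Sum.inr r) (Sum.inl c) ^ (w + 1) := by
        intro c
        have h2 : ∀ u : Option (Fin w), E (Sum.inr r) (Sum.inl (c, u)) = A (Sum.inr r) (Sum.inl c) :=
          fun u => rfl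
        rw [Finset.prod_congr rfl fun u _ => h2 u, Finset.prod_const, Finset.card_univ, hcW]
      rw [Finset.prod_congr rfl fun c _ => h1 c, Finset.prod_pow, hAS, one_pow, one_mul]
      exact hAR (Sum.inr r)
  refine modHad_of_type (ι := (S × Option (Fin w)) ⊕ R) (κ := (S × Option (Fin w)) ⊕ R')
    ?_ hcc E hEs ?_
  · rw [Fintype.card_sum, Fintype.card_prod, hcW]
    nlinarith
  · intro i j hij
    have hm1 : (m : ℤ) ∣ (E * Eᵀ) i j := by
      rw [← ZMod.intCast_zmod_eq_zero_iff_dvd]
      let φ : ℤ →+* ZMod m := Int.castRingHom (ZMod m)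
      have h1 : blowE (A.map φ) (M.map φ) = E.map φ := by
        ext (⟨a, t⟩ | a) (⟨b, u⟩ | b)
        · simp only [E, blowE, Matrix.map_apply]
          split_ifs <;> simp
        · rfl
        · rfl
        · rfl
      have h2 := blow_mul (K := ZMod m) (W := Option (Fin w)) (S := S) (R := R) (R' := R')
        (by
          rw [hcW]
          push_cast
          rw [(ZMod.natCast_eq_zero_iff w m).2 hw, zero_add])
        (A.map φ) (M.map φ) (n0 : ZMod m)
        (by
          rw [← Matrix.transpose_map, ← Matrix.map_mul]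
          ext a b
          rw [Matrix.map_apply, Matrix.smul_apply, Matrix.one_apply]
          have h3 := hAA a b
          simp only [φ, eq_intCast]
          rw [h3]
          split_ifs <;> simp)
        (by
          rw [← Matrix.transpose_map, ← Matrix.map_mul, hMM]
          ext a b
          simp only [Matrix.smul_apply, Matrix.map_apply, Matrix.one_apply, smul_eq_mul, map_mul]
          have : (4 : ZMod m) * (k : ZMod m) = (n0 : ZMod m) := by
            have := (ZMod.natCast_eq_natCast_iff _ _ _).2 hk
            push_cast at this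
            exact this
          split_ifs
          · simp only [φ, eq_intCast, Int.cast_natCast, Int.cast_one, mul_one]
            exact this
          · simp) i j hij
      rw [h1, ← Matrix.transpose_map, ← Matrix.map_mul] at h2
      exact h2
    have hm4 : (4 : ℤ) ∣ (E * Eᵀ) i j := by
      rw [Matrix.mul_apply]
      refine par4 _ (fun c => ?_) ?_ ?_
      · rw [Matrix.transpose_apply]
        exact sgn_mul (hEs i c) (hEs j c)
      · have h5 : ∏ c, E i c * Eᵀ c j = (∏ c, E i c) * ∏ c, E j c := by
          rw [← Finset.prod_mul_distrib]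
          rfl
        rw [h5, hrow, hrow]
        have h6 : ∀ s : Finset ((S × Option (Fin w)) ⊕ R'), ∏ c ∈ s, E i c = 1 ∨ ∏ c ∈ s, E i c = -1 := by
          intro s
          induction s using Finset.induction_on with
          | empty => left; simp
          | insert a s ha ih =>
            rw [Finset.prod_insert ha]
            exact sgn_mul (hEs i a) ih
        have h7 := h6 univ
        rw [hrow] at h7
        exact sgn_sq h7
      · rw [hcc]
        exact dvd_add h4 (Dvd.dvd.mul_right hS4 _)
    push_cast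
    have hco : IsCoprime (4 : ℤ) (m : ℤ) := by
      have h8 : Nat.Coprime 4 m := by
        have : Nat.Coprime (2 ^ 2) m := Nat.Coprime.pow_left 2 (Nat.coprime_two_left.2 hm)
        simpa using this
      exact_mod_cast Nat.isCoprime_iff_coprime.2 h8
    exact hco.mul_dvd hm4 hm1

end Pool.Agent.H182.MP
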