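import Pool.Agent.H182.MPP

/-!
# Hadamard matrices of order `2 h₁ h₂` with a given pattern and with all row products one
-/

namespace Pool.Agent.H182.MP

open Finset Matrix Pool.Agent.H114R2 Pool.Agent.H182.Mod

/-- filling the zeros of a row so that the product is one -/
theorem fill {S : Type} [Fintype S] [DecidableEq S] (r : S → ℤ)
    (hr : ∀ c, r c = 0 ∨ r c = 1 ∨ r c = -1) (z : S) (hz : r z = 0) :
    ∃ g : S → ℤ, (∀ c, g c = 1 ∨ g c = -1) ∧ (∀ c, r c = 0 ∨ r c = g c) ∧ ∏ c, g c = 1 := by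
  let g0 : S → ℤ := fun c => if r c = 0 then 1 else r c
  have h0 : ∀ c, g0 c = 1 ∨ g0 c = -1 := by
    intro c
    simp only [g0]
    split_ifs with h
    · exact Or.inl rfl
    · exact (hr c).resolve_left h
  have hP : ∀ s : Finset S, ∏ c ∈ s, g0 c = 1 ∨ ∏ c ∈ s, g0 c = -1 := by
    intro s
    induction s using Finset.induction_on with
    | empty => left; simp
    | insert a s ha ih =>
      rw [Finset.prod_insert ha]
      exact sgn_mul (h0 a) ih
  have hPu := hP univ
  refine ⟨fun c => g0 c * (if c = z then ∏ c, g0 c else 1), fun c => ?_, fun c => ?_, ?_⟩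
  · refine sgn_mul (h0 c) ?_
    split_ifs
    · exact hPu
    · exact Or.inl rfl
  · by_cases h : r c = 0
    · exact Or.inl h
    · right
      have hc : c ≠ z := by
        rintro rfl
        exact h hz
      simp only [g0]
      rw [if_neg h, if_neg hc, mul_one]
  · rw [Finset.prod_mul_distrib, Finset.prod_ite_eq' univ z, if_pos (mem_univ _)]
    exact sgn_sq hPu

theorem base4 {h1 h2 u : ℕ} (hH1 : ModHad 0 h1) (hH2 : ModHad 0 h2) (he : Even h1) (hu : Even u)
    (hs1 : 2 * u ≤ h1) (hs2 : u ≤ h2) (hp1 : 0 < h1) (hp2 : 0 < h2)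
    (M : Matrix (Fin u × Bool) (Fin u × Bool) ℤ) (hM : Tern M) (hM0 : ∀ a, ∃ b, M a b = 0) :
    ∃ (K : Matrix (Fin h1 × (Fin h2 × Bool)) (Fin h1 × (Fin h2 × Bool)) ℤ)
      (x y : Fin u × Bool → Fin h1 × (Fin h2 × Bool)),
      (∀ i j, K i j = 1 ∨ K i j = -1) ∧ (∀ i j, i ≠ j → (K * Kᵀ) i j = 0) ∧
      Function.Injective x ∧ Function.Injective y ∧ (∀ a b, M a b = 0 ∨ M a b = K (x a) (y b)) ∧
      (∀ i, ∏ j, K i j = 1) ∧ ∀ i, ∏ c, K i (y c) = 1 := by
  classical
  obtain ⟨H1, s1, o1⟩ := hH1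
  obtain ⟨H2, s2, o2⟩ := hH2
  let k0 : Fin h1 := ⟨0, hp1⟩
  let j0 : Fin h2 := ⟨0, hp2⟩
  let G1 : Matrix (Fin h1) (Fin h1) ℤ := fun i k => H1 i k * H1 i k0
  let G0 : Matrix (Fin h2) (Fin h2) ℤ := fun j l => H2 j l * H2 j0 l
  let sg : Bool → Bool → ℤ := fun e e' => if (e && e') = true then -1 else 1
  let G2 : Matrix (Fin h2 × Bool) (Fin h2 × Bool) ℤ := fun p q => G0 p.1 q.1 * sg p.2 q.2
  have hsg : ∀ e e', sg e e' = 1 ∨ sg e e' = -1 := by
    intro e e'
    simp only [sg]
    split_ifs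
    · exact Or.inr rfl
    · exact Or.inl rfl
  have g1 : ∀ i k, G1 i k = 1 ∨ G1 i k = -1 := fun i k => sgn_mul (s1 i k) (s1 i k0)
  have g0 : ∀ i k, G0 i k = 1 ∨ G0 i k = -1 := fun i k => sgn_mul (s2 i k) (s2 j0 k)
  have g2 : ∀ i k, G2 i k = 1 ∨ G2 i k = -1 := fun i k => sgn_mul (g0 _ _) (hsg _ _)
  have g1' : ∀ i, G1 i k0 = 1 := fun i => sgn_sq (s1 i k0)
  have g2' : ∀ l, G2 (j0, false) l = 1 := by
    intro l
    change H2 j0 l.1 * H2 j0 l.1 * sg false l.2 = 1
    rw [sgn_sq (s2 j0 l.1), one_mul]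
    simp [sg]
  have q1 : ∀ i i', i ≠ i' → ∑ k, G1 i k * G1 i' k = 0 := by
    intro i i' hi
    have : ∑ k, G1 i k * G1 i' k = (H1 i k0 * H1 i' k0) * ∑ k, H1 i k * H1 i' k := by
      rw [Finset.mul_sum]
      refine Finset.sum_congr rfl fun k _ => ?_
      simp only [G1]
      ring
    rw [this, modHad_zero o1 i i' hi, mul_zero]
  have q0 : ∀ j j', j ≠ j' → ∑ l, G0 j l * G0 j' l = 0 := by
    intro j j' hj
    have : ∑ l, G0 j l * G0 j' l = ∑ l, H2 j l * H2 j' l := by
      refine Finset.sum_congr rfl fun l _ => ?_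
      simp only [G0]
      calc H2 j l * H2 j0 l * (H2 j' l * H2 j0 l) = H2 j l * H2 j' l * (H2 j0 l * H2 j0 l) := by
            ring
        _ = _ := by rw [sgn_sq (s2 j0 l), mul_one]
    rw [this, modHad_zero o2 j j' hj]
  have q2 : ∀ j j', j ≠ j' → ∑ l, G2 j l * G2 j' l = 0 := by
    rintro ⟨j, e⟩ ⟨j', e'⟩ hj
    rw [Fintype.sum_prod_type]
    have h3 : ∀ l, ∑ d, G2 (j, e) (l, d) * G2 (j', e') (l, d) =
        (G0 j l * G0 j' l) * ∑ d, sg e d * sg e' d := by
      intro l
      rw [Finset.mul_sum]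
      refine Finset.sum_congr rfl fun d _ => ?_
      change G0 j l * sg e d * (G0 j' l * sg e' d) = _
      ring
    rw [Finset.sum_congr rfl fun l _ => h3 l, ← Finset.sum_mul]
    by_cases h : j = j'
    · have h' : e ≠ e' := fun h'' => hj (by rw [h, h''])
      have : ∑ d, sg e d * sg e' d = 0 := by
        rw [Fintype.sum_bool]
        revert h'
        cases e <;> cases e' <;> simp [sg]
      rw [this, mul_zero]
    · rw [q0 j j' h, zero_mul]
  have hfill : ∀ a, ∃ g : Fin u × Bool → ℤ, (∀ c, g c = 1 ∨ g c = -1) ∧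
      (∀ c, M a c = 0 ∨ M a c = g c) ∧ ∏ c, g c = 1 := by
    intro a
    obtain ⟨b, hb⟩ := hM0 a
    exact fill (fun c => M a c) (fun c => hM a c) b hb
  choose g gs gM gp using hfill
  have hcard : Fintype.card (Fin u × Bool) ≤ Fintype.card (Fin h1) := by
    simp only [Fintype.card_prod, Fintype.card_fin, Fintype.card_bool]
    omega
  obtain ⟨α⟩ := Function.Embedding.nonempty_of_card_le hcard
  let β : Fin u × Bool → Fin h2 × Bool := fun c => (⟨c.1.val, lt_of_lt_of_le c.1.2 hs2⟩, c.2)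
  have hβ : Function.Injective β := by
    rintro ⟨c, e⟩ ⟨c', e'⟩ h
    simp only [β, Prod.mk.injEq, Fin.mk.injEq] at h
    exact Prod.ext (Fin.ext h.1) h.2
  let f : Fin h1 → Fin h2 × Bool → ℤ :=
    Function.extend α (fun a => Function.extend β (g a) (fun _ => 1)) (fun _ _ => 1)
  have hf1 : ∀ a c, f (α a) (β c) = g a c := by
    intro a c
    simp only [f]
    rw [α.injective.extend_apply, hβ.extend_apply]
  have hf2 : ∀ i, (∃ a, α a = i) ∨ ∀ l, f i l = 1 := by
    intro i
    by_cases h : ∃ a, α a = i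
    · exact Or.inl h
    · right
      intro l
      simp only [f]
      rw [Function.extend_apply' _ _ _ h]
  have hf : ∀ i l, f i l = 1 ∨ f i l = -1 := by
    intro i l
    rcases hf2 i with ⟨a, rfl⟩ | h
    · by_cases h : ∃ c, β c = l
      · obtain ⟨c, rfl⟩ := h
        rw [hf1]
        exact gs a c
      · left
        simp only [f]
        rw [α.injective.extend_apply, Function.extend_apply' _ _ _ h]
    · exact Or.inl (h l)
  let K : Matrix (Fin h1 × (Fin h2 × Bool)) (Fin h1 × (Fin h2 × Bool)) ℤ :=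
    fun p q => G1 p.1 q.1 * G2 p.2 q.2 * f p.1 q.2
  have hpow : ∀ {a : ℤ} (_ : a = 1 ∨ a = -1) {e : ℕ} (_ : Even e), a ^ e = 1 := by
    intro a ha e he
    rcases ha with h | h
    · rw [h, one_pow]
    · rw [h, he.neg_one_pow]
  refine ⟨K, fun a => (α a, (j0, false)), fun b => (k0, β b), ?_, ?_, ?_, ?_, ?_, ?_, ?_⟩
  · intro i j
    exact sgn_mul (sgn_mul (g1 _ _) (g2 _ _)) (hf _ _)
  · rintro ⟨i, j⟩ ⟨i', j'⟩ hne
    rw [Matrix.mul_apply, Fintype.sum_prod_type_right]
    have h3 : ∀ l, ∑ k, K (i, j) (k, l) * Kᵀ (k, l) (i', j') =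
        (G2 j l * G2 j' l * (f i l * f i' l)) * ∑ k, G1 i k * G1 i' k := by
      intro l
      rw [Finset.mul_sum]
      refine Finset.sum_congr rfl fun k _ => ?_
      rw [Matrix.transpose_apply]
      change (G1 i k * G2 j l * f i l) * (G1 i' k * G2 j' l * f i' l) = _
      ring
    refine (Finset.sum_congr rfl fun l _ => h3 l).trans ?_
    by_cases hi : i = i'
    · subst hi
      have hj : j ≠ j' := fun h => hne (by rw [h])
      rw [← Finset.sum_mul]
      have h4 : ∑ l, G2 j l * G2 j' l * (f i l * f i l) = ∑ l, G2 j l * G2 j' l := by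
        refine Finset.sum_congr rfl fun l _ => ?_
        rw [sgn_sq (hf i l), mul_one]
      rw [h4, q2 j j' hj, zero_mul]
    · rw [q1 i i' hi]
      simp
  · intro a b hab
    simp only [Prod.mk.injEq, and_true] at hab
    exact α.injective hab
  · intro a b hab
    simp only [Prod.mk.injEq, true_and] at hab
    exact hβ hab
  · intro a b
    rcases gM a b with h | h
    · exact Or.inl h
    · right
      change M a b = G1 _ k0 * G2 (j0, false) _ * f _ _
      rw [g1', g2', hf1, one_mul, one_mul, h]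
  · rintro ⟨i, j⟩
    rw [Fintype.prod_prod_type]
    have h3 : ∀ k, ∏ l, K (i, j) (k, l) = G1 i k ^ (2 * h2) * ∏ l, (G2 j l * f i l) := by
      intro k
      have h4 : ∀ l, K (i, j) (k, l) = G1 i k * (G2 j l * f i l) := by
        intro l
        change G1 i k * G2 j l * f i l = _
        ring
      rw [Finset.prod_congr rfl fun l _ => h4 l, Finset.prod_mul_distrib, Finset.prod_const,
        Finset.card_univ, Fintype.card_prod, Fintype.card_fin, Fintype.card_bool, mul_comm h2 2]
    have h5 : ∀ k, ∏ l, K (i, j) (k, l) = ∏ l, (G2 j l * f i l) := by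
      intro k
      rw [h3, hpow (g1 i k) (even_two_mul h2), one_mul]
    rw [Finset.prod_congr rfl fun k _ => h5 k, Finset.prod_const, Finset.card_univ, Fintype.card_fin]
    refine hpow ?_ he
    have h6 : ∀ s : Finset (Fin h2 × Bool), ∏ c ∈ s, (G2 j c * f i c) = 1 ∨
        ∏ c ∈ s, (G2 j c * f i c) = -1 := by
      intro s
      induction s using Finset.induction_on with
      | empty => left; simp
      | insert a s ha ih =>
        rw [Finset.prod_insert ha]
        exact sgn_mul (sgn_mul (g2 _ _) (hf _ _)) ih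
    exact h6 univ
  · rintro ⟨i, ⟨j, e⟩⟩
    have h3 : ∀ c, K (i, (j, e)) (k0, β c) = G2 (j, e) (β c) * f i (β c) := by
      intro c
      change G1 i k0 * _ * _ = _
      rw [g1', one_mul]
    rw [Finset.prod_congr rfl fun c _ => h3 c, Finset.prod_mul_distrib]
    have h4 : ∏ c, f i (β c) = 1 := by
      rcases hf2 i with ⟨a, rfl⟩ | h
      · rw [Finset.prod_congr rfl fun c _ => hf1 a c, gp]
      · rw [Finset.prod_congr rfl fun c _ => h _, Finset.prod_const_one]
    have h5 : ∏ c, G2 (j, e) (β c) = 1 := by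
      rw [Fintype.prod_prod_type]
      have h6 : ∀ l : Fin u, ∏ d : Bool, G2 (j, e) (β (l, d)) = if e = true then -1 else 1 := by
        intro l
        rw [Fintype.prod_bool]
        change (G0 j _ * sg e true) * (G0 j _ * sg e false) = _
        have h7 : ∀ l', G0 j l' * sg e true * (G0 j l' * sg e false) =
            (G0 j l' * G0 j l') * (sg e true * sg e false) := by
          intro l'
          ring
        rw [h7, sgn_sq (g0 _ _), one_mul]
        cases e <;> simp [sg]
      rw [Finset.prod_congr rfl fun l _ => h6 l, Finset.prod_const, Finset.card_univ, Fintype.card_fin]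
      refine hpow ?_ hu
      split_ifs
      · exact Or.inr rfl
      · exact Or.inl rfl
    rw [h4, h5, mul_one]

/-- the blow-up modulo `4 m` -/
theorem blow4 {h1 h2 u k m w : ℕ} (hH1 : ModHad 0 h1) (hH2 : ModHad 0 h2) (he : Even h1)
    (hu : Even u) (hs1 : 2 * u ≤ h1) (hs2 : u ≤ h2) (hp1 : 0 < h1) (hp2 : 0 < h2)
    (M : Matrix (Fin u × Bool) (Fin u × Bool) ℤ) (hM : Tern M) (hM0 : ∀ a, ∃ b, M a b = 0)
    (hMM : M * Mᵀ = (k : ℤ) • 1) (hke : Even k) (hm : Odd m)
    (hk : 4 * k ≡ h1 * (h2 * 2) [MOD m]) (hw : m ∣ w) :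
    ModHad (4 * m) (h1 * (h2 * 2) + u * 2 * w) := by
  classical
  obtain ⟨K, x, y, k1, k2, k3, k4, k5, k6, k7⟩ :=
    base4 hH1 hH2 he hu hs1 hs2 hp1 hp2 M hM hM0
  obtain ⟨r, hr⟩ := he
  obtain ⟨v, hv⟩ := hu
  have := blowup4 (S := Fin u × Bool) m (h1 * (h2 * 2)) w hm K k1
    (fun i j hij => by rw [k2 i j hij]; exact dvd_zero _)
    (by simp) x y k3 k4 M k5 k hMM hk hw
    (by rw [hr]; exact ⟨r * h2, by ring⟩)
    (by
      simp only [Fintype.card_prod, Fintype.card_fin, Fintype.card_bool]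
      rw [hv]
      exact ⟨v, by ring⟩) 1 k6 k7
    (by
      intro j
      have h1 : (M * Mᵀ) j j = (k : ℤ) := by
        rw [hMM]
        simp
      rw [Matrix.mul_apply] at h1
      have h2 : ∀ c, M j c * Mᵀ c j = if M j c = 0 then 0 else 1 := by
        intro c
        rw [Matrix.transpose_apply]
        rcases hM j c with h | h | h <;> rw [h] <;> norm_num
      rw [Finset.sum_congr rfl fun c _ => h2 c] at h1
      rw [Finset.prod_ite, Finset.prod_const_one, one_mul, Finset.prod_const]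
      have h3 : (univ.filter fun c => ¬ M j c = 0).card = k := by
        have h4 : (∑ c, if M j c = 0 then (0 : ℤ) else 1) =
            ((univ.filter fun c => ¬ M j c = 0).card : ℤ) := by
          rw [Finset.card_filter]
          push_cast
          refine Finset.sum_congr rfl fun c _ => ?_
          split_ifs <;> simp_all
        rw [h4] at h1
        exact_mod_cast h1
      rw [h3]
      exact hke.neg_one_pow)
  have hc : Fintype.card (Fin u × Bool) = u * 2 := by simp
  rwa [hc] at this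

/-- three copies of a weighing matrix -/
theorem three {s k : ℕ} (h : Wei s k) (hs : 0 < s) (u : ℕ) (hu : u * 2 = 3 * s) :
    ∃ M : Matrix (Fin u × Bool) (Fin u × Bool) ℤ, Tern M ∧ (∀ a, ∃ b, M a b = 0) ∧
      M * Mᵀ = (k : ℤ) • 1 := by
  classical
  obtain ⟨M, h1, h2⟩ := h
  have hc : Fintype.card (Fin u × Bool) = Fintype.card (Fin 3 × Fin s) := by
    simp [hu]
  let e : (Fin u × Bool) ≃ (Fin 3 × Fin s) := Fintype.equivOfCardEq hc
  let N : Matrix (Fin 3 × Fin s) (Fin 3 × Fin s) ℤ := fun a b => if a.1 = b.1 then M a.2 b.2 else 0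
  have hN : N * Nᵀ = (k : ℤ) • 1 := by
    ext ⟨a, i⟩ ⟨b, j⟩
    rw [Matrix.mul_apply, Fintype.sum_prod_type]
    have h3 : ∀ c l, N (a, i) (c, l) * Nᵀ (c, l) (b, j) =
        if a = c then (if b = c then M i l * Mᵀ l j else 0) else 0 := by
      intro c l
      rw [Matrix.transpose_apply, Matrix.transpose_apply]
      simp only [N]
      split_ifs <;> simp
    rw [Finset.sum_congr rfl fun c _ => Finset.sum_congr rfl fun l _ => h3 c l]
    have h4 : ∀ c, (∑ l, if a = c then (if b = c then M i l * Mᵀ l j else 0) else 0) =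
        if a = c then (if b = c then (M * Mᵀ) i j else 0) else 0 := by
      intro c
      split_ifs
      · rw [Matrix.mul_apply]
      · simp
      · simp
    rw [Finset.sum_congr rfl fun c _ => h4 c, Finset.sum_ite_eq univ a, if_pos (mem_univ _), h2]
    simp only [Matrix.smul_apply, Matrix.one_apply, Prod.mk.injEq]
    by_cases hab : a = b
    · subst hab
      simp
    · rw [if_neg (fun h => hab h.symm), if_neg (fun h => hab h.1), smul_zero]
  refine ⟨N.submatrix e e, ?_, ?_, ?_⟩
  · intro a b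
    rw [Matrix.submatrix_apply]
    simp only [N]
    split_ifs
    · exact h1 _ _
    · exact Or.inl rfl
  · intro a
    refine ⟨e.symm ((e a).1 + 1, ⟨0, hs⟩), ?_⟩
    rw [Matrix.submatrix_apply, Equiv.apply_symm_apply]
    simp only [N]
    rw [if_neg]
    generalize (e a).1 = d
    revert d
    decide
  · rw [Matrix.transpose_submatrix, Matrix.submatrix_mul_equiv, hN]
    ext i j
    simp only [Matrix.submatrix_apply, Matrix.smul_apply, Matrix.one_apply, e.injective.eq_iff]

end Pool.Agent.H182.MP
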