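import Pool.Agent.H182.MPQ
import Pool.Agent.H182.MPMain

/-!
# Modular Hadamard matrices with moduli up to a power of the order: moduli `4 m`, `m` odd
-/

namespace Pool.Agent.H182.MP

open Finset Matrix Pool.Agent.H114R2 Pool.Agent.W69.MH

theorem bound' {m L N n : ℕ} (hm : 2 ≤ m) (hN : N ≤ m ^ 31) (hn : m ^ (62 * L + 4) ≤ n) :
    4 * (N ^ L + 1) * (N ^ L + 1) ≤ n := by
  have h1 : N ^ L ≤ (m ^ 31) ^ L := Nat.pow_le_pow_left hN L
  have h2 : 1 ≤ (m ^ 31) ^ L := Nat.one_le_pow _ _ (by positivity)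
  refine le_trans ?_ hn
  calc 4 * (N ^ L + 1) * (N ^ L + 1) ≤ 4 * ((m ^ 31) ^ L + (m ^ 31) ^ L) *
        ((m ^ 31) ^ L + (m ^ 31) ^ L) := by
        refine Nat.mul_le_mul (Nat.mul_le_mul_left _ ?_) ?_ <;> omega
    _ = 2 ^ 4 * ((m ^ 31) ^ L * (m ^ 31) ^ L) := by ring
    _ ≤ m ^ 4 * ((m ^ 31) ^ L * (m ^ 31) ^ L) :=
        Nat.mul_le_mul_right _ (Nat.pow_le_pow_left hm 4)
    _ = m ^ (62 * L + 4) := by
        rw [← pow_mul, ← pow_add, ← pow_add]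
        congr 1
        ring

theorem partc : ∃ C : ℕ, ∀ m n : ℕ, Odd m → 4 ∣ n → (4 * m) ^ C ≤ n → ModHad (4 * m) n := by
  obtain ⟨L, hL1, hL⟩ := prime_ge
  refine ⟨62 * L + 4, fun m n hm h4 hn => ?_⟩
  have hm0 : 0 < m := hm.pos
  have hn0 : 0 < n := lt_of_lt_of_le (by positivity) hn
  obtain ⟨k, hk0, hkm, hke, hk⟩ : ∃ k : ℕ, 0 < k ∧ k ≤ 2 * m ∧ Even k ∧ k ≡ n / 4 [MOD m] := by
    have hlt : n / 4 % m < m := Nat.mod_lt _ hm0
    rcases Nat.even_or_odd (n / 4 % m) with he | ho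
    · rcases Nat.eq_zero_or_pos (n / 4 % m) with h | h
      · refine ⟨2 * m, by omega, le_rfl, even_two_mul m, ?_⟩
        rw [Nat.ModEq, h]
        exact Nat.mul_mod_left _ _
      · exact ⟨n / 4 % m, h, by omega, he, Nat.mod_modEq _ _⟩
    · refine ⟨n / 4 % m + m, by omega, by omega, ho.add_odd hm, ?_⟩
      rw [Nat.ModEq, Nat.add_mod_right, Nat.mod_mod]
  have hk4 : 4 * k ≡ n [MOD m] := by
    have h1 := Nat.ModEq.mul_left 4 hk
    have h2 : 4 * (n / 4) = n := Nat.mul_div_cancel' h4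
    rwa [h2] at h1
  obtain ⟨t, ht1, ht2, hW⟩ := wei_exists k hk0
  have ht0 : 0 < t := ht1.pos
  have h2n : 2 ∣ n := (by norm_num : (2 : ℕ) ∣ 4).trans h4
  have hQ : Odd (3 * t * m) := ((by decide : Odd 3).mul ht1).mul hm
  have hQ0 : 0 < 3 * t * m := hQ.pos
  obtain ⟨z, hz, a1, a2, ha1, ha2, ha⟩ := residues (3 * t * m) (n / 2) hQ
  obtain ⟨M, hM1, hM2, hM3⟩ := three hW (by positivity) (6 * t) (by ring)
  have hQP : Nat.Coprime (3 * t * m) 4 := by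
    have : Nat.Coprime (3 * t * m) (2 ^ 2) := Nat.Coprime.pow_right _ (Nat.coprime_two_right.2 hQ)
    simpa using this
  have main : ∀ a : ℕ, Nat.Coprime a (3 * t * m) → ∃ p : ℕ, p.Prime ∧ p ≡ a [MOD 3 * t * m] ∧
      p % 4 = 3 ∧ 12 * t ≤ p ∧ p ≤ (4 * (3 * t * m) * (12 * t)) ^ L := by
    intro a ha
    obtain ⟨c, hc1, hc2⟩ := Nat.chineseRemainder hQP a 3
    have h1 : Nat.Coprime c (3 * t * m) := by
      have := hc1.gcd_eq
      rw [Nat.Coprime, this]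
      exact ha
    have h2 : Nat.Coprime c 4 := by
      have := hc2.gcd_eq
      rw [Nat.Coprime, this]
      norm_num
    obtain ⟨p, p1, p2, p3, p4⟩ := hL (4 * (3 * t * m)) c (12 * t) (by omega) (h2.mul_right h1)
      (by omega)
    refine ⟨p, p1, (p2.of_dvd (dvd_mul_left _ _)).trans hc1, ?_, p3, p4⟩
    have h3 : p ≡ 3 [MOD 4] := (p2.of_dvd (dvd_mul_right _ _)).trans hc2
    exact h3
  obtain ⟨p1, c1, c2, c3, c4, c5⟩ := main a1 ha1
  obtain ⟨p2, d1, d2, d3, d4, d5⟩ := main a2 ha2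
  have hH1 : ModHad 0 (z * (p1 + 1)) := by
    rcases hz with h | h
    · rw [h, one_mul]
      exact had1 c1 c3
    · rw [h]
      exact had2 c1 (by omega)
  have hH2 : ModHad 0 (p2 + 1) := had1 d1 d3
  have hz1 : 1 ≤ z := by omega
  have hnQ : z * (p1 + 1) * ((p2 + 1) * 2) ≡ n [MOD 3 * t * m] := by
    have h1 : z * (p1 + 1) * ((p2 + 1) * 2) = z * (p1 + 1) * (p2 + 1) * 2 := by ring
    rw [h1]
    have h2 : z * (p1 + 1) * (p2 + 1) ≡ n / 2 [MOD 3 * t * m] := by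
      refine Nat.ModEq.trans ?_ ha
      exact Nat.ModEq.mul (Nat.ModEq.mul_left _ (c2.add_right 1)) (d2.add_right 1)
    have h3 := h2.mul_right 2
    rwa [Nat.div_mul_cancel h2n] at h3
  have hnP : z * (p1 + 1) * ((p2 + 1) * 2) ≡ n [MOD 4] := by
    have h1 : 4 ∣ z * (p1 + 1) * ((p2 + 1) * 2) := by
      have h2 : 4 ∣ p1 + 1 := by omega
      exact Dvd.dvd.mul_right (Dvd.dvd.mul_left h2 _) _
    exact ((Nat.modEq_zero_iff_dvd).2 h1).trans ((Nat.modEq_zero_iff_dvd).2 h4).symm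
  have hn1 : z * (p1 + 1) * ((p2 + 1) * 2) ≡ n [MOD (3 * t * m * 4)] :=
    (Nat.modEq_and_modEq_iff_modEq_mul hQP).1 ⟨hnQ, hnP⟩
  have hle : z * (p1 + 1) * ((p2 + 1) * 2) ≤ n := by
    have hb : 4 * ((4 * (3 * t * m) * (12 * t)) ^ L + 1) *
        ((4 * (3 * t * m) * (12 * t)) ^ L + 1) ≤ n := by
      refine bound' (m := 4 * m) (by omega) ?_ hn
      have htm : t ≤ (4 * m) ^ 12 := ht2.trans (Nat.pow_le_pow_left (by omega) 12)
      have htt : t * t ≤ (4 * m) ^ 12 * (4 * m) ^ 12 := Nat.mul_le_mul htm htm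
      have h4m : 4 ≤ 4 * m := by omega
      calc 4 * (3 * t * m) * (12 * t) = 36 * (t * t * (4 * m)) := by ring
        _ ≤ 4 ^ 3 * (t * t * (4 * m)) := Nat.mul_le_mul_right _ (by norm_num)
        _ ≤ (4 * m) ^ 3 * ((4 * m) ^ 12 * (4 * m) ^ 12 * (4 * m)) :=
            Nat.mul_le_mul (Nat.pow_le_pow_left h4m 3) (Nat.mul_le_mul_right _ htt)
        _ = (4 * m) ^ 28 := by ring
        _ ≤ (4 * m) ^ 31 := Nat.pow_le_pow_right (by omega) (by norm_num)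
    refine le_trans ?_ hb
    calc z * (p1 + 1) * ((p2 + 1) * 2) ≤ 2 * (p1 + 1) * ((p2 + 1) * 2) :=
          Nat.mul_le_mul_right _ (Nat.mul_le_mul_right _ (by omega))
      _ = 4 * (p1 + 1) * (p2 + 1) := by ring
      _ ≤ _ := Nat.mul_le_mul (Nat.mul_le_mul_left _ (by omega)) (by omega)
  obtain ⟨j, hj⟩ := (Nat.modEq_iff_dvd' hle).1 hn1
  have he : Even (z * (p1 + 1)) := by
    have h1 : Even (p1 + 1) := by
      rw [Nat.even_iff]
      omega
    exact h1.mul_left z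
  have h12 : 12 * t ≤ z * (p1 + 1) := by nlinarith
  have := blow4 hH1 hH2 he (u := 6 * t) ⟨3 * t, by ring⟩ (by omega) (by omega) (by positivity)
    (by omega) M hM1 hM2 hM3 hke hm
    (hk4.trans ((hnQ.of_dvd (dvd_mul_left m (3 * t))).symm)) (dvd_mul_right m j)
  have e : z * (p1 + 1) * ((p2 + 1) * 2) + 6 * t * 2 * (m * j) = n := by
    have h1 : 6 * t * 2 * (m * j) = 3 * t * m * 4 * j := by ring
    rw [h1, ← hj]
    omega
  rwa [e] at this

end Pool.Agent.H182.MP
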