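import Pool.Agent.H182.MPMain

/-!
# Modular Hadamard matrices with moduli up to a power of the order: the coprime case
-/

namespace Pool.Agent.H182.MP

open Finset Matrix Pool.Agent.H114R2 Pool.Agent.W69.MH

theorem supply : ∃ E : ℕ, ∀ m u : ℕ, 4 ≤ m → 2 ∣ m → Nat.Coprime u m → ∃ X : ℕ, X ≤ m ^ E ∧
    (∃ p : ℕ, p.Prime ∧ m < p ∧ p ≤ X ∧ (p * u) % m = 1) ∧
    (∃ q : ℕ, q.Prime ∧ m < q ∧ q ≤ X ∧ q % m = u % m) ∧
    (∀ l q0 : ℕ, l.Prime → q0.Prime → m < q0 → q0 ≤ X → q0 % m = u % m →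
      ∃ q : ℕ, q.Prime ∧ m < q ∧ q ≤ X ∧ q % m = u % m ∧
        ¬ ((m * l : ℕ) : ℤ) ∣ (q : ℤ) - (q0 : ℤ)) := by
  obtain ⟨L, hL1, hL⟩ := prime_ge
  refine ⟨(3 + (3 * L + 2) * L) * L, fun m u hm4 hm2 hu => ?_⟩
  have hm : 2 ≤ m := by omega
  have hm0 : 0 < m := by omega
  have hm1 : m + 1 ≤ m ^ 2 := by nlinarith
  have hmm : m * (m + 1) ≤ m ^ 3 := by
    calc m * (m + 1) ≤ m * m ^ 2 := Nat.mul_le_mul_left _ hm1
      _ = m ^ 3 := by ring
  -- the prime `p`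
  obtain ⟨v, -, hv⟩ := Nat.exists_mul_mod_eq_one_of_coprime hu (by omega : 1 < m)
  have huv : u * v ≡ 1 [MOD m] := by
    rw [Nat.ModEq, hv, Nat.mod_eq_of_lt (by omega)]
  have hvm : Nat.Coprime v m := by
    have h1 := huv.gcd_eq
    rw [Nat.gcd_one_left] at h1
    have h2 : (u * v).Coprime m := h1
    exact Nat.Coprime.coprime_mul_left h2
  obtain ⟨p, p1, p2, p3, p4⟩ := hL m v (m + 1) hm hvm (by omega)
  obtain ⟨q1, a1, a2, a3, a4⟩ := hL m u (m + 1) hm hu (by omega)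
  obtain ⟨q2, b1, b2, b3, b4⟩ := hL m u (q1 + 1) hm hu (by omega)
  have hE3 : (m * (m + 1)) ^ L ≤ m ^ (3 * L) := by
    rw [pow_mul]
    exact Nat.pow_le_pow_left hmm L
  have hq2 : q2 ≤ m ^ ((3 * L + 2) * L) := by
    refine b4.trans ?_
    rw [pow_mul]
    refine Nat.pow_le_pow_left ?_ L
    have h1 : q1 + 1 ≤ m ^ (3 * L + 1) := by
      have h2 : 1 ≤ m ^ (3 * L) := Nat.one_le_pow _ _ hm0
      calc q1 + 1 ≤ m ^ (3 * L) + m ^ (3 * L) := Nat.add_le_add (a4.trans hE3) h2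
        _ = m ^ (3 * L) * 2 := by ring
        _ ≤ m ^ (3 * L) * m := Nat.mul_le_mul_left _ hm
        _ = _ := by rw [pow_succ]
    calc m * (q1 + 1) ≤ m * m ^ (3 * L + 1) := Nat.mul_le_mul_left _ h1
      _ = m ^ (3 * L + 2) := by ring
  have hX : ∀ e : ℕ, e ≤ (3 + (3 * L + 2) * L) * L → m ^ e ≤ m ^ ((3 + (3 * L + 2) * L) * L) :=
    fun e he => Nat.pow_le_pow_right hm0 he
  have hLL : (3 * L + 2) * L ≤ (3 * L + 2) * L * L := Nat.le_mul_of_pos_right _ hL1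
  have e1 : 3 * L ≤ (3 + (3 * L + 2) * L) * L := by nlinarith
  have e2 : (3 * L + 2) * L ≤ (3 + (3 * L + 2) * L) * L := by nlinarith
  refine ⟨m ^ ((3 + (3 * L + 2) * L) * L), le_rfl, ⟨p, p1, by omega, (p4.trans hE3).trans (hX _ e1), ?_⟩,
    ⟨q1, a1, by omega, (a4.trans hE3).trans (hX _ e1), a2⟩, ?_⟩
  · have h1 : p * u ≡ v * u [MOD m] := p2.mul_right u
    have h2 : v * u ≡ 1 [MOD m] := by rw [mul_comm]; exact huv
    have h3 : p * u % m = 1 % m := h1.trans h2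
    rw [h3, Nat.mod_eq_of_lt (by omega)]
  · intro l q0 hl hq0 hmq0 hq0X hq0u
    have hq0m : Nat.Coprime q0 m := by
      have : q0 ≡ u [MOD m] := hq0u
      have := this.gcd_eq
      rw [Nat.Coprime, this]
      exact hu
    by_cases hlZ : l ≤ m ^ ((3 * L + 2) * L)
    · obtain ⟨j, hj, hjl, hcl⟩ : ∃ j : ℕ, (j = 1 ∨ j = 2) ∧ ¬ l ∣ j ∧ Nat.Coprime (q0 + j * m) l := by
        have hl2 := hl.two_le
        have h1 : ¬ l ∣ 1 := by
          intro h
          have := Nat.le_of_dvd (by norm_num) h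
          omega
        by_cases hlm : l ∣ m
        · refine ⟨1, Or.inl rfl, h1, ?_⟩
          rw [Nat.coprime_comm, Nat.Prime.coprime_iff_not_dvd hl]
          intro h
          have h2 : l ∣ q0 := (Nat.dvd_add_left (Dvd.dvd.mul_left hlm 1)).1 h
          have h3 := Nat.dvd_gcd h2 hlm
          rw [hq0m] at h3
          exact h1 h3
        · by_cases h2 : l ∣ q0 + 1 * m
          · refine ⟨2, Or.inr rfl, ?_, ?_⟩
            · intro h
              have h3 : l = 2 := (Nat.prime_dvd_prime_iff_eq hl Nat.prime_two).1 h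
              rw [h3] at hlm
              exact hlm hm2
            · rw [Nat.coprime_comm, Nat.Prime.coprime_iff_not_dvd hl]
              intro h
              have h4 : q0 + 2 * m = (q0 + 1 * m) + m := by ring
              rw [h4] at h
              exact hlm ((Nat.dvd_add_right h2).1 h)
          · exact ⟨1, Or.inl rfl, h1, (Nat.coprime_comm.1
              ((Nat.Prime.coprime_iff_not_dvd hl).2 h2))⟩
      have hcm : Nat.Coprime (q0 + j * m) m := by
        have : (q0 + j * m) ≡ q0 [MOD m] := by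
          rw [Nat.ModEq, Nat.add_mul_mod_self_right]
        have := this.gcd_eq
        rw [Nat.Coprime, this]
        exact hq0m
      have hml : 2 ≤ m * l := by
        have := hl.two_le
        nlinarith
      obtain ⟨q, c1, c2, c3, c4⟩ := hL (m * l) (q0 + j * m) (m + 1) hml (hcm.mul_right hcl) (by omega)
      refine ⟨q, c1, by omega, ?_, ?_, ?_⟩
      · refine c4.trans ?_
        rw [pow_mul]
        refine Nat.pow_le_pow_left ?_ L
        calc m * l * (m + 1) = m * (m + 1) * l := by ring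
          _ ≤ m ^ 3 * m ^ ((3 * L + 2) * L) := Nat.mul_le_mul hmm hlZ
          _ = _ := by rw [← pow_add]
      · have h1 : q ≡ q0 + j * m [MOD m] := c2.of_dvd (dvd_mul_right _ _)
        have h2 : (q0 + j * m) ≡ q0 [MOD m] := by
          rw [Nat.ModEq, Nat.add_mul_mod_self_right]
        exact (h1.trans h2).trans hq0u
      · intro hd
        have h1 : ((m * l : ℕ) : ℤ) ∣ ((q0 + j * m : ℕ) : ℤ) - (q : ℤ) := (Nat.modEq_iff_dvd.1 c2)
        have h2 : ((m * l : ℕ) : ℤ) ∣ ((j * m : ℕ) : ℤ) := by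
          have h3 := dvd_add h1 hd
          have e : ((q0 + j * m : ℕ) : ℤ) - (q : ℤ) + ((q : ℤ) - (q0 : ℤ)) = ((j * m : ℕ) : ℤ) := by
            push_cast
            ring
          rwa [e] at h3
        have h4 : m * l ∣ j * m := by exact_mod_cast h2
        rw [mul_comm j m] at h4
        exact hjl (Nat.dvd_of_mul_dvd_mul_left hm0 h4)
    · push Not at hlZ
      have hlt : q2 < m * l := by
        have : l ≤ m * l := Nat.le_mul_of_pos_left _ hm0
        omega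
      by_cases h1 : ((m * l : ℕ) : ℤ) ∣ (q1 : ℤ) - (q0 : ℤ)
      · refine ⟨q2, b1, by omega, hq2.trans (hX _ e2), b2, fun h2 => ?_⟩
        have h3 : ((m * l : ℕ) : ℤ) ∣ (q2 : ℤ) - (q1 : ℤ) := by
          have := dvd_sub h2 h1
          have e : (q2 : ℤ) - q0 - ((q1 : ℤ) - q0) = (q2 : ℤ) - q1 := by ring
          rwa [e] at this
        have h4 : (0 : ℤ) < (q2 : ℤ) - q1 := by
          have : (q1 : ℤ) + 1 ≤ q2 := by exact_mod_cast b3
          omega
        have h5 := Int.le_of_dvd h4 h3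
        have h6 : (q2 : ℤ) < ((m * l : ℕ) : ℤ) := by exact_mod_cast hlt
        have h7 : (0 : ℤ) ≤ q1 := Int.natCast_nonneg _
        omega
      · exact ⟨q1, a1, by omega, (a4.trans hE3).trans (hX _ e1), a2, h1⟩

theorem conf_all : ∃ C : ℕ, ∀ (ε : ℤ) (m n : ℕ), ε = 1 ∨ ε = -1 → 4 ∣ m → 0 < m →
    (4 : ℤ) ∣ ((n : ℤ) - 1) - ε → 1 ≤ n → Nat.Coprime (n - 1) m → m ^ C ≤ n → HasConf ε m n := by
  obtain ⟨E, hE⟩ := supply
  refine ⟨6 * E + 1, fun ε m n hε h4 hm0 hn4 hn1 hc hn => ?_⟩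
  have hm4 : 4 ≤ m := Nat.le_of_dvd hm0 h4
  obtain ⟨X, hX, ⟨p, p1, p2, p3, p4⟩, hq, hl⟩ := hE m (n - 1) hm4
    ((by norm_num : (2 : ℕ) ∣ 4).trans h4) hc
  refine conf_one Pool.Agent.W372.MH.sem Pool.Agent.W131.MH.core Pool.Agent.W298.MH.pal hε h4
    (by omega) (le_refl m) hn4 hn1 ?_ hc p1 p2 p3 p4 hq hl
  have h1 : X ^ 6 ≤ (m ^ E) ^ 6 := Nat.pow_le_pow_left hX 6
  have h2 : (m ^ E) ^ 6 = m ^ (6 * E) := by
    rw [← pow_mul]
    congr 1
    ring
  have h3 : 1 ≤ m ^ (6 * E) := Nat.one_le_pow _ _ hm0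
  have h4 : m ^ (6 * E + 1) = m ^ (6 * E) * m := pow_succ _ _
  have h5 : m ^ (6 * E) * 4 ≤ m ^ (6 * E) * m := Nat.mul_le_mul_left _ hm4
  omega

theorem partd : ∃ C : ℕ, ∀ m n : ℕ, 2 ≤ m → 4 ∣ n →
    (Nat.Coprime (n - 1) m ∨ Nat.Coprime (n / 2 - 1) m) → m ^ C ≤ n → ModHad m n := by
  obtain ⟨C, hC⟩ := conf_all
  refine ⟨3 * C + 1, fun m n hm h4 hor hn => ?_⟩
  have hm0 : 0 < m := by omega
  have hn0 : 0 < n := lt_of_lt_of_le (by positivity) hn
  have hbig : (4 * m) ^ C ≤ n / 2 := by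
    have h1 : 4 * m ≤ m ^ 3 := by nlinarith [Nat.mul_le_mul hm hm, Nat.zero_le m, pow_pos hm0 2]
    have h2 : (4 * m) ^ C ≤ (m ^ 3) ^ C := Nat.pow_le_pow_left h1 C
    rw [← pow_mul] at h2
    have h3 : m ^ (3 * C + 1) = m ^ (3 * C) * m := pow_succ _ _
    have h4 : m ^ (3 * C) * 2 ≤ m ^ (3 * C) * m := Nat.mul_le_mul_left _ hm
    omega
  have hcop : ∀ x : ℕ, x % 2 = 1 → Nat.Coprime x m → Nat.Coprime x (4 * m) := by
    intro x hx h
    refine Nat.Coprime.mul_right ?_ h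
    have : Nat.Coprime x (2 ^ 2) := Nat.Coprime.pow_right _ (Nat.coprime_two_right.2 (Nat.odd_iff.2 hx))
    simpa using this
  have h44 : (4 : ℕ) ∣ 4 * m := dvd_mul_right _ _
  have hdv : (m : ℤ) ∣ ((4 * m : ℕ) : ℤ) := by
    push_cast
    exact dvd_mul_left _ _
  rcases hor with h | h
  · have h1 := hC (-1) (4 * m) n (Or.inr rfl) h44 (by omega) (by omega) (by omega)
      (hcop _ (by omega) h) (hbig.trans (Nat.div_le_self _ _))
    exact modHad_of_hasMod ((Pool.Agent.W930.MH.had.1 _ _ h1).of_dvd hdv)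
  · obtain ⟨r, hr⟩ : ∃ r, n = 2 * r := ⟨n / 2, by omega⟩
    have hr2 : n / 2 = r := by omega
    rw [hr2] at h hbig
    have hr0 : 1 ≤ r := by omega
    have hcr := hcop (r - 1) (by omega) h
    rcases (show r % 4 = 0 ∨ r % 4 = 2 by omega) with h' | h'
    · have h1 := hC (-1) (4 * m) r (Or.inr rfl) h44 (by omega) (by omega) hr0 hcr hbig
      have h5 := Pool.Agent.W930.MH.had.2.2 _ _ (Pool.Agent.W930.MH.had.1 _ _ h1)
      rw [← hr] at h5
      exact modHad_of_hasMod (h5.of_dvd (Dvd.dvd.mul_left hdv 2))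
    · have h1 := hC 1 (4 * m) r (Or.inl rfl) h44 (by omega) (by omega) hr0 hcr hbig
      have h5 := Pool.Agent.W930.MH.had.2.1 _ _ h1
      rw [← hr] at h5
      exact modHad_of_hasMod (h5.of_dvd (Dvd.dvd.mul_left hdv 2))

end Pool.Agent.H182.MP
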