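import Pool.Agent.H182.MPMain

/-!
# Modular Hadamard matrices with moduli up to a power of the order: orders `8 (mod 16)`
-/

namespace Pool.Agent.H182.MP

open Finset Matrix Pool.Agent.H114R2 Pool.Agent.W69.MH Pool.Agent.H182.Mod

/-- from a symmetric conference matrix and a Hadamard matrix, with a given pattern -/
theorem base8 {q g s : ℕ} (hC : HasConf 1 0 (q + 1)) (hH : ModHad 0 (g * 2)) (hs1 : s ≤ q)
    (hs2 : s ≤ g) (hg : 0 < g) (M : Matrix (Fin s) (Fin s) ℤ) (hM : Tern M) :
    ∃ (K : Matrix (Fin (q + 1) × (Fin g × Bool)) (Fin (q + 1) × (Fin g × Bool)) ℤ)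
      (x y : Fin s → Fin (q + 1) × (Fin g × Bool)),
      (∀ i j, K i j = 1 ∨ K i j = -1) ∧ (∀ i j, i ≠ j → (K * Kᵀ) i j = 0) ∧
      Function.Injective x ∧ Function.Injective y ∧ ∀ a b, M a b = 0 ∨ M a b = K (x a) (y b) := by
  classical
  obtain ⟨C, hC⟩ := hC
  obtain ⟨H0, s0, o0⟩ := hH
  let e : (Fin g × Bool) ≃ Fin (g * 2) := Fintype.equivOfCardEq (by simp)
  let H : Matrix (Fin g × Bool) (Fin g × Bool) ℤ := fun a b => H0 (e a) (e b)
  have hs : ∀ a b, H a b = 1 ∨ H a b = -1 := fun a b => s0 _ _
  have ho : ∀ j j', j ≠ j' → ∑ l, H j l * H j' l = 0 := by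
    intro j j' hj
    have h1 := modHad_zero o0 (e j) (e j') (fun h => hj (e.injective h))
    rw [← Equiv.sum_comp e] at h1
    exact h1
  let k0 : Fin (q + 1) := 0
  let j0 : Fin g × Bool := (⟨0, hg⟩, false)
  let om : Bool → ℤ := fun b => if b = true then 1 else -1
  have hom : ∀ b, om b = 1 ∨ om b = -1 := by
    intro b
    simp only [om]
    split_ifs
    · exact Or.inl rfl
    · exact Or.inr rfl
  let f : Fin (q + 1) → Fin g → ℤ := fun i l =>
    if h : (i ≠ k0 ∧ i.val - 1 < s) ∧ l.val < s then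
      C i k0 * H j0 (l, false) *
        (if M ⟨i.val - 1, h.1.2⟩ ⟨l.val, h.2⟩ = 0 then 1 else M ⟨i.val - 1, h.1.2⟩ ⟨l.val, h.2⟩)
    else 1
  have hf : ∀ i l, f i l = 1 ∨ f i l = -1 := by
    intro i l
    simp only [f]
    split_ifs with h h'
    · exact sgn_mul (sgn_mul (hC.off _ _ h.1.1) (hs _ _)) (Or.inl rfl)
    · refine sgn_mul (sgn_mul (hC.off _ _ h.1.1) (hs _ _)) ?_
      rcases hM ⟨i.val - 1, h.1.2⟩ ⟨l.val, h.2⟩ with h2 | h2
      · exact absurd h2 h'
      · exact h2
    · exact Or.inl rfl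
  let K : Matrix (Fin (q + 1) × (Fin g × Bool)) (Fin (q + 1) × (Fin g × Bool)) ℤ := fun p r =>
    if p.1 = r.1 then H p.2 (r.2.1, !r.2.2) * om r.2.2 * f p.1 r.2.1
    else C p.1 r.1 * H p.2 r.2 * f p.1 r.2.1
  have hC0 : ∀ i i', i ≠ i' → ∑ k, C i k * C i' k = 0 := by
    intro i i' hi
    have := hC.orth i i' hi
    rwa [zero_dvd_iff] at this
  have hflip : ∀ F : Fin g × Bool → ℤ, ∑ l, F l = ∑ l : Fin g × Bool, F (l.1, !l.2) := by
    intro F
    rw [Fintype.sum_prod_type, Fintype.sum_prod_type]
    refine Finset.sum_congr rfl fun a _ => ?_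
    rw [Fintype.sum_bool, Fintype.sum_bool]
    simp only [Bool.not_true, Bool.not_false]
    ring
  refine ⟨K, fun a => (⟨a.val + 1, by have := a.2; omega⟩, j0),
    fun b => (k0, (⟨b.val, lt_of_lt_of_le b.2 hs2⟩, false)), ?_, ?_, ?_, ?_, ?_⟩
  · intro i j
    simp only [K]
    split_ifs with h
    · exact sgn_mul (sgn_mul (hs _ _) (hom _)) (hf _ _)
    · exact sgn_mul (sgn_mul (hC.off _ _ h) (hs _ _)) (hf _ _)
  · rintro ⟨i, j⟩ ⟨i', j'⟩ hne
    rw [Matrix.mul_apply, Fintype.sum_prod_type]
    by_cases hi : i = i'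
    · subst hi
      have hj : j ≠ j' := fun h => hne (by rw [h])
      refine Finset.sum_eq_zero fun k _ => ?_
      by_cases hk : i = k
      · have h3 : ∀ l, K (i, j) (k, l) * Kᵀ (k, l) (i, j') =
            H j (l.1, !l.2) * H j' (l.1, !l.2) := by
          intro l
          rw [Matrix.transpose_apply]
          simp only [K]
          rw [if_pos hk, if_pos hk]
          calc H j (l.1, !l.2) * om l.2 * f i l.1 * (H j' (l.1, !l.2) * om l.2 * f i l.1) =
                H j (l.1, !l.2) * H j' (l.1, !l.2) * (om l.2 * om l.2) * (f i l.1 * f i l.1) := by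
                ring
            _ = _ := by rw [sgn_sq (hom _), sgn_sq (hf _ _), mul_one, mul_one]
        rw [Finset.sum_congr rfl fun l _ => h3 l, ← hflip (fun l => H j l * H j' l), ho j j' hj]
      · have h3 : ∀ l, K (i, j) (k, l) * Kᵀ (k, l) (i, j') = H j l * H j' l := by
          intro l
          rw [Matrix.transpose_apply]
          simp only [K]
          rw [if_neg hk, if_neg hk]
          calc C i k * H j l * f i l.1 * (C i k * H j' l * f i l.1) =
                H j l * H j' l * (C i k * C i k) * (f i l.1 * f i l.1) := by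
                ring
            _ = _ := by rw [sgn_sq (hC.off _ _ hk), sgn_sq (hf _ _), mul_one, mul_one]
        rw [Finset.sum_congr rfl fun l _ => h3 l, ho j j' hj]
    · -- different blocks
      have h3 : ∀ k l, K (i, j) (k, l) * Kᵀ (k, l) (i', j') =
          C i k * C i' k * (H j l * H j' l * (f i l.1 * f i' l.1)) +
          ((if i = k then C i' i * (H j (l.1, !l.2) * H j' l * om l.2 * (f i l.1 * f i' l.1))
            else 0) +
          (if i' = k then C i' i * (H j l * H j' (l.1, !l.2) * om l.2 * (f i l.1 * f i' l.1))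
            else 0)) := by
        intro k l
        rw [Matrix.transpose_apply]
        simp only [K]
        by_cases h1 : i = k
        · subst h1
          have h2 : ¬ i' = i := fun h => hi h.symm
          rw [if_pos rfl, if_neg h2, if_pos rfl, if_neg h2, hC.diag]
          ring
        · by_cases h2 : i' = k
          · subst h2
            have h4 : C i' i = C i i' := by
              have := hC.sym i i'
              rw [this]
              ring
            rw [if_neg h1, if_pos rfl, if_neg h1, if_pos rfl, hC.diag, h4]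
            ring
          · rw [if_neg h1, if_neg h2, if_neg h1, if_neg h2]
            ring
      rw [Finset.sum_congr rfl fun k _ => Finset.sum_congr rfl fun l _ => h3 k l]
      simp only [Finset.sum_add_distrib]
      have t1 : ∑ k, ∑ l : Fin g × Bool, C i k * C i' k * (H j l * H j' l * (f i l.1 * f i' l.1)) = 0 := by
        rw [Finset.sum_comm]
        refine Finset.sum_eq_zero fun l _ => ?_
        rw [← Finset.sum_mul, hC0 i i' hi, zero_mul]
      have t2 : ∑ k, ∑ l : Fin g × Bool, (if i = k then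
          C i' i * (H j (l.1, !l.2) * H j' l * om l.2 * (f i l.1 * f i' l.1)) else 0) =
          ∑ l : Fin g × Bool, C i' i * (H j (l.1, !l.2) * H j' l * om l.2 * (f i l.1 * f i' l.1)) := by
        rw [Finset.sum_comm]
        refine Finset.sum_congr rfl fun l _ => ?_
        rw [Finset.sum_ite_eq, if_pos (mem_univ _)]
      have t3 : ∑ k, ∑ l : Fin g × Bool, (if i' = k then
          C i' i * (H j l * H j' (l.1, !l.2) * om l.2 * (f i l.1 * f i' l.1)) else 0) =
          ∑ l : Fin g × Bool, C i' i * (H j l * H j' (l.1, !l.2) * om l.2 * (f i l.1 * f i' l.1)) := by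
        rw [Finset.sum_comm]
        refine Finset.sum_congr rfl fun l _ => ?_
        rw [Finset.sum_ite_eq, if_pos (mem_univ _)]
      rw [t1, t2, t3, zero_add,
        hflip (fun l => C i' i * (H j l * H j' (l.1, !l.2) * om l.2 * (f i l.1 * f i' l.1))),
        ← Finset.sum_add_distrib]
      refine Finset.sum_eq_zero fun l _ => ?_
      have t4 : om (!l.2) = - om l.2 := by
        obtain ⟨a, b⟩ := l
        cases b <;> simp [om]
      simp only [Bool.not_not]
      rw [t4]
      ring
  · intro a b hab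
    simp only [Prod.mk.injEq, Fin.mk.injEq, and_true, add_left_inj] at hab
    exact Fin.ext hab
  · intro a b hab
    simp only [Prod.mk.injEq, Fin.mk.injEq, and_true, true_and] at hab
    exact Fin.ext hab
  · intro a b
    by_cases h0 : M a b = 0
    · exact Or.inl h0
    · right
      have hne : (⟨a.val + 1, by have := a.2; omega⟩ : Fin (q + 1)) ≠ k0 := by
        intro h
        have := congrArg Fin.val h
        simp [k0] at this
      have h5 : f ⟨a.val + 1, by have := a.2; omega⟩ ⟨b.val, lt_of_lt_of_le b.2 hs2⟩ =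
          C ⟨a.val + 1, by have := a.2; omega⟩ k0 * H j0 (⟨b.val, lt_of_lt_of_le b.2 hs2⟩, false) *
            M a b := by
        simp only [f]
        rw [dif_pos ⟨⟨hne, by simp [a.2]⟩, b.2⟩]
        simp only [Nat.add_sub_cancel, Fin.eta]
        rw [if_neg h0]
      simp only [K]
      rw [if_neg hne, h5]
      have h6 := sgn_sq (hC.off _ _ hne)
      have h7 := sgn_sq (hs j0 (⟨b.val, lt_of_lt_of_le b.2 hs2⟩, false))
      calc M a b = (C ⟨a.val + 1, by have := a.2; omega⟩ k0 * C ⟨a.val + 1, by have := a.2; omega⟩ k0) *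
            (H j0 (⟨b.val, lt_of_lt_of_le b.2 hs2⟩, false) *
              H j0 (⟨b.val, lt_of_lt_of_le b.2 hs2⟩, false)) * M a b := by
            rw [h6, h7, one_mul, one_mul]
        _ = _ := by ring

theorem blow8 {q g s k m w : ℕ} (hC : HasConf 1 0 (q + 1)) (hH : ModHad 0 (g * 2)) (hs1 : s ≤ q)
    (hs2 : s ≤ g) (hg : 0 < g) (hW : Wei s k) (hm : 0 < m)
    (hk : 4 * k ≡ (q + 1) * (g * 2) [MOD m]) (hw : m ∣ w) :
    ModHad m ((q + 1) * (g * 2) + s * w) := by
  obtain ⟨M, t1, t2⟩ := hW
  obtain ⟨K, x, y, k1, k2, k3, k4, k5⟩ := base8 hC hH hs1 hs2 hg M t1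
  have := blowup_mod (S := Fin s) m ((q + 1) * (g * 2)) w hm K k1
    (fun i j hij => by rw [k2 i j hij]; exact dvd_zero _)
    (by simp) x y k3 k4 M k5 k t2 hk hw
  rwa [Fintype.card_fin] at this

end Pool.Agent.H182.MP
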