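import Pool.Agent.H182.MPR
import Pool.Agent.H182.MPS
import Pool.Agent.H182.MPV

/-!
# Modular Hadamard matrices with moduli up to a power of the order: assembly
-/

namespace Pool.Agent.H182.MP

open Finset Matrix Pool.Agent.H114R2

theorem modHad_dvd {m m' n : ℕ} (h : ModHad m' n) (hd : m ∣ m') : ModHad m n := by
  obtain ⟨H, h1, h2⟩ := h
  exact ⟨H, h1, fun i j hij => (by exact_mod_cast hd : (m : ℤ) ∣ (m' : ℤ)).trans (h2 i j hij)⟩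

theorem partf : ∃ C : ℕ, ∀ m n : ℕ, 2 ≤ m → 4 ∣ n → m ^ C ≤ n →
    (8 ∣ n ∨ ¬ 8 ∣ m ∨ Nat.Coprime (n - 1) m ∨ Nat.Coprime (n / 2 - 1) m) → ModHad m n := by
  obtain ⟨C1, h1⟩ := partc
  obtain ⟨C2, h2⟩ := partd
  obtain ⟨C3, h3⟩ := parte
  refine ⟨3 * C1 + C2 + C3, fun m n hm h4 hn hor => ?_⟩
  have hm0 : 0 < m := by omega
  have e : ∀ c, c ≤ 3 * C1 + C2 + C3 → m ^ c ≤ n :=
    fun c hc => (Nat.pow_le_pow_right hm0 hc).trans hn
  rcases hor with h8 | h8 | hc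
  · exact h3 m n hm h8 (e _ (by omega))
  · -- `m` is a divisor of `4 m'`, `m'` odd
    obtain ⟨m', hm', hd, hle⟩ : ∃ m' : ℕ, Odd m' ∧ m ∣ 4 * m' ∧ 4 * m' ≤ 4 * m := by
      rcases (by omega : m % 2 = 1 ∨ m % 4 = 2 ∨ m % 8 = 4) with h | h | h
      · exact ⟨m, Nat.odd_iff.2 h, dvd_mul_left _ _, le_rfl⟩
      · refine ⟨m / 2, Nat.odd_iff.2 (by omega), ⟨2, by omega⟩, by omega⟩
      · refine ⟨m / 4, Nat.odd_iff.2 (by omega), ⟨1, by omega⟩, by omega⟩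
    refine modHad_dvd (h1 m' n hm' h4 ?_) hd
    have h5 : 4 * m ≤ m ^ 3 := by
      have h6 : 4 ≤ m * m := Nat.mul_le_mul hm hm
      calc 4 * m ≤ m * m * m := Nat.mul_le_mul_right _ h6
        _ = m ^ 3 := by ring
    calc (4 * m') ^ C1 ≤ (m ^ 3) ^ C1 := Nat.pow_le_pow_left (hle.trans h5) C1
      _ = m ^ (3 * C1) := by rw [← pow_mul]
      _ ≤ n := e _ (by omega)
  · exact h2 m n hm h4 hc (e _ (by omega))

end Pool.Agent.H182.MP
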