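import Pool.Agent.H182.ModOD

/-!
# Blow-ups of modular Hadamard matrices with a Paley core
-/

namespace Pool.Agent.H182.Mod

open Finset Matrix Pool.Agent.H114R2

theorem diag_sign {ι : Type} [Fintype ι] (H : Matrix ι ι ℤ) (hH : ∀ i j, H i j = 1 ∨ H i j = -1)
    (a : ι) : (H * Hᵀ) a a = Fintype.card ι := by
  rw [Matrix.mul_apply]
  have h1 : ∀ j, H a j * Hᵀ j a = 1 := by
    intro j
    rw [Matrix.transpose_apply]
    rcases hH a j with h | h <;> rw [h] <;> norm_num
  rw [Finset.sum_congr rfl fun j _ => h1 j]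
  simp

/-- the blow-up lemma for modular Hadamard matrices -/
theorem blowup_mod {ι S : Type} [Fintype ι] [DecidableEq ι] [Fintype S] [DecidableEq S]
    (m n0 w : ℕ) (hm : 0 < m) (H : Matrix ι ι ℤ) (hH : ∀ i j, H i j = 1 ∨ H i j = -1)
    (hHH : ∀ i j, i ≠ j → (m : ℤ) ∣ (H * Hᵀ) i j) (hcard : Fintype.card ι = n0)
    (x y : S → ι) (hx : Function.Injective x) (hy : Function.Injective y)
    (M : Matrix S S ℤ) (hM : ∀ j l, M j l = 0 ∨ M j l = H (x j) (y l)) (k : ℕ)
    (hMM : M * Mᵀ = (k : ℤ) • 1) (hk : 4 * k ≡ n0 [MOD m]) (hw : m ∣ w) :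
    ModHad m (n0 + Fintype.card S * w) := by
  classical
  let R := {a : ι // a ∉ Set.range x}
  let R' := {a : ι // a ∉ Set.range y}
  let ex : S ⊕ R ≃ ι :=
    (Equiv.sumCongr (Equiv.ofInjective x hx) (Equiv.refl _)).trans (Equiv.Set.sumCompl (Set.range x))
  let ey : S ⊕ R' ≃ ι :=
    (Equiv.sumCongr (Equiv.ofInjective y hy) (Equiv.refl _)).trans (Equiv.Set.sumCompl (Set.range y))
  have hex : ∀ j, ex (Sum.inl j) = x j := by
    intro j
    exact Equiv.Set.sumCompl_apply_inl _ _
  have hey : ∀ j, ey (Sum.inl j) = y j := by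
    intro j
    exact Equiv.Set.sumCompl_apply_inl _ _
  let A : Matrix (S ⊕ R) (S ⊕ R') ℤ := H.submatrix ex ey
  have hNe : NeZero m := ⟨hm.ne'⟩
  have hAA : ∀ a b, (((A * Aᵀ) a b : ℤ) : ZMod m) = if a = b then (n0 : ZMod m) else 0 := by
    intro a b
    have h1 : A * Aᵀ = (H * Hᵀ).submatrix ex ex := by
      simp only [A]
      rw [Matrix.transpose_submatrix, Matrix.submatrix_mul_equiv]
    rw [h1, Matrix.submatrix_apply]
    by_cases hab : a = b
    · rw [if_pos hab, hab, diag_sign H hH, hcard]
      simp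
    · rw [if_neg hab, ZMod.intCast_zmod_eq_zero_iff_dvd]
      exact hHH _ _ (fun h => hab (ex.injective h))
  have hcR : Fintype.card S + Fintype.card R = n0 := by
    rw [← Fintype.card_sum, Fintype.card_congr ex, hcard]
  have hcR' : Fintype.card S + Fintype.card R' = n0 := by
    rw [← Fintype.card_sum, Fintype.card_congr ey, hcard]
  let E : Matrix ((S × Option (Fin w)) ⊕ R) ((S × Option (Fin w)) ⊕ R') ℤ := blowE A M
  have hcW : Fintype.card (Option (Fin w)) = w + 1 := by simp
  refine modHad_of_type (ι := (S × Option (Fin w)) ⊕ R) (κ := (S × Option (Fin w)) ⊕ R')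
    ?_ ?_ E ?_ ?_
  · rw [Fintype.card_sum, Fintype.card_prod, hcW]
    nlinarith
  · rw [Fintype.card_sum, Fintype.card_prod, hcW]
    nlinarith
  · have hA : ∀ a b, A a b = 1 ∨ A a b = -1 := fun a b => hH _ _
    rintro (⟨a, t⟩ | a) (⟨b, u⟩ | b)
    · simp only [E, blowE]
      split_ifs with h
      · simpa using hA _ _
      · rcases hM a b with h0 | h0
        · rw [h0]
          simpa using hA _ _
        · rw [h0]
          have : A (Sum.inl a) (Sum.inl b) = H (x a) (y b) := by
            simp only [A, Matrix.submatrix_apply, hex, hey]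
          rw [this]
          rcases hH (x a) (y b) with h1 | h1 <;> rw [h1] <;> norm_num
    · exact hA _ _
    · exact hA _ _
    · exact hA _ _
  · intro i j hij
    rw [← ZMod.intCast_zmod_eq_zero_iff_dvd]
    let φ : ℤ →+* ZMod m := Int.castRingHom (ZMod m)
    have h1 : blowE (A.map φ) (M.map φ) = E.map φ := by
      ext (⟨a, t⟩ | a) (⟨b, u⟩ | b)
      · simp only [E, blowE, Matrix.map_apply]
        split_ifs <;> simp
      · rfl
      · rfl
      · rfl
    have h2 := blow_mul (K := ZMod m) (W := Option (Fin w)) (S := S) (R := R) (R' := R')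
      (by
        rw [hcW]
        push_cast
        rw [(ZMod.natCast_eq_zero_iff w m).2 hw, zero_add])
      (A.map φ) (M.map φ) (n0 : ZMod m)
      (by
        rw [← Matrix.transpose_map, ← Matrix.map_mul]
        ext a b
        rw [Matrix.map_apply, Matrix.smul_apply, Matrix.one_apply]
        have h3 := hAA a b
        simp only [φ, eq_intCast]
        rw [h3]
        split_ifs <;> simp)
      (by
        rw [← Matrix.transpose_map, ← Matrix.map_mul, hMM]
        ext a b
        simp only [Matrix.smul_apply, Matrix.map_apply, Matrix.one_apply, smul_eq_mul, map_mul]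
        have : (4 : ZMod m) * (k : ZMod m) = (n0 : ZMod m) := by
          have := (ZMod.natCast_eq_natCast_iff _ _ _).2 hk
          push_cast at this
          exact this
        split_ifs
        · simp only [φ, eq_intCast, Int.cast_natCast, Int.cast_one, mul_one]
          exact this
        · simp) i j hij
    rw [h1, ← Matrix.transpose_map, ← Matrix.map_mul] at h2
    exact h2

/-- blow-up of a modular Hadamard matrix containing a Paley core -/
theorem mod_of_core' {ι : Type} [Fintype ι] [DecidableEq ι] {p : ℕ} [Fact p.Prime] (hp : p ≠ 2)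
    (m k n0 w : ℕ) (hm : 0 < m) (hw : m ∣ w)
    (H : Matrix ι ι ℤ) (hH : ∀ i j, H i j = 1 ∨ H i j = -1)
    (hHH : ∀ i j, i ≠ j → (m : ℤ) ∣ (H * Hᵀ) i j) (hcard : Fintype.card ι = n0)
    (hcore : Core p H)
    (hk : 4 * k ≡ n0 [MOD m])
    (hbig : ((2 * 2 ^ k : ℕ) : ℝ) * 2 ^ (2 * 2 ^ k) +
      5 * ((2 * 2 ^ k : ℕ) : ℝ) * 2 ^ (2 * 2 ^ k) * Real.sqrt p < p)
    (hle : 2 * 2 ^ k ≤ p) :
    ModHad m (n0 + 2 ^ k * w) := by
  obtain ⟨r, c, ε, hr, hcinj, hε, hco⟩ := hcore
  obtain ⟨S, _, _, A, hc, hA, hd, ht, hAA⟩ := cube k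
  have hc' : Fintype.card S = 2 ^ k := hc
  have h1 : ∀ j l, (if A j l = 0 then (1 : ℤ) else A j l) * ε = 1 ∨
      (if A j l = 0 then (1 : ℤ) else A j l) * ε = -1 := by
    intro j l
    apply sign_mul _ hε
    split_ifs with h
    · exact Or.inl rfl
    · rcases hA j l with h' | h' | h'
      · exact absurd h' h
      · exact Or.inl h'
      · exact Or.inr h'
  obtain ⟨x, y, hx, hy, hxy⟩ := universal (p := p) (S := S) hp (by rw [hc']; exact hbig)
    (by rw [hc']; exact hle) (fun j l => (if A j l = 0 then (1 : ℤ) else A j l) * ε) h1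
  have hεε : ε * ε = 1 := by
    rcases hε with h | h <;> rw [h] <;> norm_num
  have := blowup_mod m n0 w hm H hH hHH hcard (fun j => r (x j)) (fun l => c (y l))
    (fun a b h => hx (hr h)) (fun a b h => hy (hcinj h)) A (by
      intro j l
      by_cases h0 : A j l = 0
      · exact Or.inl h0
      · right
        have hne : x j ≠ y l := by
          intro h
          have h2 := hxy j l
          rw [h, sub_self, qc_zero] at h2
          rcases h1 j l with h3 | h3 <;> rw [h3] at h2 <;> norm_num at h2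
        rw [hco _ _ hne, hxy j l, if_neg h0, mul_assoc, hεε, mul_one]) k (by
      rw [ht, hAA]) hk hw
  rw [hc'] at this
  exact this

end Pool.Agent.H182.Mod
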