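import Pool.Agent.H182.ModSwitch
import Pool.Graph.R_pool_sql_team_seeded_f0cf7b00.H114R2.ModB

/-!
# The choice of the parameters
-/

namespace Pool.Agent.H182.Mod

open Finset Pool.Agent.H114R2

/-- splitting a number along the primes dividing `x` -/
theorem split_coprime (x Mo : ℕ) : 0 < Mo → ∃ Ma Mb : ℕ, Mo = Ma * Mb ∧ Ma.Coprime Mb ∧
    Mb.Coprime x ∧ ∀ p, p.Prime → p ∣ Ma → p ∣ x := by
  induction Mo using Nat.recOnPosPrimePosCoprime with
  | zero =>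
    intro h
    exact absurd h (lt_irrefl _)
  | one =>
    intro _
    exact ⟨1, 1, rfl, Nat.coprime_one_left _, Nat.coprime_one_left _, fun p hp h =>
      absurd (Nat.dvd_one.1 h) hp.one_lt.ne'⟩
  | prime_pow p n hp hn =>
    intro _
    by_cases h : p ∣ x
    · refine ⟨p ^ n, 1, (mul_one _).symm, Nat.coprime_one_right _, Nat.coprime_one_left _, ?_⟩
      intro l hl hlp
      rwa [(Nat.prime_dvd_prime_iff_eq hl hp).1 (hl.dvd_of_dvd_pow hlp)]
    · refine ⟨1, p ^ n, (one_mul _).symm, Nat.coprime_one_left _, ?_, fun l hl h =>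
        absurd (Nat.dvd_one.1 h) hl.one_lt.ne'⟩
      exact Nat.Coprime.pow_left _ ((Nat.Prime.coprime_iff_not_dvd hp).2 h)
  | coprime a b ha hb hab iha ihb =>
    intro _
    obtain ⟨a1, a2, ha0, ha1, ha2, ha3⟩ := iha (by omega)
    obtain ⟨b1, b2, hb0, hb1, hb2, hb3⟩ := ihb (by omega)
    refine ⟨a1 * b1, a2 * b2, ?_, ?_, ?_, ?_⟩
    · rw [ha0, hb0]
      ring
    · have h1 : a1.Coprime b2 := by
        refine Nat.Coprime.coprime_dvd_left ?_ (Nat.Coprime.coprime_dvd_right ?_ hab)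
        · rw [ha0]
          exact Dvd.intro _ rfl
        · rw [hb0]
          exact Dvd.intro_left _ rfl
      have h2 : b1.Coprime a2 := by
        refine Nat.Coprime.coprime_dvd_left ?_ (Nat.Coprime.coprime_dvd_right ?_ hab.symm)
        · rw [hb0]
          exact Dvd.intro _ rfl
        · rw [ha0]
          exact Dvd.intro_left _ rfl
      exact Nat.Coprime.mul_left (Nat.Coprime.mul_right ha1 h1) (Nat.Coprime.mul_right h2 hb1)
    · exact Nat.Coprime.mul_left ha2 hb2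
    · intro p hp h
      rcases (Nat.Prime.dvd_mul hp).1 h with h | h
      · exact ha3 p hp h
      · exact hb3 p hp h

theorem cop_of_inv {a x m : ℕ} (h : a * x ≡ 1 [MOD m]) : x.Coprime m := by
  have h1 := h.gcd_eq
  rw [Nat.gcd_one_left] at h1
  have h2 : (a * x).Coprime m := h1
  exact Nat.Coprime.coprime_mul_left h2

theorem sum_two_pow {ρ : ℕ} (hρ : ρ % 2 = 1) (A : ℕ) : ∀ d : ℕ,
    2 ^ A ∣ ∑ k ∈ range (2 ^ A * d), ρ ^ k := by
  induction A with
  | zero =>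
    intro d
    simp
  | succ A ih =>
    intro d
    have h1 : 2 ^ (A + 1) * d = 2 ^ A * d + 2 ^ A * d := by ring
    rw [h1, Finset.sum_range_add]
    simp_rw [pow_add]
    rw [← Finset.mul_sum]
    have h2 : ∀ S t : ℕ, S + t * S = (1 + t) * S := by
      intro S t
      ring
    rw [h2, pow_one, mul_comm (2 ^ A) 2]
    refine mul_dvd_mul ?_ (ih d)
    have h3 : (ρ ^ (2 ^ A * d)) % 2 = 1 := by
      rw [Nat.pow_mod, hρ, one_pow]
      rfl
    omega

theorem geom_two {ρ D : ℕ} (hρ : ρ % 2 = 1) (A : ℕ) (hD : D ≡ 1 [MOD 2 ^ A]) (hD1 : 1 ≤ D) :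
    (∑ k ∈ range D, ρ ^ k) ≡ 1 [MOD 2 ^ A] ∧ ρ ^ (D - 1) ≡ 1 [MOD 2 ^ A] := by
  obtain ⟨d, hd⟩ := (Nat.modEq_iff_dvd' hD1).1 hD.symm
  have hD' : D = 2 ^ A * d + 1 := by omega
  have hcop : ρ.Coprime (2 ^ A) := Nat.Coprime.pow_right A (odd_cop_two hρ)
  have h1 : ρ ^ (2 ^ A * d) ≡ 1 [MOD 2 ^ A] := by
    refine pow_modEq_one hcop (Dvd.dvd.mul_right ?_ d)
    rcases Nat.eq_zero_or_pos A with h | h
    · rw [h]
      simp
    · rw [Nat.totient_prime_pow Nat.prime_two h]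
      simp only [Nat.add_one_sub_one, mul_one]
      exact pow_dvd_pow 2 (by omega)
  constructor
  · rw [hD', Finset.sum_range_succ]
    have h2 := (Nat.modEq_zero_iff_dvd).2 (sum_two_pow hρ A d)
    have := h2.add h1
    rwa [zero_add] at this
  · rw [hD', Nat.add_sub_cancel]
    exact h1

section alg
variable {R : Type} [CommRing R]

theorem alg_two {Q N ρ r v : R} (h1 : Q * (4 * N - 1) = 1) (h2 : N * ρ = 4 * N - 1) (hv : v = 1)
    (hr : ρ * r = 1) : (1 + Q) * v = 4 * r ∧ (1 + Q) * v = 4 * N * Q := by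
  have h3 : 1 + Q = 4 * N * Q := by linear_combination -h1
  have h4 : r = N * Q := by linear_combination (-r) * h1 + (-(r * Q)) * h2 + N * Q * hr
  constructor
  · rw [hv, mul_one, h3, h4]
    ring
  · rw [hv, mul_one, h3]

theorem alg_a {Q N D r v : R} (h1 : Q * N = 1) (hD : D * (N + 1) = 4 * N) (hv : v = D)
    (hr : r = 1) : (1 + Q) * v = 4 * r ∧ (1 + Q) * v = 4 * N * Q := by
  have h3 : (1 + Q) * D = 4 := by linear_combination (-D) * h1 + Q * hD + 4 * h1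
  constructor
  · rw [hv, h3, hr, mul_one]
  · rw [hv, h3]
    linear_combination -4 * h1

theorem alg_b {Q N r v : R} (h1 : Q * (N - 1) = 1) (hv : v = 4)
    (hr : r = 1) : (1 + Q) * v = 4 * r + 4 * Q ∧ (1 + Q) * v = 4 * N * Q := by
  constructor
  · rw [hv, hr]
    ring
  · rw [hv]
    linear_combination -4 * h1

end alg

theorem dvd_piece {m' : ℕ} [NeZero m'] (q i v ρ D : ℕ) (hD : 2 ≤ D) (c0 cg c0' cg' : ℤ)
    (t : ZMod m') (h1 : (1 + (q : ZMod m')) * v = 4 * (ρ : ZMod m') ^ (D - 2) + 4 * q * t)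
    (hc0 : c0 = (ρ : ℤ) ^ (D - 1)) (hcg : cg = (ρ : ℤ) ^ (D - 2) * ((ρ : ℤ) - 1))
    (h0' : (c0' : ZMod m') = t) (hg' : (cg' : ZMod m') = 0) :
    (m' : ℤ) ∣ (q : ℤ) ^ i * ((v : ℤ) - 4 * c0 + 4 * cg) +
      (q : ℤ) ^ (i + 1) * ((v : ℤ) - 4 * c0' + 4 * cg') := by
  rw [← ZMod.intCast_zmod_eq_zero_iff_dvd, hc0, hcg]
  have h2 : D - 1 = (D - 2) + 1 := by omega
  rw [h2]
  push_cast
  rw [h0', hg']
  linear_combination (q : ZMod m') ^ i * h1

theorem order_piece {m' : ℕ} (q i v N : ℕ)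
    (h1 : (1 + (q : ZMod m')) * v = 4 * N * q) (h2 : (q : ZMod m') ^ (i + 1) = 1) :
    q ^ i * (q + 1) * v ≡ 4 * N [MOD m'] := by
  rw [← ZMod.natCast_eq_natCast_iff]
  push_cast
  linear_combination (q : ZMod m') ^ i * h1 + 4 * N * h2

/-- the parameters -/
theorem params (M a P : ℕ) (hM : 0 < M) (h8 : 8 ∣ M) (ha : a % 8 = 4) :
    ∃ (q i v : ℕ) (_ : NeZero v) (f f' : ZMod v → ℤ), P < q ∧ q.Prime ∧ q % 4 = 3 ∧ ZO f ∧ ZO f' ∧
      (∀ g, g ≠ 0 → (M : ℤ) ∣ (q : ℤ) ^ i * ((v : ℤ) - 4 * corr f 0 + 4 * corr f g) +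
        (q : ℤ) ^ (i + 1) * ((v : ℤ) - 4 * corr f' 0 + 4 * corr f' g)) ∧
      q ^ i * (q + 1) * v ≡ a [MOD M] := by
  obtain ⟨A, Mo, hMo, hMA⟩ := Nat.exists_eq_two_pow_mul_odd hM.ne'
  have hMo2 : Mo % 2 = 1 := Nat.odd_iff.1 hMo
  have hMo0 : 0 < Mo := by omega
  obtain ⟨N, hN⟩ : ∃ N, a = 4 * N := ⟨a / 4, by omega⟩
  have hN2 : N % 2 = 1 := by omega
  have hN1 : 1 ≤ N := by omega
  obtain ⟨Ma, Mb, hMab, hcab, hMb, hMa⟩ := split_coprime (N - 1) Mo hMo0
  have hMa2 : Ma % 2 = 1 := by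
    by_contra h
    have h' : Ma % 2 = 0 := by omega
    have : (Ma * Mb) % 2 = 0 := by rw [Nat.mul_mod, h', zero_mul]; rfl
    omega
  have hMb2 : Mb % 2 = 1 := by
    by_contra h
    have h' : Mb % 2 = 0 := by omega
    have : (Ma * Mb) % 2 = 0 := by rw [Nat.mul_mod, h', mul_zero]; rfl
    omega
  have hMa0 : 0 < Ma := by omega
  have hMb0 : 0 < Mb := by omega
  set E := 2 ^ A with hE
  have hE0 : 0 < E := by positivity
  have hEa : E.Coprime Ma := (Nat.Coprime.pow_right A (odd_cop_two hMa2)).symm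
  have hEb : E.Coprime Mb := (Nat.Coprime.pow_right A (odd_cop_two hMb2)).symm
  have hEo : E.Coprime Mo := (Nat.Coprime.pow_right A (odd_cop_two hMo2)).symm
  have h8E : 8 ∣ E := by
    rw [hMA] at h8
    have : Nat.Coprime 8 Mo := by
      have := (Nat.Coprime.pow_right 3 (odd_cop_two hMo2)).symm
      simpa using this
    exact this.dvd_of_dvd_mul_right h8
  -- coprimality with Ma
  have hNa : N.Coprime Ma := by
    refine Nat.coprime_of_dvd fun l hl hlN hla => ?_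
    have h1 := hMa l hl hla
    have h2 : l ∣ N - (N - 1) := Nat.dvd_sub hlN h1
    have h3 : N - (N - 1) = 1 := by omega
    rw [h3] at h2
    exact hl.one_lt.ne' (Nat.dvd_one.1 h2)
  have hN1a : (N + 1).Coprime Ma := by
    refine Nat.coprime_of_dvd fun l hl hlN hla => ?_
    have h1 := hMa l hl hla
    have h2 : l ∣ (N + 1) - (N - 1) := Nat.dvd_sub hlN h1
    have h3 : (N + 1) - (N - 1) = 2 := by omega
    rw [h3] at h2
    have h4 := (Nat.prime_dvd_prime_iff_eq hl Nat.prime_two).1 h2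
    rw [h4] at hla
    omega
  have hNb : (N - 1).Coprime Mb := hMb.symm
  have hNE : N.Coprime E := Nat.Coprime.pow_right A (odd_cop_two hN2)
  have h4NE : (4 * N - 1).Coprime E := Nat.Coprime.pow_right A (odd_cop_two (by omega))
  -- the prime q
  obtain ⟨x1, hx1⟩ := solve_mod h4NE 1
  obtain ⟨x2, hx2⟩ := solve_mod hNa 1
  obtain ⟨x3, hx3⟩ := solve_mod hNb 1
  obtain ⟨x4, hx4a, hx4b⟩ := Nat.chineseRemainder hcab x2 x3
  have hEab : E.Coprime (Ma * Mb) := Nat.Coprime.mul_right hEa hEb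
  obtain ⟨x, hxa, hxb⟩ := Nat.chineseRemainder hEab x1 x4
  have hqE : (4 * N - 1) * x ≡ 1 [MOD E] := (hxa.mul_left _).trans hx1
  have hqa : N * x ≡ 1 [MOD Ma] :=
    (((hxb.of_dvd (Dvd.intro _ rfl)).trans hx4a).mul_left _).trans hx2
  have hqb : (N - 1) * x ≡ 1 [MOD Mb] :=
    (((hxb.of_dvd (Dvd.intro_left _ rfl)).trans hx4b).mul_left _).trans hx3
  have hMeq : M = E * (Ma * Mb) := by rw [hMA, hMab]
  have hxM : x.Coprime M := by
    rw [hMeq]
    exact Nat.Coprime.mul_right (cop_of_inv hqE)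
      (Nat.Coprime.mul_right (cop_of_inv hqa) (cop_of_inv hqb))
  obtain ⟨q, hqP, hq, hqx⟩ := Nat.forall_exists_prime_gt_and_modEq P hM.ne' hxM
  have hEM : E ∣ M := by rw [hMeq]; exact Dvd.intro _ rfl
  have haM : Ma ∣ M := by rw [hMeq]; exact ⟨E * Mb, by ring⟩
  have hbM : Mb ∣ M := by rw [hMeq]; exact ⟨E * Ma, by ring⟩
  replace hqE : (4 * N - 1) * q ≡ 1 [MOD E] := ((hqx.of_dvd hEM).mul_left _).trans hqE
  replace hqa : N * q ≡ 1 [MOD Ma] := ((hqx.of_dvd haM).mul_left _).trans hqa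
  replace hqb : (N - 1) * q ≡ 1 [MOD Mb] := ((hqx.of_dvd hbM).mul_left _).trans hqb
  have hqM : q.Coprime M := by
    unfold Nat.Coprime
    rw [hqx.gcd_eq]
    exact hxM
  have hq3 : q % 4 = 3 := by
    have h1 : (4 * N - 1) * q ≡ 1 [MOD 4] := hqE.of_dvd (dvd_trans (by norm_num) h8E)
    have h2 : (4 * N - 1) * q % 4 = 1 := h1
    have h3 : (4 * N - 1) % 4 = 3 := by omega
    rw [Nat.mul_mod, h3] at h2
    have h4 : q % 4 < 4 := Nat.mod_lt _ (by norm_num)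
    interval_cases h5 : q % 4 <;> simp_all
  -- the switch
  obtain ⟨u, n₁, y, _, hn1, huM, hn1M, hyu, hρu, hSW⟩ := switch Mb hMb0 (E * Ma)
    (Nat.mul_pos hE0 hMa0) (Nat.Coprime.mul_left hEb hcab) M hM
  -- the prime ρ
  obtain ⟨z1, hz1⟩ := solve_mod hNE (4 * N - 1)
  obtain ⟨z2, hz2a, hz2b⟩ := Nat.chineseRemainder hEab z1 1
  have hMu : (E * (Ma * Mb)).Coprime u := by
    rw [← hMeq]
    exact huM.symm
  obtain ⟨z, hza, hzb⟩ := Nat.chineseRemainder hMu z2 y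
  have hzE : N * z ≡ 4 * N - 1 [MOD E] :=
    (((hza.of_dvd (Dvd.intro _ rfl)).trans hz2a).mul_left _).trans hz1
  have hzab : z ≡ 1 [MOD Ma * Mb] := (hza.of_dvd (Dvd.intro_left _ rfl)).trans hz2b
  have hz2 : z % 2 = 1 := by
    have h1 : N * z ≡ 4 * N - 1 [MOD 2] := hzE.of_dvd (dvd_trans (by norm_num) h8E)
    have h2 : N * z % 2 = (4 * N - 1) % 2 := h1
    have h3 : (4 * N - 1) % 2 = 1 := by omega
    rw [h3, Nat.mul_mod, hN2, one_mul] at h2
    omega
  have hu0 : 0 < u := Nat.pos_of_ne_zero (NeZero.ne u)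
  have hzc : z.Coprime (M * u) := by
    refine Nat.Coprime.mul_right ?_ ?_
    · rw [hMeq]
      refine Nat.Coprime.mul_right (Nat.Coprime.pow_right A (odd_cop_two hz2)) ?_
      unfold Nat.Coprime
      rw [hzab.gcd_eq]
      exact Nat.gcd_one_left _
    · unfold Nat.Coprime
      rw [hzb.gcd_eq]
      exact hyu
  obtain ⟨ρ, _, hρ, hρz⟩ := Nat.forall_exists_prime_gt_and_modEq 0
    (Nat.mul_pos hM hu0).ne' hzc
  have hρM : ρ ≡ z [MOD M] := hρz.of_dvd (Dvd.intro _ rfl)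
  have hρu' : ρ ≡ y [MOD u] := (hρz.of_dvd (Dvd.intro_left _ rfl)).trans hzb
  have hρE : N * ρ ≡ 4 * N - 1 [MOD E] := ((hρM.of_dvd hEM).mul_left _).trans hzE
  have hρab : ρ ≡ 1 [MOD Ma * Mb] := (hρM.of_dvd (by rw [hMeq]; exact Dvd.intro_left _ rfl)).trans hzab
  have hρa : ρ ≡ 1 [MOD Ma] := hρab.of_dvd (Dvd.intro _ rfl)
  have hρb : ρ ≡ 1 [MOD Mb] := hρab.of_dvd (Dvd.intro_left _ rfl)
  have hρ2 : ρ % 2 = 1 := by
    have h1 : ρ ≡ z [MOD 2] := hρM.of_dvd (dvd_trans (by norm_num) h8)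
    have h2 : ρ % 2 = z % 2 := h1
    omega
  -- the dimension D
  obtain ⟨d1, hd1⟩ := solve_mod hN1a (4 * N)
  obtain ⟨d2, hd2a, hd2b⟩ := Nat.chineseRemainder hcab d1 4
  obtain ⟨d3, hd3a, hd3b⟩ := Nat.chineseRemainder hEab 1 d2
  have hMn : (E * (Ma * Mb)).Coprime n₁ := by
    rw [← hMeq]
    exact hn1M.symm
  obtain ⟨d4, hd4a, hd4b⟩ := Nat.chineseRemainder hMn d3 0
  rw [← hMeq] at hd4a
  obtain ⟨D, hD3, hDM, hDn⟩ : ∃ D, 3 ≤ D ∧ D ≡ d3 [MOD M] ∧ n₁ ∣ D := by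
    refine ⟨d4 + 3 * (M * n₁), ?_, ?_, ?_⟩
    · have : 0 < M * n₁ := Nat.mul_pos hM hn1
      omega
    · have h1 : 3 * (M * n₁) ≡ 0 [MOD M] := (Nat.modEq_zero_iff_dvd).2 ⟨3 * n₁, by ring⟩
      have := hd4a.add h1
      rwa [add_zero] at this
    · exact dvd_add ((Nat.modEq_zero_iff_dvd).1 hd4b) ⟨3 * M, by ring⟩
  have hDE : D ≡ 1 [MOD E] := (hDM.of_dvd hEM).trans hd3a
  have hDab : D ≡ d2 [MOD Ma * Mb] :=
    (hDM.of_dvd (by rw [hMeq]; exact Dvd.intro_left _ rfl)).trans hd3b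
  have hDa : (N + 1) * D ≡ 4 * N [MOD Ma] :=
    (((hDab.of_dvd (Dvd.intro _ rfl)).trans hd2a).mul_left _).trans hd1
  have hDb : D ≡ 4 [MOD Mb] := (hDab.of_dvd (Dvd.intro_left _ rfl)).trans hd2b
  -- v
  obtain ⟨v, hv⟩ : ∃ v, v = ∑ k ∈ range D, ρ ^ k := ⟨_, rfl⟩
  have hv0 : 0 < v := by
    have h1 : ρ ^ 0 ≤ ∑ k ∈ range D, ρ ^ k :=
      Finset.single_le_sum (f := fun k => ρ ^ k) (fun _ _ => Nat.zero_le _)
      (Finset.mem_range.2 (by omega : 0 < D))
    rw [← hv, pow_zero] at h1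
    omega
  have : NeZero v := ⟨hv0.ne'⟩
  have : Fact ρ.Prime := ⟨hρ⟩
  have huv : u ∣ v := by
    rw [hv]
    exact hρu ρ D hρu' hDn
  obtain ⟨f, hf, hf0, hfg⟩ := singer ρ 1 one_pos D (by omega) v (by rw [hv, pow_one])
  rw [pow_one] at hf0 hfg
  obtain ⟨f', hf', hfa, hfb, hfc⟩ := switch_emb huv hSW
  have hNeE : NeZero E := ⟨hE0.ne'⟩
  have hNea : NeZero Ma := ⟨hMa0.ne'⟩
  have hNeb : NeZero Mb := ⟨hMb0.ne'⟩
  -- the congruences in the rings
  have cast : ∀ {m x y : ℕ}, x ≡ y [MOD m] → (x : ZMod m) = (y : ZMod m) := fun h =>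
    (ZMod.natCast_eq_natCast_iff _ _ _).2 h
  have castz : ∀ {m : ℕ} {x : ℤ}, (m : ℤ) ∣ x → (x : ZMod m) = 0 := fun h =>
    (ZMod.intCast_zmod_eq_zero_iff_dvd _ _).2 h
  obtain ⟨g1, g2⟩ := geom_two hρ2 A hDE (by omega)
  have hvE : (v : ZMod E) = 1 := by
    rw [← hv] at g1
    have := cast g1
    simpa using this
  have hrE : (ρ : ZMod E) * (ρ : ZMod E) ^ (D - 2) = 1 := by
    have h1 := cast g2
    push_cast at h1
    rw [← pow_succ']
    have h2 : D - 2 + 1 = D - 1 := by omega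
    rw [h2]
    exact h1
  have hvm : ∀ {m : ℕ}, ρ ≡ 1 [MOD m] → (v : ZMod m) = D ∧ (ρ : ZMod m) ^ (D - 2) = 1 := by
    intro m h
    have h1 := geom_modEq h D
    rw [← hv] at h1
    simp only [one_pow, Finset.sum_const, Finset.card_range, smul_eq_mul, mul_one] at h1
    refine ⟨cast h1, ?_⟩
    have h2 := cast h
    rw [h2]
    simp
  have kE := alg_two (R := ZMod E) (Q := q) (N := N) (ρ := ρ) (r := (ρ : ZMod E) ^ (D - 2))
    (v := v) (by
      have h1 := cast hqE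
      push_cast [show 1 ≤ 4 * N by omega] at h1
      rw [mul_comm]
      exact h1) (by
      have h1 := cast hρE
      push_cast [show 1 ≤ 4 * N by omega] at h1
      exact h1) hvE hrE
  have ka := alg_a (R := ZMod Ma) (Q := q) (N := N) (D := D) (r := (ρ : ZMod Ma) ^ (D - 2))
    (v := v) (by
      have h1 := cast hqa
      push_cast at h1
      rw [mul_comm]
      exact h1) (by
      have h1 := cast hDa
      push_cast at h1
      rw [mul_comm]
      exact h1) (hvm hρa).1 (hvm hρa).2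
  have kb := alg_b (R := ZMod Mb) (Q := q) (N := N) (r := (ρ : ZMod Mb) ^ (D - 2))
    (v := v) (by
      have h1 := cast hqb
      push_cast [hN1] at h1
      rw [mul_comm]
      exact h1) (by
      rw [(hvm hρb).1]
      have h1 := cast hDb
      push_cast at h1
      exact h1) (hvm hρb).2
  refine ⟨q, M.totient - 1, v, inferInstance, f, f', hqP, hq, hq3, hf, hf', ?_, ?_⟩
  · intro g hg
    rw [hMeq]
    push_cast
    refine IsCoprime.mul_dvd ?_ ?_ (IsCoprime.mul_dvd ?_ ?_ ?_)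
    · exact_mod_cast Nat.isCoprime_iff_coprime.2 hEab
    · refine dvd_piece q _ v ρ D (by omega) _ _ _ _ 0 ?_ hf0 (hfg g hg) (castz ?_) (castz ?_)
      · rw [kE.1]
        ring
      · exact dvd_trans (by push_cast; exact Dvd.intro _ rfl) (hfa 0)
      · exact dvd_trans (by push_cast; exact Dvd.intro _ rfl) (hfa g)
    · exact Nat.isCoprime_iff_coprime.2 hcab
    · refine dvd_piece q _ v ρ D (by omega) _ _ _ _ 0 ?_ hf0 (hfg g hg) (castz ?_) (castz ?_)
      · rw [ka.1]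
        ring
      · exact dvd_trans (by push_cast; exact Dvd.intro_left _ rfl) (hfa 0)
      · exact dvd_trans (by push_cast; exact Dvd.intro_left _ rfl) (hfa g)
    · refine dvd_piece q _ v ρ D (by omega) _ _ _ _ 1 ?_ hf0 (hfg g hg) ?_ (castz (hfc g hg))
      · rw [kb.1]
        ring
      · have h1 := castz hfb
        push_cast at h1
        exact sub_eq_zero.1 h1
  · rw [hN, hMeq]
    have htot : 0 < (E * (Ma * Mb)).totient := by
      rw [← hMeq]
      exact Nat.totient_pos.2 hM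
    have hpow : q ^ ((E * (Ma * Mb)).totient - 1 + 1) ≡ 1 [MOD M] := by
      rw [Nat.sub_add_cancel htot, ← hMeq]
      exact Nat.ModEq.pow_totient hqM
    have hp : ∀ {m : ℕ}, m ∣ M → (q : ZMod m) ^ ((E * (Ma * Mb)).totient - 1 + 1) = 1 := by
      intro m h
      have h1 := cast (hpow.of_dvd h)
      push_cast at h1
      exact h1
    refine (Nat.modEq_and_modEq_iff_modEq_mul hEab).1 ⟨order_piece q _ v N kE.2 (hp hEM),
      (Nat.modEq_and_modEq_iff_modEq_mul hcab).1 ⟨order_piece q _ v N ka.2 (hp haM),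
        order_piece q _ v N kb.2 (hp hbM)⟩⟩

end Pool.Agent.H182.Mod
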