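import Pool.Agent.H182.ModBlow
import Pool.Agent.H182.ModNT

/-!
# Modular Hadamard matrices of all large orders divisible by four, every modulus
-/

namespace Pool.Agent.H182.Mod

open Finset Matrix Pool.Agent.H114R2

/-- orders `4 (mod 8)` -/
theorem mod_four_odd (m : ℕ) (hm : 0 < m) : ∃ N, ∀ n, N ≤ n → n % 8 = 4 → ModHad m n := by
  have hQ : 0 < 8 * m * 2 ^ m := by positivity
  refine finite_classes hQ ?_
  intro a ha
  set Q := 8 * m * 2 ^ m with hQdef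
  have h8Q : 8 ∣ Q := ⟨m * 2 ^ m, by rw [hQdef]; ring⟩
  have hmQ : m ∣ Q := ⟨8 * 2 ^ m, by rw [hQdef]; ring⟩
  set k := (a / 4) % m with hk
  have hkm : k < m := Nat.mod_lt _ hm
  have h4a : 4 * (a / 4) = a := by omega
  obtain ⟨P, hP⟩ := large_enough (2 * 2 ^ k)
  obtain ⟨q, i, v, _, f, f', hqP, hq, hq3, hf, hf', hM, hn0⟩ := params Q a P hQ h8Q ha
  have : Fact q.Prime := ⟨hq⟩
  obtain ⟨κ, _, _, H, hc, hH, hHH, hcore⟩ := base_matrix hq3 i v Q f f' hf hf' hM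
  obtain ⟨hbig, hle⟩ := hP q hqP.le
  refine ⟨q ^ i * (q + 1) * v, fun n hn hna => ?_⟩
  have hcn : q ^ i * (q + 1) * v ≡ n [MOD Q] := hn0.trans hna.symm
  obtain ⟨j, hj⟩ := (Nat.modEq_iff_dvd' hn).1 hcn
  have hn2 : n = q ^ i * (q + 1) * v + Q * j := by omega
  have hsplit : Q * j = 2 ^ k * (m * (8 * 2 ^ (m - k) * j)) := by
    have : 2 ^ m = 2 ^ k * 2 ^ (m - k) := by
      rw [← pow_add]
      congr 1
      omega
    rw [hQdef, this]
    ring
  have hk4 : 4 * k ≡ q ^ i * (q + 1) * v [MOD m] := by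
    have h1 : 4 * k ≡ 4 * (a / 4) [MOD m] := (Nat.mod_modEq _ _).mul_left 4
    rw [h4a] at h1
    exact h1.trans (hn0.of_dvd hmQ).symm
  rw [hn2, hsplit]
  refine mod_of_core' (p := q) (by omega) m k _ _ hm (Dvd.intro _ rfl) H hH ?_ hc hcore hk4
    (by exact_mod_cast hbig) hle
  intro x y hxy
  exact dvd_trans (by exact_mod_cast hmQ) (hHH x y hxy)

/-- **every modulus, all large orders divisible by four** -/
theorem modular_complete (m : ℕ) (hm : 0 < m) : ∃ N, ∀ n, N ≤ n → 4 ∣ n → ModHad m n := by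
  obtain ⟨N1, hN1⟩ := mod_four_odd m hm
  obtain ⟨N2, hN2⟩ := mod_eight m hm
  refine ⟨max N1 N2, fun n hn h4 => ?_⟩
  by_cases h8 : 8 ∣ n
  · exact hN2 n ((le_max_right _ _).trans hn) h8
  · exact hN1 n ((le_max_left _ _).trans hn) (by omega)

end Pool.Agent.H182.Mod
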