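import Pool.Agent.H182.ModSinger

/-!
# The switch lemma

A `{0,1}`-valued function on a cyclic group `ZMod u` all of whose correlations vanish modulo `M1`,
and which is perfect (correlations `[g = 0]`) modulo `M2`.
-/

namespace Pool.Agent.H182.Mod

open Finset

theorem corr_prod {U V : Type} [Fintype U] [Fintype V] [Add U] [Add V] (f : U → ℤ) (g : V → ℤ)
    (a : U) (b : V) :
    corr (fun p : U × V => f p.1 * g p.2) (a, b) = corr f a * corr g b := by
  unfold corr
  rw [Fintype.sum_prod_type, Finset.sum_mul_sum]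
  refine Finset.sum_congr rfl fun x _ => Finset.sum_congr rfl fun y _ => ?_
  simp only [Prod.mk_add_mk]
  ring

theorem corr_equiv {U V : Type} [Fintype U] [Fintype V] [AddGroup U] [AddGroup V] (e : U ≃+ V)
    (f : V → ℤ) (g : U) : corr (fun x => f (e x)) g = corr f (e g) := by
  unfold corr
  refine Fintype.sum_equiv e.toEquiv _ _ fun x => ?_
  simp

theorem corr_extend {U V : Type} [Fintype U] [Fintype V] [AddGroup U] [AddGroup V] (i : U →+ V)
    (hi : Function.Injective i) (f : U → ℤ) (g : U) :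
    corr (Function.extend i f 0) (i g) = corr f g := by
  classical
  unfold corr
  have h1 : ∀ v : V, v ∉ univ.image i →
      Function.extend i f 0 v * Function.extend i f 0 (v + i g) = 0 := by
    intro v hv
    rw [Function.extend_apply']
    · simp
    · rintro ⟨a, rfl⟩
      exact hv (Finset.mem_image_of_mem _ (Finset.mem_univ _))
  rw [← Finset.sum_subset (Finset.subset_univ (univ.image i)) (fun v _ hv => h1 v hv),
    Finset.sum_image (fun a _ b _ h => hi h)]
  refine Finset.sum_congr rfl fun x _ => ?_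
  rw [← map_add, hi.extend_apply, hi.extend_apply]

theorem corr_extend' {U V : Type} [Fintype U] [Fintype V] [AddGroup U] [AddGroup V] (i : U →+ V)
    (f : U → ℤ) (g : V) (hg : g ∉ Set.range i) :
    corr (Function.extend i f 0) g = 0 := by
  classical
  unfold corr
  refine Finset.sum_eq_zero fun x _ => ?_
  by_cases h1 : x ∈ Set.range i
  · have h2 : x + g ∉ Set.range i := by
      rintro ⟨b, hb⟩
      obtain ⟨a, rfl⟩ := h1
      apply hg
      refine ⟨-a + b, ?_⟩
      rw [map_add, map_neg, hb, neg_add_cancel_left]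
    rw [Function.extend_apply' _ _ _ h2]
    simp
  · rw [Function.extend_apply' _ _ _ h1]
    simp

/-- correlation data on `ZMod u` -/
def SWf (M1 M2 : ℕ) (u : ℕ) [NeZero u] : Prop :=
  ∃ f : ZMod u → ℤ, ZO f ∧ (∀ g, (M1 : ℤ) ∣ corr f g) ∧ (M2 : ℤ) ∣ corr f 0 - 1 ∧
    ∀ g, g ≠ 0 → (M2 : ℤ) ∣ corr f g

theorem geom_dvd (Q n t : ℕ) : (∑ k ∈ range n, Q ^ k) ∣ ∑ k ∈ range (n * t), Q ^ k := by
  induction t with
  | zero => simp
  | succ t ih =>
    rw [mul_add, mul_one, Finset.sum_range_add]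
    refine dvd_add ih ?_
    simp_rw [pow_add]
    rw [← Finset.mul_sum]
    exact Dvd.intro_left _ rfl

theorem geom_modEq {a b m : ℕ} (h : a ≡ b [MOD m]) (D : ℕ) :
    (∑ k ∈ range D, a ^ k) ≡ (∑ k ∈ range D, b ^ k) [MOD m] := by
  induction D with
  | zero => rfl
  | succ D ih =>
    rw [Finset.sum_range_succ, Finset.sum_range_succ]
    exact ih.add (h.pow D)

theorem pow_modEq_one {s M j : ℕ} (h : s.Coprime M) (hj : M.totient ∣ j) : s ^ j ≡ 1 [MOD M] := by
  obtain ⟨c, rfl⟩ := hj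
  rw [pow_mul]
  have := (Nat.ModEq.pow_totient h).pow c
  rwa [one_pow] at this

/-- the prime power case -/
theorem switch_pp (s : ℕ) (hs : s.Prime) (T : ℕ) (hT : 0 < T) (M2 : ℕ) (hM2 : 0 < M2)
    (hc : (s ^ T).Coprime M2) (L : ℕ) (hL : 0 < L) :
    ∃ (u n₁ y : ℕ) (_ : NeZero u), 0 < n₁ ∧ u.Coprime L ∧ n₁.Coprime L ∧ y.Coprime u ∧
      (∀ ρ D : ℕ, ρ ≡ y [MOD u] → n₁ ∣ D → u ∣ ∑ k ∈ range D, ρ ^ k) ∧ SWf (s ^ T) M2 u := by
  have : Fact s.Prime := ⟨hs⟩
  have hsM : s.Coprime M2 := (Nat.coprime_pow_left_iff hT _ _).1 hc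
  set j := T * (M2 * L).factorial with hj
  have hj0 : 0 < j := Nat.mul_pos hT (Nat.factorial_pos _)
  have hTj : T ≤ j := Nat.le_mul_of_pos_right _ (Nat.factorial_pos _)
  obtain ⟨n, hn, hnp⟩ := Nat.exists_infinite_primes (max (L + 1) 3)
  have hn3 : 3 ≤ n := (le_max_right _ _).trans hn
  have hnL : L < n := (le_max_left _ _).trans hn
  set Q := s ^ j with hQ
  set u := ∑ k ∈ range n, Q ^ k with hu
  have hQ1 : 1 ≤ Q := Nat.one_le_pow _ _ hs.pos
  have hu1 : 1 ≤ u := by
    have h1 : Q ^ 0 ≤ u := Finset.single_le_sum (f := fun k => Q ^ k) (fun _ _ => Nat.zero_le _)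
      (Finset.mem_range.2 (by omega : 0 < n))
    simpa using h1
  have : NeZero u := ⟨by omega⟩
  have hsu : s.Coprime u := by
    rw [Nat.Prime.coprime_iff_not_dvd hs]
    intro h
    have h1 : Q ≡ 0 [MOD s] := by
      rw [Nat.modEq_zero_iff_dvd, hQ]
      exact dvd_pow_self _ hj0.ne'
    have h2 := geom_modEq h1 n
    have h3 : ∑ k ∈ range n, 0 ^ k = 1 := by
      obtain ⟨n', rfl⟩ : ∃ n', n = n' + 1 := ⟨n - 1, by omega⟩
      rw [Finset.sum_range_succ']
      simp
    rw [h3] at h2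
    have h4 := (h2.dvd_iff (dvd_refl s)).1 h
    exact hs.one_lt.ne' (Nat.dvd_one.1 h4)
  refine ⟨u, n, Q, inferInstance, by omega, ?_, ?_, ?_, ?_, ?_⟩
  · -- u coprime to L
    refine Nat.coprime_of_dvd fun l hl hlu hlL => ?_
    by_cases hls : l = s
    · subst hls
      exact (Nat.Prime.coprime_iff_not_dvd hl).1 hsu hlu
    · have h1 : s.Coprime l := (Nat.coprime_primes hs hl).2 (fun h => hls h.symm)
      have h2 : Q ≡ 1 [MOD l] := by
        refine pow_modEq_one h1 (Dvd.dvd.mul_left ?_ _)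
        refine Nat.dvd_factorial (Nat.totient_pos.2 hl.pos) ?_
        refine (Nat.totient_le l).trans ((Nat.le_of_dvd hL hlL).trans ?_)
        exact Nat.le_mul_of_pos_left _ hM2
      have h3 := geom_modEq h2 n
      simp only [one_pow, Finset.sum_const, Finset.card_range, smul_eq_mul, mul_one] at h3
      have h4 := (h3.dvd_iff (dvd_refl l)).1 hlu
      have h5 := (Nat.prime_dvd_prime_iff_eq hl hnp).1 h4
      have h6 := Nat.le_of_dvd hL hlL
      omega
  · -- n coprime to L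
    rw [Nat.Prime.coprime_iff_not_dvd hnp]
    intro h
    have := Nat.le_of_dvd hL h
    omega
  · exact Nat.Coprime.pow_left _ hsu
  · intro ρ D hρ hD
    obtain ⟨t, rfl⟩ := hD
    have h1 := geom_modEq hρ (n * t)
    exact (h1.dvd_iff (dvd_refl u)).2 (geom_dvd Q n t)
  · obtain ⟨f, hf, hf0, hfg⟩ := singer s j hj0 n (by omega) u rfl
    have hQM : (M2 : ℤ) ∣ (Q : ℤ) - 1 := by
      have h1 : Q ≡ 1 [MOD M2] := by
        refine pow_modEq_one hsM (Dvd.dvd.mul_left ?_ _)
        refine Nat.dvd_factorial (Nat.totient_pos.2 hM2) ?_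
        exact (Nat.totient_le M2).trans (Nat.le_mul_of_pos_right _ hL)
      have h2 := (Nat.modEq_iff_dvd' hQ1).1 h1.symm
      have h3 : ((Q - 1 : ℕ) : ℤ) = (Q : ℤ) - 1 := by
        push_cast [hQ1]
        ring
      rw [← h3]
      exact_mod_cast h2
    have hsQ : ((s ^ T : ℕ) : ℤ) ∣ (Q : ℤ) := by
      have : s ^ T ∣ Q := pow_dvd_pow _ hTj
      exact_mod_cast this
    refine ⟨f, hf, ?_, ?_, ?_⟩
    · intro g
      by_cases hg : g = 0
      · rw [hg, hf0]
        exact dvd_pow hsQ (by omega)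
      · rw [hfg g hg]
        exact Dvd.dvd.mul_right (dvd_pow hsQ (by omega)) _
    · rw [hf0]
      have h1 : ((s ^ j : ℕ) : ℤ) - 1 ∣ ((s ^ j : ℕ) : ℤ) ^ (n - 1) - 1 ^ (n - 1) :=
        sub_dvd_pow_sub_pow _ _ _
      rw [one_pow] at h1
      exact dvd_trans hQM h1
    · intro g hg
      rw [hfg g hg]
      exact Dvd.dvd.mul_left hQM _

/-- **The switch lemma** -/
theorem switch (M2 : ℕ) (hM2 : 0 < M2) (M1 : ℕ) : 0 < M1 → M1.Coprime M2 → ∀ L : ℕ, 0 < L →
    ∃ (u n₁ y : ℕ) (_ : NeZero u), 0 < n₁ ∧ u.Coprime L ∧ n₁.Coprime L ∧ y.Coprime u ∧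
      (∀ ρ D : ℕ, ρ ≡ y [MOD u] → n₁ ∣ D → u ∣ ∑ k ∈ range D, ρ ^ k) ∧ SWf M1 M2 u := by
  induction M1 using Nat.recOnPosPrimePosCoprime with
  | zero => 
    intro h
    exact absurd h (lt_irrefl _)
  | one =>
    intro _ _ L hL
    refine ⟨1, 1, 1, inferInstance, one_pos, Nat.coprime_one_left _, Nat.coprime_one_left _,
      Nat.coprime_one_left _, fun _ _ _ _ => one_dvd _, fun _ => 1, fun _ => Or.inr rfl, ?_, ?_, ?_⟩
    · intro g
      simp
    · simp [corr]
    · intro g hg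
      exact absurd (Subsingleton.elim _ _) hg
  | prime_pow p n hp hn =>
    intro _ hc L hL
    exact switch_pp p hp n hn M2 hM2 hc L hL
  | coprime a b ha hb hab iha ihb =>
    intro _ hc L hL
    obtain ⟨u1, n1, y1, _, hn1, huL1, hnL1, hy1, hρ1, f1, hf1, hf1a, hf1b, hf1c⟩ :=
      iha (by omega) (Nat.Coprime.coprime_mul_right hc) L hL
    have hu1 : 0 < u1 := Nat.pos_of_ne_zero (NeZero.ne u1)
    obtain ⟨u2, n2, y2, _, hn2, huL2, hnL2, hy2, hρ2, f2, hf2, hf2a, hf2b, hf2c⟩ :=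
      ihb (by omega) (Nat.Coprime.coprime_mul_left hc) (L * u1) (Nat.mul_pos hL hu1)
    have hu2 : 0 < u2 := Nat.pos_of_ne_zero (NeZero.ne u2)
    have hu12 : u1.Coprime u2 := (Nat.Coprime.coprime_mul_left_right huL2).symm
    obtain ⟨y, hya, hyb⟩ := Nat.chineseRemainder hu12 y1 y2
    have : NeZero (u1 * u2) := ⟨(Nat.mul_pos hu1 hu2).ne'⟩
    refine ⟨u1 * u2, n1 * n2, y, inferInstance, Nat.mul_pos hn1 hn2, ?_, ?_, ?_, ?_, ?_⟩
    · exact Nat.Coprime.mul_left huL1 (Nat.Coprime.coprime_mul_right_right huL2)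
    · exact Nat.Coprime.mul_left hnL1 (Nat.Coprime.coprime_mul_right_right hnL2)
    · refine Nat.Coprime.mul_right ?_ ?_
      · have := hya.gcd_eq
        unfold Nat.Coprime
        rw [this]
        exact hy1
      · have := hyb.gcd_eq
        unfold Nat.Coprime
        rw [this]
        exact hy2
    · intro ρ D hρ hD
      refine Nat.Coprime.mul_dvd_of_dvd_of_dvd hu12 ?_ ?_
      · exact hρ1 ρ D ((hρ.of_dvd (Dvd.intro _ rfl)).trans hya) (dvd_trans (Dvd.intro _ rfl) hD)
      · exact hρ2 ρ D ((hρ.of_dvd (Dvd.intro_left _ rfl)).trans hyb)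
          (dvd_trans (Dvd.intro_left _ rfl) hD)
    · let e : ZMod (u1 * u2) ≃+ ZMod u1 × ZMod u2 := (ZMod.chineseRemainder hu12).toAddEquiv
      let F : ZMod u1 × ZMod u2 → ℤ := fun p => f1 p.1 * f2 p.2
      have hcor : ∀ g, corr (fun x => F (e x)) g = corr f1 (e g).1 * corr f2 (e g).2 := by
        intro g
        rw [corr_equiv e F g]
        exact corr_prod f1 f2 (e g).1 (e g).2
      refine ⟨fun x => F (e x), ?_, ?_, ?_, ?_⟩
      · intro x
        simp only [F]
        rcases hf1 (e x).1 with h | h <;> rcases hf2 (e x).2 with h' | h' <;> rw [h, h'] <;> simp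
      · intro g
        rw [hcor g]
        push_cast
        exact mul_dvd_mul (hf1a _) (hf2a _)
      · rw [hcor 0, map_zero]
        have h1 : corr f1 (0 : ZMod u1 × ZMod u2).1 * corr f2 (0 : ZMod u1 × ZMod u2).2 - 1 =
            (corr f1 0 - 1) * corr f2 0 + (corr f2 0 - 1) := by
          simp only [Prod.fst_zero, Prod.snd_zero]
          ring
        rw [h1]
        exact dvd_add (Dvd.dvd.mul_right hf1b _) hf2b
      · intro g hg
        rw [hcor g]
        by_cases h1 : (e g).1 = 0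
        · have h2 : (e g).2 ≠ 0 := by
            intro h2
            apply hg
            have h3 : e g = 0 := Prod.ext h1 h2
            exact e.map_eq_zero_iff.1 h3
          exact Dvd.dvd.mul_left (hf2c _ h2) _
        · exact Dvd.dvd.mul_right (hf1c _ h1) _

/-- embedding `ZMod u` in `ZMod v`, `u ∣ v` -/
theorem exists_emb (u v : ℕ) [NeZero u] [NeZero v] (h : u ∣ v) :
    ∃ i : ZMod u →+ ZMod v, Function.Injective i := by
  obtain ⟨c, hc⟩ := h
  have hu0 : 0 < u := Nat.pos_of_ne_zero (NeZero.ne u)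
  have hv0 : 0 < v := Nat.pos_of_ne_zero (NeZero.ne v)
  have hc0 : 0 < c := by
    rcases Nat.eq_zero_or_pos c with h | h
    · rw [h, mul_zero] at hc
      omega
    · exact h
  let φ : ℤ →+ ZMod v := (AddMonoidHom.mulRight ((c : ℕ) : ZMod v)).comp (Int.castAddHom (ZMod v))
  have hφ : φ u = 0 := by
    simp only [φ, AddMonoidHom.comp_apply, Int.coe_castAddHom, AddMonoidHom.mulRight_apply]
    have h1 : ((u : ℤ) : ZMod v) * ((c : ℕ) : ZMod v) = ((u * c : ℕ) : ZMod v) := by push_cast; rfl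
    rw [h1, ← hc]
    exact ZMod.natCast_self v
  refine ⟨ZMod.lift u ⟨φ, hφ⟩, ?_⟩
  rw [injective_iff_map_eq_zero]
  intro x hx
  obtain ⟨k, rfl⟩ := ZMod.intCast_surjective x
  rw [ZMod.lift_coe] at hx
  have h1 : (((k * c : ℤ)) : ZMod v) = 0 := by
    rw [← hx]
    simp only [φ, AddMonoidHom.comp_apply, Int.coe_castAddHom, AddMonoidHom.mulRight_apply]
    push_cast
    rfl
  rw [ZMod.intCast_zmod_eq_zero_iff_dvd, hc] at h1
  rw [ZMod.intCast_zmod_eq_zero_iff_dvd]
  push_cast at h1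
  exact Int.dvd_of_mul_dvd_mul_right (by exact_mod_cast hc0.ne') h1

/-- the switch function on `ZMod v` for a multiple `v` of `u` -/
theorem switch_emb {M1 M2 u v : ℕ} [NeZero u] [NeZero v] (huv : u ∣ v) (h : SWf M1 M2 u) :
    SWf M1 M2 v := by
  obtain ⟨f, hf, ha, hb, hc⟩ := h
  obtain ⟨i, hi⟩ := exists_emb u v huv
  refine ⟨Function.extend i f 0, ?_, ?_, ?_, ?_⟩
  · intro x
    by_cases hx : x ∈ Set.range i
    · obtain ⟨a, rfl⟩ := hx
      rw [hi.extend_apply]
      exact hf a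
    · rw [Function.extend_apply' _ _ _ hx]
      exact Or.inl rfl
  · intro g
    by_cases hg : g ∈ Set.range i
    · obtain ⟨a, rfl⟩ := hg
      rw [corr_extend i hi]
      exact ha a
    · rw [corr_extend' i f g hg]
      exact dvd_zero _
  · rw [← map_zero i, corr_extend i hi]
    exact hb
  · intro g hg0
    by_cases hg : g ∈ Set.range i
    · obtain ⟨a, rfl⟩ := hg
      rw [corr_extend i hi]
      exact hc a (fun h => hg0 (by rw [h, map_zero]))
    · rw [corr_extend' i f g hg]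
      exact dvd_zero _

end Pool.Agent.H182.Mod
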