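import Pool.Graph.R_pool_sql_team_seeded_f0cf7b00.H114R2.ModA
import Pool.Agent.H182.ModSwitch

/-!
# Full orthogonal designs `OD(q^i (q+1); q^i, q^(i+1))` with Paley cores, the base matrices
-/

namespace Pool.Agent.H182.Mod

open Finset Matrix Pool.Agent.H114R2

/-- the all-ones matrix -/
def jm (q : ℕ) : Matrix (ZMod q) (ZMod q) ℤ := fun _ _ => 1

/-- the Paley core -/
noncomputable def qm (q : ℕ) [Fact q.Prime] : Matrix (ZMod q) (ZMod q) ℤ := fun x y => qc q (x - y)

section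
variable {q : ℕ} [Fact q.Prime]

theorem jm_tr : (jm q)ᵀ = jm q := rfl

theorem qm_tr (h3 : q % 4 = 3) : (qm q)ᵀ = - qm q := by
  ext x y
  rw [Matrix.transpose_apply, Matrix.neg_apply]
  show qc q (y - x) = - qc q (x - y)
  have h1 : y - x = -1 * (x - y) := by ring
  rw [h1, qc_mul, qc_neg_one_three h3]
  ring

theorem jm_mul : jm q * (jm q)ᵀ = (q : ℤ) • jm q := by
  ext x y
  rw [Matrix.mul_apply, Matrix.smul_apply]
  simp [jm, ZMod.card]

theorem jm_qm (hp : q ≠ 2) : jm q * (qm q)ᵀ = 0 := by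
  ext x y
  rw [Matrix.mul_apply]
  simp only [jm, qm, Matrix.transpose_apply, one_mul, Matrix.zero_apply]
  exact sum_qc_sub hp y

theorem qm_jm (hp : q ≠ 2) : qm q * (jm q)ᵀ = 0 := by
  ext x y
  rw [Matrix.mul_apply]
  simp only [jm, qm, Matrix.transpose_apply, mul_one, Matrix.zero_apply]
  exact sum_qc_sub hp x

theorem qm_mul (hp : q ≠ 2) : qm q * (qm q)ᵀ = (q : ℤ) • 1 - jm q := by
  ext x y
  rw [Matrix.mul_apply, Matrix.sub_apply, Matrix.smul_apply, Matrix.one_apply]
  simp only [jm, qm, Matrix.transpose_apply]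
  by_cases hxy : x = y
  · subst hxy
    have : ∑ i : ZMod q, qc q (x - i) * qc q (x - i) = (q : ℤ) - 1 := by
      have h1 : ∀ i : ZMod q, qc q (x - i) * qc q (x - i) = 1 - if i = x then 1 else 0 := by
        intro i
        by_cases hi : i = x
        · rw [hi, sub_self, qc_zero, if_pos rfl]
          ring
        · rw [qc_sq (sub_ne_zero.2 (fun h => hi h.symm)), if_neg hi]
          ring
      simp_rw [h1]
      rw [Finset.sum_sub_distrib]
      simp [ZMod.card]
    rw [this]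
    simp
  · rw [sum_qc_mul hp x y hxy]
    simp [hxy]

/-- entries of two disjoint matrices with full joint support -/
def Disj {ι : Type} (R S : Matrix ι ι ℤ) : Prop :=
  ∀ a b, (R a b = 0 ∧ (S a b = 1 ∨ S a b = -1)) ∨ ((R a b = 1 ∨ R a b = -1) ∧ S a b = 0)

/-- the Paley core of a signed sum -/
def Core (q : ℕ) [Fact q.Prime] {ι : Type} (H : Matrix ι ι ℤ) : Prop :=
  ∃ (r c : ZMod q → ι) (ε : ℤ), Function.Injective r ∧ Function.Injective c ∧
    (ε = 1 ∨ ε = -1) ∧ ∀ x y : ZMod q, x ≠ y → H (r x) (c y) = qc q (x - y) * ε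

/-- **full orthogonal designs with Paley cores** -/
theorem od_pair (h3 : q % 4 = 3) (i : ℕ) :
    ∃ (ι : Type) (_ : Fintype ι) (_ : DecidableEq ι) (R S : Matrix ι ι ℤ),
      Fintype.card ι = q ^ i * (q + 1) ∧ Disj R S ∧ R * Rᵀ = ((q : ℤ) ^ i) • 1 ∧
      S * Sᵀ = ((q : ℤ) ^ (i + 1)) • 1 ∧ R * Sᵀ + S * Rᵀ = 0 ∧
      ∀ ε₁ ε₂ : ℤ, (ε₁ = 1 ∨ ε₁ = -1) → (ε₂ = 1 ∨ ε₂ = -1) → Core q (ε₁ • R + ε₂ • S) := by
  have hp : q ≠ 2 := by omega
  induction i with
  | zero =>
    refine ⟨Option (ZMod q), inferInstance, inferInstance, 1, pal q, ?_, ?_, ?_, ?_, ?_, ?_⟩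
    · rw [Fintype.card_option, ZMod.card]
      ring
    · intro a b
      by_cases hab : a = b
      · subst hab
        right
        rw [pal_diag, Matrix.one_apply_eq]
        exact ⟨Or.inl rfl, rfl⟩
      · left
        rw [Matrix.one_apply_ne hab]
        exact ⟨rfl, pal_zero_or a b hab⟩
    · simp
    · rw [zero_add, pow_one]
      exact pal_mul hp
    · rw [pal_tr, qc_neg_one_three h3]
      simp
    · intro ε₁ ε₂ _ h2
      refine ⟨some, some, ε₂, Option.some_injective _, Option.some_injective _, h2, ?_⟩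
      intro x y hxy
      have h1 : (some x : Option (ZMod q)) ≠ some y := fun h => hxy (Option.some_injective _ h)
      rw [Matrix.add_apply, Matrix.smul_apply, Matrix.smul_apply, Matrix.one_apply_ne h1,
        smul_zero, zero_add, smul_eq_mul, mul_comm]
      rfl
  | succ i ih =>
    obtain ⟨ι, _, _, R, S, hc, hd, hRR, hSS, hRS, hcore⟩ := ih
    refine ⟨ι × ZMod q, inferInstance, inferInstance, Matrix.kroneckerMap (· * ·) S 1,
      Matrix.kroneckerMap (· * ·) R (jm q) + Matrix.kroneckerMap (· * ·) S (qm q),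
      ?_, ?_, ?_, ?_, ?_, ?_⟩
    · rw [Fintype.card_prod, hc, ZMod.card]
      ring
    · rintro ⟨a, x⟩ ⟨b, y⟩
      rw [Matrix.add_apply, Matrix.kroneckerMap_apply, Matrix.kroneckerMap_apply,
        Matrix.kroneckerMap_apply, Matrix.one_apply]
      simp only [jm, qm, mul_one]
      rcases hd a b with ⟨h1, h2⟩ | ⟨h1, h2⟩
      · by_cases hxy : x = y
        · right
          rw [h1, hxy, if_pos rfl, mul_one, sub_self, qc_zero]
          simpa using h2
        · left
          rw [if_neg hxy, h1, mul_zero, zero_add]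
          exact ⟨rfl, sign_mul h2 (qc_sign (sub_ne_zero.2 hxy))⟩
      · left
        rw [h2, zero_mul, zero_mul, add_zero]
        exact ⟨rfl, h1⟩
    · rw [kron_tr, Matrix.transpose_one, ← Matrix.mul_kronecker_mul, hSS, Matrix.one_mul,
        Matrix.smul_kronecker, Matrix.one_kronecker_one]
    · have h1 : Matrix.kroneckerMap (· * ·) (R * Sᵀ) (jm q * (qm q)ᵀ) = 0 := by
        rw [jm_qm hp, Matrix.kronecker_zero]
      have h2 : Matrix.kroneckerMap (· * ·) (S * Rᵀ) (qm q * (jm q)ᵀ) = 0 := by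
        rw [qm_jm hp, Matrix.kronecker_zero]
      rw [Matrix.transpose_add, kron_tr, kron_tr, Matrix.add_mul, Matrix.mul_add, Matrix.mul_add,
        ← Matrix.mul_kronecker_mul, ← Matrix.mul_kronecker_mul, ← Matrix.mul_kronecker_mul,
        ← Matrix.mul_kronecker_mul, h1, h2, hRR, hSS, jm_mul, qm_mul hp]
      rw [Matrix.smul_kronecker, Matrix.smul_kronecker, Matrix.kronecker_smul]
      ext ⟨a, x⟩ ⟨b, y⟩
      simp only [Matrix.add_apply, Matrix.smul_apply, Matrix.kroneckerMap_apply,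
        Matrix.sub_apply, smul_eq_mul, Matrix.zero_apply, jm, Matrix.one_apply, Prod.mk.injEq]
      by_cases hab : a = b <;> by_cases hxy : x = y <;> simp [hab, hxy] <;> ring
    · rw [Matrix.transpose_add, kron_tr, kron_tr, kron_tr, Matrix.transpose_one, Matrix.add_mul,
        Matrix.mul_add, ← Matrix.mul_kronecker_mul, ← Matrix.mul_kronecker_mul,
        ← Matrix.mul_kronecker_mul, ← Matrix.mul_kronecker_mul, Matrix.one_mul, Matrix.mul_one,
        Matrix.one_mul, Matrix.mul_one, jm_tr, qm_tr h3, hSS]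
      have h1 : Matrix.kroneckerMap (· * ·) (S * Rᵀ) (jm q) +
          Matrix.kroneckerMap (· * ·) (R * Sᵀ) (jm q) = 0 := by
        rw [← Matrix.add_kronecker, add_comm, hRS, Matrix.zero_kronecker]
      have h2 : Matrix.kroneckerMap (· * ·) (((q : ℤ) ^ (i + 1)) • (1 : Matrix ι ι ℤ)) (-qm q) +
          Matrix.kroneckerMap (· * ·) (((q : ℤ) ^ (i + 1)) • (1 : Matrix ι ι ℤ)) (qm q) = 0 := by
        rw [← Matrix.kronecker_add, neg_add_cancel, Matrix.kronecker_zero]
      rw [add_add_add_comm, h1, h2, add_zero]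
    · intro ε₁ ε₂ h1 h2
      obtain ⟨r, c, ε, hr, hcinj, hε, hco⟩ := hcore ε₂ (-ε₂) h2 (by
        rcases h2 with h | h <;> rw [h] <;> norm_num)
      refine ⟨fun x => (r x, 0), fun y => (c y, 1), ε, ?_, ?_, hε, ?_⟩
      · intro x y hxy
        exact hr (Prod.mk.inj hxy).1
      · intro x y hxy
        exact hcinj (Prod.mk.inj hxy).1
      · intro x y hxy
        have h4 := hco x y hxy
        rw [Matrix.add_apply, Matrix.smul_apply, Matrix.smul_apply] at h4
        rw [Matrix.add_apply, Matrix.smul_apply, Matrix.smul_apply, Matrix.add_apply,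
          Matrix.kroneckerMap_apply, Matrix.kroneckerMap_apply, Matrix.kroneckerMap_apply,
          Matrix.one_apply_ne (zero_ne_one)]
        simp only [jm, qm, zero_sub]
        rw [qc_neg_one_three h3, ← h4]
        simp only [smul_eq_mul]
        ring

end

/-! ## correlations of sign functions -/

theorem sum_shift {v : ℕ} [NeZero v] (f : ZMod v → ℤ) (g : ZMod v) :
    ∑ x, f (x + g) = ∑ x, f x :=
  Fintype.sum_equiv (Equiv.addRight g) _ _ fun _ => rfl

theorem corr_sign {v : ℕ} [NeZero v] (f : ZMod v → ℤ) (hf : ZO f) (g : ZMod v) :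
    corr (fun x => 1 - 2 * f x) g = v - 4 * corr f 0 + 4 * corr f g := by
  have h1 : corr f 0 = ∑ x, f x := by
    unfold corr
    refine Finset.sum_congr rfl fun x _ => ?_
    rw [add_zero]
    rcases hf x with h | h <;> rw [h] <;> norm_num
  have h2 : corr (fun x => 1 - 2 * f x) g =
      ∑ x : ZMod v, (1 - 2 * f x - 2 * f (x + g) + 4 * (f x * f (x + g))) := by
    unfold corr
    refine Finset.sum_congr rfl fun x _ => ?_
    ring
  rw [h2, Finset.sum_add_distrib, Finset.sum_sub_distrib, Finset.sum_sub_distrib,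
    ← Finset.mul_sum, ← Finset.mul_sum, ← Finset.mul_sum, sum_shift, h1]
  have h3 : ∑ x : ZMod v, (1 : ℤ) = v := by simp [ZMod.card]
  rw [h3]
  unfold corr
  ring

/-- back circulant -/
def bc {v : ℕ} (ψ : ZMod v → ℤ) : Matrix (ZMod v) (ZMod v) ℤ := fun x y => ψ (x + y)

/-- circulant -/
def ci {v : ℕ} (φ : ZMod v → ℤ) : Matrix (ZMod v) (ZMod v) ℤ := fun x y => φ (x - y)

theorem bc_mul {v : ℕ} [NeZero v] (ψ : ZMod v → ℤ) (x y : ZMod v) :
    (bc ψ * (bc ψ)ᵀ) x y = corr ψ (y - x) := by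
  rw [Matrix.mul_apply]
  unfold corr
  refine Fintype.sum_equiv (Equiv.addLeft x) _ _ fun z => ?_
  simp only [bc, Matrix.transpose_apply, Equiv.coe_addLeft]
  congr 2
  ring

theorem ci_mul {v : ℕ} [NeZero v] (φ : ZMod v → ℤ) (x y : ZMod v) :
    (ci φ * (ci φ)ᵀ) x y = corr φ (y - x) := by
  rw [Matrix.mul_apply]
  unfold corr
  refine Fintype.sum_equiv (Equiv.subLeft x) _ _ fun z => ?_
  simp only [ci, Matrix.transpose_apply, Equiv.subLeft_apply]
  congr 2
  ring

theorem bc_ci {v : ℕ} [NeZero v] (ψ φ : ZMod v → ℤ) :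
    bc ψ * (ci φ)ᵀ = ci φ * (bc ψ)ᵀ := by
  ext x y
  rw [Matrix.mul_apply, Matrix.mul_apply]
  refine Fintype.sum_equiv (Equiv.addLeft (x - y)) _ _ fun z => ?_
  simp only [bc, ci, Matrix.transpose_apply, Equiv.coe_addLeft]
  have h1 : y - z = x - (x - y + z) := by ring
  have h2 : x + z = y + (x - y + z) := by ring
  rw [← h1, ← h2, mul_comm]

/-- the base matrix -/
theorem base_matrix {q : ℕ} [Fact q.Prime] (h3 : q % 4 = 3) (i v M : ℕ) [NeZero v]
    (f f' : ZMod v → ℤ) (hf : ZO f) (hf' : ZO f')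
    (hM : ∀ g, g ≠ 0 → (M : ℤ) ∣ (q : ℤ) ^ i * ((v : ℤ) - 4 * corr f 0 + 4 * corr f g) +
      (q : ℤ) ^ (i + 1) * ((v : ℤ) - 4 * corr f' 0 + 4 * corr f' g)) :
    ∃ (κ : Type) (_ : Fintype κ) (_ : DecidableEq κ) (H : Matrix κ κ ℤ),
      Fintype.card κ = q ^ i * (q + 1) * v ∧ (∀ a b, H a b = 1 ∨ H a b = -1) ∧
      (∀ a b, a ≠ b → (M : ℤ) ∣ (H * Hᵀ) a b) ∧ Core q H := by
  obtain ⟨ι, _, _, R, S, hc, hd, hRR, hSS, hRS, hcore⟩ := od_pair h3 i
  let ψ : ZMod v → ℤ := fun x => 1 - 2 * f x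
  let φ : ZMod v → ℤ := fun x => 1 - 2 * f' x
  have hψ : ∀ x, ψ x = 1 ∨ ψ x = -1 := by
    intro x
    simp only [ψ]
    rcases hf x with h | h <;> rw [h] <;> norm_num
  have hφ : ∀ x, φ x = 1 ∨ φ x = -1 := by
    intro x
    simp only [φ]
    rcases hf' x with h | h <;> rw [h] <;> norm_num
  refine ⟨ι × ZMod v, inferInstance, inferInstance,
    Matrix.kroneckerMap (· * ·) R (bc ψ) + Matrix.kroneckerMap (· * ·) S (ci φ), ?_, ?_, ?_, ?_⟩
  · rw [Fintype.card_prod, hc, ZMod.card]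
  · rintro ⟨a, x⟩ ⟨b, y⟩
    rw [Matrix.add_apply, Matrix.kroneckerMap_apply, Matrix.kroneckerMap_apply]
    rcases hd a b with ⟨h1, h2⟩ | ⟨h1, h2⟩
    · rw [h1, zero_mul, zero_add]
      exact sign_mul h2 (hφ _)
    · rw [h2, zero_mul, add_zero]
      exact sign_mul h1 (hψ _)
  · have hmul : (Matrix.kroneckerMap (· * ·) R (bc ψ) + Matrix.kroneckerMap (· * ·) S (ci φ)) *
        (Matrix.kroneckerMap (· * ·) R (bc ψ) + Matrix.kroneckerMap (· * ·) S (ci φ))ᵀ =
        Matrix.kroneckerMap (· * ·) (1 : Matrix ι ι ℤ)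
          (((q : ℤ) ^ i) • (bc ψ * (bc ψ)ᵀ) + ((q : ℤ) ^ (i + 1)) • (ci φ * (ci φ)ᵀ)) := by
      rw [Matrix.transpose_add, kron_tr, kron_tr, Matrix.add_mul, Matrix.mul_add, Matrix.mul_add,
        ← Matrix.mul_kronecker_mul, ← Matrix.mul_kronecker_mul, ← Matrix.mul_kronecker_mul,
        ← Matrix.mul_kronecker_mul, hRR, hSS, bc_ci]
      have h1 : Matrix.kroneckerMap (· * ·) (R * Sᵀ) (ci φ * (bc ψ)ᵀ) +
          Matrix.kroneckerMap (· * ·) (S * Rᵀ) (ci φ * (bc ψ)ᵀ) = 0 := by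
        rw [← Matrix.add_kronecker, hRS, Matrix.zero_kronecker]
      rw [Matrix.smul_kronecker, Matrix.smul_kronecker, Matrix.kronecker_add,
        Matrix.kronecker_smul, Matrix.kronecker_smul]
      have h2 : ∀ a b c d : Matrix (ι × ZMod v) (ι × ZMod v) ℤ, b + c = 0 →
          a + b + (c + d) = a + d := by
        intro a b c d h
        have : a + b + (c + d) = a + d + (b + c) := by abel
        rw [this, h, add_zero]
      exact h2 _ _ _ _ h1
    rw [hmul]
    rintro ⟨a, x⟩ ⟨b, y⟩ hab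
    rw [Matrix.kroneckerMap_apply, Matrix.one_apply]
    by_cases h : a = b
    · have hxy : y - x ≠ 0 := by
        intro h'
        apply hab
        rw [h, sub_eq_zero.1 h']
      rw [if_pos h, one_mul, Matrix.add_apply, Matrix.smul_apply, Matrix.smul_apply, bc_mul,
        ci_mul, smul_eq_mul, smul_eq_mul]
      simp only [ψ, φ]
      rw [corr_sign f hf, corr_sign f' hf']
      exact hM _ hxy
    · rw [if_neg h, zero_mul]
      exact dvd_zero _
  · obtain ⟨r, c, ε, hr, hcinj, hε, hco⟩ := hcore (ψ 0) (φ 0) (hψ 0) (hφ 0)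
    refine ⟨fun x => (r x, 0), fun y => (c y, 0), ε, ?_, ?_, hε, ?_⟩
    · intro x y hxy
      exact hr (Prod.mk.inj hxy).1
    · intro x y hxy
      exact hcinj (Prod.mk.inj hxy).1
    · intro x y hxy
      rw [← hco x y hxy, Matrix.add_apply, Matrix.kroneckerMap_apply, Matrix.kroneckerMap_apply,
        Matrix.add_apply, Matrix.smul_apply, Matrix.smul_apply]
      simp only [bc, ci, add_zero, sub_zero, smul_eq_mul]
      ring

end Pool.Agent.H182.Mod
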