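import Mathlib

/-!
# Singer difference sets over arbitrary finite fields, as `{0,1}`-valued functions on `ZMod u`
-/

namespace Pool.Agent.H182.Mod

open Finset

/-- a `{0,1}`-valued function -/
def ZO {U : Type} (f : U → ℤ) : Prop := ∀ x, f x = 0 ∨ f x = 1

/-- periodic autocorrelation -/
def corr {U : Type} [Fintype U] [Add U] (f : U → ℤ) (g : U) : ℤ := ∑ x, f x * f (x + g)

section group
variable {A B : Type} [Group A] [Group B] [Fintype A] [Fintype B] [DecidableEq B]

theorem sum_hom (φ : A →* B) (hφ : Function.Surjective φ) (F : B → ℤ) :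
    ∑ x, F (φ x) = ((univ.filter fun x => φ x = 1).card : ℤ) * ∑ b, F b := by
  rw [← Finset.sum_fiberwise (s := univ) (g := φ), Finset.mul_sum]
  refine Finset.sum_congr rfl fun b _ => ?_
  have : ∑ x ∈ univ.filter (fun x => φ x = b), F (φ x) =
      ∑ x ∈ univ.filter (fun x => φ x = b), F b :=
    Finset.sum_congr rfl fun x hx => by rw [(Finset.mem_filter.1 hx).2]
  rw [this, Finset.sum_const, nsmul_eq_mul,
    MonoidHom.card_fiber_eq_of_mem_range φ (x := b) (y := 1) (hφ b) (hφ 1)]

end group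

section addgroup
variable {A B : Type} [AddGroup A] [AddGroup B] [Fintype A] [Fintype B] [DecidableEq B]

theorem sum_addHom (φ : A →+ B) (hφ : Function.Surjective φ) (F : B → ℤ) :
    ∑ x, F (φ x) = ((univ.filter fun x => φ x = 0).card : ℤ) * ∑ b, F b := by
  rw [← Finset.sum_fiberwise (s := univ) (g := φ), Finset.mul_sum]
  refine Finset.sum_congr rfl fun b _ => ?_
  have : ∑ x ∈ univ.filter (fun x => φ x = b), F (φ x) =
      ∑ x ∈ univ.filter (fun x => φ x = b), F b :=
    Finset.sum_congr rfl fun x hx => by rw [(Finset.mem_filter.1 hx).2]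
  rw [this, Finset.sum_const, nsmul_eq_mul,
    AddMonoidHom.card_fiber_eq_of_mem_range φ (x := b) (y := 0) (hφ b) (hφ 0)]

theorem sum_addHom' (φ : A →+ B) (hφ : Function.Surjective φ) (F : B → ℤ) :
    (∑ x, F (φ x)) * Fintype.card B = Fintype.card A * ∑ b, F b := by
  have h1 := sum_addHom φ hφ F
  have h2 := sum_addHom φ hφ (fun _ => 1)
  simp only [Finset.sum_const, Finset.card_univ, nsmul_eq_mul, mul_one] at h2
  rw [h1, h2]
  ring

end addgroup

section singer
variable {K L : Type} [Field K] [Field L] [Algebra K L] [Fintype K] [Fintype L]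
  [DecidableEq K] [DecidableEq L]

/-- the indicator of the nonzero elements -/
def nz (a : K) : ℤ := if a = 0 then 0 else 1

theorem sum_nz : ∑ a : K, nz a = Fintype.card K - 1 := by
  unfold nz
  have h : ∀ a : K, (if a = 0 then (0 : ℤ) else 1) = 1 - if a = 0 then 1 else 0 := by
    intro a
    split_ifs <;> norm_num
  simp_rw [h]
  rw [Finset.sum_sub_distrib]
  simp

theorem surj_one (T : L →ₗ[K] K) (hT : T ≠ 0) : Function.Surjective T := by
  obtain ⟨x, hx⟩ : ∃ x, T x ≠ 0 := by
    by_contra h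
    push Not at h
    exact hT (LinearMap.ext h)
  intro c
  refine ⟨(c / T x) • x, ?_⟩
  rw [map_smul, smul_eq_mul, div_mul_cancel₀ _ hx]

theorem surj_two (T : L →ₗ[K] K) (hT : T ≠ 0) (y : L) (hy : ∀ c : K, algebraMap K L c ≠ y) :
    Function.Surjective (fun x : L => (T x, T (y * x))) := by
  obtain ⟨x, hx⟩ : ∃ x, T x ≠ 0 := by
    by_contra h
    push Not at h
    exact hT (LinearMap.ext h)
  -- an element with `T z = 0`, `T (y z) ≠ 0`
  have h1 : ∃ z, T z = 0 ∧ T (y * z) ≠ 0 := by
    by_contra h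
    push Not at h
    -- `T (y z) = c T z` for all `z`
    set c := T (y * x) / T x with hc
    have h2 : ∀ z, T (y * z) = c * T z := by
      intro z
      have h3 : T (z - (T z / T x) • x) = 0 := by
        rw [map_sub, map_smul, smul_eq_mul, div_mul_cancel₀ _ hx, sub_self]
      have h4 := h _ h3
      rw [mul_sub, map_sub, mul_smul_comm, map_smul, smul_eq_mul, sub_eq_zero] at h4
      rw [h4, hc]
      field_simp
    have h5 : ∀ z, T ((y - algebraMap K L c) * z) = 0 := by
      intro z
      rw [sub_mul, map_sub, h2, ← Algebra.smul_def, map_smul, smul_eq_mul, sub_self]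
    have h6 : y - algebraMap K L c ≠ 0 := sub_ne_zero.2 (hy c).symm
    apply hx
    have h7 := h5 ((y - algebraMap K L c)⁻¹ * x)
    rwa [← mul_assoc, mul_inv_cancel₀ h6, one_mul] at h7
  obtain ⟨z, hz0, hz⟩ := h1
  rintro ⟨a, b⟩
  refine ⟨(a / T x) • x + ((b - a / T x * T (y * x)) / T (y * z)) • z, ?_⟩
  rw [Prod.mk.injEq]
  constructor
  · rw [map_add, map_smul, map_smul, hz0, smul_zero, add_zero, smul_eq_mul,
      div_mul_cancel₀ _ hx]
  · rw [mul_add, mul_smul_comm, mul_smul_comm, map_add, map_smul, map_smul, smul_eq_mul,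
      smul_eq_mul, div_mul_cancel₀ _ hz]
    ring

theorem count_one (T : L →ₗ[K] K) (hT : T ≠ 0) :
    (∑ x : L, nz (T x)) * Fintype.card K = Fintype.card L * ((Fintype.card K : ℤ) - 1) := by
  have h := sum_addHom' (T : L →+ K) (surj_one T hT) nz
  rw [sum_nz] at h
  exact h

theorem count_two (T : L →ₗ[K] K) (hT : T ≠ 0) (y : L) (hy : ∀ c : K, algebraMap K L c ≠ y) :
    (∑ x : L, nz (T x) * nz (T (y * x))) * (Fintype.card K) ^ 2 =
      Fintype.card L * ((Fintype.card K : ℤ) - 1) ^ 2 := by
  let φ : L →+ K × K :=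
    { toFun := fun x => (T x, T (y * x))
      map_zero' := by simp
      map_add' := by
        intro a b
        simp [mul_add] }
  have h := sum_addHom' φ (surj_two T hT y hy) (fun p : K × K => nz p.1 * nz p.2)
  rw [Fintype.card_prod, Fintype.sum_prod_type] at h
  simp only at h
  simp_rw [← Finset.mul_sum, ← Finset.sum_mul] at h
  rw [sum_nz] at h
  have h2 : ∀ x, nz (φ x).1 * nz (φ x).2 = nz (T x) * nz (T (y * x)) := fun x => rfl
  simp_rw [h2] at h
  push_cast at h
  rw [pow_two, pow_two]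
  exact h

/-- sums over the units -/
theorem sum_units (f : L → ℤ) (h0 : f 0 = 0) : ∑ x : Lˣ, f x = ∑ x : L, f x := by
  have h1 : ∑ x : L, f x = ∑ x ∈ univ.filter (fun x : L => x ≠ 0), f x := by
    rw [Finset.sum_filter]
    refine Finset.sum_congr rfl fun x _ => ?_
    split_ifs with h
    · rfl
    · rw [not_not.1 h, h0]
  rw [h1]
  refine Finset.sum_bij (fun (x : Lˣ) _ => (x : L)) ?_ ?_ ?_ ?_
  · intro x _
    rw [Finset.mem_filter]
    exact ⟨Finset.mem_univ _, x.ne_zero⟩
  · intro x _ y _ h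
    exact Units.ext h
  · intro x hx
    exact ⟨Units.mk0 x (Finset.mem_filter.1 hx).2, Finset.mem_univ _, rfl⟩
  · intro x _
    rfl

/-- the scalars -/
def scal (K L : Type) [Field K] [Field L] [Algebra K L] : Subgroup Lˣ :=
  (Units.map (algebraMap K L).toMonoidHom).range

theorem card_scal (K L : Type) [Field K] [Field L] [Algebra K L] [Fintype K] :
    Nat.card (scal K L) = Fintype.card K - 1 := by
  classical
  unfold scal
  have hinj : Function.Injective (Units.map (algebraMap K L).toMonoidHom) :=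
    Units.map_injective (algebraMap K L).injective
  rw [← Nat.card_congr (MonoidHom.ofInjective hinj).toEquiv, Nat.card_eq_fintype_card,
    Fintype.card_units]

/-- the indicator on the quotient -/
noncomputable def Fq (T : L →ₗ[K] K) (a : Lˣ ⧸ scal K L) : ℤ := nz (T ((Quotient.out a : Lˣ) : L))

theorem Fq_mk (T : L →ₗ[K] K) (x : Lˣ) : Fq T (QuotientGroup.mk x) = nz (T (x : L)) := by
  unfold Fq
  obtain ⟨h, hh⟩ := QuotientGroup.mk_out_eq_mul (scal K L) x
  obtain ⟨c, hc⟩ := h.2
  have hh' : (Quotient.out (QuotientGroup.mk x : Lˣ ⧸ scal K L) : Lˣ) = x * h := hh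
  rw [hh', Units.val_mul]
  have hc' : ((h : Lˣ) : L) = algebraMap K L c := by
    rw [← hc]
    rfl
  rw [hc', mul_comm, ← Algebra.smul_def, map_smul, smul_eq_mul]
  unfold nz
  simp

theorem singer_field (T : L →ₗ[K] K) (hT : T ≠ 0) (n u : ℕ) (hn : 2 ≤ n)
    (hL : Fintype.card L = Fintype.card K ^ n)
    (hu : u * (Fintype.card K - 1) = Fintype.card K ^ n - 1) [NeZero u] :
    ∃ f : ZMod u → ℤ, ZO f ∧ corr f 0 = (Fintype.card K : ℤ) ^ (n - 1) ∧
      ∀ g, g ≠ 0 → corr f g = (Fintype.card K : ℤ) ^ (n - 2) * ((Fintype.card K : ℤ) - 1) := by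
  classical
  set Q := Fintype.card K with hQ
  have hQ1 : 1 < Q := Fintype.one_lt_card
  let G := Lˣ ⧸ scal K L
  have hcG : Nat.card G = u := by
    have h1 := Subgroup.card_eq_card_quotient_mul_card_subgroup (scal K L)
    rw [card_scal, Nat.card_eq_fintype_card, Fintype.card_units, hL, ← hQ, ← hu] at h1
    exact (Nat.eq_of_mul_eq_mul_right (by omega) h1).symm
  have : IsCyclic G := isCyclic_of_surjective (QuotientGroup.mk' (scal K L))
    (QuotientGroup.mk'_surjective _)
  let e0 : Multiplicative (ZMod (Nat.card G)) ≃* G := zmodCyclicMulEquiv inferInstance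
  have : Fintype G := Fintype.ofFinite G
  have key : ∀ y : Lˣ, (∑ a : G, Fq T a * Fq T (a * QuotientGroup.mk y)) * ((Q : ℤ) - 1) =
      ∑ x : L, nz (T x) * nz (T ((y : L) * x)) := by
    intro y
    have h1 := sum_hom (QuotientGroup.mk' (scal K L)) (QuotientGroup.mk'_surjective _)
      (fun a => Fq T a * Fq T (a * QuotientGroup.mk y))
    have h2 : ((univ.filter fun x : Lˣ => QuotientGroup.mk' (scal K L) x = 1).card : ℤ) =
        (Q : ℤ) - 1 := by
      have h3 : (univ.filter fun x : Lˣ => QuotientGroup.mk' (scal K L) x = 1).card = Q - 1 := by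
        rw [← card_scal K L, Nat.card_eq_fintype_card, Fintype.card_subtype]
        congr 1
        ext x
        simp
      rw [h3]
      push_cast [hQ1.le]
      ring
    rw [h2] at h1
    rw [mul_comm, ← h1, ← sum_units (fun x => nz (T x) * nz (T ((y : L) * x)))]
    · refine Finset.sum_congr rfl fun x _ => ?_
      have h3 : (QuotientGroup.mk' (scal K L) x) * (QuotientGroup.mk y : G) =
        QuotientGroup.mk (x * y) := rfl
      have h4 : QuotientGroup.mk' (scal K L) x = QuotientGroup.mk x := rfl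
      rw [h3, h4, Fq_mk, Fq_mk, Units.val_mul, mul_comm (x : L)]
    · simp [nz]
  have hQ0 : (Q : ℤ) - 1 ≠ 0 := by
    have : (1 : ℤ) < Q := by exact_mod_cast hQ1
    omega
  have hQ0' : (Q : ℤ) ≠ 0 := by
    have : (1 : ℤ) < Q := by exact_mod_cast hQ1
    omega
  subst hcG
  refine ⟨fun a => Fq T (e0 (Multiplicative.ofAdd a)), ?_, ?_, ?_⟩
  · intro a
    simp only [Fq, nz]
    split_ifs
    · exact Or.inl rfl
    · exact Or.inr rfl
  · have h1 := key 1
    have h2 : corr (fun a => Fq T (e0 (Multiplicative.ofAdd a))) 0 =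
        ∑ a : G, Fq T a * Fq T (a * QuotientGroup.mk 1) := by
      unfold corr
      refine Fintype.sum_equiv (Multiplicative.ofAdd.trans e0.toEquiv) _ _ fun x => ?_
      have h3 : (QuotientGroup.mk (1 : Lˣ) : G) = 1 := rfl
      rw [add_zero, h3, mul_one]
      rfl
    rw [← h2] at h1
    have h3 : ∑ x : L, nz (T x) * nz (T (((1 : Lˣ) : L) * x)) = ∑ x : L, nz (T x) := by
      refine Finset.sum_congr rfl fun x _ => ?_
      rw [Units.val_one, one_mul]
      unfold nz
      split_ifs <;> norm_num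
    rw [h3] at h1
    have h4 := count_one T hT
    rw [← h1, hL] at h4
    have h5 : ((Q ^ n : ℕ) : ℤ) = (Q : ℤ) ^ (n - 1) * Q := by
      push_cast
      rw [← pow_succ]
      congr 1
      omega
    rw [h5, ← hQ] at h4
    have h6 : corr (fun a => Fq T (e0 (Multiplicative.ofAdd a))) 0 * (((Q : ℤ) - 1) * Q) =
        (Q : ℤ) ^ (n - 1) * (((Q : ℤ) - 1) * Q) := by
      linear_combination h4
    exact mul_right_cancel₀ (mul_ne_zero hQ0 hQ0') h6
  · intro g hg
    obtain ⟨y, hy⟩ := QuotientGroup.mk_surjective (e0 (Multiplicative.ofAdd g))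
    have h1 := key y
    have h2 : corr (fun a => Fq T (e0 (Multiplicative.ofAdd a))) g =
        ∑ a : G, Fq T a * Fq T (a * QuotientGroup.mk y) := by
      unfold corr
      refine Fintype.sum_equiv (Multiplicative.ofAdd.trans e0.toEquiv) _ _ fun x => ?_
      rw [hy]
      have h3 : e0 (Multiplicative.ofAdd (x + g)) =
          e0 (Multiplicative.ofAdd x) * e0 (Multiplicative.ofAdd g) := by
        rw [ofAdd_add, map_mul]
      show Fq T (e0 (Multiplicative.ofAdd x)) * Fq T (e0 (Multiplicative.ofAdd (x + g))) = _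
      rw [h3]
      rfl
    rw [← h2] at h1
    have hyK : ∀ c : K, algebraMap K L c ≠ (y : L) := by
      intro c hc
      apply hg
      have hc0 : c ≠ 0 := by
        rintro rfl
        rw [map_zero] at hc
        exact y.ne_zero hc.symm
      have h3 : (QuotientGroup.mk y : G) = 1 := by
        rw [QuotientGroup.eq_one_iff]
        exact ⟨Units.mk0 c hc0, Units.ext hc⟩
      rw [h3] at hy
      have h4 := e0.map_eq_one_iff.1 hy.symm
      exact h4
    have h4 := count_two T hT (y : L) hyK
    rw [← h1, hL] at h4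
    have h5 : ((Q ^ n : ℕ) : ℤ) = (Q : ℤ) ^ (n - 2) * Q ^ 2 := by
      push_cast
      rw [← pow_add]
      congr 1
      omega
    rw [h5, ← hQ] at h4
    have h6 : corr (fun a => Fq T (e0 (Multiplicative.ofAdd a))) g * (((Q : ℤ) - 1) * Q ^ 2) =
        (Q : ℤ) ^ (n - 2) * ((Q : ℤ) - 1) * (((Q : ℤ) - 1) * Q ^ 2) := by
      linear_combination h4
    exact mul_right_cancel₀ (mul_ne_zero hQ0 (pow_ne_zero 2 hQ0')) h6

end singer

/-- **Singer difference sets** -/
theorem singer (s : ℕ) [Fact s.Prime] (j : ℕ) (hj : 0 < j) (n : ℕ) (hn : 2 ≤ n) (u : ℕ)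
    [NeZero u] (hu : u = ∑ k ∈ range n, (s ^ j) ^ k) :
    ∃ f : ZMod u → ℤ, ZO f ∧ corr f 0 = ((s ^ j : ℕ) : ℤ) ^ (n - 1) ∧
      ∀ g, g ≠ 0 → corr f g = ((s ^ j : ℕ) : ℤ) ^ (n - 2) * (((s ^ j : ℕ) : ℤ) - 1) := by
  classical
  let K := GaloisField s j
  have : Fintype K := Fintype.ofFinite K
  have : NeZero n := ⟨by omega⟩
  let L := FiniteField.Extension K s n
  have : Fintype L := Fintype.ofFinite L
  have hcK : Fintype.card K = s ^ j := by
    rw [← Nat.card_eq_fintype_card]
    exact GaloisField.card s j hj.ne'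
  have hcL : Fintype.card L = Fintype.card K ^ n := by
    rw [← Nat.card_eq_fintype_card, ← Nat.card_eq_fintype_card]
    exact FiniteField.natCard_extension K s n
  have hu' : u * (Fintype.card K - 1) = Fintype.card K ^ n - 1 := by
    rw [hcK, hu]
    have h1 : 1 ≤ s ^ j := Nat.one_le_pow _ _ (Fact.out : s.Prime).pos
    have h2 : 1 ≤ (s ^ j) ^ n := Nat.one_le_pow _ _ h1
    zify [h1, h2]
    exact geom_sum_mul _ _
  have h := singer_field (Algebra.trace K L) (Algebra.trace_ne_zero K L) n u hn hcL hu'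
  rw [hcK] at h
  exact h

end Pool.Agent.H182.Mod
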