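import Pool.Graph.R_pool_sql_team_seeded_63374d34.N328.PH.Par2
import Pool.Graph.R_seed8.Y342.SK.Core

/-!
# The algebra: a skew core, the rows of a Hadamard matrix and a system of Clifford type

Let `Q` be a skew core of order `v`, let `pr K ψ` be the projections to the rows of a Hadamard matrix
of order `y`, and let `Sb`, `So`, `Rb`, `Ro`, `U ψ`, `V ψ` be matrices with entries `0`, `±1` of order
`c`. The matrix `Q ⊗ 𝒰 + 1 ⊗ 𝒱 + J ⊗ 𝒟` with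
`𝒰 = ∑ ψ, pr ψ ⊗ U ψ`, `𝒱 = ∑ ψ, pr ψ ⊗ V ψ - 2 ⊗ (1 + Sb + So)`,
`𝒟 = pr b ⊗ (1 + Sb + Rb) + pr o ⊗ (So + Ro)` is a sign matrix.
-/

set_option autoImplicit false
set_option linter.unusedSectionVars false

namespace Pool.Agent.H182.PH

open Matrix Finset
open scoped Kronecker
open Pool.Agent.Y342.SK (Rel Sg IsCore)
open Pool.Agent.N328.PH (IsK pr prT pr_pr sum_pr pr_apply HasPH)

variable {y : ℕ} [NeZero y] {K : Matrix (Fin y) (Fin y) ℤ}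
variable {X : Type} [Fintype X] [DecidableEq X]

/-- the sum `∑ ψ, pr ψ ⊗ M ψ` -/
def Phi (K : Matrix (Fin y) (Fin y) ℤ) (M : Fin y → Matrix X X ℤ) : Matrix (Fin y × X) (Fin y × X) ℤ :=
  ∑ ψ, pr K ψ ⊗ₖ M ψ

theorem Phi_apply (M : Fin y → Matrix X X ℤ) (i j : Fin y) (k l : X) :
    Phi K M (i, k) (j, l) = ∑ ψ, (K ψ i * K ψ j) * M ψ k l := by
  simp only [Phi, Matrix.sum_apply, kroneckerMap_apply, pr_apply]

theorem Phi_T (M : Fin y → Matrix X X ℤ) : (Phi K M)ᵀ = Phi K fun ψ => (M ψ)ᵀ := by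
  unfold Phi
  rw [transpose_sum]
  refine Finset.sum_congr rfl fun ψ _ => ?_
  rw [← kroneckerMap_transpose, prT]

theorem Phi_add (M N : Fin y → Matrix X X ℤ) : Phi K M + Phi K N = Phi K fun ψ => M ψ + N ψ := by
  unfold Phi
  rw [← Finset.sum_add_distrib]
  exact Finset.sum_congr rfl fun ψ _ => (kronecker_add _ _ _).symm

theorem Phi_smul (a : ℤ) (M : Fin y → Matrix X X ℤ) : a • Phi K M = Phi K fun ψ => a • M ψ := by
  unfold Phi
  rw [Finset.smul_sum]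
  exact Finset.sum_congr rfl fun ψ _ => (kronecker_smul _ _ _).symm

theorem Phi_mul (hK : IsK y K) (M N : Fin y → Matrix X X ℤ) :
    Phi K M * Phi K N = Phi K fun ψ => (y : ℤ) • (M ψ * N ψ) := by
  unfold Phi
  rw [Finset.sum_mul]
  refine Finset.sum_congr rfl fun ψ _ => ?_
  rw [Finset.mul_sum, Finset.sum_eq_single ψ]
  · rw [← mul_kronecker_mul, pr_pr hK, if_pos rfl, smul_kronecker, kronecker_smul]
  · intro φ _ h
    rw [← mul_kronecker_mul, pr_pr hK, if_neg (Ne.symm h), zero_kronecker]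
  · intro h; exact absurd (mem_univ _) h

theorem Phi_one_mul (M : Fin y → Matrix X X ℤ) (W : Matrix X X ℤ) :
    ((1 : Matrix (Fin y) (Fin y) ℤ) ⊗ₖ W) * Phi K M = Phi K fun ψ => W * M ψ := by
  unfold Phi
  rw [Finset.mul_sum]
  refine Finset.sum_congr rfl fun ψ _ => ?_
  rw [← mul_kronecker_mul, one_mul]

theorem Phi_mul_one (M : Fin y → Matrix X X ℤ) (W : Matrix X X ℤ) :
    Phi K M * ((1 : Matrix (Fin y) (Fin y) ℤ) ⊗ₖ W) = Phi K fun ψ => M ψ * W := by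
  unfold Phi
  rw [Finset.sum_mul]
  refine Finset.sum_congr rfl fun ψ _ => ?_
  rw [← mul_kronecker_mul, mul_one]

theorem Phi_const (hK : IsK y K) (W : Matrix X X ℤ) :
    Phi K (fun _ => W) = (1 : Matrix (Fin y) (Fin y) ℤ) ⊗ₖ ((y : ℤ) • W) := by
  have h1 : Phi K (fun _ => W) = (∑ ψ, pr K ψ) ⊗ₖ W := by
    ext i j
    simp only [Phi, Matrix.sum_apply, kroneckerMap_apply, Finset.sum_mul]
  rw [h1, sum_pr hK, smul_kronecker, kronecker_smul]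

/-- the system -/
structure Sys2 (y : ℕ) (X : Type) [Fintype X] [DecidableEq X] (wb wo eb eo : ℤ) (A B : Fin y → ℤ) where
  /-- the skew part of the first defect -/
  Sb : Matrix X X ℤ
  /-- the second defect -/
  So : Matrix X X ℤ
  /-- first filling -/
  Rb : Matrix X X ℤ
  /-- second filling -/
  Ro : Matrix X X ℤ
  /-- the symmetric matrices -/
  U : Fin y → Matrix X X ℤ
  /-- the skew matrices -/
  V : Fin y → Matrix X X ℤ
  SbT : Sbᵀ = -Sb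
  SoT : Soᵀ = -So
  RbT : Rbᵀ = -Rb
  RoT : Roᵀ = -Ro
  UT : ∀ ψ, (U ψ)ᵀ = U ψ
  VT : ∀ ψ, (V ψ)ᵀ = -V ψ
  Sb2 : Sb * Sb = (1 - eb) • (1 : Matrix X X ℤ)
  So2 : So * So = (-eo) • (1 : Matrix X X ℤ)
  Rb2 : Rb * Rb = (-wb) • (1 : Matrix X X ℤ)
  Ro2 : Ro * Ro = (-wo) • (1 : Matrix X X ℤ)
  U2 : ∀ ψ, U ψ * U ψ = A ψ • (1 : Matrix X X ℤ)
  V2 : ∀ ψ, V ψ * V ψ = (-B ψ) • (1 : Matrix X X ℤ)
  SbSo : Sb * So + So * Sb = 0
  SbRb : Sb * Rb + Rb * Sb = 0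
  SbRo : Sb * Ro + Ro * Sb = 0
  SoRb : So * Rb + Rb * So = 0
  SoRo : So * Ro + Ro * So = 0
  UV : ∀ ψ, U ψ * V ψ + V ψ * U ψ = 0
  USb : ∀ ψ, U ψ * Sb + Sb * U ψ = 0
  USo : ∀ ψ, U ψ * So + So * U ψ = 0
  VSb : ∀ ψ, V ψ * Sb + Sb * V ψ = 0
  VSo : ∀ ψ, V ψ * So + So * V ψ = 0
  VRb : ∀ ψ, V ψ * Rb + Rb * V ψ = 0
  VRo : ∀ ψ, V ψ * Ro + Ro * V ψ = 0
  zSb : ∀ x, Sb x x = 0
  zSo : ∀ x, So x x = 0
  zRb : ∀ x, Rb x x = 0
  zRo : ∀ x, Ro x x = 0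
  zU : ∀ ψ x, U ψ x x = 0
  zV : ∀ ψ x, V ψ x x = 0
  /-- every position off the diagonal belongs to exactly one of the matrices -/
  sup : ∀ x x', x ≠ x' →
    (Sg (Sb x x') ∧ So x x' = 0 ∧ Rb x x' = 0 ∧ Ro x x' = 0 ∧ (∀ ψ, U ψ x x' = 0) ∧ ∀ ψ, V ψ x x' = 0) ∨
    (Sb x x' = 0 ∧ Sg (So x x') ∧ Rb x x' = 0 ∧ Ro x x' = 0 ∧ (∀ ψ, U ψ x x' = 0) ∧ ∀ ψ, V ψ x x' = 0) ∨
    (Sb x x' = 0 ∧ So x x' = 0 ∧ Sg (Rb x x') ∧ Ro x x' = 0 ∧ (∀ ψ, U ψ x x' = 0) ∧ ∀ ψ, V ψ x x' = 0) ∨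
    (Sb x x' = 0 ∧ So x x' = 0 ∧ Rb x x' = 0 ∧ Sg (Ro x x') ∧ (∀ ψ, U ψ x x' = 0) ∧ ∀ ψ, V ψ x x' = 0) ∨
    (Sb x x' = 0 ∧ So x x' = 0 ∧ Rb x x' = 0 ∧ Ro x x' = 0 ∧
      (∃ ψ, Sg (U ψ x x') ∧ ∀ φ, φ ≠ ψ → U φ x x' = 0) ∧ ∃ ψ, Sg (V ψ x x') ∧ ∀ φ, φ ≠ ψ → V φ x x' = 0)

section big

variable {wb wo eb eo : ℤ} {A B : Fin y → ℤ} (s : Sys2 y X wb wo eb eo A B) (b o : Fin y)

/-- the defect -/
def We : Matrix X X ℤ := 1 + s.Sb + s.So

/-- the parts of the third matrix -/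
def Dp (ψ : Fin y) : Matrix X X ℤ :=
  (if ψ = b then 1 + s.Sb + s.Rb else 0) + (if ψ = o then s.So + s.Ro else 0)

/-- first matrix -/
def UU (K : Matrix (Fin y) (Fin y) ℤ) : Matrix (Fin y × X) (Fin y × X) ℤ := Phi K s.U

/-- second matrix -/
def VV (K : Matrix (Fin y) (Fin y) ℤ) : Matrix (Fin y × X) (Fin y × X) ℤ :=
  Phi K s.V - (2 : ℤ) • ((1 : Matrix (Fin y) (Fin y) ℤ) ⊗ₖ We s)

/-- third matrix -/
def DD (K : Matrix (Fin y) (Fin y) ℤ) : Matrix (Fin y × X) (Fin y × X) ℤ := Phi K (Dp s b o)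

theorem WeT : (We s)ᵀ = 1 - s.Sb - s.So := by
  unfold We
  rw [transpose_add, transpose_add, transpose_one, s.SbT, s.SoT]
  abel

theorem UUT : (UU s K)ᵀ = UU s K := by
  unfold UU
  rw [Phi_T]
  congr 1
  funext ψ
  exact s.UT ψ

theorem VVT : (VV s K)ᵀ = Phi K (fun ψ => -s.V ψ) -
    (2 : ℤ) • ((1 : Matrix (Fin y) (Fin y) ℤ) ⊗ₖ (1 - s.Sb - s.So)) := by
  unfold VV
  rw [transpose_sub, Phi_T, transpose_smul, ← kroneckerMap_transpose, transpose_one, WeT]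
  congr 2
  funext ψ
  exact s.VT ψ

theorem U_comm (ψ : Fin y) : s.U ψ * (-s.V ψ) = s.V ψ * s.U ψ := by
  have h := s.UV ψ
  rw [mul_neg, neg_eq_iff_add_eq_zero]
  exact h

theorem U_We (ψ : Fin y) : s.U ψ * (1 - s.Sb - s.So) = (1 + s.Sb + s.So) * s.U ψ := by
  have h1 := s.USb ψ
  have h2 := s.USo ψ
  rw [mul_sub, mul_sub, mul_one, add_mul, add_mul, one_mul, ← sub_eq_zero]
  have e : s.U ψ - s.U ψ * s.Sb - s.U ψ * s.So - (s.U ψ + s.Sb * s.U ψ + s.So * s.U ψ) =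
      -(s.U ψ * s.Sb + s.Sb * s.U ψ) - (s.U ψ * s.So + s.So * s.U ψ) := by abel
  rw [e, h1, h2, neg_zero, sub_zero]

/-- `𝒰 𝒱ᵀ` is symmetric -/
theorem part_a (hK : IsK y K) : UU s K * (VV s K)ᵀ = VV s K * (UU s K)ᵀ := by
  rw [UUT, VVT]
  unfold UU VV
  rw [mul_sub, sub_mul, Phi_mul hK, Phi_mul hK, mul_smul_comm, smul_mul_assoc, Phi_mul_one, Phi_one_mul]
  congr 2
  · funext ψ
    rw [U_comm]
  · congr 1
    funext ψ
    exact U_We s ψ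

theorem V_We (ψ : Fin y) : s.V ψ * (1 - s.Sb - s.So) + (1 + s.Sb + s.So) * (-s.V ψ) = 0 := by
  have h1 := s.VSb ψ
  have h2 := s.VSo ψ
  rw [mul_sub, mul_sub, mul_one, mul_neg, add_mul, add_mul, one_mul]
  have e : s.V ψ - s.V ψ * s.Sb - s.V ψ * s.So + -(s.V ψ + s.Sb * s.V ψ + s.So * s.V ψ) =
      -(s.V ψ * s.Sb + s.Sb * s.V ψ) - (s.V ψ * s.So + s.So * s.V ψ) := by abel
  rw [e, h1, h2, neg_zero, sub_zero]

theorem We_We : (1 + s.Sb + s.So) * (1 - s.Sb - s.So) = (eb + eo) • (1 : Matrix X X ℤ) := by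
  have e : (1 + s.Sb + s.So) * (1 - s.Sb - s.So) = 1 - s.Sb * s.Sb - s.So * s.So -
      (s.Sb * s.So + s.So * s.Sb) := by noncomm_ring
  rw [e, s.SbSo, s.Sb2, s.So2, sub_zero]
  ext i j
  simp only [Matrix.sub_apply, Matrix.smul_apply, smul_eq_mul]
  ring

/-- `q 𝒰 𝒰ᵀ + 𝒱 𝒱ᵀ` is a scalar matrix -/
theorem part_b (hK : IsK y K) (v : ℤ) {N : ℤ} (hN : ∀ ψ, v * A ψ + B ψ = N) :
    v • (UU s K * (UU s K)ᵀ) + VV s K * (VV s K)ᵀ =
      ((y : ℤ) ^ 2 * N + 4 * (eb + eo)) • (1 : Matrix (Fin y × X) (Fin y × X) ℤ) := by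
  rw [UUT, VVT]
  unfold UU VV
  rw [mul_sub, sub_mul, sub_mul, Phi_mul hK, Phi_mul hK, mul_smul_comm, smul_mul_assoc, mul_smul_comm,
    smul_mul_assoc, Phi_mul_one, Phi_one_mul, ← mul_kronecker_mul, one_mul]
  unfold We
  rw [We_We]
  have h1 : v • Phi K (fun ψ => (y : ℤ) • (s.U ψ * s.U ψ)) + Phi K (fun ψ => (y : ℤ) • (s.V ψ * -s.V ψ)) =
      ((y : ℤ) ^ 2 * N) • (1 : Matrix (Fin y × X) (Fin y × X) ℤ) := by
    have e1 : v • Phi K (fun ψ => (y : ℤ) • (s.U ψ * s.U ψ)) +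
        Phi K (fun ψ => (y : ℤ) • (s.V ψ * -s.V ψ)) = Phi K (fun _ => ((y : ℤ) * N) • (1 : Matrix X X ℤ)) := by
      rw [Phi_smul, Phi_add]
      congr 1
      funext ψ
      rw [mul_neg, s.U2, s.V2, ← hN ψ]
      ext i j
      simp only [Matrix.add_apply, Matrix.smul_apply, Matrix.neg_apply, smul_eq_mul]
      ring
    rw [e1, Phi_const hK, smul_smul, kronecker_smul, one_kronecker_one]
    congr 1
    ring
  have h2 : Phi K (fun ψ => s.V ψ * (1 - s.Sb - s.So)) +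
      Phi K (fun ψ => (1 + s.Sb + s.So) * (-s.V ψ)) = 0 := by
    rw [Phi_add]
    have e : (fun ψ => s.V ψ * (1 - s.Sb - s.So) + (1 + s.Sb + s.So) * (-s.V ψ)) =
        fun _ => (0 : Matrix X X ℤ) := by
      funext ψ
      exact V_We s ψ
    rw [e]
    unfold Phi
    refine Finset.sum_eq_zero fun ψ _ => ?_
    rw [kronecker_zero]
  have h3 : (2 : ℤ) • ((2 : ℤ) • ((1 : Matrix (Fin y) (Fin y) ℤ) ⊗ₖ ((eb + eo) • (1 : Matrix X X ℤ)))) =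
      (4 * (eb + eo)) • (1 : Matrix (Fin y × X) (Fin y × X) ℤ) := by
    rw [kronecker_smul, one_kronecker_one, smul_smul, smul_smul]
    congr 1
  rw [h3]
  have h4 : ∀ a b c d e f : Matrix (Fin y × X) (Fin y × X) ℤ, a + b = e → c + d = 0 →
      a + (b - (2 : ℤ) • c - ((2 : ℤ) • d - f)) = e + f := by
    intro a b c d e f h h'
    have h'' : (2 : ℤ) • c + (2 : ℤ) • d = 0 := by rw [← smul_add, h', smul_zero]
    rw [← h]
    have e2 : a + (b - (2 : ℤ) • c - ((2 : ℤ) • d - f)) = a + b - ((2 : ℤ) • c + (2 : ℤ) • d) + f := by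
      abel
    rw [e2, h'', sub_zero]
  rw [add_smul]
  exact h4 _ _ _ _ _ _ h1 (by rw [add_comm]; exact h2)

theorem DpT (ψ : Fin y) : (Dp s b o ψ)ᵀ =
    (if ψ = b then 1 - s.Sb - s.Rb else 0) + (if ψ = o then -s.So - s.Ro else 0) := by
  unfold Dp
  rw [transpose_add]
  congr 1
  · by_cases h : ψ = b
    · rw [if_pos h, if_pos h, transpose_add, transpose_add, transpose_one, s.SbT, s.RbT]
      abel
    · rw [if_neg h, if_neg h, transpose_zero]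
  · by_cases h : ψ = o
    · rw [if_pos h, if_pos h, transpose_add, s.SoT, s.RoT]
      abel
    · rw [if_neg h, if_neg h, transpose_zero]

/-- the orders of the heads -/
def hd (y : ℕ) (A : Fin y → ℤ) (wb wo eb eo v : ℤ) (b o : Fin y) (ψ : Fin y) : ℤ :=
  y * A ψ - (if ψ = b then v * y * (eb + wb) - 4 * eb else 0) -
    (if ψ = o then v * y * (eo + wo) - 4 * eo else 0)

theorem b1 : (1 + s.Sb + s.Rb) * (1 - s.Sb - s.Rb) = (eb + wb) • (1 : Matrix X X ℤ) := by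
  have e : (1 + s.Sb + s.Rb) * (1 - s.Sb - s.Rb) = 1 - s.Sb * s.Sb - s.Rb * s.Rb -
      (s.Sb * s.Rb + s.Rb * s.Sb) := by noncomm_ring
  rw [e, s.SbRb, s.Sb2, s.Rb2, sub_zero]
  ext i j
  simp only [Matrix.sub_apply, Matrix.smul_apply, smul_eq_mul]
  ring

theorem b2 : (1 + s.Sb + s.So) * (1 - s.Sb - s.Rb) + (1 + s.Sb + s.Rb) * (1 - s.Sb - s.So) =
    (2 * eb) • (1 : Matrix X X ℤ) := by
  have e : (1 + s.Sb + s.So) * (1 - s.Sb - s.Rb) + (1 + s.Sb + s.Rb) * (1 - s.Sb - s.So) =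
      (2 : ℤ) • (1 - s.Sb * s.Sb) - (s.Sb * s.Rb + s.Rb * s.Sb) - (s.Sb * s.So + s.So * s.Sb) -
        (s.So * s.Rb + s.Rb * s.So) := by noncomm_ring
  rw [e, s.SbRb, s.SbSo, s.SoRb, s.Sb2, sub_zero, sub_zero, sub_zero]
  ext i j
  simp only [Matrix.sub_apply, Matrix.smul_apply, smul_eq_mul]
  ring

theorem b3 : s.V b * (1 - s.Sb - s.Rb) + (1 + s.Sb + s.Rb) * (-s.V b) = 0 := by
  have h1 := s.VSb b
  have h2 := s.VRb b
  have e : s.V b * (1 - s.Sb - s.Rb) + (1 + s.Sb + s.Rb) * (-s.V b) =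
      -(s.V b * s.Sb + s.Sb * s.V b) - (s.V b * s.Rb + s.Rb * s.V b) := by noncomm_ring
  rw [e, h1, h2, neg_zero, sub_zero]

theorem o1 : (s.So + s.Ro) * (-s.So - s.Ro) = (eo + wo) • (1 : Matrix X X ℤ) := by
  have e : (s.So + s.Ro) * (-s.So - s.Ro) = - s.So * s.So - s.Ro * s.Ro -
      (s.So * s.Ro + s.Ro * s.So) := by noncomm_ring
  rw [e, s.SoRo, neg_mul, s.So2, s.Ro2, sub_zero]
  ext i j
  simp only [Matrix.sub_apply, Matrix.neg_apply, Matrix.smul_apply, smul_eq_mul]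
  ring

theorem o2 : (1 + s.Sb + s.So) * (-s.So - s.Ro) + (s.So + s.Ro) * (1 - s.Sb - s.So) =
    (2 * eo) • (1 : Matrix X X ℤ) := by
  have e : (1 + s.Sb + s.So) * (-s.So - s.Ro) + (s.So + s.Ro) * (1 - s.Sb - s.So) =
      -((2 : ℤ) • (s.So * s.So)) - (s.Sb * s.Ro + s.Ro * s.Sb) - (s.Sb * s.So + s.So * s.Sb) -
        (s.So * s.Ro + s.Ro * s.So) := by noncomm_ring
  rw [e, s.SbRo, s.SbSo, s.SoRo, s.So2, sub_zero, sub_zero, sub_zero]
  ext i j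
  simp only [Matrix.neg_apply, Matrix.smul_apply, smul_eq_mul]
  ring

theorem o3 : s.V o * (-s.So - s.Ro) + (s.So + s.Ro) * (-s.V o) = 0 := by
  have h1 := s.VSo o
  have h2 := s.VRo o
  have e : s.V o * (-s.So - s.Ro) + (s.So + s.Ro) * (-s.V o) =
      -(s.V o * s.So + s.So * s.V o) - (s.V o * s.Ro + s.Ro * s.V o) := by noncomm_ring
  rw [e, h1, h2, neg_zero, sub_zero]

/-- the coefficient of `J` -/
theorem part_c (hK : IsK y K) (hbo : b ≠ o) (v : ℤ) :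
    -(UU s K * (UU s K)ᵀ) + v • (DD s b o K * (DD s b o K)ᵀ) + (VV s K * (DD s b o K)ᵀ +
      DD s b o K * (VV s K)ᵀ) =
      -Phi K fun ψ => hd y A wb wo eb eo v b o ψ • (1 : Matrix X X ℤ) := by
  have e1 : UU s K * (UU s K)ᵀ = Phi K fun ψ => (y : ℤ) • (s.U ψ * s.U ψ) := by
    rw [UUT]; unfold UU; rw [Phi_mul hK]
  have e0 : (DD s b o K)ᵀ = Phi K fun ψ => (Dp s b o ψ)ᵀ := by unfold DD; rw [Phi_T]
  have e2 : DD s b o K * (DD s b o K)ᵀ = Phi K fun ψ => (y : ℤ) • (Dp s b o ψ * (Dp s b o ψ)ᵀ) := by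
    rw [e0]; unfold DD; rw [Phi_mul hK]
  have e3 : VV s K * (DD s b o K)ᵀ = Phi K fun ψ => (y : ℤ) • (s.V ψ * (Dp s b o ψ)ᵀ) +
      (-2 : ℤ) • ((1 + s.Sb + s.So) * (Dp s b o ψ)ᵀ) := by
    rw [e0]
    unfold VV We
    rw [sub_mul, Phi_mul hK, smul_mul_assoc, Phi_one_mul, ← Phi_add, ← Phi_smul (-2), neg_smul,
      sub_eq_add_neg]
  have e4 : DD s b o K * (VV s K)ᵀ = Phi K fun ψ => (y : ℤ) • (Dp s b o ψ * (-s.V ψ)) +
      (-2 : ℤ) • (Dp s b o ψ * (1 - s.Sb - s.So)) := by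
    rw [VVT]
    unfold DD
    rw [mul_sub, Phi_mul hK, mul_smul_comm, Phi_mul_one, ← Phi_add, ← Phi_smul (-2), neg_smul,
      sub_eq_add_neg]
  have e5 : ∀ M : Fin y → Matrix X X ℤ, -Phi K M = Phi K fun ψ => (-1 : ℤ) • M ψ := by
    intro M; rw [← Phi_smul, neg_one_smul]
  rw [e1, e2, e3, e4, e5, e5, Phi_smul, Phi_add, Phi_add, Phi_add]
  congr 1
  funext ψ
  have hV := s.VSb ψ
  unfold hd
  by_cases hb : ψ = b
  · subst hb
    have hT : (Dp s ψ o ψ)ᵀ = 1 - s.Sb - s.Rb := by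
      rw [DpT, if_pos rfl, if_neg hbo, add_zero]
    have hD : Dp s ψ o ψ = 1 + s.Sb + s.Rb := by
      unfold Dp; rw [if_pos rfl, if_neg hbo, add_zero]
    rw [hT, hD, if_pos rfl, if_neg hbo, b1, s.U2]
    have h2 := b2 s
    have h3 := b3 s ψ
    ext i j
    have h2' := congrFun (congrFun h2 i) j
    have h3' := congrFun (congrFun h3 i) j
    simp only [Matrix.add_apply, Matrix.smul_apply, Matrix.zero_apply, smul_eq_mul] at h2' h3' ⊢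
    linear_combination (y : ℤ) * h3' - 2 * h2'
  · by_cases ho : ψ = o
    · subst ho
      have hT : (Dp s b ψ ψ)ᵀ = -s.So - s.Ro := by
        rw [DpT, if_neg (Ne.symm hbo), if_pos rfl, zero_add]
      have hD : Dp s b ψ ψ = s.So + s.Ro := by
        unfold Dp; rw [if_neg (Ne.symm hbo), if_pos rfl, zero_add]
      rw [hT, hD, if_neg hb, if_pos rfl, o1, s.U2]
      have h2 := o2 s
      have h3 := o3 s ψ
      ext i j
      have h2' := congrFun (congrFun h2 i) j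
      have h3' := congrFun (congrFun h3 i) j
      simp only [Matrix.add_apply, Matrix.smul_apply, Matrix.zero_apply, smul_eq_mul] at h2' h3' ⊢
      linear_combination (y : ℤ) * h3' - 2 * h2'
    · have hT : (Dp s b o ψ)ᵀ = 0 := by
        rw [DpT, if_neg hb, if_neg ho, add_zero]
      have hD : Dp s b o ψ = 0 := by
        unfold Dp; rw [if_neg hb, if_neg ho, add_zero]
      rw [hT, hD, if_neg hb, if_neg ho, s.U2]
      ext i j
      simp only [Matrix.add_apply, Matrix.smul_apply, Matrix.zero_apply, smul_eq_mul, mul_zero,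
        zero_mul, add_zero, sub_zero]
      ring

end big

end Pool.Agent.H182.PH
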