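import Mathlib

/-!
# The arithmetic of the parameters
-/

set_option autoImplicit false

namespace Pool.Agent.H182.PH


theorem arith_A {q y x μ ms αb J₂ εb : ℕ} (hy : y = 4 * J₂) (hJ2 : 0 < J₂) (hq0 : 0 < q)
    (hms : ms = μ / q) (hαb : αb = x + q * (1 + εb)) (hεbJ : εb < J₂)
    (I1 : (4 * q + y) * x ≤ 4 * μ + (q + 1)) (hxqq : 4 * y * (q + 1) ^ 2 ≤ x) : αb ≤ ms := by
  rw [hms, Nat.le_div_iff_mul_le (by omega), hαb]
  have h5 : q * (1 + εb) ≤ q * J₂ := Nat.mul_le_mul_left _ (by omega)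
  have h6 : 4 * ((x + q * (1 + εb)) * q) ≤ 4 * q * x + y * q * q := by
    have : 4 * (q * (1 + εb) * q) ≤ 4 * (q * J₂ * q) :=
      Nat.mul_le_mul_left _ (Nat.mul_le_mul_right _ h5)
    have e2 : 4 * (q * J₂ * q) = y * q * q := by rw [hy]; ring
    have e3 : 4 * ((x + q * (1 + εb)) * q) = 4 * q * x + 4 * (q * (1 + εb) * q) := by ring
    omega
  have h7 : 4 * q * x + y * x ≤ 4 * μ + (q + 1) := by
    calc 4 * q * x + y * x = (4 * q + y) * x := by ring
      _ ≤ _ := I1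
  have h8 : y * q * q + (q + 1) ≤ y * x := by
    calc y * q * q + (q + 1) ≤ y * (q + 1) ^ 2 := by nlinarith
      _ ≤ y * (4 * y * (q + 1) ^ 2) := by
          apply Nat.mul_le_mul_left
          calc (q + 1) ^ 2 = 1 * (q + 1) ^ 2 := by ring
            _ ≤ 4 * y * (q + 1) ^ 2 := Nat.mul_le_mul_right _ (by omega)
      _ ≤ y * x := Nat.mul_le_mul_left _ hxqq
  omega

theorem arith_C1 {q y x μ γ ms : ℕ} (hy16 : 16 ≤ y) (hq0 : 0 < q) (hyμ : y * μ = (q + 1) * γ)
    (hms1 : q * ms ≤ μ) (I1 : (4 * q + y) * x ≤ 4 * μ + (q + 1)) (hγ2 : γ ≤ 2 * y * (x + 1))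
    (hxq : 8 * y * (q + 1) ≤ x) : 2 * ms + (y - 2) * (x + 1) ≤ γ := by
  obtain ⟨y', hy'⟩ : ∃ y', y = y' + 2 := ⟨y - 2, by omega⟩
  have hy2 : y - 2 = y' := by omega
  rw [hy2]
  have h5 : q * (2 * ms + y' * (x + 1)) ≤ q * γ := by
    have h6 : q * γ + γ = y * μ := by rw [hyμ]; ring
    have h7 : y * μ = y' * μ + 2 * μ := by rw [hy']; ring
    have h8 : q * (2 * ms + y' * (x + 1)) = 2 * (q * ms) + y' * (q * (x + 1)) := by ring
    -- `γ + y' q (x + 1) ≤ y' μ`
    have h9 : γ + y' * (q * (x + 1)) ≤ y' * μ := by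
      have a1 : y' * ((4 * q + y) * x) ≤ y' * (4 * μ + (q + 1)) := Nat.mul_le_mul_left _ I1
      have a2 : y' * ((4 * q + y) * x) = 4 * (y' * (q * x)) + y' * y * x := by ring
      have a3 : y' * (4 * μ + (q + 1)) = 4 * (y' * μ) + y' * (q + 1) := by ring
      have a4 : y' * (q * (x + 1)) = y' * (q * x) + y' * q := by ring
      have a5 : 14 ≤ y' := by omega
      have a6 : 14 * (y * x) ≤ y' * y * x := by
        calc 14 * (y * x) ≤ y' * (y * x) := Nat.mul_le_mul_right _ a5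
          _ = _ := by ring
      -- `4 γ ≤ 8 y (x + 1)`
      have a7 : 4 * γ ≤ 8 * (y * x) + 8 * y := by
        calc 4 * γ ≤ 4 * (2 * y * (x + 1)) := Nat.mul_le_mul_left _ hγ2
          _ = _ := by ring
      have a8 : 4 * (y' * q) + y' * (q + 1) + 8 * y ≤ 6 * (y * x) := by
        have b1 : y' * q ≤ y * (q + 1) := by
          apply Nat.mul_le_mul <;> omega
        have b2 : y' * (q + 1) ≤ y * (q + 1) := Nat.mul_le_mul_right _ (by omega)
        have b3 : y ≤ y * (q + 1) := Nat.le_mul_of_pos_right _ (by omega)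
        have b4 : 13 * (y * (q + 1)) ≤ 6 * (y * x) := by
          have b5 : 8 * y * (q + 1) ≤ x := hxq
          have b6 : y * (8 * y * (q + 1)) ≤ y * x := Nat.mul_le_mul_left _ b5
          have b7 : 13 * (y * (q + 1)) ≤ 6 * (y * (8 * y * (q + 1))) := by
            have b8 : 6 * (y * (8 * y * (q + 1))) = (48 * y) * (y * (q + 1)) := by ring
            rw [b8]
            exact Nat.mul_le_mul_right _ (by omega)
          omega
        omega
      omega
    omega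
  exact Nat.le_of_mul_le_mul_left h5 (by omega)

theorem arith_C2 {q y x μ γ ms : ℕ} (hy16 : 16 ≤ y) (hq0 : 0 < q) (hyμ : y * μ = (q + 1) * γ)
    (hms2 : μ < q * (ms + 1)) (I2 : 4 * μ ≤ (4 * q + 3 * y) * (x + 1)) (hγ1 : y * x ≤ γ + y)
    (hxqq : 4 * y * (q + 1) ^ 2 ≤ x) : γ + q ≤ x + (y - 1) * ms := by
  obtain ⟨y', hy'⟩ : ∃ y', y = y' + 1 := ⟨y - 1, by omega⟩
  have hy2 : y - 1 = y' := by omega
  rw [hy2]
  have h5 : q * (γ + q) ≤ q * (x + y' * ms) := by
    have h6 : q * γ + γ = y * μ := by rw [hyμ]; ring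
    have h7 : y * μ = y' * μ + μ := by rw [hy']; ring
    have h8 : q * (x + y' * ms) + y' * q = q * x + y' * (q * (ms + 1)) := by ring
    have h9 : y' * μ ≤ y' * (q * (ms + 1)) := Nat.mul_le_mul_left _ hms2.le
    -- `μ + q ^ 2 + y' q ≤ q x + γ`
    have h10 : μ + q * q + y' * q ≤ q * x + γ := by
      have a1 : 4 * μ ≤ 4 * (q * x) + 4 * q + 3 * (y * x) + 3 * y := by
        calc 4 * μ ≤ _ := I2
          _ = _ := by ring
      have a2 : y' * q ≤ y * (q + 1) := by apply Nat.mul_le_mul <;> omega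
      have a3 : 4 * (q * q) + 4 * q + 4 * (y * (q + 1)) + 7 * y ≤ y * x := by
        have b1 : y * (4 * y * (q + 1) ^ 2) ≤ y * x := Nat.mul_le_mul_left _ hxqq
        have b2 : 4 * (q * q) + 4 * q ≤ 4 * (q + 1) ^ 2 := by nlinarith
        have b3 : y * (q + 1) ≤ y * (q + 1) ^ 2 := by
          apply Nat.mul_le_mul_left
          nlinarith
        have b4 : y ≤ y * (q + 1) ^ 2 := Nat.le_mul_of_pos_right _ (by positivity)
        have b5 : 4 * (q + 1) ^ 2 ≤ 4 * (y * (q + 1) ^ 2) := by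
          apply Nat.mul_le_mul_left
          exact Nat.le_mul_of_pos_left _ (by omega)
        have b6 : 15 * (y * (q + 1) ^ 2) ≤ y * (4 * y * (q + 1) ^ 2) := by
          calc 15 * (y * (q + 1) ^ 2) ≤ (4 * y) * (y * (q + 1) ^ 2) :=
                Nat.mul_le_mul_right _ (by omega)
            _ = _ := by ring
        omega
      omega
    have e3 : q * (γ + q) = q * γ + q * q := by ring
    omega
  exact Nat.le_of_mul_le_mul_left h5 (by omega)

theorem arith_num {n P q y J J₂ m₂ w : ℕ} (hy : y = 4 * J₂) (hJ2 : 4 ≤ J₂) (hq : q + 1 = J₂ * m₂)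
    (hqy : y ≤ q) (hJ : 0 < J) (h4 : 4 ∣ n) (hw : n = P + y * J * w)
    (h1 : y * (4 * q + y) * P ≤ 4 * n) (h2 : 4 * n ≤ y * (4 * q + 3 * y) * P)
    (hP : 8 * J * y ^ 2 * (q + 1) ^ 2 ≤ P) :
    ∃ d εb εo ω γ μ S x ms αb αo : ℕ, d < J ∧
      n = y ^ 2 * (J * μ) + 4 * (1 + d + J * εb + J * εo) ∧
      P + q * y * (J * (1 + εb)) = y * (J * αb) + 4 * (1 + d + J * εb) ∧
      y * (J * αo) + 4 * (J * εo) = q * y * (J * εo + J * ω) ∧
      y * μ = (q + 1) * γ ∧ γ + ω + εo + εb = 2 * S ∧ εb + εo + ω ≤ γ ∧ q * ms ≤ μ ∧ αb ≤ ms ∧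
      αo ≤ ms ∧ αb + αo + (y - 2) * (x + 1) ≤ γ ∧ γ ≤ αb + αo + (y - 2) * ms ∧ x + 1 ≤ ms ∧
      P ≤ y * (J * (x + 1)) ∧ P ≤ J * (2 * S + 1) := by
  have hy16 : 16 ≤ y := by omega
  have hq16 : 16 ≤ q := by omega
  have hP0 : 0 < P := by
    have : 0 < 8 * J * y ^ 2 * (q + 1) ^ 2 := by positivity
    omega
  -- the digits
  obtain ⟨m, hm⟩ := h4
  have hn0 : 0 < n := by rw [hw]; omega
  have hm1 : 1 ≤ m := by omega
  obtain ⟨d, hd⟩ : ∃ d, d = (m - 1) % J := ⟨_, rfl⟩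
  obtain ⟨t, ht⟩ : ∃ t, t = (m - 1) / J := ⟨_, rfl⟩
  have hdJ : d < J := by rw [hd]; exact Nat.mod_lt _ hJ
  have hmt : m = 1 + d + J * t := by
    have := Nat.div_add_mod (m - 1) J
    rw [← hd, ← ht] at this
    omega
  obtain ⟨εb, hεb⟩ : ∃ e, e = t % J₂ := ⟨_, rfl⟩
  obtain ⟨t1, ht1⟩ : ∃ e, e = t / J₂ := ⟨_, rfl⟩
  have hεbJ : εb < J₂ := by rw [hεb]; exact Nat.mod_lt _ (by omega)
  have htt : t = εb + J₂ * t1 := by
    have := Nat.div_add_mod t J₂
    rw [← hεb, ← ht1] at this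
    omega
  obtain ⟨e1, he1⟩ : ∃ e, e = t1 % (4 * (q + 1)) := ⟨_, rfl⟩
  obtain ⟨g1, hg1⟩ : ∃ e, e = t1 / (4 * (q + 1)) := ⟨_, rfl⟩
  have he1q : e1 < 4 * (q + 1) := by rw [he1]; exact Nat.mod_lt _ (by omega)
  have ht1e : t1 = e1 + 4 * (q + 1) * g1 := by
    have := Nat.div_add_mod t1 (4 * (q + 1))
    rw [← he1, ← hg1] at this
    omega
  obtain ⟨γ, hγ⟩ : ∃ g, g = 4 * g1 := ⟨_, rfl⟩
  obtain ⟨μ, hμ⟩ : ∃ g, g = m₂ * g1 := ⟨_, rfl⟩
  have hyμ : y * μ = (q + 1) * γ := by rw [hy, hμ, hγ, hq]; ring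
  have hnn : n = 4 * (1 + d + J * εb) + y * J * t1 := by
    rw [hm, hmt, htt, hy]; ring
  have ht1μ : t1 = e1 + y * μ := by rw [hyμ, ht1e, hγ]; ring
  -- the number `x`
  have hsm : 4 * (1 + d + J * εb) ≤ y * J := by
    have h5 : J * εb + J ≤ J * J₂ := by
      calc J * εb + J = J * (εb + 1) := by ring
        _ ≤ J * J₂ := Nat.mul_le_mul_left _ hεbJ
    have h6 : y * J = 4 * (J * J₂) := by rw [hy]; ring
    omega
  have hyJ : 0 < y * J := by positivity
  have hwt : w < t1 := by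
    by_contra hcon
    have h5 : t1 ≤ w := not_lt.1 hcon
    have h6 : y * J * t1 ≤ y * J * w := Nat.mul_le_mul_left _ h5
    have h7 : P ≤ y * J := by omega
    have h8 : y * J < 8 * J * y ^ 2 * (q + 1) ^ 2 := by
      have h9 : 1 ≤ (q + 1) ^ 2 := Nat.one_le_pow _ _ (by omega)
      calc y * J < 8 * J * y ^ 2 * 1 := by nlinarith
        _ ≤ _ := Nat.mul_le_mul_left _ h9
    omega
  obtain ⟨x, hx⟩ : ∃ x, t1 = w + x := ⟨t1 - w, by omega⟩
  have hPx : P = 4 * (1 + d + J * εb) + y * J * x := by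
    have h5 : P + y * J * w = 4 * (1 + d + J * εb) + y * J * (w + x) := by
      rw [← hw, ← hx]; exact hnn
    have h6 : y * J * (w + x) = y * J * w + y * J * x := by ring
    omega
  have hPx1 : y * J * x ≤ P := by omega
  have hPx2 : P ≤ y * J * (x + 1) := by
    have : y * J * (x + 1) = y * J * x + y * J := by ring
    omega
  -- lower bound for `x`
  have hxb : 8 * y * (q + 1) ^ 2 ≤ x + 1 := by
    have h5 : y * J * (8 * y * (q + 1) ^ 2) ≤ y * J * (x + 1) := by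
      calc y * J * (8 * y * (q + 1) ^ 2) = 8 * J * y ^ 2 * (q + 1) ^ 2 := by ring
        _ ≤ P := hP
        _ ≤ _ := hPx2
    exact Nat.le_of_mul_le_mul_left h5 hyJ
  -- first inequality
  have I1 : (4 * q + y) * x ≤ 4 * μ + (q + 1) := by
    have h5 : y * (4 * q + y) * (y * J * x) ≤ 4 * (y * J * (4 * (q + 1) + y * μ)) := by
      calc y * (4 * q + y) * (y * J * x) ≤ y * (4 * q + y) * P := Nat.mul_le_mul_left _ hPx1
        _ ≤ 4 * n := h1
        _ ≤ 4 * (y * J * (4 * (q + 1) + y * μ)) := by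
            apply Nat.mul_le_mul_left
            rw [hnn, ht1μ]
            have h6 : y * J * (e1 + 1) ≤ y * J * (4 * (q + 1)) := Nat.mul_le_mul_left _ he1q
            have h7 : y * J * (e1 + 1) = y * J * e1 + y * J := by ring
            have h8 : y * J * (e1 + y * μ) = y * J * e1 + y * J * (y * μ) := by ring
            have h9 : y * J * (4 * (q + 1) + y * μ) = y * J * (4 * (q + 1)) + y * J * (y * μ) := by ring
            omega
    have h6 : y * J * (y * ((4 * q + y) * x)) ≤ y * J * (16 * (q + 1) + y * (4 * μ)) := by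
      calc y * J * (y * ((4 * q + y) * x)) = y * (4 * q + y) * (y * J * x) := by ring
        _ ≤ _ := h5
        _ = _ := by ring
    have h7 := Nat.le_of_mul_le_mul_left h6 hyJ
    have h8 : 16 * (q + 1) ≤ y * (q + 1) := Nat.mul_le_mul_right _ hy16
    have h9 : y * ((4 * q + y) * x) ≤ y * (4 * μ + (q + 1)) := by
      calc _ ≤ _ := h7
        _ ≤ y * (q + 1) + y * (4 * μ) := Nat.add_le_add_right h8 _
        _ = _ := by ring
    exact Nat.le_of_mul_le_mul_left h9 (by omega)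
  -- second inequality
  have I2 : 4 * μ ≤ (4 * q + 3 * y) * (x + 1) := by
    have h5 : 4 * (y * J * (y * μ)) ≤ y * (4 * q + 3 * y) * (y * J * (x + 1)) := by
      calc 4 * (y * J * (y * μ)) ≤ 4 * n := by
            apply Nat.mul_le_mul_left
            rw [hnn, ht1μ]
            have h8 : y * J * (e1 + y * μ) = y * J * e1 + y * J * (y * μ) := by ring
            omega
        _ ≤ y * (4 * q + 3 * y) * P := h2
        _ ≤ _ := Nat.mul_le_mul_left _ hPx2
    have h6 : y * J * (y * (4 * μ)) ≤ y * J * (y * ((4 * q + 3 * y) * (x + 1))) := by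
      calc y * J * (y * (4 * μ)) = 4 * (y * J * (y * μ)) := by ring
        _ ≤ _ := h5
        _ = _ := by ring
    exact Nat.le_of_mul_le_mul_left (Nat.le_of_mul_le_mul_left h6 hyJ) (by omega)
  -- everything in the integers
  obtain ⟨ms, hms⟩ : ∃ z, z = μ / q := ⟨_, rfl⟩
  have hms1 : q * ms ≤ μ := by rw [hms]; exact Nat.mul_div_le _ _
  have hms2 : μ < q * (ms + 1) := by rw [hms]; exact Nat.lt_mul_div_succ _ (by omega)
  obtain ⟨αb, hαb⟩ : ∃ z, z = x + q * (1 + εb) := ⟨_, rfl⟩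
  have hxq : 8 * y * (q + 1) ≤ x := by
    have h5 : 8 * y * (q + 1) * (q + 1) ≤ x + 1 := by
      calc 8 * y * (q + 1) * (q + 1) = 8 * y * (q + 1) ^ 2 := by ring
        _ ≤ _ := hxb
    have h6 : 8 * y * (q + 1) * 2 ≤ 8 * y * (q + 1) * (q + 1) := Nat.mul_le_mul_left _ (by omega)
    have : 0 < 8 * y * (q + 1) := by positivity
    omega
  have hxqq : 4 * y * (q + 1) ^ 2 ≤ x := by
    have h6 : 0 < 4 * y * (q + 1) ^ 2 := by positivity
    have h7 : 8 * y * (q + 1) ^ 2 = 4 * y * (q + 1) ^ 2 + 4 * y * (q + 1) ^ 2 := by ring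
    omega
  -- (A)
  have hA : αb ≤ ms := arith_A hy (by omega) (by omega) hms hαb hεbJ I1 hxqq
  have hμx : q * (x + 1) ≤ μ := by
    have h7 : 4 * q * x + y * x ≤ 4 * μ + (q + 1) := by
      calc 4 * q * x + y * x = (4 * q + y) * x := by ring
        _ ≤ _ := I1
    have h8 : 16 * x ≤ y * x := Nat.mul_le_mul_right _ hy16
    have h9 : q + 1 ≤ x := by
      calc q + 1 = 1 * (q + 1) := by ring
        _ ≤ 8 * y * (q + 1) := Nat.mul_le_mul_right _ (by omega)
        _ ≤ x := hxq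
    have e1 : q * (x + 1) = q * x + q := by ring
    have e2 : 4 * q * x = 4 * (q * x) := by ring
    omega
  have hmsx : x + 1 ≤ ms := by
    rw [hms, Nat.le_div_iff_mul_le (by omega), mul_comm]
    exact hμx
  -- bounds for `γ` from both sides
  have hγ1 : y * x ≤ γ + y := by
    have h5 : (q + 1) * (y * x) ≤ (q + 1) * (γ + y) := by
      have h6 : 4 * ((q + 1) * (y * x)) ≤ y * ((4 * q + y) * x) := by
        calc 4 * ((q + 1) * (y * x)) = y * ((4 * q + 4) * x) := by ring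
          _ ≤ y * ((4 * q + y) * x) := by
              apply Nat.mul_le_mul_left
              apply Nat.mul_le_mul_right
              omega
      have h7 : y * ((4 * q + y) * x) ≤ y * (4 * μ + (q + 1)) := Nat.mul_le_mul_left _ I1
      have h8 : y * (4 * μ + (q + 1)) = 4 * (y * μ) + (q + 1) * y := by ring
      have h9 : (q + 1) * (γ + y) = (q + 1) * γ + (q + 1) * y := by ring
      rw [hyμ] at h8
      omega
    exact Nat.le_of_mul_le_mul_left h5 (by omega)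
  have hγ2 : γ ≤ 2 * y * (x + 1) := by
    have h5 : (q + 1) * γ ≤ (q + 1) * (2 * y * (x + 1)) := by
      have h6 : 4 * ((q + 1) * γ) ≤ y * ((4 * q + 3 * y) * (x + 1)) := by
        calc 4 * ((q + 1) * γ) = y * (4 * μ) := by rw [← hyμ]; ring
          _ ≤ _ := Nat.mul_le_mul_left _ I2
      have h7 : y * ((4 * q + 3 * y) * (x + 1)) ≤ y * ((8 * (q + 1)) * (x + 1)) := by
        apply Nat.mul_le_mul_left
        apply Nat.mul_le_mul_right
        omega
      have h8 : y * ((8 * (q + 1)) * (x + 1)) = 4 * ((q + 1) * (2 * y * (x + 1))) := by ring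
      omega
    exact Nat.le_of_mul_le_mul_left h5 (by omega)
  -- (C) lower
  have hC1 : 2 * ms + (y - 2) * (x + 1) ≤ γ := arith_C1 hy16 (by omega) hyμ hms1 I1 hγ2 hxq
  -- (C) upper
  have hC2 : γ + q ≤ x + (y - 1) * ms := arith_C2 hy16 (by omega) hyμ hms2 I2 hγ1 hxqq
  -- the choice of `ω`
  obtain ⟨z, hz⟩ : ∃ z, z = (ms + e1) / q := ⟨_, rfl⟩
  have hz1 : q * z ≤ ms + e1 := by rw [hz]; exact Nat.mul_div_le _ _
  have hz2 : ms + e1 < q * (z + 1) := by rw [hz]; exact Nat.lt_mul_div_succ _ (by omega)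
  have hz3 : J₂ * e1 + 1 ≤ z := by
    rw [hz, Nat.le_div_iff_mul_le (by omega)]
    have h5 : J₂ * e1 + 1 ≤ y * (q + 1) := by
      have h6 : J₂ * (e1 + 1) ≤ J₂ * (4 * (q + 1)) := Nat.mul_le_mul_left _ he1q
      have h7 : J₂ * (4 * (q + 1)) = y * (q + 1) := by rw [hy]; ring
      have h8 : J₂ * (e1 + 1) = J₂ * e1 + J₂ := by ring
      omega
    calc (J₂ * e1 + 1) * q ≤ (y * (q + 1)) * (q + 1) := Nat.mul_le_mul h5 (by omega)
      _ = 1 * (y * (q + 1) ^ 2) := by ring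
      _ ≤ 4 * (y * (q + 1) ^ 2) := Nat.mul_le_mul_right _ (by norm_num)
      _ = 4 * y * (q + 1) ^ 2 := by ring
      _ ≤ x := hxqq
      _ ≤ ms + e1 := by omega
  obtain ⟨z', hz', hpar⟩ : ∃ z', (z' = z ∨ z' + 1 = z) ∧ (γ + z' + εb) % 2 = 0 := by
    by_cases h : (γ + z + εb) % 2 = 0
    · exact ⟨z, Or.inl rfl, h⟩
    · exact ⟨z - 1, Or.inr (by omega), by omega⟩
  have hz4 : J₂ * e1 ≤ z' := by omega
  obtain ⟨ω, hω⟩ : ∃ ω, z' = J₂ * e1 + ω := ⟨z' - J₂ * e1, by omega⟩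
  have hqz : e1 ≤ q * z' := by
    calc e1 = 1 * e1 := by ring
      _ ≤ J₂ * e1 := Nat.mul_le_mul_right _ (by omega)
      _ ≤ z' := hz4
      _ ≤ q * z' := Nat.le_mul_of_pos_left _ (by omega)
  obtain ⟨αo, hαo⟩ : ∃ a, q * z' = a + e1 := ⟨q * z' - e1, by omega⟩
  have hqz' : q * z ≤ q * z' + q := by
    rcases hz' with h | h
    · rw [h]; omega
    · rw [← h]; apply le_of_eq; ring
  have hqz'' : q * z' ≤ q * z := Nat.mul_le_mul_left _ (by omega)
  have hαo1 : αo ≤ ms := by omega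
  have hαo2 : ms ≤ αo + 2 * q := by
    have : q * (z + 1) = q * z + q := by ring
    omega
  -- the conclusion
  obtain ⟨S, hS⟩ : ∃ S, γ + z' + εb = 2 * S := ⟨(γ + z' + εb) / 2, by omega⟩
  have hz5 : z' ≤ ms + 4 * (q + 1) := by
    have h5 : z' ≤ q * z' := Nat.le_mul_of_pos_left _ (by omega)
    omega
  have hJy : J₂ ≤ y := by omega
  have hxx : 4 * (q + 1) + y ≤ x := by
    have h5 : y ≤ y * (q + 1) := Nat.le_mul_of_pos_right _ (by omega)
    have h6 : q + 1 ≤ y * (q + 1) := Nat.le_mul_of_pos_left _ (by omega)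
    have h7 : 8 * y * (q + 1) = 8 * (y * (q + 1)) := by ring
    omega
  have hyx : y * (x + 1) ≤ γ := by
    obtain ⟨y', hy'⟩ : ∃ y', y = y' + 2 := ⟨y - 2, by omega⟩
    have hy2 : y - 2 = y' := by omega
    rw [hy2] at hC1
    have : y * (x + 1) = 2 * (x + 1) + y' * (x + 1) := by rw [hy']; ring
    omega
  refine ⟨d, εb, J₂ * e1, ω, γ, μ, S, x, ms, αb, αo, hdJ, ?_, ?_, ?_, hyμ, by omega, by omega, hms1,
    hA, hαo1, by omega, ?_, hmsx, ?_, ?_⟩
  · rw [hnn, ht1μ, hy]; ring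
  · rw [hPx, hαb]; ring
  · have e2 : y * (J * αo) + 4 * (J * (J₂ * e1)) = y * J * (αo + e1) := by rw [hy]; ring
    have e3 : q * y * (J * (J₂ * e1) + J * ω) = y * J * (q * (J₂ * e1 + ω)) := by ring
    rw [e2, e3, ← hω, hαo]
  · obtain ⟨y', hy'⟩ : ∃ y', y = y' + 2 := ⟨y - 2, by omega⟩
    have hy2 : y - 2 = y' := by omega
    have hy3 : y - 1 = y' + 1 := by omega
    rw [hy3] at hC2
    rw [hy2]
    have e2 : (y' + 1) * ms = y' * ms + ms := by ring
    have e3 : q ≤ q * (1 + εb) := Nat.le_mul_of_pos_right _ (by omega)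
    omega
  · calc P ≤ y * J * (x + 1) := hPx2
      _ = _ := by ring
  · calc P ≤ y * J * (x + 1) := hPx2
      _ = J * (y * (x + 1)) := by ring
      _ ≤ J * (2 * S + 1) := Nat.mul_le_mul_left _ (by omega)

end Pool.Agent.H182.PH
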