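import Pool.Agent.H182.PHAlg

/-!
# The large matrix and the partial Hadamard matrix
-/

set_option autoImplicit false
set_option linter.unusedSectionVars false

namespace Pool.Agent.H182.PH

open Matrix Finset
open scoped Kronecker
open Pool.Agent.Y342.SK (Rel Sg IsCore)
open Pool.Agent.N328.PH (IsK pr prT pr_pr sum_pr pr_apply HasPH)

section core

variable {v : ℕ} (S : Fin v → Fin v → ℤ)

/-- the core as a matrix -/
def Qc : Matrix (Fin v) (Fin v) ℤ := Matrix.of S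

/-- the all-one matrix -/
def Jv (v : ℕ) : Matrix (Fin v) (Fin v) ℤ := Matrix.of fun _ _ => 1

theorem JvT (v : ℕ) : (Jv v)ᵀ = Jv v := by
  ext i j; rfl

theorem Jv_Jv (v : ℕ) : Jv v * Jv v = (v : ℤ) • Jv v := by
  ext i j
  rw [Matrix.mul_apply]
  simp [Jv]

variable {S}

theorem QcT (h : IsCore S) : (Qc S)ᵀ = -Qc S := by
  ext i j
  simp only [transpose_apply, Matrix.neg_apply, Qc, Matrix.of_apply]
  exact h.skew i j

theorem Qc_QcT (h : IsCore S) : Qc S * (Qc S)ᵀ = (v : ℤ) • (1 : Matrix (Fin v) (Fin v) ℤ) - Jv v := by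
  ext i j
  rw [Matrix.mul_apply, Matrix.sub_apply, Matrix.smul_apply, Matrix.one_apply]
  simp only [transpose_apply, Qc, Jv, Matrix.of_apply, smul_eq_mul]
  rw [h.mul i j]
  by_cases hij : i = j
  · rw [if_pos hij, if_pos hij, mul_one]
  · rw [if_neg hij, if_neg hij, mul_zero]

theorem Qc_J (h : IsCore S) : Qc S * Jv v = 0 := by
  ext i j
  rw [Matrix.mul_apply, Matrix.zero_apply]
  simp only [Qc, Jv, Matrix.of_apply, mul_one]
  exact h.row i

theorem J_QcT (h : IsCore S) : Jv v * (Qc S)ᵀ = 0 := by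
  have := congrArg Matrix.transpose (Qc_J h)
  rwa [transpose_mul, JvT, transpose_zero] at this

/-- the general identity -/
theorem gram {Z : Type} [Fintype Z] [DecidableEq Z] (h : IsCore S) (U V D F : Matrix Z Z ℤ) (n : ℤ)
    (ha : U * Vᵀ = V * Uᵀ) (hb : (v : ℤ) • (U * Uᵀ) + V * Vᵀ = n • (1 : Matrix Z Z ℤ))
    (hc : -(U * Uᵀ) + (v : ℤ) • (D * Dᵀ) + (V * Dᵀ + D * Vᵀ) = -F) :
    (Qc S ⊗ₖ U + (1 : Matrix (Fin v) (Fin v) ℤ) ⊗ₖ V + Jv v ⊗ₖ D) *
      (Qc S ⊗ₖ U + (1 : Matrix (Fin v) (Fin v) ℤ) ⊗ₖ V + Jv v ⊗ₖ D)ᵀ =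
      n • (1 : Matrix (Fin v × Z) (Fin v × Z) ℤ) - Jv v ⊗ₖ F := by
  have hT : (Qc S ⊗ₖ U + (1 : Matrix (Fin v) (Fin v) ℤ) ⊗ₖ V + Jv v ⊗ₖ D)ᵀ =
      (Qc S)ᵀ ⊗ₖ Uᵀ + (1 : Matrix (Fin v) (Fin v) ℤ) ⊗ₖ Vᵀ + Jv v ⊗ₖ Dᵀ := by
    rw [transpose_add, transpose_add, ← kroneckerMap_transpose, ← kroneckerMap_transpose,
      ← kroneckerMap_transpose, transpose_one, JvT]
  rw [hT]
  simp only [add_mul, mul_add, ← mul_kronecker_mul, one_mul, mul_one]
  rw [Qc_QcT h, Qc_J h, J_QcT h, Jv_Jv, ha, QcT h]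
  have e1 : (v : ℤ) • (U * Uᵀ) + V * Vᵀ = n • (1 : Matrix Z Z ℤ) := hb
  ext ⟨i, k⟩ ⟨j, l⟩
  have e2 := congrFun (congrFun hb k) l
  have e3 := congrFun (congrFun hc k) l
  simp only [Matrix.add_apply, Matrix.neg_apply, Matrix.smul_apply, smul_eq_mul] at e2 e3
  simp only [Matrix.add_apply, Matrix.sub_apply, Matrix.neg_apply, Matrix.smul_apply,
    kroneckerMap_apply, Matrix.zero_apply, Jv, Matrix.of_apply, smul_eq_mul, zero_mul, one_mul]
  have e4 : (1 : Matrix (Fin v × Z) (Fin v × Z) ℤ) (i, k) (j, l) =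
      (1 : Matrix (Fin v) (Fin v) ℤ) i j * (1 : Matrix Z Z ℤ) k l := by
    rw [← one_kronecker_one]; rfl
  rw [e4]
  linear_combination (1 : Matrix (Fin v) (Fin v) ℤ) i j * e2 + e3

end core

variable {y : ℕ} [NeZero y] {K : Matrix (Fin y) (Fin y) ℤ}
variable {X : Type} [Fintype X] [DecidableEq X]
variable {wb wo eb eo : ℤ} {A B : Fin y → ℤ}

/-- the large matrix -/
def Xm {v : ℕ} (S : Fin v → Fin v → ℤ) (K : Matrix (Fin y) (Fin y) ℤ) (s : Sys2 y X wb wo eb eo A B)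
    (b o : Fin y) : Matrix (Fin v × (Fin y × X)) (Fin v × (Fin y × X)) ℤ :=
  Qc S ⊗ₖ UU s K + (1 : Matrix (Fin v) (Fin v) ℤ) ⊗ₖ VV s K + Jv v ⊗ₖ DD s b o K

theorem Xm_gram {v : ℕ} {S : Fin v → Fin v → ℤ} (hS : IsCore S) (hK : IsK y K)
    (s : Sys2 y X wb wo eb eo A B) {b o : Fin y} (hbo : b ≠ o) {N : ℤ}
    (hN : ∀ ψ, v * A ψ + B ψ = N) :
    Xm S K s b o * (Xm S K s b o)ᵀ =
      ((y : ℤ) ^ 2 * N + 4 * (eb + eo)) • (1 : Matrix (Fin v × (Fin y × X)) _ ℤ) -
        Jv v ⊗ₖ Phi K fun ψ => hd y A wb wo eb eo v b o ψ • (1 : Matrix X X ℤ) :=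
  gram hS _ _ _ _ _ (part_a s hK) (part_b s hK v hN) (part_c s b o hK hbo v)

theorem UU_apply (s : Sys2 y X wb wo eb eo A B) (i j : Fin y) (k l : X) :
    UU s K (i, k) (j, l) = ∑ ψ, (K ψ i * K ψ j) * s.U ψ k l := Phi_apply _ _ _ _ _

theorem VV_apply (s : Sys2 y X wb wo eb eo A B) (i j : Fin y) (k l : X) :
    VV s K (i, k) (j, l) = (∑ ψ, (K ψ i * K ψ j) * s.V ψ k l) -
      2 * ((if i = j then 1 else 0) * ((if k = l then 1 else 0) + s.Sb k l + s.So k l)) := by
  unfold VV We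
  rw [Matrix.sub_apply, Phi_apply, Matrix.smul_apply, kroneckerMap_apply, Matrix.one_apply,
    Matrix.add_apply, Matrix.add_apply, Matrix.one_apply, smul_eq_mul]

theorem DD_apply (s : Sys2 y X wb wo eb eo A B) (b o : Fin y) (i j : Fin y) (k l : X) :
    DD s b o K (i, k) (j, l) =
      (K b i * K b j) * ((if k = l then 1 else 0) + s.Sb k l + s.Rb k l) +
      (K o i * K o j) * (s.So k l + s.Ro k l) := by
  unfold DD
  rw [Phi_apply]
  have e : ∀ ψ, (K ψ i * K ψ j) * Dp s b o ψ k l =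
      (if ψ = b then (K ψ i * K ψ j) * ((if k = l then 1 else 0) + s.Sb k l + s.Rb k l) else 0) +
      (if ψ = o then (K ψ i * K ψ j) * (s.So k l + s.Ro k l) else 0) := by
    intro ψ
    unfold Dp
    rw [Matrix.add_apply, mul_add]
    congr 1
    · by_cases h : ψ = b
      · rw [if_pos h, if_pos h, Matrix.add_apply, Matrix.add_apply, Matrix.one_apply]
      · rw [if_neg h, if_neg h, Matrix.zero_apply, mul_zero]
    · by_cases h : ψ = o
      · rw [if_pos h, if_pos h, Matrix.add_apply]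
      · rw [if_neg h, if_neg h, Matrix.zero_apply, mul_zero]
  rw [Finset.sum_congr rfl fun ψ _ => e ψ, Finset.sum_add_distrib, Finset.sum_ite_eq', Finset.sum_ite_eq',
    if_pos (mem_univ _), if_pos (mem_univ _)]

theorem K_self (hK : IsK y K) (ψ i : Fin y) : K ψ i * K ψ i = 1 := by
  rcases hK.sg ψ i with h | h <;> rw [h] <;> norm_num

theorem Xm_sg {v : ℕ} {S : Fin v → Fin v → ℤ} (hS : IsCore S) (hK : IsK y K)
    (s : Sys2 y X wb wo eb eo A B) (b o : Fin y) : ∀ p p', Sg (Xm S K s b o p p') := by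
  rintro ⟨x, i, k⟩ ⟨x', j, l⟩
  unfold Xm
  simp only [Matrix.add_apply, kroneckerMap_apply, Qc, Jv, Matrix.of_apply, one_mul]
  rw [UU_apply, VV_apply, DD_apply s b o]
  have hsg : ∀ ψ, Sg (K ψ i * K ψ j) := fun ψ => (hK.sg _ _).mul (hK.sg _ _)
  -- the diagonal part is a sign whenever it is `c` off the diagonal and `- c` on it
  have key : ∀ c : ℤ, Sg c → ∀ ψ, Sg ((1 : Matrix (Fin v) (Fin v) ℤ) x x' *
      (0 - 2 * ((if i = j then 1 else 0) * c)) + (K ψ i * K ψ j) * c) := by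
    intro c hc ψ
    by_cases hx : x = x'
    · rw [hx, one_apply_eq, one_mul]
      by_cases hij : i = j
      · subst hij
        rw [if_pos rfl, K_self hK]
        have : 0 - 2 * (1 * c) + 1 * c = -c := by ring
        rw [this]
        exact hc.neg
      · rw [if_neg hij]
        have : (0 : ℤ) - 2 * (0 * c) + K ψ i * K ψ j * c = K ψ i * K ψ j * c := by ring
        rw [this]
        exact (hsg ψ).mul hc
    · rw [one_apply_ne hx, zero_mul, zero_add]
      exact (hsg ψ).mul hc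
  by_cases hkl : k = l
  · subst hkl
    simp only [s.zU, s.zV, s.zSb, s.zSo, s.zRb, s.zRo, mul_zero, Finset.sum_const_zero, add_zero,
      if_true, zero_add]
    exact key 1 (Or.inl rfl) b
  · rw [if_neg hkl]
    rcases s.sup k l hkl with ⟨h1, h2, h3, h4, h5, h6⟩ | ⟨h1, h2, h3, h4, h5, h6⟩ |
      ⟨h1, h2, h3, h4, h5, h6⟩ | ⟨h1, h2, h3, h4, h5, h6⟩ | ⟨h1, h2, h3, h4, ⟨ψ, h5, h5'⟩, φ, h6, h6'⟩
    · simp only [h2, h3, h4, h5, h6, mul_zero, Finset.sum_const_zero, add_zero, zero_add]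
      exact key _ h1 b
    · simp only [h1, h3, h4, h5, h6, mul_zero, Finset.sum_const_zero, add_zero, zero_add]
      exact key _ h2 o
    · simp only [h1, h2, h4, h5, h6, mul_zero, Finset.sum_const_zero, add_zero, zero_add, sub_zero]
      exact (hsg b).mul h3
    · simp only [h1, h2, h3, h5, h6, mul_zero, Finset.sum_const_zero, add_zero, zero_add, sub_zero]
      exact (hsg o).mul h4
    · have e1 : ∑ ψ', (K ψ' i * K ψ' j) * s.U ψ' k l = (K ψ i * K ψ j) * s.U ψ k l := by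
        rw [Finset.sum_eq_single ψ]
        · intro χ _ hχ; rw [h5' χ hχ, mul_zero]
        · intro h; exact absurd (mem_univ _) h
      have e2 : ∑ ψ', (K ψ' i * K ψ' j) * s.V ψ' k l = (K φ i * K φ j) * s.V φ k l := by
        rw [Finset.sum_eq_single φ]
        · intro χ _ hχ; rw [h6' χ hχ, mul_zero]
        · intro h; exact absurd (mem_univ _) h
      rw [e1, e2]
      simp only [h1, h2, h3, h4, mul_zero, add_zero, sub_zero]
      by_cases hx : x = x'
      · subst hx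
        rw [hS.diag, zero_mul, zero_add, one_apply_eq, one_mul]
        exact (hsg φ).mul h6
      · rw [one_apply_ne hx, zero_mul, add_zero]
        exact (hS.sign x x' hx).mul ((hsg ψ).mul h5)

/-- the partial Hadamard matrix -/
theorem big2 {v : ℕ} {S : Fin v → Fin v → ℤ} (hS : IsCore S) (hK : IsK y K)
    (s : Sys2 y X wb wo eb eo A B) {b o : Fin y} (hbo : b ≠ o) {N : ℤ}
    (hN : ∀ ψ, v * A ψ + B ψ = N) (h : Fin y → ℕ)
    (hh : ∀ ψ, (h ψ : ℤ) = hd y A wb wo eb eo v b o ψ) {r n : ℕ}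
    (hn : (n : ℤ) = (y : ℤ) ^ 2 * N + 4 * (eb + eo)) (hr : r ≤ Fintype.card X)
    (hcol : v * (y * Fintype.card X) + ∑ ψ, h ψ = n) (hH : ∀ ψ, HasPH r (h ψ)) :
    HasPH (v * (y * r)) n := by
  classical
  choose H hH1 hH2 using hH
  let f : Fin r → X := fun k => (Fintype.equivFin X).symm (Fin.castLE hr k)
  have hf : Function.Injective f := fun a b hab => by
    have := (Fintype.equivFin X).symm.injective hab
    exact Fin.castLE_injective hr this
  let M : Matrix (Fin v × (Fin y × Fin r)) ((Fin v × (Fin y × X)) ⊕ (Σ ψ : Fin y, Fin (h ψ))) ℤ :=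
    Matrix.of fun p q => Sum.elim (fun c => Xm S K s b o (p.1, (p.2.1, f p.2.2)) c)
      (fun c => K c.1 p.2.1 * H c.1 p.2.2 c.2) q
  have hM1 : ∀ p q, M p q = 1 ∨ M p q = -1 := by
    rintro p (c | c)
    · exact Xm_sg hS hK s b o _ _
    · exact (hK.sg _ _).mul (hH1 _ _ _)
  have hM2 : M * Mᵀ = (n : ℤ) • (1 : Matrix (Fin v × (Fin y × Fin r)) _ ℤ) := by
    ext ⟨x, i, k⟩ ⟨x', j, l⟩
    have h1 := congrFun (congrFun (Xm_gram hS hK s hbo hN) (x, (i, f k))) (x', (j, f l))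
    rw [Matrix.mul_apply] at h1
    rw [Matrix.mul_apply, Fintype.sum_sum_type]
    simp only [transpose_apply, M, Matrix.of_apply, Sum.elim_inl, Sum.elim_inr] at h1 ⊢
    rw [h1, ← hn, Fintype.sum_sigma]
    have h2 : ∀ ψ, ∑ c, (K ψ i * H ψ k c) * (K ψ j * H ψ l c) =
        (K ψ i * K ψ j) * (if k = l then (h ψ : ℤ) else 0) := by
      intro ψ
      have h3 := congrFun (congrFun (hH2 ψ) k) l
      rw [Matrix.mul_apply, Matrix.smul_apply, Matrix.one_apply, smul_eq_mul] at h3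
      simp only [transpose_apply] at h3
      have e : ∀ c, (K ψ i * H ψ k c) * (K ψ j * H ψ l c) = (K ψ i * K ψ j) * (H ψ k c * H ψ l c) := by
        intro c; ring
      rw [Finset.sum_congr rfl fun c _ => e c, ← Finset.mul_sum, h3]
      congr 1
      by_cases hkl : k = l
      · rw [if_pos hkl, if_pos hkl, mul_one]
      · rw [if_neg hkl, if_neg hkl, mul_zero]
    rw [Finset.sum_congr rfl fun ψ _ => h2 ψ]
    rw [Matrix.sub_apply, kroneckerMap_apply, Phi_apply, Matrix.smul_apply, Matrix.smul_apply,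
      Matrix.one_apply, Matrix.one_apply]
    simp only [Jv, Matrix.of_apply, one_mul, smul_eq_mul, Matrix.smul_apply, Matrix.one_apply]
    have e3 : ∀ ψ, (K ψ i * K ψ j) * (hd y A wb wo eb eo v b o ψ * (if f k = f l then 1 else 0)) =
        (K ψ i * K ψ j) * (if k = l then (h ψ : ℤ) else 0) := by
      intro ψ
      rw [← hh]
      by_cases hkl : k = l
      · rw [if_pos hkl, if_pos (congrArg f hkl), mul_one]
      · rw [if_neg hkl, if_neg (fun h' => hkl (hf h')), mul_zero]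
    rw [Finset.sum_congr rfl fun ψ _ => e3 ψ, sub_add_cancel]
    congr 1
    by_cases he : (x, (i, k)) = (x', (j, l))
    · rw [if_pos he, if_pos]
      simp only [Prod.mk.injEq] at he ⊢
      exact ⟨he.1, he.2.1, by rw [he.2.2]⟩
    · rw [if_neg he, if_neg]
      intro h'
      apply he
      simp only [Prod.mk.injEq] at h' ⊢
      exact ⟨h'.1, h'.2.1, hf h'.2.2⟩
  have c1 : Fintype.card (Fin v × (Fin y × Fin r)) = v * (y * r) := by
    rw [Fintype.card_prod, Fintype.card_prod, Fintype.card_fin, Fintype.card_fin, Fintype.card_fin]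
  have c2 : Fintype.card ((Fin v × (Fin y × X)) ⊕ (Σ ψ : Fin y, Fin (h ψ))) = n := by
    rw [Fintype.card_sum, Fintype.card_prod, Fintype.card_prod, Fintype.card_fin, Fintype.card_fin,
      Fintype.card_sigma, ← hcol]
    simp only [Fintype.card_fin]
  let e1 := (Fintype.equivFinOfCardEq c1).symm
  let e2 := (Fintype.equivFinOfCardEq c2).symm
  refine ⟨M.submatrix e1 e2, fun i j => hM1 _ _, ?_⟩
  rw [Matrix.transpose_submatrix, Matrix.submatrix_mul_equiv, hM2]
  ext i j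
  rw [Matrix.submatrix_apply, Matrix.smul_apply, Matrix.smul_apply, Matrix.one_apply,
    Matrix.one_apply]
  by_cases hij : i = j
  · rw [if_pos hij, if_pos (congrArg e1 hij)]
  · rw [if_neg hij, if_neg (fun h => hij (e1.injective h))]

end Pool.Agent.H182.PH
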