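import Pool.Agent.H182.PHAlg

/-!
# Symmetric and skew matrices from gadgets and sequences
-/

set_option autoImplicit false
set_option linter.unusedSectionVars false

namespace Pool.Agent.H182.PH

open Matrix Finset
open scoped Kronecker
open Pool.Agent.Y342.SK (Rel Sg entry corr fS)
open Pool.Agent.N328.PH (Arms IsPair IsD Qm Wm QmT Qm_Qm Qm_QmT Wm_Wm WmT one_Wm circ_comm circ_commT
  gS gS_eq gS_corr)
open Pool.Agent.H108R3.Had (IsPU PU PUk)

variable {ι κ : Type} [Fintype ι] [DecidableEq ι] [Fintype κ] [DecidableEq κ] {c : ℤ}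

section kp

variable (G : Arms ι κ c) {q : ℕ} [NeZero q] (C C' : κ → Matrix (ZMod q) (ZMod q) ℤ)

/-- the symmetric part -/
def Kp : Matrix (ι × ZMod q) (ι × ZMod q) ℤ := Qm G C + (Qm G C)ᵀ

theorem KpT : (Kp G C)ᵀ = Kp G C := by
  unfold Kp
  rw [transpose_add, transpose_transpose, add_comm]

theorem Kp_Kp (hC : ∀ a b, C a * C' b = C' b * C a) (hC' : ∀ a b, C a * (C' b)ᵀ = (C' b)ᵀ * C a)
    (hC'' : ∀ a b, C' a * (C b)ᵀ = (C b)ᵀ * C' a) {s : ℤ}
    (hs : ∑ a, C a * (C' a)ᵀ = s • (1 : Matrix (ZMod q) (ZMod q) ℤ)) :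
    Kp G C * Kp G C' + Kp G C' * Kp G C =
      (2 * (c * s)) • (1 : Matrix (ι × ZMod q) (ι × ZMod q) ℤ) := by
  have hs' : ∑ a, C' a * (C a)ᵀ = s • (1 : Matrix (ZMod q) (ZMod q) ℤ) := by
    have h := congrArg Matrix.transpose hs
    rw [transpose_sum, transpose_smul, transpose_one] at h
    rw [← h]
    exact Finset.sum_congr rfl fun a _ => by rw [transpose_mul, transpose_transpose]
  have h1 := Qm_Qm G C C' hC
  have h2 := Qm_QmT G C C' hC' hs
  have h3 := Qm_QmT G C' C hC'' hs'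
  have h4 : (Qm G C)ᵀ * (Qm G C')ᵀ + (Qm G C')ᵀ * (Qm G C)ᵀ = 0 := by
    rw [← transpose_mul, ← transpose_mul, ← transpose_add, add_comm, h1, transpose_zero]
  have h5 : Kp G C * Kp G C' + Kp G C' * Kp G C = (Qm G C * Qm G C' + Qm G C' * Qm G C) +
      ((Qm G C)ᵀ * (Qm G C')ᵀ + (Qm G C')ᵀ * (Qm G C)ᵀ) +
      (Qm G C * (Qm G C')ᵀ + (Qm G C')ᵀ * Qm G C) + (Qm G C' * (Qm G C)ᵀ + (Qm G C)ᵀ * Qm G C') := by
    unfold Kp
    noncomm_ring
  rw [h5, h1, h4, h2, h3, add_zero, zero_add, ← add_smul]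
  congr 1
  ring

theorem Kp_Wm (hC : ∀ a b, C a * C' b = C' b * C a) (hC' : ∀ a b, C a * (C' b)ᵀ = (C' b)ᵀ * C a)
    (hC'' : ∀ a b, C' a * (C b)ᵀ = (C b)ᵀ * C' a) {s : ℤ}
    (hs : ∑ a, C a * (C' a)ᵀ = s • (1 : Matrix (ZMod q) (ZMod q) ℤ)) :
    Kp G C * Wm G C' + Wm G C' * Kp G C = 0 := by
  have hs' : ∑ a, C' a * (C a)ᵀ = s • (1 : Matrix (ZMod q) (ZMod q) ℤ) := by
    have h := congrArg Matrix.transpose hs
    rw [transpose_sum, transpose_smul, transpose_one] at h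
    rw [← h]
    exact Finset.sum_congr rfl fun a _ => by rw [transpose_mul, transpose_transpose]
  have h1 := Qm_Qm G C C' hC
  have h2 := Qm_QmT G C C' hC' hs
  have h3 := Qm_QmT G C' C hC'' hs'
  have h4 : (Qm G C)ᵀ * (Qm G C')ᵀ + (Qm G C')ᵀ * (Qm G C)ᵀ = 0 := by
    rw [← transpose_mul, ← transpose_mul, ← transpose_add, add_comm, h1, transpose_zero]
  have h5 : Kp G C * Wm G C' + Wm G C' * Kp G C = (Qm G C * Qm G C' + Qm G C' * Qm G C) -
      ((Qm G C)ᵀ * (Qm G C')ᵀ + (Qm G C')ᵀ * (Qm G C)ᵀ) -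
      (Qm G C * (Qm G C')ᵀ + (Qm G C')ᵀ * Qm G C) + (Qm G C' * (Qm G C)ᵀ + (Qm G C)ᵀ * Qm G C') := by
    unfold Kp Wm
    noncomm_ring
  rw [h5, h1, h4, h2, h3]
  abel

theorem one_Kp {X : Matrix ι ι ℤ} (hX : ∀ a, Rel (-1) X (G.A a)) (hT : Xᵀ = -X) :
    (X ⊗ₖ (1 : Matrix (ZMod q) (ZMod q) ℤ)) * Kp G C +
      Kp G C * (X ⊗ₖ (1 : Matrix (ZMod q) (ZMod q) ℤ)) = 0 := by
  have h4 : (X ⊗ₖ (1 : Matrix (ZMod q) (ZMod q) ℤ)) * Qm G C +
      Qm G C * (X ⊗ₖ (1 : Matrix (ZMod q) (ZMod q) ℤ)) = 0 := by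
    unfold Qm
    rw [Finset.mul_sum, Finset.sum_mul, ← Finset.sum_add_distrib]
    refine Finset.sum_eq_zero fun a _ => ?_
    have h := hX a
    unfold Pool.Agent.Y342.SK.Rel at h
    rw [← mul_kronecker_mul, ← mul_kronecker_mul, h, one_mul, mul_one, smul_kronecker, neg_one_smul,
      neg_add_cancel]
  have h5 : (X ⊗ₖ (1 : Matrix (ZMod q) (ZMod q) ℤ)) * (Qm G C)ᵀ +
      (Qm G C)ᵀ * (X ⊗ₖ (1 : Matrix (ZMod q) (ZMod q) ℤ)) = 0 := by
    have h := congrArg Matrix.transpose h4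
    have e : (X ⊗ₖ (1 : Matrix (ZMod q) (ZMod q) ℤ))ᵀ = -(X ⊗ₖ (1 : Matrix (ZMod q) (ZMod q) ℤ)) := by
      rw [← kroneckerMap_transpose, transpose_one, hT]
      ext i j; simp [kroneckerMap_apply]
    rw [transpose_add, transpose_mul, transpose_mul, e, mul_neg, neg_mul, transpose_zero] at h
    rw [← neg_eq_zero, ← h]
    abel
  unfold Kp
  rw [mul_add, add_mul]
  have e : ∀ a b c d : Matrix (ι × ZMod q) (ι × ZMod q) ℤ, a + b + (c + d) = (a + c) + (b + d) := by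
    intro a b c d; abel
  rw [e, h4, h5, add_zero]

end kp

/-- the Walsh functions -/
def w4 (i b : Fin 4) : ℤ :=
  if i = 0 then 1 else if i = 1 then (if b = 0 ∨ b = 1 then 1 else -1) else
    if i = 2 then (if b = 0 ∨ b = 2 then 1 else -1) else (if b = 0 ∨ b = 3 then 1 else -1)

theorem w4_sg : ∀ i b, Sg (w4 i b) := by unfold Pool.Agent.Y342.SK.Sg; decide

theorem w4_orth : ∀ i j : Fin 4, ∑ b, w4 i b * w4 j b = if i = j then 4 else 0 := by decide

/-- a type: the class and the intervals -/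
structure Ty where
  /-- the class -/
  cl : Fin 4
  /-- the offsets -/
  o : Fin 2 → ℕ
  /-- the lengths -/
  l : Fin 2 → ℕ

/-- `s` belongs to the interval -/
def Ty.In (t : Ty) (u : Fin 2) (s : ℕ) : Prop := t.o u ≤ s ∧ s < t.o u + t.l u

section fam

variable {k S q : ℕ} [NeZero q] (W : ℕ → ℕ → Fin (2 ^ k) → ℤ) (e : κ ≃ Fin 2 × Fin 4 × Fin (2 ^ k))

/-- the functions of a type -/
def FT (q : ℕ) (W : ℕ → ℕ → Fin (2 ^ k) → ℤ) (e : κ ≃ Fin 2 × Fin 4 × Fin (2 ^ k)) (t : Ty) (a : κ)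
    (d : ZMod q) : ℤ :=
  w4 t.cl (e a).2.1 * gS q (t.l (e a).1) (t.o (e a).1) (fun n => W (t.l (e a).1) n (e a).2.2) d

/-- the hypotheses on the sequences -/
structure IsW (W : ℕ → ℕ → Fin (2 ^ k) → ℤ) (S q : ℕ) [NeZero q] : Prop where
  hq : q = 2 * S + 1
  sg : ∀ l ≤ S, ∀ n < l, ∀ a, Sg (W l n a)
  au : ∀ l ≤ S, ∀ d : ZMod q, ∑ j, ∑ n ∈ range l, ∑ m ∈ range l, (W l n j * W l m j) *
      (if (n : ZMod q) - m = d then 1 else 0) = if d = 0 then ((2 ^ k * l : ℕ) : ℤ) else 0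

variable {W e}

theorem FT_auto (hW : IsW W S q) {t : Ty} (ht : ∀ u, t.o u + t.l u ≤ S) :
    ∑ a, circulant (FT q W e t a) * (circulant (FT q W e t a))ᵀ =
      ((4 * 2 ^ k * (t.l 0 + t.l 1) : ℕ) : ℤ) • (1 : Matrix (ZMod q) (ZMod q) ℤ) := by
  ext i j
  rw [Matrix.sum_apply]
  obtain ⟨g, hg⟩ : ∃ g : Fin 2 × Fin 4 × Fin (2 ^ k) → ℤ, g = fun a =>
      ∑ n ∈ range (t.l a.1), ∑ m ∈ range (t.l a.1),
        (W (t.l a.1) n a.2.2 * W (t.l a.1) m a.2.2) *
        (if (n : ZMod q) - m = i - j then 1 else 0) := ⟨_, rfl⟩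
  have h1 : ∀ a : κ, (circulant (FT q W e t a) * (circulant (FT q W e t a))ᵀ) i j = g (e a) := by
    intro a
    rw [hg]
    obtain ⟨⟨u, b, a'⟩, ha⟩ : ∃ p, p = e a := ⟨_, rfl⟩
    simp only [← ha]
    rw [Matrix.mul_apply, ← gS_corr (o := t.o u) (fun n => W (t.l u) n a') i j]
    refine Finset.sum_congr rfl fun β _ => ?_
    simp only [circulant_apply, transpose_apply, FT, ← ha]
    have : w4 t.cl b * w4 t.cl b = 1 := by
      rcases w4_sg t.cl b with h | h <;> rw [h] <;> norm_num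
    rw [mul_mul_mul_comm, this, one_mul]
  rw [Finset.sum_congr rfl fun a _ => h1 a, Equiv.sum_comp e g, Fintype.sum_prod_type, hg]
  have h2 : ∀ u : Fin 2, ∑ p : Fin 4 × Fin (2 ^ k), (∑ n ∈ range (t.l u), ∑ m ∈ range (t.l u),
      (W (t.l u) n p.2 * W (t.l u) m p.2) * (if (n : ZMod q) - m = i - j then 1 else 0)) =
      4 * (if i - j = 0 then ((2 ^ k * t.l u : ℕ) : ℤ) else 0) := by
    intro u
    rw [Fintype.sum_prod_type]
    simp only []
    rw [hW.au (t.l u) (le_trans (Nat.le_add_left _ _) (ht u)) (i - j), Finset.sum_const,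
      Finset.card_univ, Fintype.card_fin, nsmul_eq_mul]
    norm_num
  rw [Finset.sum_congr rfl fun u _ => h2 u, Fin.sum_univ_two, Matrix.smul_apply, Matrix.one_apply,
    smul_eq_mul]
  by_cases hij : i = j
  · rw [if_pos hij, if_pos (sub_eq_zero.2 hij), if_pos (sub_eq_zero.2 hij)]
    push_cast
    ring
  · rw [if_neg hij, if_neg (fun h => hij (sub_eq_zero.1 h)), if_neg (fun h => hij (sub_eq_zero.1 h))]
    ring

theorem FT_cross {t t' : Ty} (h : t.cl ≠ t'.cl) :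
    ∑ a, circulant (FT q W e t a) * (circulant (FT q W e t' a))ᵀ =
      (0 : ℤ) • (1 : Matrix (ZMod q) (ZMod q) ℤ) := by
  ext i j
  rw [Matrix.sum_apply, zero_smul, Matrix.zero_apply]
  obtain ⟨g, hg⟩ : ∃ g : Fin 2 × Fin 4 × Fin (2 ^ k) → ℤ, g = fun a =>
      w4 t.cl a.2.1 * w4 t'.cl a.2.1 *
        ∑ β, gS q (t.l a.1) (t.o a.1) (fun n => W (t.l a.1) n a.2.2) (i - β) *
          gS q (t'.l a.1) (t'.o a.1) (fun n => W (t'.l a.1) n a.2.2) (j - β) := ⟨_, rfl⟩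
  have h1 : ∀ a : κ, (circulant (FT q W e t a) * (circulant (FT q W e t' a))ᵀ) i j = g (e a) := by
    intro a
    rw [hg]
    simp only []
    rw [Matrix.mul_apply, Finset.mul_sum]
    refine Finset.sum_congr rfl fun β _ => ?_
    simp only [circulant_apply, transpose_apply, FT]
    ring
  rw [Finset.sum_congr rfl fun a _ => h1 a, Equiv.sum_comp e g, Fintype.sum_prod_type, hg]
  refine Finset.sum_eq_zero fun u _ => ?_
  rw [Fintype.sum_prod_type_right]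
  refine Finset.sum_eq_zero fun a _ => ?_
  simp only []
  rw [← Finset.sum_mul, w4_orth, if_neg h, zero_mul]

theorem FT_zero (hW : IsW W S q) {t : Ty} (ht : ∀ u, t.o u + t.l u ≤ S) (a : κ) (d : ZMod q)
    (hd : d.val = 0 ∨ S < d.val) : FT q W e t a d = 0 := by
  unfold FT
  have := ht (e a).1
  rw [gS_eq hW.hq this, if_neg (by omega), mul_zero]

theorem FT_in (hW : IsW W S q) {t : Ty} (ht : ∀ u, t.o u + t.l u ≤ S) (a : κ) (d : ZMod q)
    (hd : 1 ≤ d.val) : (t.In (e a).1 (d.val - 1) → Sg (FT q W e t a d)) ∧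
      (¬t.In (e a).1 (d.val - 1) → FT q W e t a d = 0) := by
  unfold FT Ty.In
  have := ht (e a).1
  rw [gS_eq hW.hq this]
  constructor
  · intro h
    rw [if_pos (by omega)]
    exact (w4_sg _ _).mul (hW.sg _ (by omega) _ (by omega) _)
  · intro h
    rw [if_neg (by omega), mul_zero]

variable (G : Arms ι κ c)

/-- the skew matrix of a type -/
def Mn (W : ℕ → ℕ → Fin (2 ^ k) → ℤ) (e : κ ≃ Fin 2 × Fin 4 × Fin (2 ^ k)) (q : ℕ) [NeZero q] (t : Ty) :
    Matrix (ι × ZMod q) (ι × ZMod q) ℤ := Wm G fun a => circulant (FT q W e t a)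

/-- the symmetric matrix of a type -/
def Mp (W : ℕ → ℕ → Fin (2 ^ k) → ℤ) (e : κ ≃ Fin 2 × Fin 4 × Fin (2 ^ k)) (q : ℕ) [NeZero q] (t : Ty) :
    Matrix (ι × ZMod q) (ι × ZMod q) ℤ := Kp G fun a => circulant (FT q W e t a)

theorem Mn_Mn {t t' : Ty} (h : t.cl ≠ t'.cl) : Mn G W e q t * Mn G W e q t' +
    Mn G W e q t' * Mn G W e q t = 0 := by
  have := Wm_Wm G (fun a => circulant (FT q W e t a)) (fun a => circulant (FT q W e t' a))
    (fun _ _ => circ_comm _ _) (fun _ _ => circ_commT _ _) (fun _ _ => circ_commT _ _) (FT_cross h)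
  rw [mul_zero, mul_zero, neg_zero, zero_smul] at this
  exact this

theorem Mp_Mn {t t' : Ty} (h : t.cl ≠ t'.cl) : Mp G W e q t * Mn G W e q t' +
    Mn G W e q t' * Mp G W e q t = 0 :=
  Kp_Wm G (fun a => circulant (FT q W e t a)) (fun a => circulant (FT q W e t' a))
    (fun _ _ => circ_comm _ _) (fun _ _ => circ_commT _ _) (fun _ _ => circ_commT _ _) (FT_cross h)

theorem half {Z : Type} [Fintype Z] [DecidableEq Z] {M : Matrix Z Z ℤ} {s : ℤ}
    (h : M * M + M * M = (2 * s) • (1 : Matrix Z Z ℤ)) : M * M = s • (1 : Matrix Z Z ℤ) := by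
  ext i j
  have h1 := congrFun (congrFun h i) j
  rw [Matrix.add_apply, Matrix.smul_apply, smul_eq_mul] at h1
  rw [Matrix.smul_apply, smul_eq_mul]
  linarith

theorem Mn_sq (hW : IsW W S q) {t : Ty} (ht : ∀ u, t.o u + t.l u ≤ S) : Mn G W e q t * Mn G W e q t =
    (-(c * ((4 * 2 ^ k * (t.l 0 + t.l 1) : ℕ) : ℤ))) • (1 : Matrix (ι × ZMod q) _ ℤ) := by
  have := Wm_Wm G (fun a => circulant (FT q W e t a)) (fun a => circulant (FT q W e t a))
    (fun _ _ => circ_comm _ _) (fun _ _ => circ_commT _ _) (fun _ _ => circ_commT _ _) (FT_auto hW ht)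
  rw [show -(2 * (c * ((4 * 2 ^ k * (t.l 0 + t.l 1) : ℕ) : ℤ))) =
    2 * (-(c * ((4 * 2 ^ k * (t.l 0 + t.l 1) : ℕ) : ℤ))) by ring] at this
  exact half this

theorem Mp_sq (hW : IsW W S q) {t : Ty} (ht : ∀ u, t.o u + t.l u ≤ S) : Mp G W e q t * Mp G W e q t =
    (c * ((4 * 2 ^ k * (t.l 0 + t.l 1) : ℕ) : ℤ)) • (1 : Matrix (ι × ZMod q) _ ℤ) :=
  half (Kp_Kp G (fun a => circulant (FT q W e t a)) (fun a => circulant (FT q W e t a))
    (fun _ _ => circ_comm _ _) (fun _ _ => circ_commT _ _) (fun _ _ => circ_commT _ _) (FT_auto hW ht))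

theorem Mn_apply (t : Ty) (x y : ι) (i j : ZMod q) : Mn G W e q t (x, i) (y, j) =
    (∑ a, G.A a x y * FT q W e t a (i - j)) - ∑ a, G.A a y x * FT q W e t a (j - i) := by
  simp only [Mn, Wm, Qm, Matrix.sub_apply, transpose_apply, Matrix.sum_apply, kroneckerMap_apply]
  rfl

theorem Mp_apply (t : Ty) (x y : ι) (i j : ZMod q) : Mp G W e q t (x, i) (y, j) =
    (∑ a, G.A a x y * FT q W e t a (i - j)) + ∑ a, G.A a y x * FT q W e t a (j - i) := by
  simp only [Mp, Kp, Qm, Matrix.add_apply, transpose_apply, Matrix.sum_apply, kroneckerMap_apply]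
  rfl

theorem M_diag (hW : IsW W S q) {t : Ty} (ht : ∀ u, t.o u + t.l u ≤ S) (x y : ι) (i : ZMod q) :
    Mn G W e q t (x, i) (y, i) = 0 ∧ Mp G W e q t (x, i) (y, i) = 0 := by
  rw [Mn_apply, Mp_apply, sub_self]
  have h0 : ∀ a, FT q W e t a 0 = 0 := fun a => FT_zero hW ht a 0 (Or.inl ZMod.val_zero)
  simp [h0]

theorem M_off (hW : IsW W S q) (x y : ι) {i j : ZMod q} (hij : i ≠ j) :
    ∃ (u : Fin 2) (s : ℕ), s < S ∧ ∀ t : Ty, (∀ u, t.o u + t.l u ≤ S) →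
      (t.In u s → Sg (Mn G W e q t (x, i) (y, j)) ∧ Sg (Mp G W e q t (x, i) (y, j))) ∧
      (¬t.In u s → Mn G W e q t (x, i) (y, j) = 0 ∧ Mp G W e q t (x, i) (y, j) = 0) := by
  have hq := hW.hq
  have hd : (i - j).val ≠ 0 := by
    rw [Ne, ZMod.val_eq_zero, sub_eq_zero]
    exact hij
  have hlt := ZMod.val_lt (i - j)
  have hneg : (j - i).val = q - (i - j).val := by
    have : j - i = -(i - j) := by ring
    rw [this, ZMod.neg_val, if_neg (sub_ne_zero.2 hij)]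
  by_cases hle : (i - j).val ≤ S
  · obtain ⟨a, ha, hb⟩ := G.sup x y
    refine ⟨(e a).1, (i - j).val - 1, by omega, fun t ht => ?_⟩
    have h1 : ∀ a, FT q W e t a (j - i) = 0 := fun a => FT_zero hW ht a _ (Or.inr (by omega))
    have h2 : ∑ b, G.A b x y * FT q W e t b (i - j) = G.A a x y * FT q W e t a (i - j) := by
      rw [Finset.sum_eq_single a]
      · intro b _ hba
        rw [hb b hba, zero_mul]
      · intro h; exact absurd (mem_univ _) h
    rw [Mn_apply, Mp_apply, h2]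
    simp only [h1, mul_zero, Finset.sum_const_zero, sub_zero, add_zero]
    obtain ⟨h3, h4⟩ := FT_in hW ht (e := e) a (i - j) (by omega)
    exact ⟨fun h => ⟨ha.mul (h3 h), ha.mul (h3 h)⟩, fun h => by rw [h4 h, mul_zero]; exact ⟨rfl, rfl⟩⟩
  · obtain ⟨a, ha, hb⟩ := G.sup y x
    refine ⟨(e a).1, (j - i).val - 1, by omega, fun t ht => ?_⟩
    have h1 : ∀ a, FT q W e t a (i - j) = 0 := fun a => FT_zero hW ht a _ (Or.inr (by omega))
    have h2 : ∑ b, G.A b y x * FT q W e t b (j - i) = G.A a y x * FT q W e t a (j - i) := by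
      rw [Finset.sum_eq_single a]
      · intro b _ hba
        rw [hb b hba, zero_mul]
      · intro h; exact absurd (mem_univ _) h
    rw [Mn_apply, Mp_apply, h2]
    simp only [h1, mul_zero, Finset.sum_const_zero, zero_sub, zero_add]
    obtain ⟨h3, h4⟩ := FT_in hW ht (e := e) a (j - i) (by omega)
    exact ⟨fun h => ⟨(ha.mul (h3 h)).neg, ha.mul (h3 h)⟩,
      fun h => by rw [h4 h, mul_zero, neg_zero]; exact ⟨rfl, rfl⟩⟩

/-- sequences from para-unitary matrices -/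
theorem exists_W {k S q : ℕ} [NeZero q] (hq : q = 2 * S + 1) (hPU : ∀ l ≤ S, PUk k l) :
    ∃ W : ℕ → ℕ → Fin (2 ^ k) → ℤ, IsW W S q := by
  have hex : ∀ l : ℕ, ∃ W : ℕ → Fin (2 ^ k) → ℤ, l ≤ S → (∀ n < l, ∀ a, Sg (W n a)) ∧
      ∀ d : ZMod q, ∑ j, ∑ n ∈ range l, ∑ m ∈ range l, (W n j * W m j) *
      (if (n : ZMod q) - m = d then 1 else 0) = if d = 0 then ((2 ^ k * l : ℕ) : ℤ) else 0 := by
    intro l
    by_cases hl : l ≤ S
    · obtain ⟨W, hW⟩ := hPU l hl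
      refine ⟨fun n a => W n ⟨0, by positivity⟩ a, fun _ => ⟨fun n hn a => hW.sign n hn _ _, fun d => ?_⟩⟩
      have := entry (q := q) hW ⟨0, by positivity⟩ d
      rw [Fintype.card_fin] at this
      exact this
    · exact ⟨fun _ _ => 0, fun h => absurd h hl⟩
  choose W hW using hex
  exact ⟨W, hq, fun l hl => (hW l hl).1, fun l hl => (hW l hl).2⟩

end fam

end Pool.Agent.H182.PH
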