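import Pool.Agent.H182.PHSys

/-!
# Layouts
-/

set_option autoImplicit false

namespace Pool.Agent.H182.PH

open Finset

/-- partial sums -/
def Pp {y : ℕ} (f : Fin y → ℕ) (i : ℕ) : ℕ := ∑ φ ∈ univ.filter (fun φ : Fin y => φ.val < i), f φ

theorem Pp_zero {y : ℕ} (f : Fin y → ℕ) : Pp f 0 = 0 := by
  unfold Pp
  rw [Finset.filter_false_of_mem (fun φ _ => Nat.not_lt_zero _), Finset.sum_empty]

theorem Pp_succ {y : ℕ} (f : Fin y → ℕ) (ψ : Fin y) : Pp f (ψ.val + 1) = Pp f ψ.val + f ψ := by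
  unfold Pp
  have : univ.filter (fun φ : Fin y => φ.val < ψ.val + 1) =
      insert ψ (univ.filter (fun φ : Fin y => φ.val < ψ.val)) := by
    ext φ
    simp only [mem_filter, mem_univ, true_and, mem_insert]
    constructor
    · intro h
      by_cases h' : φ = ψ
      · exact Or.inl h'
      · right
        have : φ.val ≠ ψ.val := fun h'' => h' (Fin.ext h'')
        omega
    · rintro (h | h)
      · rw [h]; omega
      · omega
  rw [this, Finset.sum_insert (by simp), add_comm]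

theorem Pp_top {y : ℕ} (f : Fin y → ℕ) : Pp f y = ∑ φ, f φ := by
  unfold Pp
  rw [Finset.filter_true_of_mem (fun φ _ => φ.isLt)]

theorem Pp_mono {y : ℕ} (f : Fin y → ℕ) {i j : ℕ} (h : i ≤ j) : Pp f i ≤ Pp f j := by
  unfold Pp
  refine Finset.sum_le_sum_of_subset_of_nonneg ?_ fun _ _ _ => Nat.zero_le _
  intro φ hφ
  simp only [mem_filter, mem_univ, true_and] at hφ ⊢
  omega

theorem Pp_le {y : ℕ} (f : Fin y → ℕ) (ψ : Fin y) : Pp f ψ.val + f ψ ≤ ∑ φ, f φ := by
  rw [← Pp_succ, ← Pp_top]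
  exact Pp_mono f ψ.isLt

theorem Pp_cover {y : ℕ} (f : Fin y → ℕ) {s : ℕ} (hs : s < ∑ φ, f φ) :
    ∃ ψ : Fin y, (Pp f ψ.val ≤ s ∧ s < Pp f ψ.val + f ψ) ∧
      ∀ φ, φ ≠ ψ → ¬(Pp f φ.val ≤ s ∧ s < Pp f φ.val + f φ) := by
  have hex : ∃ i, s < Pp f i := ⟨y, by rw [Pp_top]; exact hs⟩
  obtain ⟨i, hi, hmin⟩ : ∃ i, s < Pp f i ∧ ∀ j < i, ¬ s < Pp f j :=
    ⟨Nat.find hex, Nat.find_spec hex, fun j h => Nat.find_min hex h⟩
  have hi0 : i ≠ 0 := by
    intro h
    rw [h, Pp_zero] at hi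
    exact absurd hi (Nat.not_lt_zero _)
  have hiy : i ≤ y := by
    by_contra h
    exact hmin y (by omega) (by rw [Pp_top]; exact hs)
  obtain ⟨ψ, hψ⟩ : ∃ ψ : Fin y, ψ.val + 1 = i := ⟨⟨i - 1, by omega⟩, by simp only []; omega⟩
  have h1 : Pp f ψ.val ≤ s := not_lt.1 (hmin ψ.val (by omega))
  have h2 : s < Pp f ψ.val + f ψ := by rw [← Pp_succ, hψ]; exact hi
  refine ⟨ψ, ⟨h1, h2⟩, fun φ hφ h => ?_⟩
  rcases lt_trichotomy φ.val ψ.val with h3 | h3 | h3
  · have h4 := Pp_mono f (show φ.val + 1 ≤ ψ.val from h3)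
    rw [Pp_succ] at h4
    omega
  · exact hφ (Fin.ext h3)
  · have h4 := Pp_mono f (show ψ.val + 1 ≤ φ.val from h3)
    rw [Pp_succ] at h4
    omega

theorem exists_split {y : ℕ} (f : Fin y → ℕ) (L : ℕ) (hL : L ≤ ∑ ψ, f ψ) :
    ∃ g : Fin y → ℕ, (∀ ψ, g ψ ≤ f ψ) ∧ ∑ ψ, g ψ = L := by
  induction L with
  | zero => exact ⟨fun _ => 0, fun _ => Nat.zero_le _, by simp⟩
  | succ L ih =>
    obtain ⟨g, hg, hgs⟩ := ih (by omega)
    obtain ⟨ψ, hψ⟩ : ∃ ψ, g ψ < f ψ := by
      by_contra h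
      push Not at h
      have := Finset.sum_le_sum fun ψ (_ : ψ ∈ univ) => h ψ
      omega
    refine ⟨Function.update g ψ (g ψ + 1), fun φ => ?_, ?_⟩
    · by_cases h : φ = ψ
      · subst h
        rw [Function.update_self]
        exact hψ
      · rw [Function.update_of_ne h]
        exact hg φ
    · rw [Finset.sum_update_of_mem (mem_univ _)]
      have : ∑ ψ, g ψ = g ψ + ∑ x ∈ univ \ {ψ}, g x := by
        rw [← Finset.erase_eq, Finset.add_sum_erase univ g (mem_univ ψ)]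
      omega

/-- the layout -/
theorem exists_lay {y S εb εo ω γ : ℕ} {α β : Fin y → ℕ} (hα : ∑ ψ, α ψ = γ) (hβ : ∑ ψ, β ψ = γ)
    (hS : γ + ω + εo + εb = 2 * S) (hle : εb + εo + ω ≤ γ) :
    ∃ L : Lay y S, L.tb.m = εb ∧ L.tp.m = εo ∧ L.tr.m = ω ∧ (∀ ψ, (L.tU ψ).m = α ψ) ∧
      ∀ ψ, (L.tV ψ).m = β ψ := by
  obtain ⟨M, hM⟩ : ∃ M, M = εb + εo + ω := ⟨_, rfl⟩
  have hMS : M ≤ S := by omega
  obtain ⟨g, hg, hgs⟩ := exists_split α (S - M) (by omega)
  obtain ⟨g', hg', hgs'⟩ := exists_split β (S - M) (by omega)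
  let lU : Fin 2 → Fin y → ℕ := fun u ψ => if u = 0 then g ψ else α ψ - g ψ
  let lV : Fin 2 → Fin y → ℕ := fun u ψ => if u = 0 then g' ψ else β ψ - g' ψ
  let m : Fin 2 → ℕ := fun u => if u = 0 then M else 0
  have hsU : ∀ u, m u + ∑ ψ, lU u ψ = S := by
    intro u
    by_cases hu : u = 0
    · simp only [m, lU, if_pos hu]; omega
    · simp only [m, lU, if_neg hu]
      have : ∑ ψ, (α ψ - g ψ) = ∑ ψ, α ψ - ∑ ψ, g ψ := by
        rw [eq_tsub_iff_add_eq_of_le (Finset.sum_le_sum fun ψ _ => hg ψ), ← Finset.sum_add_distrib]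
        exact Finset.sum_congr rfl fun ψ _ => Nat.sub_add_cancel (hg ψ)
      rw [this]
      omega
  have hsV : ∀ u, m u + ∑ ψ, lV u ψ = S := by
    intro u
    by_cases hu : u = 0
    · simp only [m, lV, if_pos hu]; omega
    · simp only [m, lV, if_neg hu]
      have : ∑ ψ, (β ψ - g' ψ) = ∑ ψ, β ψ - ∑ ψ, g' ψ := by
        rw [eq_tsub_iff_add_eq_of_le (Finset.sum_le_sum fun ψ _ => hg' ψ), ← Finset.sum_add_distrib]
        exact Finset.sum_congr rfl fun ψ _ => Nat.sub_add_cancel (hg' ψ)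
      rw [this]
      omega
  have key : ∀ (lf : Fin 2 → Fin y → ℕ), (∀ u, m u + ∑ ψ, lf u ψ = S) → ∀ u s, s < S →
      (s < m u ∧ ∀ ψ, ¬(m u + Pp (lf u) ψ.val ≤ s ∧ s < m u + Pp (lf u) ψ.val + lf u ψ)) ∨
      (m u ≤ s ∧ ∃ ψ, (m u + Pp (lf u) ψ.val ≤ s ∧ s < m u + Pp (lf u) ψ.val + lf u ψ) ∧
        ∀ φ, φ ≠ ψ → ¬(m u + Pp (lf u) φ.val ≤ s ∧ s < m u + Pp (lf u) φ.val + lf u φ)) := by
    intro lf hlf u s hs
    by_cases h : s < m u
    · left
      exact ⟨h, fun ψ h' => by omega⟩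
    · right
      obtain ⟨t, ht⟩ : ∃ t, s = m u + t := ⟨s - m u, by omega⟩
      have := hlf u
      obtain ⟨ψ, h1, h2⟩ := Pp_cover (lf u) (s := t) (by omega)
      refine ⟨by omega, ψ, by omega, fun φ hφ h' => h2 φ hφ (by omega)⟩
  refine ⟨{
    tb := ⟨2, fun _ => 0, fun u => if u = 0 then εb else 0⟩
    tp := ⟨3, fun u => if u = 0 then εb else 0, fun u => if u = 0 then εo else 0⟩
    tr := ⟨0, fun u => if u = 0 then εb + εo else 0, fun u => if u = 0 then ω else 0⟩
    tU := fun ψ => ⟨0, fun u => m u + Pp (lU u) ψ.val, fun u => lU u ψ⟩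
    tV := fun ψ => ⟨1, fun u => m u + Pp (lV u) ψ.val, fun u => lV u ψ⟩
    cb := rfl
    cp := rfl
    cr := rfl
    cU := fun _ => rfl
    cV := fun _ => rfl
    hb := fun u => by
      by_cases hu : u = 0
      · simp only [if_pos hu]; omega
      · simp only [if_neg hu]; omega
    hp := fun u => by
      by_cases hu : u = 0
      · simp only [if_pos hu]; omega
      · simp only [if_neg hu]; omega
    hr := fun u => by
      by_cases hu : u = 0
      · simp only [if_pos hu]; omega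
      · simp only [if_neg hu]; omega
    hU := fun ψ u => by
      have h1 := Pp_le (lU u) ψ
      have h2 := hsU u
      simp only []
      omega
    hV := fun ψ u => by
      have h1 := Pp_le (lV u) ψ
      have h2 := hsV u
      simp only []
      omega
    cov := fun u s hs => ?_ }, ?_, ?_, ?_, ?_, ?_⟩
  · have hU := key lU hsU u s hs
    have hV := key lV hsV u s hs
    simp only [Ty.In]
    by_cases hu : u = 0
    · have hm : m u = M := by simp only [m, if_pos hu]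
      simp only [if_pos hu]
      rcases hU with ⟨h1, h2⟩ | ⟨h1, h2⟩
      · rcases hV with ⟨h3, h4⟩ | ⟨h3, h4⟩
        · by_cases c1 : s < εb
          · left
            exact ⟨by omega, by omega, by omega, h2, h4⟩
          · by_cases c2 : s < εb + εo
            · right; left
              exact ⟨by omega, by omega, by omega, h2, h4⟩
            · right; right; left
              exact ⟨by omega, by omega, by omega, h2, h4⟩
        · omega
      · rcases hV with ⟨h3, h4⟩ | ⟨h3, h4⟩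
        · omega
        · right; right; right
          exact ⟨by omega, by omega, by omega, h2, h4⟩
    · have hm : m u = 0 := by simp only [m, if_neg hu]
      simp only [if_neg hu]
      rcases hU with ⟨h1, h2⟩ | ⟨h1, h2⟩
      · omega
      · rcases hV with ⟨h3, h4⟩ | ⟨h3, h4⟩
        · omega
        · right; right; right
          exact ⟨by omega, by omega, by omega, h2, h4⟩
  · simp [Ty.m]
  · simp [Ty.m]
  · simp [Ty.m]
  · intro ψ
    have := hg ψ
    simp only [Ty.m, lU, if_true, Fin.isValue, one_ne_zero, if_false]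
    rw [Nat.add_sub_cancel' this]
  · intro ψ
    have := hg' ψ
    simp only [Ty.m, lV, if_true, Fin.isValue, one_ne_zero, if_false]
    rw [Nat.add_sub_cancel' this]

end Pool.Agent.H182.PH
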