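import Pool.Agent.H182.PHStep
import Pool.Graph.R_pool_sql_team_seeded_63374d34.N328.PH.Growth
import Pool.Graph.R_pool_sql_team_seeded_63374d34.N328.PH.Prime

/-!
# Partial Hadamard matrices with `n - n ^ (2 / 3) * log (log ... (log n))` rows
-/

set_option autoImplicit false

namespace Pool.Agent.H182.PH

open Pool.Agent.W851.Had (tow tow_succ tow_pos tow_zero)
open Pool.Agent.H108R3.Had (PUk)
open Pool.Agent.N328.PH (HasPH tow_ge tow_mono tow_big prime_ap log_pow_le)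

/-- iterated logarithms of towers -/
theorem log_iter_tow (m : ℕ) : ∀ (T : ℕ) (x : ℝ), 2 ≤ T → ((tow (T + m) : ℕ) : ℝ) / 2 ≤ x →
    ((tow T : ℕ) : ℝ) / 2 ≤ (Real.log^[m]) x := by
  induction m with
  | zero => intro T x _ h; exact h
  | succ m ih =>
    intro T x hT h
    rw [Function.iterate_succ_apply]
    refine ih T _ hT ?_
    have h4 : 4 ≤ tow (T + m) := by
      have e : tow 2 = 4 := by rw [tow_succ, tow_succ, tow_zero]; norm_num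
      rw [← e]
      exact tow_mono (by omega)
    have h4' : (4 : ℝ) ≤ (tow (T + m) : ℕ) := by exact_mod_cast h4
    have h1 : Real.log (((tow (T + (m + 1)) : ℕ) : ℝ) / 2) = ((tow (T + m) : ℕ) : ℝ) * Real.log 2 - Real.log 2 := by
      have h0 : ((tow (T + (m + 1)) : ℕ) : ℝ) ≠ 0 := by
        have := tow_pos (T + (m + 1))
        positivity
      rw [Real.log_div h0 (by norm_num), ← add_assoc, tow_succ, Nat.cast_pow, Real.log_pow]
      norm_num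
    have h2 : Real.log (((tow (T + (m + 1)) : ℕ) : ℝ) / 2) ≤ Real.log x := by
      apply Real.log_le_log _ h
      have := tow_pos (T + (m + 1))
      positivity
    have h7 := Real.log_two_gt_d9
    rw [h1] at h2
    nlinarith

/-- for large `n` there are para-unitary matrices of all lengths up to `n` of a size which is tiny
compared with any iterated logarithm of `n` -/
theorem growth2 (m : ℕ) : ∃ N0 : ℕ, ∀ n : ℕ, N0 ≤ n → ∃ k : ℕ, (∀ l ≤ n, PUk k l) ∧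
    ((2 ^ (2 ^ (k + 9)) : ℕ) : ℝ) ≤ Real.log n ∧
    ((2 ^ (2 ^ (k + 9)) : ℕ) : ℝ) ≤ (Real.log^[m]) n := by
  obtain ⟨C, -, hC⟩ := Pool.Agent.W851.Had.main_pu
  obtain ⟨M0, hM0⟩ := tow_big ((C + 1) ^ (m + 3))
  refine ⟨tow (M0 + 6 + m) + 1, fun n hn => ?_⟩
  -- the least `T` with `n ≤ tow T`
  have hex : ∃ T, n ≤ tow T := ⟨n, (Nat.le_succ n).trans (tow_ge n)⟩
  classical
  obtain ⟨T, hT, hmin⟩ : ∃ T, n ≤ tow T ∧ ∀ T' < T, ¬ n ≤ tow T' :=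
    ⟨Nat.find hex, Nat.find_spec hex, fun T' h => Nat.find_min hex h⟩
  have hTM : M0 + 6 + m < T := by
    by_contra h
    have := tow_mono (not_lt.1 h)
    omega
  obtain ⟨M, rfl⟩ : ∃ M, T = M + 6 + m := ⟨T - 6 - m, by omega⟩
  have h1 : tow (M + 5 + m) < n := not_le.1 (hmin (M + 5 + m) (by omega))
  have h2 := hM0 M (by omega)
  have h3 : C ^ (M + 6 + m + 1) + 5 ≤ tow M := by
    refine le_trans (Nat.add_le_add_right ?_ 5) h2
    calc C ^ (M + 6 + m + 1) ≤ (C + 1) ^ (M + 6 + m + 1) := Nat.pow_le_pow_left (Nat.le_succ C) _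
      _ ≤ (C + 1) ^ ((m + 3) * (M + 5)) := by
          apply Nat.pow_le_pow_right (Nat.succ_pos C)
          have : (m + 3) * (M + 5) = m * M + 3 * M + 5 * m + 15 := by ring
          have h0 := Nat.zero_le (m * M)
          omega
      _ = ((C + 1) ^ (m + 3)) ^ (M + 5) := by rw [pow_mul]
  obtain ⟨k, hk⟩ : ∃ k, k = C ^ (M + 6 + m + 1) := ⟨_, rfl⟩
  rw [← hk] at h3
  have h4 : 2 ^ (k + 9) ≤ tow (M + 2) := by
    have e1 : 2 ^ (k + 9) ≤ 16 * tow (M + 1) := by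
      rw [tow_succ]
      calc 2 ^ (k + 9) = 16 * 2 ^ (k + 5) := by rw [pow_add, pow_add]; ring
        _ ≤ 16 * 2 ^ tow M := Nat.mul_le_mul_left _ (Nat.pow_le_pow_right (by norm_num) h3)
    have e2 : 32 ≤ tow (M + 1) := by
      rw [tow_succ]
      calc 32 = 2 ^ 5 := by norm_num
        _ ≤ 2 ^ tow M := Nat.pow_le_pow_right (by norm_num) (by omega)
    have e3 : tow (M + 1) * tow (M + 1) ≤ 2 ^ tow (M + 1) :=
      Pool.Agent.N328.PH.sq_le_two_pow _ (by omega)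
    rw [tow_succ (M + 1)]
    calc 2 ^ (k + 9) ≤ 16 * tow (M + 1) := e1
      _ ≤ tow (M + 1) * tow (M + 1) := Nat.mul_le_mul_right _ (by omega)
      _ ≤ _ := e3
  have h5 : 2 ^ (2 ^ (k + 9)) * 2 ≤ tow (M + 4) := by
    have e1 : 2 ^ (2 ^ (k + 9)) ≤ tow (M + 3) := by
      rw [tow_succ]
      exact Nat.pow_le_pow_right (by norm_num) h4
    have e2 : tow (M + 3) * 2 ≤ 2 ^ tow (M + 3) := by
      obtain ⟨t, ht⟩ : ∃ t, tow (M + 3) = t + 1 := ⟨tow (M + 3) - 1, by have := tow_pos (M + 3); omega⟩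
      rw [ht, pow_succ]
      exact Nat.mul_le_mul_right _ Nat.lt_two_pow_self
    rw [tow_succ (M + 3)]
    exact le_trans (Nat.mul_le_mul_right _ e1) e2
  have h6 : ((2 ^ (2 ^ (k + 9)) : ℕ) : ℝ) ≤ ((tow (M + 4) : ℕ) : ℝ) / 2 := by
    rw [le_div_iff₀ (by norm_num)]
    exact_mod_cast h5
  refine ⟨k, fun l hl => ?_, ?_, ?_⟩
  · rw [hk]
    exact hC (M + 6 + m) l _ (hl.trans hT) le_rfl
  · refine h6.trans (log_iter_tow 1 (M + 4) n (by omega) ?_)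
    have e1 : tow (M + 4 + 1) ≤ tow (M + 5 + m) := tow_mono (by omega)
    have e2 : ((tow (M + 4 + 1) : ℕ) : ℝ) ≤ n := by exact_mod_cast e1.trans h1.le
    have e3 : (0 : ℝ) ≤ ((tow (M + 4 + 1) : ℕ) : ℝ) := Nat.cast_nonneg _
    linarith
  · refine h6.trans (log_iter_tow m (M + 4) n (by omega) ?_)
    have e1 : tow (M + 4 + m) ≤ tow (M + 5 + m) := tow_mono (by omega)
    have e2 : ((tow (M + 4 + m) : ℕ) : ℝ) ≤ n := by exact_mod_cast e1.trans h1.le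
    have e3 : (0 : ℝ) ≤ ((tow (M + 4 + m) : ℕ) : ℝ) := Nat.cast_nonneg _
    linarith

/-- the order of the core -/
theorem choose_q {n a J y J₂ P : ℕ} (hy : y = 4 * J₂) (hJ2 : 4 ≤ J₂) (hyJ : y ^ 2 ≤ J)
    (ha : n ≤ a ^ 3) (ha' : a ^ 3 ≤ 8 * n) (haJ : J ^ 12 ≤ a) (hP1 : J * a ^ 2 ≤ P)
    (hP2 : P ≤ 2 * (J * a ^ 2)) : ∃ S₂ q, q + 1 = J₂ * (2 * S₂ + 1) ∧ y ≤ q ∧
      y * (4 * q + y) * P ≤ 4 * n ∧ 4 * n ≤ y * (4 * q + 3 * y) * P ∧
      8 * J * y ^ 2 * (q + 1) ^ 2 ≤ P := by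
  have hy16 : 16 ≤ y := by omega
  have hyJ1 : y ≤ J := le_trans (by nlinarith) hyJ
  have hJ256 : 256 ≤ J := le_trans (by nlinarith) hyJ
  have ha1 : 1 ≤ a := le_trans (Nat.one_le_pow _ _ (by omega)) haJ
  have hX0 : 0 < J * a ^ 2 := Nat.mul_pos (by omega) (Nat.pow_pos ha1)
  have hP0 : 0 < P := by omega
  have hyP : 0 < y * P := Nat.mul_pos (by omega) hP0
  obtain ⟨T, hT⟩ : ∃ T, T = 4 * n / (y * P) := ⟨_, rfl⟩
  have hT1 : (y * P) * T ≤ 4 * n := by rw [hT]; exact Nat.mul_div_le _ _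
  have hT2 : 4 * n < (y * P) * (T + 1) := by rw [hT]; exact Nat.lt_mul_div_succ _ hyP
  have hTJ : J ^ 4 ≤ T := by
    by_contra hcon
    have h1 : T + 1 ≤ J ^ 4 := by omega
    have h2 : (y * P) * (T + 1) ≤ (J * (2 * (J * a ^ 2))) * J ^ 4 :=
      Nat.mul_le_mul (Nat.mul_le_mul hyJ1 hP2) h1
    have h3 : J ^ 12 * a ^ 2 ≤ 8 * n := by
      calc J ^ 12 * a ^ 2 ≤ a * a ^ 2 := Nat.mul_le_mul_right _ haJ
        _ = a ^ 3 := by ring
        _ ≤ 8 * n := ha'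
    have h4 : 4 * (J ^ 6 * a ^ 2) ≤ J ^ 12 * a ^ 2 := by
      calc 4 * (J ^ 6 * a ^ 2) = (4 * 1) * (J ^ 6 * a ^ 2) := by ring
        _ ≤ (J * J ^ 5) * (J ^ 6 * a ^ 2) :=
            Nat.mul_le_mul_right _ (Nat.mul_le_mul (by omega) (Nat.one_le_pow _ _ (by omega)))
        _ = J ^ 12 * a ^ 2 := by ring
    have h5 : (J * (2 * (J * a ^ 2))) * J ^ 4 = 2 * (J ^ 6 * a ^ 2) := by ring
    omega
  have hJ4 : 256 * J ≤ J ^ 4 := by
    calc 256 * J ≤ J * J := Nat.mul_le_mul_right _ hJ256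
      _ = 1 * (J * J) := by ring
      _ ≤ (J * J) * (J * J) := Nat.mul_le_mul_right _ (Nat.mul_pos (by omega) (by omega))
      _ = J ^ 4 := by ring
  obtain ⟨D, hD⟩ : ∃ D, D = (T + 4) / (2 * y) := ⟨_, rfl⟩
  have hD1 : (2 * y) * D ≤ T + 4 := by rw [hD]; exact Nat.mul_div_le _ _
  have hD2 : T + 4 < (2 * y) * (D + 1) := by rw [hD]; exact Nat.lt_mul_div_succ _ (by omega)
  have hD0 : 1 ≤ D := by
    by_contra hcon
    have : D = 0 := by omega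
    rw [this] at hD2
    omega
  obtain ⟨S, rfl⟩ : ∃ S, D = S + 1 := ⟨D - 1, by omega⟩
  have hq0 : 1 ≤ J₂ * (2 * S + 1) := Nat.mul_pos (by omega) (by omega)
  obtain ⟨q, hq⟩ : ∃ q, q + 1 = J₂ * (2 * S + 1) := ⟨J₂ * (2 * S + 1) - 1, by omega⟩
  have e1 : 4 * (q + 1) = y * (2 * S + 1) := by rw [hq, hy]; ring
  have e2 : (2 * y) * (S + 1) = y * (2 * S + 1) + y := by ring
  have e3 : (2 * y) * (S + 1 + 1) = y * (2 * S + 1) + 3 * y := by ring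
  have hq1 : 4 * q + y ≤ T := by omega
  have hq2 : T + 1 ≤ 4 * q + 3 * y := by omega
  have h1 : y * (4 * q + y) * P ≤ 4 * n := by
    calc y * (4 * q + y) * P ≤ y * T * P := Nat.mul_le_mul_right _ (Nat.mul_le_mul_left _ hq1)
      _ = (y * P) * T := by ring
      _ ≤ 4 * n := hT1
  have h2 : 4 * n ≤ y * (4 * q + 3 * y) * P := by
    calc 4 * n ≤ (y * P) * (T + 1) := hT2.le
      _ ≤ (y * P) * (4 * q + 3 * y) := Nat.mul_le_mul_left _ hq2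
      _ = _ := by ring
  refine ⟨S, q, hq, by omega, h1, h2, ?_⟩
  -- the size of the core
  have h3 : (q + 1) * (y * (J * a ^ 2)) ≤ n := by
    have h4 : 4 * ((q + 1) * (y * (J * a ^ 2))) ≤ 4 * n := by
      calc 4 * ((q + 1) * (y * (J * a ^ 2))) ≤ 4 * ((q + 1) * (y * P)) :=
            Nat.mul_le_mul_left _ (Nat.mul_le_mul_left _ (Nat.mul_le_mul_left _ hP1))
        _ = y * (4 * q + 4) * P := by ring
        _ ≤ y * (4 * q + y) * P := Nat.mul_le_mul_right _ (Nat.mul_le_mul_left _ (by omega))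
        _ ≤ 4 * n := h1
    omega
  have h4 : (q + 1) * (y * J) ≤ a := by
    have h5 : a ^ 2 * ((q + 1) * (y * J)) ≤ a ^ 2 * a := by
      calc a ^ 2 * ((q + 1) * (y * J)) = (q + 1) * (y * (J * a ^ 2)) := by ring
        _ ≤ n := h3
        _ ≤ a ^ 3 := ha
        _ = a ^ 2 * a := by ring
    exact Nat.le_of_mul_le_mul_left h5 (Nat.pow_pos ha1)
  calc 8 * J * y ^ 2 * (q + 1) ^ 2 ≤ J * J * y ^ 2 * (q + 1) ^ 2 :=
        Nat.mul_le_mul_right _ (Nat.mul_le_mul_right _ (Nat.mul_le_mul_right _ (by omega)))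
    _ = ((q + 1) * (y * J)) ^ 2 := by ring
    _ ≤ a ^ 2 := Nat.pow_le_pow_left h4 2
    _ ≤ J * a ^ 2 := Nat.le_mul_of_pos_left _ (by omega)
    _ ≤ P := hP1

/-- partial Hadamard matrices with `n - n ^ (2 / 3) * log (log ... (log n))` rows -/
theorem main3 (m : ℕ) : ∃ N0 : ℕ, ∀ n : ℕ, N0 ≤ n → 4 ∣ n →
    ∃ k : ℕ, (n : ℝ) - (n : ℝ) ^ (2 / 3 : ℝ) * (Real.log^[m]) n ≤ k ∧ HasPH k n := by
  obtain ⟨N1, g1⟩ := growth2 m
  obtain ⟨N2, g2⟩ := prime_ap 3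
  obtain ⟨N3, g3⟩ := log_pow_le 20
  refine ⟨max (max N1 (N2 ^ 3)) (max N3 ⌈Real.exp 128⌉₊), fun n hn h4 => ?_⟩
  have hn1 : N1 ≤ n := (le_trans (le_max_left _ _) (le_max_left _ _)).trans hn
  have hn2 : N2 ^ 3 ≤ n := (le_trans (le_max_right _ _) (le_max_left _ _)).trans hn
  have hn3 : N3 ≤ n := (le_trans (le_max_left _ _) (le_max_right _ _)).trans hn
  have hn4 : Real.exp 128 ≤ n :=
    (Nat.le_ceil _).trans (by exact_mod_cast (le_trans (le_max_right _ _) (le_max_right _ _)).trans hn)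
  have hn0 : (0 : ℝ) < n := lt_of_lt_of_le (Real.exp_pos _) hn4
  have hL : 128 ≤ Real.log n := by
    rw [Real.le_log_iff_exp_le hn0]; exact hn4
  have hn1' : (1 : ℝ) ≤ n := by linarith [Real.add_one_le_exp (128 : ℝ)]
  have hn1n : 1 ≤ n := by exact_mod_cast hn1'
  obtain ⟨k, hPU, hBL, hBm⟩ := g1 n hn1
  obtain ⟨J, hJdef⟩ : ∃ J : ℕ, J = 2 ^ (5 * 2 ^ (k + 3) - 1) := ⟨_, rfl⟩
  obtain ⟨t₂, ht₂⟩ : ∃ t₂, t₂ = 5 * 2 ^ k - 1 := ⟨_, rfl⟩
  obtain ⟨J₂, hJ₂⟩ : ∃ J₂, J₂ = 2 ^ t₂ := ⟨_, rfl⟩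
  obtain ⟨y, hy⟩ : ∃ y, y = 4 * J₂ := ⟨_, rfl⟩
  have h2k : 1 ≤ 2 ^ k := Nat.one_le_two_pow
  have h2k3 : 2 ^ (k + 3) = 8 * 2 ^ k := by rw [pow_add]; ring
  have h2k9 : 2 ^ (k + 9) = 512 * 2 ^ k := by rw [pow_add]; ring
  have hy2 : y = 2 ^ (t₂ + 2) := by rw [hy, hJ₂, pow_add]; ring
  have hyJ : y ^ 2 ≤ J := by
    rw [hy2, hJdef, ← pow_mul]
    exact Nat.pow_le_pow_right (by norm_num) (by omega)
  have hJ8 : J ^ 8 ≤ 2 ^ (2 ^ (k + 9)) := by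
    rw [hJdef, ← pow_mul]
    exact Nat.pow_le_pow_right (by norm_num) (by omega)
  have hJ24 : 4 ≤ J₂ := by
    rw [hJ₂]
    calc 4 = 2 ^ 2 := rfl
      _ ≤ 2 ^ t₂ := Nat.pow_le_pow_right (by norm_num) (by omega)
  have hy16 : 16 ≤ y := by omega
  have hJ256 : 256 ≤ J := le_trans (by nlinarith) hyJ
  have hyJ1 : y ≤ J := le_trans (by nlinarith) hyJ
  have hJR : (256 : ℝ) ≤ J := by exact_mod_cast hJ256
  have hJ8R : (J : ℝ) ^ 8 ≤ ((2 ^ (2 ^ (k + 9)) : ℕ) : ℝ) := by exact_mod_cast hJ8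
  obtain ⟨L, hLdef⟩ : ∃ L : ℝ, L = Real.log n := ⟨_, rfl⟩
  have hsq := g3 n hn3
  rw [← hLdef] at hL hBL hsq
  have hJL : (J : ℝ) ^ 8 ≤ L := hJ8R.trans hBL
  have hL0 : 0 < L := by linarith
  -- the cube root
  obtain ⟨b, hb⟩ : ∃ b : ℝ, b = (n : ℝ) ^ (1 / 3 : ℝ) := ⟨_, rfl⟩
  have hb0 : 0 < b := by rw [hb]; positivity
  have hb3 : b ^ 3 = n := by
    rw [hb, ← Real.rpow_natCast, ← Real.rpow_mul hn0.le]
    norm_num
  have hb2 : (n : ℝ) ^ (2 / 3 : ℝ) = b ^ 2 := by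
    rw [hb, ← Real.rpow_natCast, ← Real.rpow_mul hn0.le]
    norm_num
  have hb1 : 1 ≤ b := by
    by_contra hcon
    have : b ^ 3 < 1 := pow_lt_one₀ hb0.le (not_le.1 hcon) (by norm_num)
    linarith
  obtain ⟨a, ha⟩ : ∃ a : ℕ, a = ⌈b⌉₊ := ⟨_, rfl⟩
  have hab : b ≤ a := by rw [ha]; exact Nat.le_ceil b
  have ha2b : (a : ℝ) ≤ 2 * b := by
    have := (Nat.ceil_lt_add_one hb0.le).le
    rw [ha]; linarith
  have ha3 : n ≤ a ^ 3 := by
    have : (n : ℝ) ≤ (a : ℝ) ^ 3 := by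
      rw [← hb3]; exact pow_le_pow_left₀ hb0.le hab 3
    exact_mod_cast this
  have ha3' : a ^ 3 ≤ 8 * n := by
    have : (a : ℝ) ^ 3 ≤ 8 * n := by
      calc (a : ℝ) ^ 3 ≤ (2 * b) ^ 3 := pow_le_pow_left₀ (Nat.cast_nonneg _) ha2b 3
        _ = 8 * b ^ 3 := by ring
        _ = 8 * n := by rw [hb3]
    exact_mod_cast this
  have hss : √(n : ℝ) * √(n : ℝ) = n := Real.mul_self_sqrt hn0.le
  have hsn0 : 0 < √(n : ℝ) := Real.sqrt_pos.2 hn0
  have hsn1 : 1 ≤ √(n : ℝ) := le_trans (one_le_pow₀ (by linarith)) hsq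
  have haJ : J ^ 12 ≤ a := by
    by_contra hcon
    have h1 : a ^ 3 ≤ (J ^ 12) ^ 3 := Nat.pow_le_pow_left (not_le.1 hcon).le 3
    have h2 : (n : ℝ) ≤ ((J ^ 12) ^ 3 : ℕ) := by exact_mod_cast ha3.trans h1
    have hJ1 : (1 : ℝ) ≤ J := by linarith
    have h3 : (((J ^ 12) ^ 3 : ℕ) : ℝ) ≤ L ^ 5 := by
      push_cast
      calc ((J : ℝ) ^ 12) ^ 3 = (J : ℝ) ^ 36 := by ring
        _ ≤ (J : ℝ) ^ 40 := pow_le_pow_right₀ hJ1 (by norm_num)
        _ = ((J : ℝ) ^ 8) ^ 5 := by ring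
        _ ≤ L ^ 5 := pow_le_pow_left₀ (by positivity) hJL 5
    have h4 : L ^ 5 < L ^ 20 := pow_lt_pow_right₀ (by linarith) (by norm_num)
    nlinarith
  -- the prime
  obtain ⟨X, hX⟩ : ∃ X, X = J * a ^ 2 := ⟨_, rfl⟩
  have ha1 : 1 ≤ a := le_trans (Nat.one_le_pow _ _ (by omega)) haJ
  have hX256 : 256 ≤ X := by
    rw [hX]
    calc 256 = 256 * 1 := rfl
      _ ≤ J * a ^ 2 := Nat.mul_le_mul hJ256 (Nat.one_le_pow _ _ ha1)
  have hXR : (256 : ℝ) ≤ X := by exact_mod_cast hX256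
  have haX : a ^ 2 ≤ X := by rw [hX]; exact Nat.le_mul_of_pos_left _ (by omega)
  have hN2X : N2 ≤ 2 * X := by
    have h1 : N2 ≤ a := by
      by_contra hcon
      have := Nat.pow_lt_pow_left (not_le.1 hcon) (n := 3) (by norm_num)
      omega
    have h2 : a ≤ a ^ 2 := by rw [pow_two]; exact Nat.le_mul_of_pos_left _ ha1
    omega
  have hXs : √(n : ℝ) ≤ X := by
    have h1 : √(n : ℝ) ≤ (a : ℝ) ^ 2 := by
      apply Real.sqrt_le_iff.2 ⟨by positivity, ?_⟩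
      have h2 : n ≤ (a ^ 2) ^ 2 := by
        calc n ≤ a ^ 3 := ha3
          _ ≤ a ^ 3 * a := Nat.le_mul_of_pos_right _ ha1
          _ = (a ^ 2) ^ 2 := by ring
      exact_mod_cast h2
    have h2 : (a : ℝ) ^ 2 ≤ X := by exact_mod_cast haX
    linarith
  have hlog : L / 2 ≤ Real.log (2 * X : ℕ) := by
    have h5 : Real.log √(n : ℝ) = L / 2 := by rw [Real.log_sqrt hn0.le, hLdef]
    rw [← h5]
    apply Real.log_le_log hsn0
    push_cast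
    linarith
  have hlog3 : 8 * L ≤ Real.log (2 * X : ℕ) ^ 3 := by
    calc 8 * L ≤ (L / 2) ^ 3 := by nlinarith [pow_pos hL0 2]
      _ ≤ _ := pow_le_pow_left₀ (by positivity) hlog 3
  have hcop : (n - 1).Coprime (y * J) := by
    have e1 : Odd (n - 1) := by
      obtain ⟨c, hc⟩ := h4
      exact ⟨2 * c - 1, by omega⟩
    have e2 : y * J = 2 ^ (t₂ + 2 + (5 * 2 ^ (k + 3) - 1)) := by
      rw [hy2, hJdef, ← pow_add]
    rw [e2]
    exact Nat.Coprime.pow_right _ (Nat.Coprime.symm (Nat.coprime_two_left.2 e1))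
  have hyJ0 : 0 < y * J := Nat.mul_pos (by omega) (by omega)
  obtain ⟨p, hp, hyp, hpz, hpc⟩ := g2 (2 * X) hN2X (y * J) (n - 1) X (2 * X - 1) hyJ0 (by
      refine le_trans ?_ hlog3
      have h1 : ((y * J : ℕ) : ℝ) ≤ (J : ℝ) ^ 8 := by
        have h2 : y * J ≤ J ^ 8 := by
          calc y * J ≤ J * J := Nat.mul_le_mul_right _ hyJ1
            _ = J ^ 2 := by ring
            _ ≤ J ^ 8 := Nat.pow_le_pow_right (by omega) (by norm_num)
        exact_mod_cast h2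
      linarith) hcop (by omega) (by omega) (by
      have e1 : ((2 * X - 1 : ℕ) : ℝ) = 2 * X - 1 := by
        rw [Nat.cast_sub (by omega)]; push_cast; ring
      rw [e1, div_le_iff₀ (by linarith)]
      have h5 : (4 : ℝ) ≤ Real.log (2 * X : ℕ) ^ 3 := by linarith
      push_cast at h5 ⊢
      nlinarith)
  have hPn : 8 * (p + 1) ≤ 8 * n := by
    calc 8 * (p + 1) ≤ 8 * (2 * X) := Nat.mul_le_mul_left _ (by omega)
      _ = (16 * J) * a ^ 2 := by rw [hX]; ring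
      _ ≤ J ^ 12 * a ^ 2 := by
          apply Nat.mul_le_mul_right
          calc 16 * J ≤ J * J := Nat.mul_le_mul_right _ (by omega)
            _ = J ^ 2 := by ring
            _ ≤ J ^ 12 := Nat.pow_le_pow_right (by omega) (by norm_num)
      _ ≤ a * a ^ 2 := Nat.mul_le_mul_right _ haJ
      _ = a ^ 3 := by ring
      _ ≤ 8 * n := ha3'
  have hmod : p + 1 ≡ n [MOD y * J] := by
    have := Nat.ModEq.add_right 1 hpc
    rwa [Nat.sub_add_cancel hn1n] at this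
  obtain ⟨w, hw⟩ : ∃ w, n = (p + 1) + y * J * w := by
    obtain ⟨w, hw⟩ := (Nat.modEq_iff_dvd' (show p + 1 ≤ n by omega)).1 hmod
    exact ⟨w, by omega⟩
  have hp4 : p % 4 = 3 := by
    obtain ⟨c, hc⟩ := h4
    have h1 : y * J * w = 4 * (J₂ * J * w) := by rw [hy]; ring
    omega
  obtain ⟨S₂, q, hq, hqy, h1, h2, hP⟩ := choose_q (P := p + 1) hy hJ24 hyJ ha3 ha3' haJ
    (by rw [← hX]; omega) (by rw [← hX]; omega)
  refine ⟨_, ?_, step3 hPU ht₂ hJ₂ hy hJdef hq hqy hp hp4 h4 hw h1 h2 hP⟩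
  rw [hb2]
  have h5 : 4 * n ≤ 4 * (q * (y * (p + 1))) + 6 * (J ^ 2 * a ^ 2) := by
    calc 4 * n ≤ y * (4 * q + 3 * y) * (p + 1) := h2
      _ = 4 * (q * (y * (p + 1))) + 3 * (y ^ 2 * (p + 1)) := by ring
      _ ≤ 4 * (q * (y * (p + 1))) + 3 * (J * (2 * (J * a ^ 2))) := by
          apply Nat.add_le_add_left
          apply Nat.mul_le_mul_left
          exact Nat.mul_le_mul hyJ (by rw [← hX]; omega)
      _ = _ := by ring
  have h6 : (4 : ℝ) * n ≤ 4 * ((q * (y * (p + 1)) : ℕ) : ℝ) + 6 * ((J : ℝ) ^ 2 * (a : ℝ) ^ 2) := by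
    exact_mod_cast h5
  have h7 : (a : ℝ) ^ 2 ≤ 4 * b ^ 2 := by
    calc (a : ℝ) ^ 2 ≤ (2 * b) ^ 2 := pow_le_pow_left₀ (Nat.cast_nonneg _) ha2b 2
      _ = 4 * b ^ 2 := by ring
  have h8 : 6 * (J : ℝ) ^ 2 ≤ (Real.log^[m]) n := by
    refine le_trans ?_ (hJ8R.trans hBm)
    have hJ1 : (1 : ℝ) ≤ J := by linarith
    calc 6 * (J : ℝ) ^ 2 ≤ J * (J : ℝ) ^ 2 := mul_le_mul_of_nonneg_right (by linarith) (by positivity)
      _ = (J : ℝ) ^ 3 := by ring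
      _ ≤ (J : ℝ) ^ 8 := pow_le_pow_right₀ hJ1 (by norm_num)
  have h9 : (J : ℝ) ^ 2 * (a : ℝ) ^ 2 ≤ (J : ℝ) ^ 2 * (4 * b ^ 2) :=
    mul_le_mul_of_nonneg_left h7 (by positivity)
  have h10 : 6 * (J : ℝ) ^ 2 * b ^ 2 ≤ (Real.log^[m]) n * b ^ 2 :=
    mul_le_mul_of_nonneg_right h8 (by positivity)
  nlinarith

end Pool.Agent.H182.PH
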