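import Pool.Agent.H182.PHLay
import Pool.Graph.R_pool_sql_team_seeded_63374d34.N328.PH.Base

/-!
# The parameters
-/

set_option autoImplicit false

namespace Pool.Agent.H182.PH

open Matrix Finset
open Pool.Agent.Y342.SK (Rel Sg IsCore)
open Pool.Agent.N328.PH (IsK HasPH exists_arms)
open Pool.Agent.H108R3.Had (PUk)

theorem hasPH_zero (r : ℕ) : HasPH r 0 := by
  refine ⟨Matrix.of fun _ _ => 1, fun _ _ => Or.inl rfl, ?_⟩
  ext i j
  rw [Matrix.mul_apply]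
  simp

theorem param3 {k S v y : ℕ} [NeZero y] {K : Matrix (Fin y) (Fin y) ℤ} (hK : IsK y K)
    {C : Fin v → Fin v → ℤ} (hC : IsCore C) (hPU : ∀ l ≤ S, PUk k l) {b o : Fin y} (hbo : b ≠ o)
    {J : ℕ} (hJ : J = 2 ^ (5 * 2 ^ (k + 3) - 1)) {d εb εo ω γ μ : ℕ} (hd : d < J)
    {α β : Fin y → ℕ} (hα : ∑ ψ, α ψ = γ) (hβ : ∑ ψ, β ψ = γ) (hμ : ∀ ψ, v * α ψ + β ψ = μ)
    (hS : γ + ω + εo + εb = 2 * S) (hle : εb + εo + ω ≤ γ) (h : Fin y → ℕ)
    (hg : ∀ ψ, ψ ≠ b → ψ ≠ o → h ψ = y * (J * α ψ)) (ho : h o = 0)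
    (ho' : y * (J * α o) + 4 * (J * εo) = v * y * (J * εo + J * ω))
    (hb : h b + v * y * (J * (1 + εb)) = y * (J * α b) + 4 * (1 + d + J * εb)) {n r : ℕ}
    (hn : n = y ^ 2 * (J * μ) + 4 * (1 + d + J * εb + J * εo)) (hr : r ≤ J * (2 * S + 1))
    (hH : ∀ ψ, ψ ≠ o → HasPH r (h ψ)) : HasPH (v * (y * r)) n := by
  obtain ⟨ι, κ, i1, i2, i3, i4, c, hι, hκ, hG⟩ := exists_arms (k + 3)
  rw [← hJ] at hι
  obtain ⟨q, hq⟩ : ∃ q, q = 2 * S + 1 := ⟨_, rfl⟩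
  have : NeZero q := ⟨by omega⟩
  obtain ⟨G, P, Q, hPQ⟩ := hG d (by rw [hι]; exact hd)
  obtain ⟨W, hW⟩ := exists_W (q := q) hq hPU
  obtain ⟨L, hLb, hLp, hLr, hLU, hLV⟩ := exists_lay hα hβ hS hle
  have hcard : Fintype.card κ = Fintype.card (Fin 2 × Fin 4 × Fin (2 ^ k)) := by
    rw [hκ, Fintype.card_prod, Fintype.card_prod, Fintype.card_fin, Fintype.card_fin,
      Fintype.card_fin, pow_add]
    ring
  have hcJ : c * (4 * 2 ^ k) = (J : ℤ) := by
    have h := G.hc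
    rw [hκ, hι] at h
    push_cast at h
    rw [pow_add] at h
    linarith
  obtain ⟨s⟩ := exists_sys hPQ hW L hcJ (by rw [hι]) (Fintype.equivOfCardEq hcard)
  rw [hLb, hLp, hLr] at s
  have e1 : (fun ψ => (J : ℤ) * (L.tU ψ).m) = fun ψ => (J : ℤ) * α ψ := by
    funext ψ; rw [hLU]
  have e2 : (fun ψ => (J : ℤ) * (L.tV ψ).m) = fun ψ => (J : ℤ) * β ψ := by
    funext ψ; rw [hLV]
  rw [e1, e2] at s
  have hX : Fintype.card (ι × ZMod q) = J * (2 * S + 1) := by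
    rw [Fintype.card_prod, ZMod.card, hι, hq]
  have hN : ∀ ψ, (v : ℤ) * ((J : ℤ) * α ψ) + (J : ℤ) * β ψ = (J : ℤ) * μ := by
    intro ψ
    rw [← hμ ψ]
    push_cast
    ring
  -- the head orders
  have hbZ : (h b : ℤ) + v * y * (J * (1 + εb)) = y * (J * α b) + 4 * (1 + d + J * εb) := by
    exact_mod_cast hb
  have hoZ : (y : ℤ) * (J * α o) + 4 * (J * εo) = v * y * (J * εo + J * ω) := by exact_mod_cast ho'
  have hh : ∀ ψ, (h ψ : ℤ) = PH.hd y (fun ψ => (J : ℤ) * α ψ) ((J : ℤ) - 1 - d) ((J : ℤ) * ω)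
      (1 + d + (J : ℤ) * εb) ((J : ℤ) * εo) v b o ψ := by
    intro ψ
    unfold PH.hd
    by_cases h1 : ψ = b
    · subst h1
      rw [if_pos rfl, if_neg hbo]
      linear_combination hbZ
    · by_cases h2 : ψ = o
      · subst h2
        rw [if_neg h1, if_pos rfl, ho]
        push_cast
        linear_combination -hoZ
      · rw [if_neg h1, if_neg h2, hg ψ h1 h2]
        push_cast
        ring
  have hγ : (v : ℤ) * γ + γ = y * μ := by
    have h1 : ∑ ψ, (v * α ψ + β ψ) = ∑ _ψ : Fin y, μ := Finset.sum_congr rfl fun ψ _ => hμ ψ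
    rw [Finset.sum_add_distrib, ← Finset.mul_sum, hα, hβ, Finset.sum_const, Finset.card_univ,
      Fintype.card_fin, smul_eq_mul] at h1
    exact_mod_cast h1
  refine big2 (n := n) hC hK s hbo hN h hh ?_ (by rw [hX]; exact hr) ?_ (fun ψ => ?_)
  · rw [hn]
    push_cast
    ring
  · have h1 : ((v * (y * Fintype.card (ι × ZMod q)) + ∑ ψ, h ψ : ℕ) : ℤ) = (n : ℤ) := by
      rw [hX, hn]
      push_cast
      rw [Finset.sum_congr rfl fun ψ _ => hh ψ]
      unfold PH.hd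
      rw [Finset.sum_sub_distrib, Finset.sum_sub_distrib, Finset.sum_ite_eq' univ b,
        Finset.sum_ite_eq' univ o, if_pos (mem_univ _), if_pos (mem_univ _), ← Finset.mul_sum,
        ← Finset.mul_sum]
      have h2 : ∑ ψ, (α ψ : ℤ) = γ := by rw [← hα]; push_cast; rfl
      have h3 : (γ : ℤ) + ω + εo + εb = 2 * S := by exact_mod_cast hS
      rw [h2]
      linear_combination ((y : ℤ) * J) * hγ - (v * y * J : ℤ) * h3
    exact_mod_cast h1
  · by_cases h2 : ψ = o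
    · rw [h2, ho]; exact hasPH_zero r
    · exact hH ψ h2

end Pool.Agent.H182.PH
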