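import Pool.Agent.H182.PHPar
import Pool.Agent.H182.PHArith
import Pool.Graph.R_pool_sql_team_seeded_63374d34.N328.PH.Par

/-!
# One step: many rows from a Paley matrix
-/

set_option autoImplicit false

namespace Pool.Agent.H182.PH

open Matrix Finset
open Pool.Agent.Y342.SK (Rel Sg IsCore skew_of_PUk exists_core)
open Pool.Agent.N328.PH (IsK HasPH isK_syl hasPH_paley syl)
open Pool.Agent.H108R3.Had (PUk HasHad)

/-- numbers with a given sum between two bounds -/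
theorem exists_between {y γ : ℕ} (lo hi : Fin y → ℕ) (h : ∀ ψ, lo ψ ≤ hi ψ) (h1 : ∑ ψ, lo ψ ≤ γ)
    (h2 : γ ≤ ∑ ψ, hi ψ) : ∃ f : Fin y → ℕ, (∀ ψ, lo ψ ≤ f ψ ∧ f ψ ≤ hi ψ) ∧ ∑ ψ, f ψ = γ := by
  obtain ⟨g, hg, hgs⟩ := exists_split (fun ψ => hi ψ - lo ψ) (γ - ∑ ψ, lo ψ) (by
    have : ∑ ψ, (hi ψ - lo ψ) + ∑ ψ, lo ψ = ∑ ψ, hi ψ := by
      rw [← Finset.sum_add_distrib]
      exact Finset.sum_congr rfl fun ψ _ => Nat.sub_add_cancel (h ψ)
    omega)
  refine ⟨fun ψ => lo ψ + g ψ, fun ψ => ?_, ?_⟩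
  · have := hg ψ
    have := h ψ
    simp only [] at *
    omega
  · rw [Finset.sum_add_distrib, hgs]
    omega

theorem sum_two {y : ℕ} (b o : Fin y) (hbo : b ≠ o) (A B c : ℕ) :
    ∑ ψ : Fin y, (if ψ = b then A else if ψ = o then B else c) = A + B + (y - 2) * c := by
  rw [← Finset.add_sum_erase univ _ (mem_univ b), if_pos rfl,
    ← Finset.add_sum_erase (univ.erase b) _ (mem_erase.2 ⟨hbo.symm, mem_univ o⟩),
    if_neg hbo.symm, if_pos rfl]
  have h1 : ∀ ψ ∈ (univ.erase b).erase o, (if ψ = b then A else if ψ = o then B else c) = c := by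
    intro ψ hψ
    rw [mem_erase, mem_erase] at hψ
    rw [if_neg hψ.2.1, if_neg hψ.1]
  rw [Finset.sum_congr rfl h1, Finset.sum_const, Finset.card_erase_of_mem (mem_erase.2 ⟨hbo.symm, mem_univ o⟩),
    Finset.card_erase_of_mem (mem_univ b), Finset.card_univ, Fintype.card_fin, smul_eq_mul]
  have : y - 1 - 1 = y - 2 := by omega
  rw [this, add_assoc]

theorem step3 {k n p w S₂ t₂ J₂ y J q : ℕ} (hPU : ∀ l ≤ n, PUk k l) (ht : t₂ = 5 * 2 ^ k - 1)
    (hJ₂ : J₂ = 2 ^ t₂) (hy : y = 4 * J₂) (hJ : J = 2 ^ (5 * 2 ^ (k + 3) - 1))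
    (hq : q + 1 = J₂ * (2 * S₂ + 1)) (hqy : y ≤ q) (hp : p.Prime) (hp4 : p % 4 = 3) (h4 : 4 ∣ n)
    (hw : n = (p + 1) + y * J * w) (h1 : y * (4 * q + y) * (p + 1) ≤ 4 * n)
    (h2 : 4 * n ≤ y * (4 * q + 3 * y) * (p + 1)) (hP : 8 * J * y ^ 2 * (q + 1) ^ 2 ≤ p + 1) :
    HasPH (q * (y * (p + 1))) n := by
  have ht4 : 4 ≤ t₂ := by
    have : 1 ≤ 2 ^ k := Nat.one_le_two_pow
    omega
  have hJ24 : 4 ≤ J₂ := by
    rw [hJ₂]
    calc 4 = 2 ^ 2 := rfl
      _ ≤ 2 ^ t₂ := Nat.pow_le_pow_right (by norm_num) (by omega)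
  have hJ0 : 0 < J := by rw [hJ]; positivity
  have hy0 : 0 < y := by omega
  have : NeZero y := ⟨by omega⟩
  obtain ⟨d, εb, εo, ω, γ, μ, S, x, ms, αb, αo, hd, hn, hb, ho, hyμ, hS, hle, hms, hαb, hαo, hC1, hC2,
    hx, hPx, hPr⟩ := arith_num hy hJ24 hq hqy hJ0 h4 hw h1 h2 hP
  obtain ⟨b, hb0⟩ : ∃ b : Fin y, b.val = 0 := ⟨⟨0, hy0⟩, rfl⟩
  obtain ⟨o, ho0⟩ : ∃ o : Fin y, o.val = 1 := ⟨⟨1, by omega⟩, rfl⟩
  have hbo : b ≠ o := fun h => by rw [h, ho0] at hb0; omega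
  obtain ⟨α, hα, hαs⟩ := exists_between (γ := γ)
    (fun ψ : Fin y => if ψ = b then αb else if ψ = o then αo else x + 1)
    (fun ψ : Fin y => if ψ = b then αb else if ψ = o then αo else ms)
    (fun ψ => by
      by_cases h5 : ψ = b
      · rw [if_pos h5, if_pos h5]
      · rw [if_neg h5, if_neg h5]
        by_cases h6 : ψ = o
        · rw [if_pos h6, if_pos h6]
        · rw [if_neg h6, if_neg h6]; exact hx)
    (by rw [sum_two b o hbo]; exact hC1) (by rw [sum_two b o hbo]; exact hC2)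
  have eb : α b = αb := by
    have := hα b
    simp only [if_true] at this
    omega
  have eo : α o = αo := by
    have := hα o
    simp only [if_neg hbo.symm, if_true] at this
    omega
  have hg : ∀ ψ, ψ ≠ b → ψ ≠ o → x + 1 ≤ α ψ := by
    intro ψ h1 h2
    have := hα ψ
    simp only [if_neg h1, if_neg h2] at this
    exact this.1
  have hup : ∀ ψ, α ψ ≤ ms := by
    intro ψ
    have h7 := (hα ψ).2
    by_cases h5 : ψ = b
    · rw [if_pos h5] at h7; omega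
    · rw [if_neg h5] at h7
      by_cases h6 : ψ = o
      · rw [if_pos h6] at h7; omega
      · rw [if_neg h6] at h7; exact h7
  have hqα : ∀ ψ, q * α ψ ≤ μ := fun ψ => (Nat.mul_le_mul_left _ (hup ψ)).trans hms
  have hγn : μ ≤ n := by
    rw [hn]
    have : μ ≤ y ^ 2 * (J * μ) := by
      calc μ = 1 * (1 * μ) := by ring
        _ ≤ y ^ 2 * (J * μ) := Nat.mul_le_mul (Nat.one_le_pow _ _ hy0) (Nat.mul_le_mul_right _ hJ0)
    omega
  have hq0 : 0 < q := by omega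
  have hγ : γ ≤ y ^ 2 * (J * μ) := by
    calc γ ≤ (q + 1) * γ := Nat.le_mul_of_pos_left _ (by omega)
      _ = y * μ := hyμ.symm
      _ = y * (1 * μ) := by ring
      _ ≤ y ^ 2 * (J * μ) := by
          apply Nat.mul_le_mul
          · rw [pow_two]; exact Nat.le_mul_of_pos_left _ hy0
          · exact Nat.mul_le_mul_right _ hJ0
  have hSn : S ≤ n := by omega
  have hS2n : S₂ ≤ n := by
    have h5 : 2 * S₂ + 1 ≤ J₂ * (2 * S₂ + 1) := Nat.le_mul_of_pos_left _ (by omega)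
    have h6 : q ≤ n := by
      have h7 : 4 * q ≤ y * (4 * q + y) * (p + 1) := by
        calc 4 * q = 1 * (4 * q) * 1 := by ring
          _ ≤ y * (4 * q + y) * (p + 1) := by
              apply Nat.mul_le_mul (Nat.mul_le_mul (by omega) (by omega)) (by omega)
      omega
    omega
  -- the core
  have hsk := skew_of_PUk (hPU S₂ hS2n) (t := t₂) (by omega)
  rw [← hJ₂, ← hq] at hsk
  obtain ⟨C, hC⟩ := exists_core hsk
  -- the characters
  obtain ⟨K, hK⟩ : ∃ K : Matrix (Fin y) (Fin y) ℤ, IsK y K := by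
    have e : y = 2 ^ (t₂ + 2) := by rw [hy, hJ₂, pow_add]; ring
    subst e
    exact ⟨syl (t₂ + 2), isK_syl (t₂ + 2)⟩
  have hJk : ∃ J', J = 2 ^ k * J' := by
    have hk : k ≤ 5 * 2 ^ (k + 3) - 1 := by
      have h5 : k < 2 ^ k := Nat.lt_two_pow_self
      have h6 : 2 ^ (k + 3) = 8 * 2 ^ k := by rw [pow_add]; ring
      omega
    rw [hJ]
    exact pow_dvd_pow 2 hk
  obtain ⟨J', hJ'⟩ := hJk
  have hβs : ∑ ψ, (μ - q * α ψ) = γ := by
    have h5 : ∑ ψ, (μ - q * α ψ) + ∑ ψ, q * α ψ = ∑ _ψ : Fin y, μ := by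
      rw [← Finset.sum_add_distrib]
      exact Finset.sum_congr rfl fun ψ _ => Nat.sub_add_cancel (hqα ψ)
    rw [← Finset.mul_sum, hαs, Finset.sum_const, Finset.card_univ, Fintype.card_fin, smul_eq_mul,
      hyμ] at h5
    have h6 : (q + 1) * γ = q * γ + γ := by ring
    omega
  refine param3 (k := k) (S := S) (v := q) (y := y) hK hC (fun l hl => hPU l (hl.trans hSn)) hbo hJ hd
    (α := α) (β := fun ψ => μ - q * α ψ) (γ := γ) (μ := μ) (ω := ω) (εo := εo) (εb := εb)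
    hαs hβs (fun ψ => Nat.add_sub_cancel' (hqα ψ)) hS hle
    (fun ψ => if ψ = b then p + 1 else if ψ = o then 0 else y * (J * α ψ)) ?_ ?_ ?_ ?_ hn hPr ?_
  · intro ψ h5 h6
    simp only [if_neg h5, if_neg h6]
  · simp only [if_neg hbo.symm, if_true]
  · rw [eo]; exact ho
  · simp only [if_true]
    rw [eb]; exact hb
  · intro ψ hψ
    by_cases h5 : ψ = b
    · simp only [h5, if_true]
      exact hasPH_paley hp hp4
    · simp only [if_neg h5, if_neg hψ]
      have h6 : HasHad (2 ^ k * (y * (J' * α ψ))) := by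
        refine Pool.Agent.H108R3.Had.t_P7 k _ (hPU _ ?_)
        calc y * (J' * α ψ) ≤ y ^ 2 * (J * μ) := by
              have a1 : J' ≤ J := by rw [hJ']; exact Nat.le_mul_of_pos_left _ (by positivity)
              have a2 : α ψ ≤ μ := le_trans (Nat.le_mul_of_pos_left _ hq0) (hqα ψ)
              apply Nat.mul_le_mul
              · rw [pow_two]; exact Nat.le_mul_of_pos_left _ hy0
              · exact Nat.mul_le_mul a1 a2
          _ ≤ n := by rw [hn]; exact Nat.le_add_right _ _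
      have h7 : 2 ^ k * (y * (J' * α ψ)) = y * (J * α ψ) := by rw [hJ']; ring
      rw [h7] at h6
      have h8 : HasPH (y * (J * α ψ)) (y * (J * α ψ)) := h6
      refine h8.mono (hPx.trans ?_)
      exact Nat.mul_le_mul_left _ (Nat.mul_le_mul_left _ (hg ψ h5 hψ))

end Pool.Agent.H182.PH
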