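import Pool.Agent.H182.PHFam
import Pool.Agent.H182.PHBig

/-!
# The system from a gadget, a pair and a layout of intervals
-/

set_option autoImplicit false
set_option linter.unusedSectionVars false

namespace Pool.Agent.H182.PH

open Matrix Finset
open scoped Kronecker
open Pool.Agent.Y342.SK (Rel Sg)
open Pool.Agent.N328.PH (Arms IsPair IsD WmT one_Wm)

/-- a layout: the intervals of all types -/
structure Lay (y S : ℕ) where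
  /-- first defect -/
  tb : Ty
  /-- second defect -/
  tp : Ty
  /-- filling -/
  tr : Ty
  /-- symmetric matrices -/
  tU : Fin y → Ty
  /-- skew matrices -/
  tV : Fin y → Ty
  cb : tb.cl = 2
  cp : tp.cl = 3
  cr : tr.cl = 0
  cU : ∀ ψ, (tU ψ).cl = 0
  cV : ∀ ψ, (tV ψ).cl = 1
  hb : ∀ u, tb.o u + tb.l u ≤ S
  hp : ∀ u, tp.o u + tp.l u ≤ S
  hr : ∀ u, tr.o u + tr.l u ≤ S
  hU : ∀ ψ u, (tU ψ).o u + (tU ψ).l u ≤ S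
  hV : ∀ ψ u, (tV ψ).o u + (tV ψ).l u ≤ S
  cov : ∀ u s, s < S →
    (tb.In u s ∧ ¬tp.In u s ∧ ¬tr.In u s ∧ (∀ ψ, ¬(tU ψ).In u s) ∧ ∀ ψ, ¬(tV ψ).In u s) ∨
    (¬tb.In u s ∧ tp.In u s ∧ ¬tr.In u s ∧ (∀ ψ, ¬(tU ψ).In u s) ∧ ∀ ψ, ¬(tV ψ).In u s) ∨
    (¬tb.In u s ∧ ¬tp.In u s ∧ tr.In u s ∧ (∀ ψ, ¬(tU ψ).In u s) ∧ ∀ ψ, ¬(tV ψ).In u s) ∨
    (¬tb.In u s ∧ ¬tp.In u s ∧ ¬tr.In u s ∧ (∃ ψ, (tU ψ).In u s ∧ ∀ φ, φ ≠ ψ → ¬(tU φ).In u s) ∧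
      ∃ ψ, (tV ψ).In u s ∧ ∀ φ, φ ≠ ψ → ¬(tV φ).In u s)

/-- the number of positions of a type -/
def Ty.m (t : Ty) : ℤ := ((t.l 0 + t.l 1 : ℕ) : ℤ)

variable {ι κ : Type} [Fintype ι] [DecidableEq ι] [Fintype κ] [DecidableEq κ] {c : ℤ}
variable {G : Arms ι κ c} {P Q : Matrix ι ι ℤ} {d : ℕ} {k S q y : ℕ} [NeZero q]
variable {W : ℕ → ℕ → Fin (2 ^ k) → ℤ} {e : κ ≃ Fin 2 × Fin 4 × Fin (2 ^ k)}

theorem MnT (t : Ty) : (Mn G W e q t)ᵀ = -Mn G W e q t := WmT G _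

theorem MpT (t : Ty) : (Mp G W e q t)ᵀ = Mp G W e q t := KpT G _

theorem oneT {X : Matrix ι ι ℤ} (hT : Xᵀ = -X) :
    (X ⊗ₖ (1 : Matrix (ZMod q) (ZMod q) ℤ))ᵀ = -(X ⊗ₖ (1 : Matrix (ZMod q) (ZMod q) ℤ)) := by
  rw [← kroneckerMap_transpose, transpose_one, hT]
  ext i j; simp [kroneckerMap_apply]

theorem P_Mn {X : Matrix ι ι ℤ} {w : ℤ} (hX : IsD G X w) (t : Ty) :
    (X ⊗ₖ (1 : Matrix (ZMod q) (ZMod q) ℤ)) * Mn G W e q t +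
      Mn G W e q t * (X ⊗ₖ (1 : Matrix (ZMod q) (ZMod q) ℤ)) = 0 := one_Wm G _ hX.XA hX.XT

theorem P_Mp {X : Matrix ι ι ℤ} {w : ℤ} (hX : IsD G X w) (t : Ty) :
    (X ⊗ₖ (1 : Matrix (ZMod q) (ZMod q) ℤ)) * Mp G W e q t +
      Mp G W e q t * (X ⊗ₖ (1 : Matrix (ZMod q) (ZMod q) ℤ)) = 0 := one_Kp G _ hX.XA hX.XT

theorem P_sq {X : Matrix ι ι ℤ} {w : ℤ} (hX : IsD G X w) :
    (X ⊗ₖ (1 : Matrix (ZMod q) (ZMod q) ℤ)) * (X ⊗ₖ (1 : Matrix (ZMod q) (ZMod q) ℤ)) =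
      (-w) • (1 : Matrix (ι × ZMod q) (ι × ZMod q) ℤ) := by
  rw [← mul_kronecker_mul, hX.XX, one_mul, smul_kronecker, one_kronecker_one]

theorem P_Q (h : IsPair G P Q d) :
    (P ⊗ₖ (1 : Matrix (ZMod q) (ZMod q) ℤ)) * (Q ⊗ₖ (1 : Matrix (ZMod q) (ZMod q) ℤ)) +
      (Q ⊗ₖ (1 : Matrix (ZMod q) (ZMod q) ℤ)) * (P ⊗ₖ (1 : Matrix (ZMod q) (ZMod q) ℤ)) = 0 := by
  have := h.PQ
  unfold Pool.Agent.Y342.SK.Rel at this
  rw [← mul_kronecker_mul, ← mul_kronecker_mul, ← add_kronecker, this, neg_one_smul, neg_add_cancel,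
    zero_kronecker]

section alg

variable {Z : Type} [Fintype Z] [DecidableEq Z]

theorem add_ac {a b x : Matrix Z Z ℤ} (h1 : a * x + x * a = 0) (h2 : b * x + x * b = 0) :
    (a + b) * x + x * (a + b) = 0 := by
  have e : (a + b) * x + x * (a + b) = (a * x + x * a) + (b * x + x * b) := by noncomm_ring
  rw [e, h1, h2, add_zero]

theorem ac_symm {a b : Matrix Z Z ℤ} (h : a * b + b * a = 0) : b * a + a * b = 0 := by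
  rw [add_comm]; exact h

theorem add_sq' {a b : Matrix Z Z ℤ} {s t : ℤ} (h : a * b + b * a = 0)
    (ha : a * a = s • (1 : Matrix Z Z ℤ)) (hb : b * b = t • (1 : Matrix Z Z ℤ)) :
    (a + b) * (a + b) = (s + t) • (1 : Matrix Z Z ℤ) := by
  have e : (a + b) * (a + b) = a * a + b * b + (a * b + b * a) := by noncomm_ring
  rw [e, ha, hb, h, add_zero, add_smul]

end alg

/-- the system -/
theorem exists_sys (hPQ : IsPair G P Q d) (hW : IsW W S q) (L : Lay y S) {J : ℤ}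
    (hJ : c * (4 * 2 ^ k) = J) (hJ' : (Fintype.card ι : ℤ) = J) (e : κ ≃ Fin 2 × Fin 4 × Fin (2 ^ k)) :
    Nonempty (Sys2 y (ι × ZMod q) (J - 1 - d) (J * L.tr.m) (1 + d + J * L.tb.m) (J * L.tp.m)
      (fun ψ => J * (L.tU ψ).m) (fun ψ => J * (L.tV ψ).m)) := by
  have hw : ∀ t : Ty, c * ((4 * 2 ^ k * (t.l 0 + t.l 1) : ℕ) : ℤ) = J * t.m := by
    intro t
    unfold Ty.m
    rw [← hJ]
    push_cast
    ring
  have n23 : L.tb.cl ≠ L.tp.cl := by rw [L.cb, L.cp]; decide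
  have n20 : L.tb.cl ≠ L.tr.cl := by rw [L.cb, L.cr]; decide
  have n30 : L.tp.cl ≠ L.tr.cl := by rw [L.cp, L.cr]; decide
  have nUV : ∀ ψ φ, (L.tU ψ).cl ≠ (L.tV φ).cl := fun ψ φ => by rw [L.cU, L.cV]; decide
  have nU2 : ∀ ψ, (L.tU ψ).cl ≠ L.tb.cl := fun ψ => by rw [L.cU, L.cb]; decide
  have nU3 : ∀ ψ, (L.tU ψ).cl ≠ L.tp.cl := fun ψ => by rw [L.cU, L.cp]; decide
  have nV2 : ∀ ψ, (L.tV ψ).cl ≠ L.tb.cl := fun ψ => by rw [L.cV, L.cb]; decide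
  have nV3 : ∀ ψ, (L.tV ψ).cl ≠ L.tp.cl := fun ψ => by rw [L.cV, L.cp]; decide
  have nV0 : ∀ ψ, (L.tV ψ).cl ≠ L.tr.cl := fun ψ => by rw [L.cV, L.cr]; decide
  refine ⟨{
    Sb := P ⊗ₖ (1 : Matrix (ZMod q) (ZMod q) ℤ) + Mn G W e q L.tb
    So := Mn G W e q L.tp
    Rb := Q ⊗ₖ (1 : Matrix (ZMod q) (ZMod q) ℤ)
    Ro := Mn G W e q L.tr
    U := fun ψ => Mp G W e q (L.tU ψ)
    V := fun ψ => Mn G W e q (L.tV ψ)
    SbT := ?_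
    SoT := MnT _
    RbT := oneT hPQ.hQ.XT
    RoT := MnT _
    UT := fun _ => MpT _
    VT := fun _ => MnT _
    Sb2 := ?_
    So2 := ?_
    Rb2 := ?_
    Ro2 := ?_
    U2 := ?_
    V2 := ?_
    SbSo := add_ac (P_Mn hPQ.hP _) (Mn_Mn G n23)
    SbRb := add_ac (P_Q hPQ) (ac_symm (P_Mn hPQ.hQ _))
    SbRo := add_ac (P_Mn hPQ.hP _) (Mn_Mn G n20)
    SoRb := ac_symm (P_Mn hPQ.hQ _)
    SoRo := Mn_Mn G n30
    UV := fun ψ => Mp_Mn G (nUV ψ ψ)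
    USb := fun ψ => ac_symm (add_ac (P_Mp hPQ.hP _) (ac_symm (Mp_Mn G (nU2 ψ))))
    USo := fun ψ => Mp_Mn G (nU3 ψ)
    VSb := fun ψ => ac_symm (add_ac (P_Mn hPQ.hP _) (ac_symm (Mn_Mn G (nV2 ψ))))
    VSo := fun ψ => Mn_Mn G (nV3 ψ)
    VRb := fun ψ => ac_symm (P_Mn hPQ.hQ _)
    VRo := fun ψ => Mn_Mn G (nV0 ψ)
    zSb := ?_
    zSo := ?_
    zRb := ?_
    zRo := ?_
    zU := ?_
    zV := ?_
    sup := ?_ }⟩
  · rw [transpose_add, oneT hPQ.hP.XT, MnT]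
    abel
  · rw [add_sq' (P_Mn hPQ.hP _) (P_sq hPQ.hP) (Mn_sq G hW L.hb), hw]
    congr 1
    ring
  · rw [Mn_sq G hW L.hp, hw]
  · rw [P_sq hPQ.hQ, hJ']
  · rw [Mn_sq G hW L.hr, hw]
  · intro ψ
    rw [Mp_sq G hW (L.hU ψ), hw]
  · intro ψ
    rw [Mn_sq G hW (L.hV ψ), hw]
  · rintro ⟨x, i⟩
    rw [Matrix.add_apply, (M_diag G hW L.hb x x i).1, kroneckerMap_apply, hPQ.P0, zero_mul, add_zero]
  · rintro ⟨x, i⟩
    exact (M_diag G hW L.hp x x i).1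
  · rintro ⟨x, i⟩
    rw [kroneckerMap_apply, hPQ.Q0, zero_mul]
  · rintro ⟨x, i⟩
    exact (M_diag G hW L.hr x x i).1
  · rintro ψ ⟨x, i⟩
    exact (M_diag G hW (L.hU ψ) x x i).2
  · rintro ψ ⟨x, i⟩
    exact (M_diag G hW (L.hV ψ) x x i).1
  · rintro ⟨x, i⟩ ⟨x', j⟩ hne
    simp only [Matrix.add_apply, kroneckerMap_apply]
    by_cases hij : i = j
    · subst hij
      have hxx : x ≠ x' := fun h => hne (by rw [h])
      rw [(M_diag G hW L.hb x x' i).1, (M_diag G hW L.hp x x' i).1, (M_diag G hW L.hr x x' i).1,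
        one_apply_eq, mul_one, mul_one, add_zero]
      have hU0 : ∀ ψ, Mp G W e q (L.tU ψ) (x, i) (x', i) = 0 := fun ψ => (M_diag G hW (L.hU ψ) x x' i).2
      have hV0 : ∀ ψ, Mn G W e q (L.tV ψ) (x, i) (x', i) = 0 := fun ψ => (M_diag G hW (L.hV ψ) x x' i).1
      rcases hPQ.PQ1 x x' hxx with ⟨h1, h2⟩ | ⟨h1, h2⟩
      · left
        exact ⟨h1, rfl, h2, rfl, hU0, hV0⟩
      · right; right; left
        exact ⟨h1, rfl, h2, rfl, hU0, hV0⟩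
    · rw [one_apply_ne hij, mul_zero, mul_zero, zero_add]
      obtain ⟨u, s, hs, hM⟩ := M_off (e := e) G hW x x' hij
      have mb := hM _ L.hb
      have mp := hM _ L.hp
      have mr := hM _ L.hr
      have mU := fun ψ => hM _ (L.hU ψ)
      have mV := fun ψ => hM _ (L.hV ψ)
      rcases L.cov u s hs with ⟨h1, h2, h3, h4, h5⟩ | ⟨h1, h2, h3, h4, h5⟩ | ⟨h1, h2, h3, h4, h5⟩ |
        ⟨h1, h2, h3, ⟨ψ, h4, h4'⟩, φ, h5, h5'⟩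
      · left
        exact ⟨(mb.1 h1).1, (mp.2 h2).1, rfl, (mr.2 h3).1, fun ψ => ((mU ψ).2 (h4 ψ)).2,
          fun ψ => ((mV ψ).2 (h5 ψ)).1⟩
      · right; left
        exact ⟨(mb.2 h1).1, (mp.1 h2).1, rfl, (mr.2 h3).1, fun ψ => ((mU ψ).2 (h4 ψ)).2,
          fun ψ => ((mV ψ).2 (h5 ψ)).1⟩
      · right; right; right; left
        exact ⟨(mb.2 h1).1, (mp.2 h2).1, rfl, (mr.1 h3).1, fun ψ => ((mU ψ).2 (h4 ψ)).2,
          fun ψ => ((mV ψ).2 (h5 ψ)).1⟩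
      · right; right; right; right
        exact ⟨(mb.2 h1).1, (mp.2 h2).1, rfl, (mr.2 h3).1,
          ⟨ψ, ((mU ψ).1 h4).2, fun χ hχ => ((mU χ).2 (h4' χ hχ)).2⟩,
          φ, ((mV φ).1 h5).1, fun χ hχ => ((mV χ).2 (h5' χ hχ)).1⟩

end Pool.Agent.H182.PH
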