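import Pool.Graph.R_seed8.Results.MP_be2ccc_co.LogLogWeights
import Pool.Graph.R_seed8.W851.Had.Tower

/-!
# Weighing matrices of all small weights
-/

namespace Pool.Agent.H182.WL

open Finset Matrix

/-- a pair `(D, H)` of matrices with entries `0`, `1`, `-1`, of weights `k` and `c`, which are amicable
from both sides -/
def PQ (M c k : ℕ) : Prop :=
  ∃ (ι : Type) (_ : Fintype ι) (_ : DecidableEq ι) (D H : Matrix ι ι ℤ), Fintype.card ι = M ∧
    (∀ i j, D i j = 0 ∨ D i j = 1 ∨ D i j = -1) ∧ (∀ i j, H i j = 0 ∨ H i j = 1 ∨ H i j = -1) ∧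
    D * Dᵀ = (k : ℤ) • (1 : Matrix ι ι ℤ) ∧ Dᵀ * D = (k : ℤ) • (1 : Matrix ι ι ℤ) ∧
    H * Hᵀ = (c : ℤ) • (1 : Matrix ι ι ℤ) ∧ Hᵀ * H = (c : ℤ) • (1 : Matrix ι ι ℤ) ∧
    D * Hᵀ = H * Dᵀ ∧ Dᵀ * H = Hᵀ * D

theorem smul_blocks {ι : Type} [DecidableEq ι] (a : ℤ) :
    a • (1 : Matrix (ι ⊕ ι) (ι ⊕ ι) ℤ) = Matrix.fromBlocks (a • 1) 0 0 (a • 1) := by
  rw [← Matrix.fromBlocks_one, Matrix.fromBlocks_smul, smul_zero]

theorem step {M c k : ℕ} (y : ℕ) (hy : y = 0 ∨ y = 1) (h : PQ M c k) :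
    PQ (2 * M) (2 * c) (k + y * c) := by
  obtain ⟨ι, _, _, D, H, hM, tD, tH, e1, e2, e3, e4, e5, e6⟩ := h
  have tY : ∀ i j, ((y : ℤ) • H) i j = 0 ∨ ((y : ℤ) • H) i j = 1 ∨ ((y : ℤ) • H) i j = -1 := by
    intro i j
    rw [Matrix.smul_apply]
    rcases hy with h | h
    · left
      rw [h]
      simp
    · rw [h]
      simpa using tH i j
  have neg3 : ∀ {x : ℤ}, (x = 0 ∨ x = 1 ∨ x = -1) → (-x = 0 ∨ -x = 1 ∨ -x = -1) := by
    intro x hx
    rcases hx with h | h | h <;> rw [h] <;> norm_num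
  have hyy : (y : ℤ) * y = y := by
    rcases hy with h | h <;> rw [h] <;> norm_num
  refine ⟨ι ⊕ ι, inferInstance, inferInstance,
    Matrix.fromBlocks D ((y : ℤ) • H) ((y : ℤ) • H) (-D), Matrix.fromBlocks H H (-H) H,
    ?_, ?_, ?_, ?_, ?_, ?_, ?_, ?_, ?_⟩
  · rw [Fintype.card_sum, hM]
    ring
  · rintro (i | i) (j | j)
    · exact tD i j
    · exact tY i j
    · exact tY i j
    · exact neg3 (tD i j)
  · rintro (i | i) (j | j)
    · exact tH i j
    · exact tH i j
    · exact neg3 (tH i j)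
    · exact tH i j
  · rw [Matrix.fromBlocks_transpose, Matrix.fromBlocks_multiply, smul_blocks]
    simp only [Matrix.transpose_smul, Matrix.transpose_neg, Matrix.mul_neg, Matrix.neg_mul, neg_neg,
      Matrix.smul_mul, Matrix.mul_smul, smul_smul, e1, e3, e5]
    congr 1
    · push_cast
      rw [add_smul, ← mul_assoc, hyy]
    · module
    · module
    · push_cast
      rw [add_smul, ← mul_assoc, hyy, add_comm]
  · rw [Matrix.fromBlocks_transpose, Matrix.fromBlocks_multiply, smul_blocks]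
    simp only [Matrix.transpose_smul, Matrix.transpose_neg, Matrix.mul_neg, Matrix.neg_mul, neg_neg,
      Matrix.smul_mul, Matrix.mul_smul, smul_smul, e2, e4, e6]
    congr 1
    · push_cast
      rw [add_smul, ← mul_assoc, hyy]
    · module
    · module
    · push_cast
      rw [add_smul, ← mul_assoc, hyy, add_comm]
  · rw [Matrix.fromBlocks_transpose, Matrix.fromBlocks_multiply, smul_blocks]
    simp only [Matrix.transpose_neg, Matrix.mul_neg, Matrix.neg_mul, neg_neg, e3]
    congr 1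
    · push_cast
      module
    · module
    · module
    · push_cast
      module
  · rw [Matrix.fromBlocks_transpose, Matrix.fromBlocks_multiply, smul_blocks]
    simp only [Matrix.transpose_neg, Matrix.mul_neg, Matrix.neg_mul, neg_neg, e4]
    congr 1
    · push_cast
      module
    · module
    · module
    · push_cast
      module
  · rw [Matrix.fromBlocks_transpose, Matrix.fromBlocks_transpose, Matrix.fromBlocks_multiply,
      Matrix.fromBlocks_multiply]
    simp only [Matrix.transpose_smul, Matrix.transpose_neg, Matrix.mul_neg, Matrix.neg_mul,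
      Matrix.smul_mul, Matrix.mul_smul, e5]
    congr 1
    all_goals module
  · rw [Matrix.fromBlocks_transpose, Matrix.fromBlocks_transpose, Matrix.fromBlocks_multiply,
      Matrix.fromBlocks_multiply]
    simp only [Matrix.transpose_smul, Matrix.transpose_neg, Matrix.mul_neg, Matrix.neg_mul, neg_neg,
      Matrix.smul_mul, Matrix.mul_smul, e6]
    congr 1
    all_goals module

theorem steps {M w : ℕ} (h : PQ M 1 w) : ∀ s b : ℕ, b < 2 ^ s → PQ (2 ^ s * M) (2 ^ s) (w + b) := by
  intro s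
  induction s with
  | zero =>
    intro b hb
    have : b = 0 := by simpa using hb
    rw [this, pow_zero, one_mul, add_zero]
    exact h
  | succ s ih =>
    intro b hb
    have e1 : 2 ^ (s + 1) * M = 2 * (2 ^ s * M) := by ring
    have e2 : 2 ^ (s + 1) = 2 * 2 ^ s := by ring
    rcases lt_or_ge b (2 ^ s) with h1 | h1
    · have := step 0 (Or.inl rfl) (ih b h1)
      rw [zero_mul, add_zero] at this
      rw [e1, e2]
      exact this
    · have h2 : b - 2 ^ s < 2 ^ s := by omega
      have := step 1 (Or.inr rfl) (ih _ h2)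
      rw [one_mul] at this
      rw [e1, e2]
      have e3 : w + (b - 2 ^ s) + 2 ^ s = w + b := by omega
      rwa [e3] at this

/-- there is a weighing matrix of order `N` and weight `k` -/
def HasW (N k : ℕ) : Prop := ∃ A : Matrix (Fin N) (Fin N) ℤ,
  (∀ i j, A i j = 0 ∨ A i j = 1 ∨ A i j = -1) ∧
  A.transpose * A = (k : ℤ) • (1 : Matrix (Fin N) (Fin N) ℤ) ∧
  A * A.transpose = (k : ℤ) • (1 : Matrix (Fin N) (Fin N) ℤ)

theorem PQ.hasW {M c k : ℕ} (h : PQ M c k) : HasW M k := by
  obtain ⟨ι, _, _, D, H, hM, tD, -, e1, e2, -⟩ := h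
  let e : ι ≃ Fin M := Fintype.equivFinOfCardEq hM
  refine ⟨D.submatrix e.symm e.symm, fun i j => tD _ _, ?_, ?_⟩
  · rw [Matrix.transpose_submatrix, Matrix.submatrix_mul_equiv, e2]
    ext i j
    simp only [Matrix.submatrix_apply, Matrix.smul_apply, Matrix.one_apply, e.symm.injective.eq_iff]
  · rw [Matrix.transpose_submatrix, Matrix.submatrix_mul_equiv, e1]
    ext i j
    simp only [Matrix.submatrix_apply, Matrix.smul_apply, Matrix.one_apply, e.symm.injective.eq_iff]

theorem start {M w : ℕ} (h : HasW M w) : PQ (2 * M) 1 w := by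
  obtain ⟨A, tA, e1, e2⟩ := h
  refine ⟨Fin M ⊕ Fin M, inferInstance, inferInstance, Matrix.fromBlocks 0 A Aᵀ 0, 1, ?_, ?_, ?_, ?_,
    ?_, ?_, ?_, ?_, ?_⟩
  · rw [Fintype.card_sum, Fintype.card_fin]
    ring
  · rintro (i | i) (j | j)
    · exact Or.inl rfl
    · exact tA i j
    · exact tA j i
    · exact Or.inl rfl
  · intro i j
    rw [Matrix.one_apply]
    split_ifs
    · exact Or.inr (Or.inl rfl)
    · exact Or.inl rfl
  · rw [Matrix.fromBlocks_transpose, Matrix.fromBlocks_multiply, smul_blocks]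
    simp only [Matrix.transpose_zero, Matrix.transpose_transpose, Matrix.zero_mul, Matrix.mul_zero,
      zero_add, add_zero, e1, e2]
  · rw [Matrix.fromBlocks_transpose, Matrix.fromBlocks_multiply, smul_blocks]
    simp only [Matrix.transpose_zero, Matrix.transpose_transpose, Matrix.zero_mul, Matrix.mul_zero,
      zero_add, add_zero, e1, e2]
  · rw [Matrix.transpose_one, Matrix.mul_one, Nat.cast_one, one_smul]
  · rw [Matrix.transpose_one, Matrix.mul_one, Nat.cast_one, one_smul]
  · rw [Matrix.transpose_one, Matrix.mul_one, Matrix.one_mul, Matrix.fromBlocks_transpose]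
    simp only [Matrix.transpose_zero, Matrix.transpose_transpose]
  · rw [Matrix.transpose_one, Matrix.mul_one, Matrix.one_mul, Matrix.fromBlocks_transpose]
    simp only [Matrix.transpose_zero, Matrix.transpose_transpose]

/-- **Weighing matrices.** -/
theorem weights : ∃ C : ℕ, ∀ r t n k : ℕ, C ^ (r + 1) ≤ t → k ≤ 2 ^ (2 * t + 1) * n →
    k ≤ 2 ^ t * (fun x : ℕ => 2 ^ x)^[r] 1 → (k ≤ 2 ^ t * n ∨ 2 ^ t ∣ k) →
    HasW (2 ^ (2 * t + 1) * n) k := by
  obtain ⟨C, -, hC⟩ := Pool.Agent.W851.Had.main_pu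
  refine ⟨C, fun r t n k ht hkN hkr hor => ?_⟩
  have h2t : 0 < 2 ^ t := by positivity
  rcases Nat.eq_zero_or_pos n with hn | hn
  · subst hn
    rw [mul_zero] at hkN ⊢
    have hk : k = 0 := by omega
    subst hk
    refine ⟨0, fun i j => Or.inl rfl, ?_, ?_⟩ <;> simp
  have e0 : 2 ^ (2 * t + 1) * n = 2 ^ t * (2 ^ (t + 1) * n) := by
    rw [← mul_assoc, ← pow_add]
    congr 2
    ring
  rcases hor with h | ⟨m, hm⟩
  · obtain ⟨m, b, hb, hk⟩ : ∃ m b : ℕ, b < 2 ^ t ∧ k = 2 ^ t * m + b :=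
      ⟨k / 2 ^ t, k % 2 ^ t, Nat.mod_lt _ h2t, (Nat.div_add_mod _ _).symm⟩
    have hmn : m ≤ n := by
      by_contra hcon
      push Not at hcon
      have := Nat.mul_le_mul_left (2 ^ t) hcon
      rw [Nat.mul_succ] at this
      omega
    have hmr : m ≤ Pool.Agent.W851.Had.tow r := by
      by_contra hcon
      push Not at hcon
      have := Nat.mul_le_mul_left (2 ^ t) hcon
      rw [Nat.mul_succ] at this
      have e1 : Pool.Agent.W851.Had.tow r = (fun x : ℕ => 2 ^ x)^[r] 1 := rfl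
      rw [e1] at this
      omega
    have h1 : HasW (2 ^ t * n) (2 ^ t * m) :=
      Pool.Agent.Results.MP_be2ccc_co.LogLogWeights.weigh hn hmn (hC r m t hmr ht)
    have h2 := (steps (start h1) t b hb).hasW
    have e3 : 2 ^ t * (2 * (2 ^ t * n)) = 2 ^ (2 * t + 1) * n := by
      rw [e0, pow_succ]
      ring
    rw [e3, ← hk] at h2
    exact h2
  · rw [hm] at hkN hkr ⊢
    rw [e0] at hkN ⊢
    exact Pool.Agent.Results.MP_be2ccc_co.LogLogWeights.weigh (Nat.mul_pos (by positivity) hn)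
      (Nat.le_of_mul_le_mul_left hkN h2t) (hC r m t (Nat.le_of_mul_le_mul_left hkr h2t) ht)

end Pool.Agent.H182.WL
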