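import Pool.Agent.H182.WL
import Pool.Agent.H182.MPW

/-!
# Weighing matrices of small weights in all orders divisible by four
-/

namespace Pool.Agent.H182.WL

open Finset Matrix Pool.Agent.H182.MP

theorem sq_le_of {x k : ℕ} (hk : 0 < k) (hx : x ^ 2 ≤ k) :
    ∃ t : ℕ, Odd t ∧ t ^ 2 ≤ k ^ 3 ∧ SymW t x := by
  rcases Nat.eq_zero_or_pos x with h | h
  · subst h
    exact ⟨1, odd_one, by simpa using Nat.one_le_pow 3 k hk, symW_zero⟩
  · obtain ⟨t, h1, h2, h3⟩ := symW_all x h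
    refine ⟨t, h1, ?_, h3⟩
    calc t ^ 2 ≤ (x ^ 3) ^ 2 := Nat.pow_le_pow_left h2 2
      _ = (x ^ 2) ^ 3 := by ring
      _ ≤ k ^ 3 := Nat.pow_le_pow_left hx 3

theorem wei_six (k : ℕ) (hk : 0 < k) : ∃ t : ℕ, Odd t ∧ t ≤ k ^ 6 ∧ Wei (4 * t) k := by
  obtain ⟨a, b, c, d, h⟩ := Nat.sum_four_squares k
  obtain ⟨ta, a1, a2, a3⟩ := sq_le_of hk (by omega : a ^ 2 ≤ k)
  obtain ⟨tb, b1, b2, b3⟩ := sq_le_of hk (by omega : b ^ 2 ≤ k)
  obtain ⟨tc, c1, c2, c3⟩ := sq_le_of hk (by omega : c ^ 2 ≤ k)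
  obtain ⟨td, d1, d2, d3⟩ := sq_le_of hk (by omega : d ^ 2 ≤ k)
  refine ⟨ta * tb * tc * td, ((a1.mul b1).mul c1).mul d1, ?_, ?_⟩
  · have h1 : (ta * tb * tc * td) ^ 2 ≤ (k ^ 6) ^ 2 := by
      calc (ta * tb * tc * td) ^ 2 = ta ^ 2 * tb ^ 2 * tc ^ 2 * td ^ 2 := by ring
        _ ≤ k ^ 3 * k ^ 3 * k ^ 3 * k ^ 3 :=
          Nat.mul_le_mul (Nat.mul_le_mul (Nat.mul_le_mul a2 b2) c2) d2
        _ = (k ^ 6) ^ 2 := by ring
    exact (Nat.pow_le_pow_iff_left (by norm_num)).1 h1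
  · have := williamson a3 b3 c3 d3
    rwa [h] at this

theorem two_sided {n : ℕ} (M : Matrix (Fin n) (Fin n) ℤ) {k : ℕ} (hk : 0 < k)
    (h : M * Mᵀ = (k : ℤ) • (1 : Matrix (Fin n) (Fin n) ℤ)) :
    Mᵀ * M = (k : ℤ) • (1 : Matrix (Fin n) (Fin n) ℤ) := by
  let φ : ℤ →+* ℚ := Int.castRingHom ℚ
  have hφ : Function.Injective φ := Int.cast_injective
  have hone : ((k : ℤ) • (1 : Matrix (Fin n) (Fin n) ℤ)).map φ =
      (k : ℚ) • (1 : Matrix (Fin n) (Fin n) ℚ) := by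
    ext i j
    simp only [Matrix.map_apply, Matrix.smul_apply, Matrix.one_apply, φ]
    split_ifs <;> simp
  have h1 : M.map φ * (M.map φ)ᵀ = (k : ℚ) • (1 : Matrix (Fin n) (Fin n) ℚ) := by
    rw [← Matrix.transpose_map, ← Matrix.map_mul, h, hone]
  have hk0 : (k : ℚ) ≠ 0 := by
    have : (0 : ℚ) < k := by exact_mod_cast hk
    exact this.ne'
  have h2 : M.map φ * ((k : ℚ)⁻¹ • (M.map φ)ᵀ) = 1 := by
    rw [Matrix.mul_smul, h1, smul_smul, inv_mul_cancel₀ hk0, one_smul]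
  have h3 := mul_eq_one_comm.1 h2
  rw [Matrix.smul_mul] at h3
  have h4 : (M.map φ)ᵀ * M.map φ = (k : ℚ) • (1 : Matrix (Fin n) (Fin n) ℚ) := by
    rw [← h3, smul_smul, mul_inv_cancel₀ hk0, one_smul]
  rw [← Matrix.transpose_map, ← Matrix.map_mul, ← hone] at h4
  exact Matrix.map_injective hφ h4

theorem Wei.hasW {n k : ℕ} (hk : 0 < k) (h : Wei n k) : HasW n k := by
  obtain ⟨M, h1, h2⟩ := h
  exact ⟨M, fun i j => h1 i j, two_sided M hk h2, h2⟩

theorem hasW_of_type {ι : Type} [Fintype ι] [DecidableEq ι] {M k : ℕ} (hM : Fintype.card ι = M)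
    (D : Matrix ι ι ℤ) (tD : ∀ i j, D i j = 0 ∨ D i j = 1 ∨ D i j = -1)
    (e2 : Dᵀ * D = (k : ℤ) • (1 : Matrix ι ι ℤ)) (e1 : D * Dᵀ = (k : ℤ) • (1 : Matrix ι ι ℤ)) :
    HasW M k := by
  let e : ι ≃ Fin M := Fintype.equivFinOfCardEq hM
  refine ⟨D.submatrix e.symm e.symm, fun i j => tD _ _, ?_, ?_⟩
  · rw [Matrix.transpose_submatrix, Matrix.submatrix_mul_equiv, e2]
    ext i j
    simp only [Matrix.submatrix_apply, Matrix.smul_apply, Matrix.one_apply, e.symm.injective.eq_iff]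
  · rw [Matrix.transpose_submatrix, Matrix.submatrix_mul_equiv, e1]
    ext i j
    simp only [Matrix.submatrix_apply, Matrix.smul_apply, Matrix.one_apply, e.symm.injective.eq_iff]

theorem HasW.add {a b k : ℕ} (ha : HasW a k) (hb : HasW b k) : HasW (a + b) k := by
  obtain ⟨A, a1, a2, a3⟩ := ha
  obtain ⟨B, b1, b2, b3⟩ := hb
  have hone : (k : ℤ) • (1 : Matrix (Fin a ⊕ Fin b) (Fin a ⊕ Fin b) ℤ) =
      Matrix.fromBlocks ((k : ℤ) • 1) 0 0 ((k : ℤ) • 1) := by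
    rw [← Matrix.fromBlocks_one, Matrix.fromBlocks_smul, smul_zero, smul_zero]
  refine hasW_of_type (ι := Fin a ⊕ Fin b) (by simp) (Matrix.fromBlocks A 0 0 B) ?_ ?_ ?_
  · rintro (i | i) (j | j)
    · exact a1 i j
    · exact Or.inl rfl
    · exact Or.inl rfl
    · exact b1 i j
  · rw [Matrix.fromBlocks_transpose, Matrix.fromBlocks_multiply, hone]
    simp only [Matrix.transpose_zero, Matrix.zero_mul, Matrix.mul_zero, zero_add, add_zero, a2, b2]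
  · rw [Matrix.fromBlocks_transpose, Matrix.fromBlocks_multiply, hone]
    simp only [Matrix.transpose_zero, Matrix.zero_mul, Matrix.mul_zero, zero_add, add_zero, a3, b3]

theorem hasW_zero (k : ℕ) : HasW 0 k :=
  ⟨0, fun i => i.elim0, by ext i; exact i.elim0, by ext i; exact i.elim0⟩

theorem HasW.mul {a k : ℕ} (ha : HasW a k) (x : ℕ) : HasW (a * x) k := by
  induction x with
  | zero => exact hasW_zero k
  | succ x ih =>
    rw [Nat.mul_succ]
    exact ih.add ha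

theorem pq_unit (w : ℕ) (hw : w = 0 ∨ w = 1) : PQ 1 1 w := by
  refine ⟨Unit, inferInstance, inferInstance, (w : ℤ) • 1, 1, by simp, ?_, ?_, ?_, ?_, ?_, ?_, ?_, ?_⟩
  · intro i j
    rcases hw with h | h <;> rw [h] <;> simp
  · intro i j
    simp
  all_goals rcases hw with rfl | rfl <;> simp

/-- all weights in the orders `2 ^ s` -/
theorem hasW_two_pow {s k : ℕ} (hk : k ≤ 2 ^ s) : HasW (2 ^ s) k := by
  rcases Nat.lt_or_ge k (2 ^ s) with h | h
  · have := (steps (pq_unit 0 (Or.inl rfl)) s k h).hasW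
    rwa [mul_one, zero_add] at this
  · have h0 : 0 < 2 ^ s := by positivity
    have h1 : 1 + (2 ^ s - 1) = k := by omega
    have := (steps (pq_unit 1 (Or.inr rfl)) s (2 ^ s - 1) (by omega)).hasW
    rwa [mul_one, h1] at this

theorem frob {r u s : ℕ} (hu : Odd u) (hs : 2 ≤ s) (h : u * 2 ^ s ≤ 4 * r) :
    ∃ x y : ℕ, 4 * r = 4 * u * x + 2 ^ s * y := by
  obtain ⟨j, rfl⟩ := Nat.exists_eq_add_of_le hs
  have hq0 : 0 < 2 ^ j := by positivity
  have e4 : 2 ^ (2 + j) = 4 * 2 ^ j := by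
    rw [pow_add]
    norm_num
  rw [e4] at h ⊢
  have hc : Nat.Coprime u (2 ^ j) := Nat.Coprime.pow_right _ (Nat.coprime_two_right.2 hu)
  obtain ⟨v, hv⟩ : ∃ v : ℕ, u * v ≡ 1 [MOD 2 ^ j] := by
    rcases Nat.lt_or_ge 1 (2 ^ j) with h1 | h1
    · obtain ⟨v, -, hv⟩ := Nat.exists_mul_mod_eq_one_of_coprime hc h1
      exact ⟨v, by rw [Nat.ModEq, hv, Nat.mod_eq_of_lt h1]⟩
    · have hQ1 : 2 ^ j = 1 := by omega
      exact ⟨0, by rw [hQ1]; exact Nat.modEq_one⟩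
  have hlt : r * v % 2 ^ j < 2 ^ j := Nat.mod_lt _ hq0
  have hcong : u * (r * v % 2 ^ j) ≡ r [MOD 2 ^ j] := by
    have h1 : u * (r * v % 2 ^ j) ≡ u * (r * v) [MOD 2 ^ j] := (Nat.mod_modEq _ _).mul_left u
    have h2 : u * (r * v) = r * (u * v) := by ring
    have h3 : r * (u * v) ≡ r * 1 [MOD 2 ^ j] := hv.mul_left r
    rw [mul_one] at h3
    rw [h2] at h1
    exact h1.trans h3
  have hle : u * (r * v % 2 ^ j) ≤ r := by
    have h1 : u * (r * v % 2 ^ j) ≤ u * 2 ^ j := Nat.mul_le_mul_left u hlt.le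
    have h2 : u * (4 * 2 ^ j) = 4 * (u * 2 ^ j) := by ring
    omega
  obtain ⟨y, hy⟩ := (Nat.modEq_iff_dvd' hle).1 hcong
  refine ⟨r * v % 2 ^ j, y, ?_⟩
  have h3 : r = u * (r * v % 2 ^ j) + 2 ^ j * y := by omega
  calc 4 * r = 4 * (u * (r * v % 2 ^ j) + 2 ^ j * y) := by rw [← h3]
    _ = _ := by ring

/-- **every weight `k` with `2 k ^ 7 ≤ n` in every order `n` divisible by four** -/
theorem small_weights (n k : ℕ) (h4 : 4 ∣ n) (hn : 2 * k ^ 7 ≤ n) : HasW n k := by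
  rcases (by omega : k = 0 ∨ k = 1 ∨ 2 ≤ k) with h | h | h
  · subst h
    refine ⟨0, fun i j => Or.inl rfl, ?_, ?_⟩ <;> simp
  · subst h
    refine ⟨1, fun i j => ?_, ?_, ?_⟩
    · rw [Matrix.one_apply]
      split_ifs
      · exact Or.inr (Or.inl rfl)
      · exact Or.inl rfl
    · simp
    · simp
  · obtain ⟨t, h1, h2, h3⟩ := wei_six k (by omega)
    obtain ⟨r, rfl⟩ := h4
    have hk0 : k ≠ 0 := by omega
    have hs1 : k < 2 ^ (Nat.log 2 k + 1) := Nat.lt_pow_succ_log_self (by norm_num) k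
    have hs2 : 2 ^ Nat.log 2 k ≤ k := Nat.pow_log_le_self 2 hk0
    have hs3 : 1 ≤ Nat.log 2 k := Nat.log_pos (by norm_num) h
    have hb : t * 2 ^ (Nat.log 2 k + 1) ≤ 4 * r := by
      refine le_trans ?_ hn
      calc t * 2 ^ (Nat.log 2 k + 1) ≤ k ^ 6 * (2 * k) := by
            refine Nat.mul_le_mul h2 ?_
            rw [pow_succ]
            omega
        _ = 2 * k ^ 7 := by ring
    obtain ⟨x, y, hxy⟩ := frob h1 (by omega) hb
    rw [hxy]
    exact ((Wei.hasW (by omega) h3).mul x).add ((hasW_two_pow hs1.le).mul y)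

end Pool.Agent.H182.WL
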